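import Pool.Agent.SKP.StA
import Pool.Agent.Tvo.Gen

/-!
# SKP, module Apx: general position of perturbed vectors
-/

set_option autoImplicit false

namespace Pool.Agent.SKP

open Pool.Agent.Tvb (Pos Zero Base Good hat TP)

section

variable {ι L : Type} [Fintype ι] [DecidableEq ι] [Fintype L]

private theorem Apx_mat (x : ι → L → ι → ℝ) (π : ι → L) (s : ℝ) :
    Matrix.of (fun a => x a (π a) + s • (Pi.single a 1 : ι → ℝ)) =
      Matrix.scalar ι s - (-Matrix.of (fun a => x a (π a))) := by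
  ext a c
  rw [sub_neg_eq_add, Matrix.add_apply, Matrix.of_apply, Matrix.of_apply]
  simp only [Pi.add_apply, Pi.smul_apply, smul_eq_mul, Matrix.scalar_apply,
    Matrix.diagonal_apply]
  by_cases hj : a = c
  · subst hj
    rw [Pi.single_eq_same, if_pos rfl]
    ring
  · rw [Pi.single_eq_of_ne (Ne.symm hj), if_neg hj]
    ring

/-- The linear independence after a small shift. -/
private theorem Apx_shift (x : ι → L → ι → ℝ) {δ : ℝ} (hδ : 0 < δ) :
    ∃ s : ℝ, 0 < s ∧ s < δ ∧
      ∀ π : ι → L, LinearIndependent ℝ (fun a => x a (π a) + s • (Pi.single a 1 : ι → ℝ)) := by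
  classical
  let Q : Polynomial ℝ := ∏ π : ι → L, (-Matrix.of (fun a => x a (π a))).charpoly
  have hQ : Q ≠ 0 := Finset.prod_ne_zero_iff.2 fun π _ => (Matrix.charpoly_monic _).ne_zero
  obtain ⟨s, hs, hsn⟩ := (Set.Ioo_infinite hδ).exists_notMem_finset Q.roots.toFinset
  refine ⟨s, hs.1, hs.2, fun π => ?_⟩
  have hs0 : (-Matrix.of (fun a => x a (π a))).charpoly.eval s ≠ 0 := by
    intro h0
    refine hsn ?_
    rw [Multiset.mem_toFinset, Polynomial.mem_roots hQ, Polynomial.IsRoot, Polynomial.eval_prod]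
    exact Finset.prod_eq_zero (Finset.mem_univ π) h0
  rw [Matrix.eval_charpoly, ← Apx_mat x π s] at hs0
  have h1 : IsUnit (Matrix.of (fun a => x a (π a) + s • (Pi.single a 1 : ι → ℝ))) := by
    rw [Matrix.isUnit_iff_isUnit_det]
    exact isUnit_iff_ne_zero.mpr hs0
  exact Matrix.linearIndependent_rows_iff_isUnit.mpr h1

/-- A vector with nonzero coordinates in finitely many bases. -/
private theorem Apx_base {S : Type} [Finite S] (y : S → ι → ι → ℝ)
    (hy : ∀ a, LinearIndependent ℝ (y a)) (T : ι → ℝ) {δ : ℝ} (hδ : 0 < δ) :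
    ∃ ω : ι → ℝ, ‖ω - T‖ < δ ∧ ∀ a, Base ω (y a) := by
  let B : ∀ _ : S, Module.Basis ι ℝ (ι → ℝ) := fun a =>
    basisOfLinearIndependentOfCardEqFinrank' (y a) (hy a) (by simp)
  have hB : ∀ a i, B a i = y a i := fun a i => by
    simp only [B, coe_basisOfLinearIndependentOfCardEqFinrank']
  have hne : ∀ p : S × ι, (B p.1).coord p.2 ≠ 0 := by
    intro p h0
    have h1 := congrArg (fun f => f (B p.1 p.2)) h0
    simp only [Module.Basis.coord_apply, Module.Basis.repr_self, Finsupp.single_eq_same,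
      LinearMap.zero_apply] at h1
    exact one_ne_zero h1
  obtain ⟨ω, hω1, hω2⟩ := Pool.Agent.Tvo.Gen_avoid (fun p : S × ι => (B p.1).coord p.2)
    hne T hδ
  refine ⟨ω, hω1, fun a => ⟨hy a, fun i => (B a).repr ω i, ?_, ?_⟩⟩
  · have h1 := (B a).sum_repr ω
    rw [← h1]
    refine Finset.sum_congr rfl fun i _ => ?_
    rw [h1, hB]
  · intro i
    exact hω2 (a, i)

end

theorem thm_Apx : Stmt_Apx := by
  intro ι L _ _ _ x T T' δ hδ
  obtain ⟨s, hs0, hs1, hli⟩ := Apx_shift x hδ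
  let u : ι → L → ι → ℝ := fun a l => x a l + s • (Pi.single a 1 : ι → ℝ)
  have hu : ∀ π : ι → L, LinearIndependent ℝ (fun a => u a (π a)) := hli
  obtain ⟨ω, hω, hb⟩ := Apx_base (S := ι → L) (fun π a => u a (π a)) hu T hδ
  obtain ⟨v, hv, hg⟩ := Pool.Agent.Tvo.oGen ι ω (ι → L) (fun _ v => v)
    (fun π a => u a (π a)) (fun _ => ⟨fun _ _ => rfl, fun _ _ => rfl⟩)
    (fun _ => Function.injective_id) hb (-T') δ hδ
  refine ⟨u, ω, -v, ?_, hω, ?_, ?_⟩
  · intro a l
    have h1 : ‖(Pi.single a 1 : ι → ℝ)‖ ≤ 1 := by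
      rw [pi_norm_le_iff_of_nonneg zero_le_one]
      intro i
      by_cases hi : i = a
      · rw [hi, Pi.single_eq_same]
        simp
      · rw [Pi.single_eq_of_ne hi]
        simp
    have h2 : u a l - x a l = s • (Pi.single a 1 : ι → ℝ) := add_sub_cancel_left _ _
    rw [h2, norm_smul, Real.norm_eq_abs, abs_of_pos hs0]
    calc s * ‖(Pi.single a 1 : ι → ℝ)‖ ≤ s * 1 := mul_le_mul_of_nonneg_left h1 hs0.le
      _ < δ := by rw [mul_one]; exact hs1
  · have h3 : -v - T' = -(v - -T') := by abel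
    rw [h3, norm_neg]
    exact hv
  · intro π
    rw [neg_neg]
    exact hg π

end Pool.Agent.SKP
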