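import Pool.Agent.SKP.StC

/-!
# Sierksma's bound in the plane (MP_001fdd_co), module Bdy: extreme centers
-/

set_option autoImplicit false

namespace Pool.Agent.SKP

open scoped Classical

lemma Bdy_seg {n : ℕ} (s : Fin n → Bool) (h : ∀ i i' : Fin n, i ≤ i' → s i' = true → s i = true) :
    ∃ j : ℕ, ∀ i : Fin n, s i = decide ((i : ℕ) < j) := by
  by_cases hf : ∃ m : ℕ, ∃ hm : m < n, s ⟨m, hm⟩ = false
  · refine ⟨Nat.find hf, fun i => ?_⟩
    obtain ⟨hm, hs⟩ := Nat.find_spec hf
    by_cases hi : (i : ℕ) < Nat.find hf
    · rw [decide_eq_true hi]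
      by_contra hc
      exact Nat.find_min hf hi ⟨i.2, by simpa using hc⟩
    · rw [decide_eq_false hi]
      by_contra hc
      have hc' : s i = true := by simpa using hc
      have := h ⟨Nat.find hf, hm⟩ i (by rw [Fin.le_def]; push Not at hi; exact hi) hc'
      rw [hs] at this
      exact Bool.false_ne_true this
  · push Not at hf
    refine ⟨n, fun i => ?_⟩
    rw [decide_eq_true i.2]
    simpa using hf i.1 i.2

lemma Bdy_seg' {n : ℕ} (s : Fin n → Bool) (h : ∀ i i' : Fin n, i ≤ i' → s i = true → s i' = true) :
    ∃ j : ℕ, ∀ i : Fin n, s i = decide (j ≤ (i : ℕ)) := by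
  obtain ⟨j, hj⟩ := Bdy_seg (fun i => !(s i)) (by
    intro i i' hi h1
    by_contra h2
    have h3 : s i = true := by simpa using h2
    have h4 := h i i' hi h3
    simp [h4] at h1)
  refine ⟨j, fun i => ?_⟩
  have := hj i
  by_cases hi : (i : ℕ) < j
  · rw [decide_eq_true hi] at this
    rw [decide_eq_false (by omega)]
    simpa using this
  · rw [decide_eq_false hi] at this
    rw [decide_eq_true (by omega)]
    simpa using this

lemma Bdy_mono {n : ℕ} (P : Fin n → E2) (c : E2) {i i' : Fin n} (h : i ≤ i') :
    ky P c (od P c i) ≤ ky P c (od P c i') :=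
  Tuple.monotone_sort (ky P c) h

/-- C6 -/
theorem thm_Bdy : Stmt_Bdy := by
  intro n P c
  refine ⟨fun h i => ?_, fun h i => ?_, fun h => ?_, fun h => ?_⟩
  · exact decide_eq_true (h _)
  · exact decide_eq_false (not_lt.2 (h _))
  · have key : ∀ a, (c 1 < P a 1 ↔ ky P c a < 0) := by
      intro a
      unfold ky
      rw [neg_lt_zero]
      constructor
      · intro h1
        exact div_pos (by linarith [h a]) (by linarith)
      · intro h1
        by_contra h2
        push Not at h2
        exact absurd h1 (not_lt.2 (div_nonpos_of_nonneg_of_nonpos (by linarith [h a])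
          (by linarith)))
    apply Bdy_seg
    intro i i' hi h1
    have h2 : c 1 < P (od P c i') 1 := of_decide_eq_true h1
    apply decide_eq_true
    rw [key] at h2 ⊢
    exact lt_of_le_of_lt (Bdy_mono P c hi) h2
  · have key : ∀ a, (c 1 < P a 1 ↔ 0 < ky P c a) := by
      intro a
      unfold ky
      rw [Left.neg_pos_iff]
      constructor
      · intro h1
        exact div_neg_of_neg_of_pos (by linarith [h a]) (by linarith)
      · intro h1
        by_contra h2
        push Not at h2
        exact absurd h1 (not_lt.2 (div_nonneg_of_nonpos (by linarith [h a])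
          (by linarith)))
    apply Bdy_seg'
    intro i i' hi h1
    have h2 : c 1 < P (od P c i) 1 := of_decide_eq_true h1
    apply decide_eq_true
    rw [key] at h2 ⊢
    exact lt_of_lt_of_le h2 (Bdy_mono P c hi)

end Pool.Agent.SKP
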