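import Pool.Agent.SKP.StS

/-!
# SKP, module ClA: clusters if one colour is rare
-/

set_option autoImplicit false

namespace Pool.Agent.SKP

open scoped Classical

theorem ClA_card {n : ℕ} (κ : Fin n → Bool) :
    (Finset.univ.filter fun a => κ a = true).card +
      (Finset.univ.filter fun a => κ a = false).card = n := by
  have h := Finset.card_filter_add_card_filter_not (s := (Finset.univ : Finset (Fin n)))
    (fun a => κ a = true)
  rw [Finset.card_univ, Fintype.card_fin] at h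
  simp only [Bool.not_eq_true] at h
  exact h

theorem ClA_add {k : ℕ} (hk : 1 ≤ k) (κ : Fin (3 * k) → Bool) : uu κ + vv κ = 1 := by
  have h1 := ClA_card κ
  have h2 : (((Finset.univ.filter fun a => κ a = true).card : ℝ) +
      ((Finset.univ.filter fun a => κ a = false).card : ℝ)) = ((3 * k : ℕ) : ℝ) := by
    exact_mod_cast h1
  have h3 : ((3 * k : ℕ) : ℝ) ≠ 0 := by
    have : 3 * k ≠ 0 := by omega
    exact_mod_cast this
  rw [uu, vv, ← add_div, h2, div_self h3]

theorem ClA_nonneg {n : ℕ} (κ : Fin n → Bool) : 0 ≤ uu κ ∧ 0 ≤ vv κ := by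
  constructor
  · rw [uu]; positivity
  · rw [vv]; positivity

theorem ClA_ss {n : ℕ} (w : Fin n → Fin 3) (κ : Fin n → Bool) (i : Fin 3) :
    0 ≤ ss w κ i ∧ ss w κ i ≤ 1 := by
  have h1 : (cN w κ i : ℝ) ≤ ((sA w κ i).card : ℝ) * (sB w κ i).card := by
    rw [cN]
    have h := Finset.card_filter_le (sA w κ i ×ˢ sB w κ i) fun q => q.1 < q.2
    rw [Finset.card_product] at h
    exact_mod_cast h
  constructor
  · rw [ss]; positivity
  · rw [ss]
    exact div_le_one_of_le₀ h1 (by positivity)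

theorem ClA_f {u v d : ℝ} (hu : 0 ≤ u) (hv : 0 ≤ v) (h : u + v = 1) (hd : -1 ≤ d) :
    1 - 2 * v ≤ fA u v d := by
  have h1 : 0 ≤ u ^ 2 * v * (1 + d) := mul_nonneg (mul_nonneg (sq_nonneg u) hv) (by linarith)
  have h2 : u = 1 - v := by linarith
  rw [fA]
  have h3 : 1 - 2 * v ≤ u ^ 3 + u * v := by
    subst h2
    nlinarith [mul_nonneg hu hv, mul_nonneg (mul_nonneg hu hv) hv, sq_nonneg v]
  linarith

theorem ClA_g {u v d : ℝ} (hu : 0 ≤ u) (hv : 0 ≤ v) (h : u + v = 1) (hd : d ≤ 1) :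
    1 - 2 * u ≤ fB u v d := by
  have h1 := ClA_f (u := v) (v := u) (d := -d) hv hu (by linarith) (by linarith)
  have h2 : fB u v d = fA v u (-d) := by
    rw [fA, fB]
    ring
  rw [h2]
  exact h1

theorem ClA_mem {n : ℕ} (x : Fin 3 → Fin n) (i : Fin 3) :
    x i ∈ ({x 0, x 1, x 2} : Finset (Fin n)) := by
  fin_cases i <;> simp

theorem ClA_card3 {n : ℕ} (w : Fin n → Fin 3) (x : Fin 3 → Fin n) (h : ∀ i, w (x i) = i) :
    ({x 0, x 1, x 2} : Finset (Fin n)).card = 3 := by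
  have h1 : ∀ i j, i ≠ j → x i ≠ x j := by
    intro i j hij he
    have := congrArg w he
    rw [h, h] at this
    exact hij this
  rw [Finset.card_eq_three]
  exact ⟨x 0, x 1, x 2, h1 0 1 (by decide), h1 0 2 (by decide), h1 1 2 (by decide), rfl⟩

theorem ClA_i1 (i : Fin 3) : i + 1 ≠ i := by
  fin_cases i <;> decide

theorem ClA_i2 (i : Fin 3) : i + 2 ≠ i := by
  fin_cases i <;> decide

theorem ClA_i3 (i : Fin 3) : i + 1 ≠ i + 2 := by
  fin_cases i <;> decide

theorem ClA_A {n : ℕ} (w : Fin n → Fin 3) (κ : Fin n → Bool) (x : Fin 3 → Fin n)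
    (h : ∀ i, x i ∈ sA w κ i) : Gs w κ {x 0, x 1, x 2} := by
  have hw : ∀ i, w (x i) = i := fun i => by
    have := h i
    rw [sA, Finset.mem_filter] at this
    exact this.2.1
  have hk : ∀ i, κ (x i) = true := fun i => by
    have := h i
    rw [sA, Finset.mem_filter] at this
    exact this.2.2
  refine ⟨ClA_card3 w x hw, fun i r => ⟨⟨x (i + 2), ?_⟩, ⟨x (i + 1), ?_⟩⟩⟩
  · rw [Finset.mem_inter]
    refine ⟨ClA_mem x _, ?_⟩
    rw [KK, Finset.mem_filter]
    exact ⟨Finset.mem_univ _, Or.inr (Or.inr ⟨hw _, hk _⟩)⟩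
  · rw [Finset.mem_sdiff]
    refine ⟨ClA_mem x _, ?_⟩
    rw [KK, Finset.mem_filter, hw, hk]
    rintro ⟨_, ⟨h1, _⟩ | ⟨_, h1⟩ | ⟨h1, _⟩⟩
    · exact ClA_i1 i h1
    · exact absurd h1 (by decide)
    · exact ClA_i3 i h1

theorem ClA_B {n : ℕ} (w : Fin n → Fin 3) (κ : Fin n → Bool) (x : Fin 3 → Fin n)
    (h : ∀ i, x i ∈ sB w κ i) : Gs w κ {x 0, x 1, x 2} := by
  have hw : ∀ i, w (x i) = i := fun i => by
    have := h i
    rw [sB, Finset.mem_filter] at this
    exact this.2.1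
  have hk : ∀ i, κ (x i) = false := fun i => by
    have := h i
    rw [sB, Finset.mem_filter] at this
    exact this.2.2
  refine ⟨ClA_card3 w x hw, fun i r => ⟨⟨x (i + 1), ?_⟩, ⟨x (i + 2), ?_⟩⟩⟩
  · rw [Finset.mem_inter]
    refine ⟨ClA_mem x _, ?_⟩
    rw [KK, Finset.mem_filter]
    exact ⟨Finset.mem_univ _, Or.inr (Or.inl ⟨hw _, hk _⟩)⟩
  · rw [Finset.mem_sdiff]
    refine ⟨ClA_mem x _, ?_⟩
    rw [KK, Finset.mem_filter, hw, hk]
    rintro ⟨_, ⟨h1, _⟩ | ⟨h1, _⟩ | ⟨_, h1⟩⟩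
    · exact ClA_i2 i h1
    · exact ClA_i3 i h1.symm
    · exact absurd h1 (by decide)

theorem thm_ClA : Stmt_ClA := by
  intro k o w κ η β hk hB hβ ho
  obtain ⟨hu, hv⟩ := ClA_nonneg κ
  have huv := ClA_add hk κ
  have hk0 : (0 : ℝ) ≤ k := Nat.cast_nonneg k
  rcases hβ with hβ | hβ
  · refine ⟨sA w κ, ?_, ?_, ClA_A w κ⟩
    · intro i j hij
      rw [Finset.disjoint_left]
      intro a ha hb
      rw [sA, Finset.mem_filter] at ha hb
      exact hij (ha.2.1.symm.trans hb.2.1)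
    · intro i
      have h1 := (abs_le.1 (hB i).1).1
      have h2 : -1 ≤ ss w κ (i + 1) - ss w κ (i + 2) := by
        have := (ClA_ss w κ (i + 1)).1
        have := (ClA_ss w κ (i + 2)).2
        linarith
      have h3 := ClA_f hu hv huv h2
      have h4 : (k : ℝ) * (1 - 2 * β) ≤
          k * fA (uu κ) (vv κ) (ss w κ (i + 1) - ss w κ (i + 2)) :=
        mul_le_mul_of_nonneg_left (by linarith) hk0
      have h5 : (k : ℝ) ≤ ((sA w κ i).card : ℝ) + o := by nlinarith
      exact_mod_cast h5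
  · refine ⟨sB w κ, ?_, ?_, ClA_B w κ⟩
    · intro i j hij
      rw [Finset.disjoint_left]
      intro a ha hb
      rw [sB, Finset.mem_filter] at ha hb
      exact hij (ha.2.1.symm.trans hb.2.1)
    · intro i
      have h1 := (abs_le.1 (hB i).2).1
      have h2 : ss w κ (i + 1) - ss w κ (i + 2) ≤ 1 := by
        have := (ClA_ss w κ (i + 1)).2
        have := (ClA_ss w κ (i + 2)).1
        linarith
      have h3 := ClA_g hu hv huv h2
      have h4 : (k : ℝ) * (1 - 2 * β) ≤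
          k * fB (uu κ) (vv κ) (ss w κ (i + 1) - ss w κ (i + 2)) :=
        mul_le_mul_of_nonneg_left (by linarith) hk0
      have h5 : (k : ℝ) ≤ ((sB w κ i).card : ℝ) + o := by nlinarith
      exact_mod_cast h5

end Pool.Agent.SKP
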