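import Pool.Agent.SKP.StS

/-!
# Clusters from a nearly tight half plane
-/

set_option autoImplicit false

namespace Pool.Agent.SKP

open scoped Classical
open Finset

section

variable {n : ℕ}

theorem ClB_mon (S : Finset (Fin n)) (p : ℕ → Prop) [DecidablePred p]
    [DecidablePred fun a : Fin n => p a] :
    (((do let a ← S; pure (a : ℕ)) : Finset ℕ).filter p).card =
      (S.filter fun a : Fin n => p a).card := by
  rw [← card_image_of_injective (S.filter fun a : Fin n => p a) Fin.val_injective]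
  congr 1
  ext y
  simp only [mem_filter, mem_image, Finset.bind_def, Finset.pure_def, Finset.mem_sup,
    mem_singleton]
  constructor
  · rintro ⟨⟨a, ha, rfl⟩, h⟩
    exact ⟨a, ⟨ha, h⟩, rfl⟩
  · rintro ⟨a, ⟨ha, h⟩, rfl⟩
    exact ⟨⟨a, ha, rfl⟩, h⟩

theorem ClB_ss_le (w : Fin n → Fin 3) (κ : Fin n → Bool) (i : Fin 3) : ss w κ i ≤ 1 := by
  unfold ss cN
  have h : (((sA w κ i ×ˢ sB w κ i).filter fun q => q.1 < q.2).card : ℝ) ≤
      ((sA w κ i).card : ℝ) * (sB w κ i).card := by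
    have := card_filter_le (sA w κ i ×ˢ sB w κ i) fun q => q.1 < q.2
    rw [card_product] at this
    exact_mod_cast this
  exact div_le_one_of_le₀ h (by positivity)

theorem ClB_ss_nonneg (w : Fin n → Fin 3) (κ : Fin n → Bool) (i : Fin 3) : 0 ≤ ss w κ i := by
  unfold ss
  positivity

theorem ClB_inv (w : Fin n → Fin 3) (κ : Fin n → Bool) (i : Fin 3)
    (hA : (sA w κ i).Nonempty) (hB : (sB w κ i).Nonempty) :
    (((sA w κ i ×ˢ sB w κ i).filter fun q => q.2 < q.1).card : ℝ) =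
      (1 - ss w κ i) * ((sA w κ i).card * (sB w κ i).card) := by
  have h1 : (sA w κ i ×ˢ sB w κ i).filter (fun q => q.2 < q.1) =
      (sA w κ i ×ˢ sB w κ i).filter (fun q => ¬ q.1 < q.2) := by
    ext q
    rw [mem_filter, mem_filter, mem_product]
    constructor
    · rintro ⟨h, h'⟩
      exact ⟨h, not_lt.2 h'.le⟩
    · rintro ⟨h, h'⟩
      refine ⟨h, lt_of_le_of_ne (not_lt.1 h') ?_⟩
      intro heq
      have ha := (mem_filter.1 h.1).2.2
      have hb := (mem_filter.1 h.2).2.2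
      rw [heq, ha] at hb
      exact Bool.noConfusion hb
  have h2 := card_filter_add_card_filter_not (s := sA w κ i ×ˢ sB w κ i) (fun q => q.1 < q.2)
  rw [← h1, card_product] at h2
  have h3 : ((cN w κ i : ℕ) : ℝ) +
      (((sA w κ i ×ˢ sB w κ i).filter fun q => q.2 < q.1).card : ℝ) =
      (sA w κ i).card * (sB w κ i).card := by
    unfold cN
    exact_mod_cast h2
  have h4 : (0 : ℝ) < (sA w κ i).card * (sB w κ i).card := by
    have e1 : (0 : ℝ) < (sA w κ i).card := by exact_mod_cast hA.card_pos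
    have e2 : (0 : ℝ) < (sB w κ i).card := by exact_mod_cast hB.card_pos
    positivity
  have h5 : ss w κ i * ((sA w κ i).card * (sB w κ i).card) = cN w κ i := by
    unfold ss
    exact div_mul_cancel₀ _ h4.ne'
  rw [sub_mul, one_mul, h5]
  linarith

theorem ClB_uv {k : ℕ} (hk : 1 ≤ k) (κ : Fin (3 * k) → Bool) : uu κ + vv κ = 1 := by
  unfold uu vv
  rw [← add_div, div_eq_one_iff_eq (by positivity)]
  have h1 := card_filter_add_card_filter_not (s := (univ : Finset (Fin (3 * k))))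
    (fun a => κ a = true)
  have h2 : (univ : Finset (Fin (3 * k))).filter (fun a => ¬ κ a = true) =
      univ.filter (fun a => κ a = false) := by
    ext a
    simp
  rw [h2, card_univ, Fintype.card_fin] at h1
  exact_mod_cast h1

theorem ClB_uu_nonneg (κ : Fin n → Bool) : 0 ≤ uu κ := by
  unfold uu
  positivity

theorem ClB_vv_nonneg (κ : Fin n → Bool) : 0 ≤ vv κ := by
  unfold vv
  positivity

/-- the clusters -/
noncomputable def ClB_D (w : Fin n → Fin 3) (κ : Fin n → Bool) (ρ : Fin 3 → ℕ) (j : Fin 3) :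
    Finset (Fin n) :=
  ((sA w κ j).filter fun x => (x : ℕ) < ρ j) ∪
    ((sB w κ (j + 2)).filter fun y => ρ (j + 2) ≤ (y : ℕ))

theorem ClB_mem (w : Fin n → Fin 3) (κ : Fin n → Bool) (ρ : Fin 3 → ℕ) (j : Fin 3) (a : Fin n) :
    a ∈ ClB_D w κ ρ j ↔ (w a = j ∧ κ a = true ∧ (a : ℕ) < ρ j) ∨
      (w a = j + 2 ∧ κ a = false ∧ ρ (j + 2) ≤ (a : ℕ)) := by
  unfold ClB_D sA sB
  simp only [mem_union, mem_filter, mem_univ, true_and, and_assoc]

theorem ClB_disj (w : Fin n → Fin 3) (κ : Fin n → Bool) (ρ : Fin 3 → ℕ) (j j' : Fin 3)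
    (h : j ≠ j') : Disjoint (ClB_D w κ ρ j) (ClB_D w κ ρ j') := by
  rw [disjoint_left]
  intro a ha hb
  rw [ClB_mem] at ha hb
  rcases ha with ⟨h1, h2, -⟩ | ⟨h1, h2, -⟩ <;> rcases hb with ⟨h3, h4, -⟩ | ⟨h3, h4, -⟩
  · exact h (h1.symm.trans h3)
  · rw [h2] at h4; exact Bool.noConfusion h4
  · rw [h2] at h4; exact Bool.noConfusion h4
  · exact h (add_right_cancel (h1.symm.trans h3))

theorem ClB_good (w : Fin n → Fin 3) (κ : Fin n → Bool) (ρ : Fin 3 → ℕ) (x : Fin 3 → Fin n)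
    (hx : ∀ j, x j ∈ ClB_D w κ ρ j) : Gs w κ {x 0, x 1, x 2} := by
  have hne : ∀ j j', j ≠ j' → x j ≠ x j' := by
    intro j j' h heq
    have h1 := disjoint_left.1 (ClB_disj w κ ρ j j' h) (hx j)
    rw [heq] at h1
    exact h1 (hx j')
  have hmem : ∀ j, x j ∈ ({x 0, x 1, x 2} : Finset (Fin n)) := by
    intro j
    fin_cases j <;> simp
  have d1 : ∀ i : Fin 3, i + 2 + 2 = i + 1 := by decide
  have d2 : ∀ i : Fin 3, i + 1 + 2 = i := by decide
  have d3 : ∀ i : Fin 3, i ≠ i + 1 ∧ i ≠ i + 2 ∧ i + 1 ≠ i + 2 := by decide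
  refine ⟨card_eq_three.2 ⟨x 0, x 1, x 2, hne 0 1 (by decide), hne 0 2 (by decide),
    hne 1 2 (by decide), rfl⟩, fun i r => ⟨⟨x (i + 2), ?_⟩, ?_⟩⟩
  · refine mem_inter.2 ⟨hmem _, ?_⟩
    unfold KK
    rw [mem_filter]
    refine ⟨mem_univ _, ?_⟩
    rcases (ClB_mem w κ ρ _ _).1 (hx (i + 2)) with ⟨h1, h2, -⟩ | ⟨h1, h2, -⟩
    · exact Or.inr (Or.inr ⟨h1, h2⟩)
    · rw [d1] at h1
      exact Or.inr (Or.inl ⟨h1, h2⟩)
  · obtain ⟨e1, e2, e3⟩ := d3 i
    rcases le_total (ρ i) r with hr | hr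
    · refine ⟨x i, mem_sdiff.2 ⟨hmem _, ?_⟩⟩
      unfold KK
      rw [mem_filter]
      rintro ⟨-, h⟩
      rcases (ClB_mem w κ ρ _ _).1 (hx i) with ⟨h1, h2, h3⟩ | ⟨h1, h2, h3⟩
      · rcases h with ⟨-, ⟨-, h5⟩ | ⟨h5, -⟩⟩ | ⟨h4, -⟩ | ⟨h4, -⟩
        · omega
        · rw [h2] at h5; exact Bool.noConfusion h5
        · exact e1 (h1.symm.trans h4)
        · exact e2 (h1.symm.trans h4)
      · rcases h with ⟨h4, -⟩ | ⟨h4, -⟩ | ⟨-, h5⟩
        · exact e2 (h4.symm.trans h1)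
        · exact e3 (h4.symm.trans h1)
        · rw [h2] at h5; exact Bool.noConfusion h5
    · refine ⟨x (i + 1), mem_sdiff.2 ⟨hmem _, ?_⟩⟩
      unfold KK
      rw [mem_filter]
      rintro ⟨-, h⟩
      rcases (ClB_mem w κ ρ _ _).1 (hx (i + 1)) with ⟨h1, h2, h3⟩ | ⟨h1, h2, h3⟩
      · rcases h with ⟨h4, -⟩ | ⟨-, h5⟩ | ⟨h4, -⟩
        · exact e1 (h4.symm.trans h1)
        · rw [h2] at h5; exact Bool.noConfusion h5
        · exact e3 (h1.symm.trans h4)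
      · rw [d2] at h1 h3
        rcases h with ⟨-, ⟨h5, -⟩ | ⟨-, h5⟩⟩ | ⟨h4, -⟩ | ⟨h4, -⟩
        · rw [h2] at h5; exact Bool.noConfusion h5
        · omega
        · exact e1 (h1.symm.trans h4)
        · exact e2 (h1.symm.trans h4)

theorem ClB_card (w : Fin n → Fin 3) (κ : Fin n → Bool) (ρ : Fin 3 → ℕ) (j : Fin 3) :
    ((ClB_D w κ ρ j).card : ℝ) =
      ((sA w κ j).card - ((sA w κ j).filter fun x : Fin n => ρ j ≤ (x : ℕ)).card) +
      ((sB w κ (j + 2)).card -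
        ((sB w κ (j + 2)).filter fun y : Fin n => (y : ℕ) < ρ (j + 2)).card) := by
  unfold ClB_D
  rw [card_union_of_disjoint]
  · have h1 := card_filter_add_card_filter_not (s := sA w κ j) (fun x => (x : ℕ) < ρ j)
    have h2 := card_filter_add_card_filter_not (s := sB w κ (j + 2))
      (fun y => (y : ℕ) < ρ (j + 2))
    simp only [not_lt] at h1 h2
    have h3 : (((sA w κ j).filter fun x : Fin n => (x : ℕ) < ρ j).card : ℝ) +
        ((sA w κ j).filter fun x : Fin n => ρ j ≤ (x : ℕ)).card = (sA w κ j).card := by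
      exact_mod_cast h1
    have h4 : (((sB w κ (j + 2)).filter fun y : Fin n => (y : ℕ) < ρ (j + 2)).card : ℝ) +
        ((sB w κ (j + 2)).filter fun y : Fin n => ρ (j + 2) ≤ (y : ℕ)).card =
        (sB w κ (j + 2)).card := by exact_mod_cast h2
    push_cast
    linarith
  · rw [disjoint_left]
    intro a ha hb
    have h1 := (mem_filter.1 (mem_filter.1 ha).1).2.2
    have h2 := (mem_filter.1 (mem_filter.1 hb).1).2.2
    rw [h1] at h2
    exact Bool.noConfusion h2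

theorem ClB_alg1 (u v s0 s1 s2 δ : ℝ) (huv : u + v = 1) (hu0 : 0 ≤ u) (hv0 : 0 ≤ v)
    (h0 : s0 ≤ 1) (h1 : s1 ≤ 1) (h2 : s2 ≤ 1) (hδ : 1 - s1 ≤ 2 * δ) :
    1 - δ / 2 ≤ (u ^ 3 + u * v + u ^ 2 * v * (1 + (s1 - s2))) +
      (v ^ 3 + u * v + u * v ^ 2 * (1 - (s0 - s1))) := by
  have hv' : v = 1 - u := by linarith
  have f2 : 0 ≤ u ^ 2 * v * (1 - s2) := mul_nonneg (by positivity) (by linarith)
  have f3 : 0 ≤ u * v ^ 2 * (1 - s0) := mul_nonneg (by positivity) (by linarith)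
  have f5 : u * v ≤ 1 / 4 := by rw [hv']; nlinarith [sq_nonneg (2 * u - 1)]
  have f6 : u * v * (1 - s1) ≤ 1 / 4 * (2 * δ) :=
    mul_le_mul f5 hδ (by linarith) (by norm_num)
  have key : (u ^ 3 + u * v + u ^ 2 * v * (1 + (s1 - s2))) +
      (v ^ 3 + u * v + u * v ^ 2 * (1 - (s0 - s1))) =
      1 - u * v * (1 - s1) + u ^ 2 * v * (1 - s2) + u * v ^ 2 * (1 - s0) := by
    rw [hv']
    ring
  rw [key]
  linarith

theorem ClB_alg2 (a b x y c : ℝ) (hx : x ≤ c * a + 1) (hy : y ≤ c * b) :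
    (1 - c) * (a + b) - 1 ≤ (a - x) + (b - y) := by
  have : (1 - c) * (a + b) - 1 = (a - (c * a + 1)) + (b - c * b) := by ring
  rw [this]
  linarith

theorem ClB_alg3 (k δ c η D o s X : ℝ) (hk : 0 ≤ k) (hδ : 0 ≤ δ) (hη : 0 ≤ η)
    (hc0 : 0 ≤ c) (hc1 : c ≤ 1) (h8 : δ / 2 + c ≤ 2 * s) (hX : k * (1 - δ / 2) - 2 * η ≤ X)
    (hD : (1 - c) * X - 1 ≤ D) (ho : 2 * s * k + 2 * η + 1 ≤ o) : k ≤ D + o := by
  have h6 : (1 - c) * (k * (1 - δ / 2) - 2 * η) ≤ (1 - c) * X :=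
    mul_le_mul_of_nonneg_left hX (by linarith)
  have h7 : c * (k * (1 - δ / 2) - 2 * η) ≤ c * k := by
    apply mul_le_mul_of_nonneg_left _ hc0
    have : 0 ≤ k * δ := mul_nonneg hk hδ
    have e : k * (1 - δ / 2) = k - k * δ / 2 := by ring
    rw [e]
    linarith
  have h9 : k * (δ / 2 + c) ≤ k * (2 * s) := mul_le_mul_of_nonneg_left h8 hk
  have e1 : (1 - c) * (k * (1 - δ / 2) - 2 * η) =
      (k * (1 - δ / 2) - 2 * η) - c * (k * (1 - δ / 2) - 2 * η) := by ring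
  have e2 : k * (1 - δ / 2) = k - k * (δ / 2) := by ring
  have e3 : k * (δ / 2 + c) = k * (δ / 2) + c * k := by ring
  have e4 : k * (2 * s) = 2 * s * k := by ring
  linarith

theorem ClB_alg4 (δ s : ℝ) (hs0 : 0 ≤ s) (hs : s ^ 2 = δ) (hδ1 : δ ≤ 1) :
    δ / 2 + √(2 * δ) ≤ 2 * s := by
  have g1 : s ≤ 1 := by
    by_contra h
    have := not_le.1 h
    nlinarith
  have h3 : √(2 * δ) ≤ 3 / 2 * s := by
    rw [Real.sqrt_le_left (by positivity)]
    nlinarith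
  nlinarith

end

theorem thm_ClB : Stmt_Slk → Stmt_Cut → Stmt_ClB := by
  intro hSlk hCut k o w κ η β θ i r hk hBal hne hβ hβu hβv hθ hθβ hKK ho
  have hk0 : (0 : ℝ) < k := by exact_mod_cast hk
  have hη : 0 ≤ η := (abs_nonneg _).trans (hBal 0).1
  have huv := ClB_uv hk κ
  set u := uu κ with hu
  set v := vv κ with hv
  have hu0 : 0 < u := lt_of_lt_of_le hβ hβu
  have hv0 : 0 < v := lt_of_lt_of_le hβ hβv
  set δ : ℝ := θ / β ^ 3 with hδ
  have hβ3 : 0 < β ^ 3 := by positivity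
  have hδ0 : 0 < δ := by positivity
  have hδ1 : δ ≤ 1 := (div_le_one hβ3).2 hθβ
  have hs0 := ClB_ss_nonneg w κ
  have hs1 := ClB_ss_le w κ
  -- the proportions
  have hA0 : ∀ j, (0 : ℝ) < (sA w κ j).card := fun j => by exact_mod_cast (hne j).1.card_pos
  have hB0 : ∀ j, (0 : ℝ) < (sB w κ j).card := fun j => by exact_mod_cast (hne j).2.card_pos
  obtain ⟨φ, hφ0, hφ⟩ : ∃ φ : ℝ, 0 ≤ φ ∧
      φ * (sA w κ i).card = ((sA w κ i).filter fun a : Fin (3 * k) => r ≤ (a : ℕ)).card :=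
    ⟨((sA w κ i).filter fun a : Fin (3 * k) => r ≤ (a : ℕ)).card / (sA w κ i).card, by positivity,
      div_mul_cancel₀ _ (hA0 i).ne'⟩
  obtain ⟨ψ, hψ0, hψ⟩ : ∃ ψ : ℝ, 0 ≤ ψ ∧
      ψ * (sB w κ i).card = ((sB w κ i).filter fun a : Fin (3 * k) => (a : ℕ) < r).card :=
    ⟨((sB w κ i).filter fun a : Fin (3 * k) => (a : ℕ) < r).card / (sB w κ i).card, by positivity,
      div_mul_cancel₀ _ (hB0 i).ne'⟩
  obtain ⟨hS1, hS2⟩ := hSlk k w κ η hk hBal hne i r φ ψ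
    (by rw [ClB_mon (sA w κ i) (fun a => r ≤ a)]; exact hφ)
    (by rw [ClB_mon (sB w κ i) (fun a => a < r)]; exact hψ)
  rw [← hu, ← hv] at hS2
  have hu3 : β ^ 3 ≤ u ^ 3 := by gcongr
  have hv3 : β ^ 3 ≤ v ^ 3 := by gcongr
  have huv2 : β ^ 3 ≤ u * v ^ 2 := by
    calc β ^ 3 = β * β ^ 2 := by ring
      _ ≤ u * v ^ 2 := by gcongr
  have hu2v : β ^ 3 ≤ u ^ 2 * v := by
    calc β ^ 3 = β ^ 2 * β := by ring
      _ ≤ u ^ 2 * v := by gcongr
  have hsum : φ * u ^ 3 + ψ * v ^ 3 + u * v ^ 2 * (1 - ss w κ (i + 2)) +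
      u ^ 2 * v * (1 - ss w κ (i + 1)) ≤ θ := by
    have h1 : (k : ℝ) * (1 + φ * u ^ 3 + ψ * v ^ 3 + u * v ^ 2 * (1 - ss w κ (i + 2)) +
        u ^ 2 * v * (1 - ss w κ (i + 1))) ≤ k * (1 + θ) := by linarith
    have h2 := le_of_mul_le_mul_left h1 hk0
    linarith
  have p1 : 0 ≤ φ * u ^ 3 := by positivity
  have p2 : 0 ≤ ψ * v ^ 3 := by positivity
  have p3 : 0 ≤ u * v ^ 2 * (1 - ss w κ (i + 2)) :=
    mul_nonneg (by positivity) (by linarith [hs1 (i + 2)])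
  have p4 : 0 ≤ u ^ 2 * v * (1 - ss w κ (i + 1)) :=
    mul_nonneg (by positivity) (by linarith [hs1 (i + 1)])
  have hle : ∀ x y : ℝ, 0 ≤ x → β ^ 3 ≤ y → y * x ≤ θ → x ≤ δ := by
    intro x y hx hy hxy
    rw [hδ, le_div_iff₀ hβ3]
    have := mul_le_mul_of_nonneg_right hy hx
    linarith
  have q1 : φ ≤ δ := hle φ (u ^ 3) hφ0 hu3 (by linarith)
  have q2 : ψ ≤ δ := hle ψ (v ^ 3) hψ0 hv3 (by linarith)
  have q3 : 1 - ss w κ (i + 2) ≤ δ := hle _ _ (by linarith [hs1 (i + 2)]) huv2 (by linarith)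
  have q4 : 1 - ss w κ (i + 1) ≤ δ := hle _ _ (by linarith [hs1 (i + 1)]) hu2v (by linarith)
  have hall : ∀ j, 1 - ss w κ j ≤ 2 * δ := by
    intro j
    have h0 : ∀ i j : Fin 3, j = i ∨ j = i + 1 ∨ j = i + 2 := by decide
    have h1 := h0 i j
    rcases h1 with h1 | h1 | h1 <;> rw [h1] <;> linarith
  have hρ : ∀ j, ∃ ρ : ℕ, (((sA w κ j).filter fun x : Fin (3 * k) => ρ ≤ (x : ℕ)).card : ℝ) ≤
      √(2 * δ) * (sA w κ j).card + 1 ∧
      (((sB w κ j).filter fun y : Fin (3 * k) => (y : ℕ) < ρ).card : ℝ) ≤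
        √(2 * δ) * (sB w κ j).card := by
    intro j
    have h0 := hCut (3 * k) (sA w κ j) (sB w κ j) δ hδ0 (by
      rw [ClB_inv w κ j (hne j).1 (hne j).2]
      have h1 := hA0 j
      have h2 := hB0 j
      exact mul_le_mul_of_nonneg_right (hall j) (by positivity))
    obtain ⟨ρ, g1, g2⟩ := h0
    rw [ClB_mon (sA w κ j) (fun a => ρ ≤ a)] at g1
    rw [ClB_mon (sB w κ j) (fun a => a < ρ)] at g2
    exact ⟨ρ, g1, g2⟩
  choose ρ hρ1 hρ2 using hρ
  have hsq : √δ ^ 2 = δ := Real.sq_sqrt hδ0.le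
  have hsq0 : 0 ≤ √δ := Real.sqrt_nonneg δ
  rcases lt_or_ge 1 (2 * δ) with hbig | hsmall
  · -- trivial case
    refine ⟨fun _ => ∅, fun _ _ _ => disjoint_empty_left _, fun _ => ?_, fun x hx =>
      absurd (hx 0) (notMem_empty _)⟩
    have h1 : (1 : ℝ) ≤ 2 * √δ := by nlinarith
    have h2 : (k : ℝ) ≤ o := by
      have h3 : (k : ℝ) ≤ 2 * √δ * k := by nlinarith
      linarith
    have h4 : k ≤ o := by exact_mod_cast h2
    omega
  · refine ⟨ClB_D w κ ρ, ClB_disj w κ ρ, fun j => ?_, fun x hx => ClB_good w κ ρ x hx⟩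
    have d1' : ∀ j : Fin 3, j + 2 + 1 = j := by decide
    have d2' : ∀ j : Fin 3, j + 2 + 2 = j + 1 := by decide
    have d1 := d1' j
    have d2 := d2' j
    have hb1 := abs_le.1 (hBal j).1
    have hb2 := abs_le.1 (hBal (j + 2)).2
    rw [d1, d2, ← hu, ← hv] at hb2
    rw [← hu, ← hv] at hb1
    unfold fA at hb1
    unfold fB at hb2
    have hc1 : √(2 * δ) ≤ 1 := by
      rw [Real.sqrt_le_left (by norm_num)]
      linarith
    have hc0 : 0 ≤ √(2 * δ) := Real.sqrt_nonneg _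
    -- the lower bound of the sum
    have hY : (k : ℝ) * (1 - δ / 2) - 2 * η ≤ (sA w κ j).card + (sB w κ (j + 2)).card := by
      have e1 := ClB_alg1 u v (ss w κ j) (ss w κ (j + 1)) (ss w κ (j + 2)) δ huv hu0.le hv0.le
        (hs1 j) (hs1 (j + 1)) (hs1 (j + 2)) (hall (j + 1))
      have e2 := mul_le_mul_of_nonneg_left e1 hk0.le
      rw [mul_add] at e2
      linarith [hb1.1, hb2.1]
    have hcard := ClB_card w κ ρ j
    have h3 := hρ1 j
    have h4 := hρ2 (j + 2)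
    have h5 : (1 - √(2 * δ)) * ((sA w κ j).card + (sB w κ (j + 2)).card) - 1 ≤
        ((ClB_D w κ ρ j).card : ℝ) := by
      rw [hcard]
      exact ClB_alg2 _ _ _ _ _ h3 h4
    have h8 := ClB_alg4 δ (√δ) hsq0 hsq hδ1
    have h10 : (k : ℝ) ≤ (ClB_D w κ ρ j).card + o :=
      ClB_alg3 k δ (√(2 * δ)) η _ o (√δ) _ hk0.le hδ0.le hη hc0 hc1 h8 hY h5 ho
    exact_mod_cast h10

end Pool.Agent.SKP
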