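import Pool.Agent.SKP.StN

/-!
# SKP, N10: from half planes to clusters (helper96)
-/

set_option autoImplicit false

namespace Pool.Agent.SKP

open scoped Classical

private theorem Clc_ip_add (ν x y : E2) : ip (ν + x) y = ip ν y + ip x y := by
  simp only [ip, PiLp.add_apply]
  ring

private theorem Clc_ip_smul (a : ℝ) (ν y : E2) : ip (a • ν) y = a * ip ν y := by
  simp only [ip, PiLp.smul_apply, smul_eq_mul]
  ring

private theorem Clc_ip_zero (y : E2) : ip 0 y = 0 := by
  simp [ip]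

private theorem Clc_ip_sum {ι : Type} (s : Finset ι) (w : ι → ℝ) (z : ι → E2) (y : E2) :
    ip (∑ j ∈ s, w j • z j) y = ∑ j ∈ s, w j * ip (z j) y := by
  induction s using Finset.induction_on with
  | empty => simp [Clc_ip_zero]
  | insert a s ha ih =>
    rw [Finset.sum_insert ha, Finset.sum_insert ha, Clc_ip_add, Clc_ip_smul, ih]

/-- a linear form is a scalar product -/
private theorem Clc_riesz (f : E2 →L[ℝ] ℝ) : ∃ v : E2, ∀ ν : E2, f ν = ip ν v := by
  refine ⟨(InnerProductSpace.toDual ℝ E2).symm f, fun ν => ?_⟩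
  have h := InnerProductSpace.toDual_symm_apply (𝕜 := ℝ) (x := ν) (y := f)
  rw [← h, PiLp.inner_apply, Fin.sum_univ_two, ip]
  simp only [RCLike.inner_apply, conj_trivial]

/-- two orthogonal vectors to a nonzero one are parallel -/
private theorem Clc_cr {ν x y : E2} (hν : ν ≠ 0) (hx : ip ν x = 0) (hy : ip ν y = 0) :
    cr x y = 0 := by
  unfold ip at hx hy
  unfold cr
  have h1 : ν 0 * (x 0 * y 1 - x 1 * y 0) = 0 := by
    linear_combination y 1 * hx - x 1 * hy
  have h2 : ν 1 * (x 0 * y 1 - x 1 * y 0) = 0 := by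
    linear_combination x 0 * hy - y 0 * hx
  by_contra hne
  apply hν
  ext i
  rcases Fin.exists_fin_two.1 ⟨i, rfl⟩ with h | h
  · rw [h]
    simpa using (mul_eq_zero.1 h1).resolve_right hne
  · rw [h]
    simpa using (mul_eq_zero.1 h2).resolve_right hne

/-- the thin directions of one cluster -/
private def Clc_T {n : ℕ} (P : Fin n → E2) (D : Finset (Fin n)) (t : ℕ) (c : E2) : Set E2 :=
  {ν | ‖ν‖ = 1 ∧ (D.filter fun a => ip ν (P a - c) < 0).card ≤ t}

private theorem Clc_zero {n : ℕ} (P : Fin n → E2) (D : Finset (Fin n)) (t : ℕ) (c : E2)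
    (hG : Gn P c) (hD : 3 * t + 2 ≤ D.card) : (0 : E2) ∉ convexHull ℝ (Clc_T P D t c) := by
  intro h0
  obtain ⟨ι, hι, z, w, hz, haff, hw, hw1, hsum⟩ := eq_pos_convex_span_of_mem_convexHull h0
  have hcard : Fintype.card ι ≤ 3 := by
    have h1 := haff.card_le_finrank_succ
    have h2 := Submodule.finrank_le (vectorSpan ℝ (Set.range z))
    rw [finrank_euclideanSpace_fin] at h2
    omega
  have hzT : ∀ j, z j ∈ Clc_T P D t c := fun j => hz ⟨j, rfl⟩
  have hne : Nonempty ι := by
    by_contra hcon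
    rw [not_nonempty_iff] at hcon
    rw [Finset.univ_eq_empty, Finset.sum_empty] at hw1
    exact zero_ne_one hw1
  obtain ⟨j0⟩ := hne
  have hcov : D ⊆ (Finset.univ.biUnion fun j => D.filter fun a => ip (z j) (P a - c) < 0) ∪
      D.filter fun a => ip (z j0) (P a - c) = 0 := by
    intro a ha
    rw [Finset.mem_union, Finset.mem_biUnion, Finset.mem_filter]
    by_cases hex : ∃ j, ip (z j) (P a - c) < 0
    · obtain ⟨j, hj⟩ := hex
      exact Or.inl ⟨j, Finset.mem_univ _, Finset.mem_filter.2 ⟨ha, hj⟩⟩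
    · push Not at hex
      refine Or.inr ⟨ha, ?_⟩
      have h1 : ∑ j, w j * ip (z j) (P a - c) = 0 := by
        rw [← Clc_ip_sum, hsum, Clc_ip_zero]
      have h2 := (Finset.sum_eq_zero_iff_of_nonneg
        (fun j _ => mul_nonneg (hw j).le (hex j))).1 h1 j0 (Finset.mem_univ _)
      exact (mul_eq_zero.1 h2).resolve_left (hw j0).ne'
  have h1 : (Finset.univ.biUnion fun j => D.filter fun a => ip (z j) (P a - c) < 0).card ≤
      3 * t := by
    refine Finset.card_biUnion_le.trans ?_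
    refine (Finset.sum_le_card_nsmul _ _ t fun j _ => (hzT j).2).trans ?_
    rw [smul_eq_mul, Finset.card_univ]
    exact Nat.mul_le_mul_right t hcard
  have h2 : (D.filter fun a => ip (z j0) (P a - c) = 0).card ≤ 1 := by
    rw [Finset.card_le_one]
    intro a ha b hb
    rw [Finset.mem_filter] at ha hb
    by_contra hab
    refine hG.2 a b hab (Clc_cr ?_ ha.2 hb.2)
    intro h
    have := (hzT j0).1
    rw [h, norm_zero] at this
    exact zero_ne_one this
  have h3 := (Finset.card_le_card hcov).trans (Finset.card_union_le _ _)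
  omega

private theorem Clc_sep {n : ℕ} (P : Fin n → E2) (D : Finset (Fin n)) (t : ℕ) (c : E2)
    (hG : Gn P c) (hD : 3 * t + 2 ≤ D.card) (S : Finset E2) (hS : ∀ s ∈ S, s ∈ Clc_T P D t c) :
    ∃ v : E2, ∀ s ∈ S, 0 < ip s v := by
  have h0 : (0 : E2) ∉ convexHull ℝ (S : Set E2) := fun h =>
    Clc_zero P D t c hG hD (convexHull_mono (fun s hs => hS s hs) h)
  obtain ⟨f, u, h1, h2⟩ := geometric_hahn_banach_point_closed
    (convex_convexHull ℝ (S : Set E2)) (S.finite_toSet.isClosed_convexHull ℝ) h0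
  obtain ⟨v, hv⟩ := Clc_riesz f
  refine ⟨v, fun ν hν => ?_⟩
  rw [map_zero] at h1
  rw [← hv]
  exact h1.trans (h2 ν (subset_convexHull ℝ _ hν))

theorem thm_Clc : Stmt_Sep → Stmt_Two → Stmt_Clc := by
  intro hSep hTwo n t P D c hG hN hdis hD
  refine ⟨fun i => (D i).filter fun x => ∀ ν ∈ Clc_T P (D i) t c, 0 ≤ ip ν (P x - c), ?_, ?_, ?_⟩
  · intro i
    exact Finset.filter_subset _ _
  · intro i
    have h1 := Finset.card_filter_add_card_filter_not (s := D i)
      (p := fun x => ∀ ν ∈ Clc_T P (D i) t c, 0 ≤ ip ν (P x - c))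
    have hch : ∀ x, ¬ (∀ ν ∈ Clc_T P (D i) t c, 0 ≤ ip ν (P x - c)) →
        ∃ ν, ν ∈ Clc_T P (D i) t c ∧ ip ν (P x - c) < 0 := by
      intro x hx
      push Not at hx
      obtain ⟨ν, h2, h3⟩ := hx
      exact ⟨ν, h2, h3⟩
    choose! g hg1 hg2 using hch
    obtain ⟨v, hv⟩ := Clc_sep P (D i) t c hG (hD i) (((D i).filter fun x =>
        ¬ ∀ ν ∈ Clc_T P (D i) t c, 0 ≤ ip ν (P x - c)).image g) (by
      intro s hs
      rw [Finset.mem_image] at hs
      obtain ⟨x, hx, rfl⟩ := hs
      exact hg1 x (Finset.mem_filter.1 hx).2)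
    have h4 : ((D i).filter fun x => ¬ ∀ ν ∈ Clc_T P (D i) t c, 0 ≤ ip ν (P x - c)).card ≤
        2 * t := by
      rcases hTwo (((D i).filter fun x =>
        ¬ ∀ ν ∈ Clc_T P (D i) t c, 0 ≤ ip ν (P x - c)).image g) v hv with h | h
      · rw [Finset.image_eq_empty] at h
        rw [h]
        simp
      · obtain ⟨s1, hs1, s2, hs2, h⟩ := h
        rw [Finset.mem_image] at hs1 hs2
        obtain ⟨x1, hx1, rfl⟩ := hs1
        obtain ⟨x2, hx2, rfl⟩ := hs2
        have h5 : ((D i).filter fun x => ¬ ∀ ν ∈ Clc_T P (D i) t c, 0 ≤ ip ν (P x - c)) ⊆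
            ((D i).filter fun a => ip (g x1) (P a - c) < 0) ∪
            ((D i).filter fun a => ip (g x2) (P a - c) < 0) := by
          intro x hx
          have hx' := Finset.mem_filter.1 hx
          rw [Finset.mem_union, Finset.mem_filter, Finset.mem_filter]
          rcases h (g x) (Finset.mem_image_of_mem g hx) (P x - c) (hg2 x hx'.2) with h6 | h6
          · exact Or.inl ⟨hx'.1, h6⟩
          · exact Or.inr ⟨hx'.1, h6⟩
        have h6 := (hg1 x1 (Finset.mem_filter.1 hx1).2).2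
        have h7 := (hg1 x2 (Finset.mem_filter.1 hx2).2).2
        have h8 := (Finset.card_le_card h5).trans (Finset.card_union_le _ _)
        omega
    show (D i).card ≤ ((D i).filter fun x =>
      ∀ ν ∈ Clc_T P (D i) t c, 0 ≤ ip ν (P x - c)).card + 2 * t
    omega
  · intro x hx
    have hxD : ∀ i, x i ∈ D i := fun i => (Finset.mem_filter.1 (hx i)).1
    have hne : ∀ i j, i ≠ j → x i ≠ x j := by
      intro i j hij h
      have := Finset.disjoint_left.1 (hdis i j hij) (hxD i)
      rw [h] at this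
      exact this (hxD j)
    rw [hSep c _ _ _ (hG.2 _ _ (hne 0 1 (by decide))) (hG.2 _ _ (hne 1 2 (by decide)))
      (hG.2 _ _ (hne 0 2 (by decide)))]
    rintro ⟨ν, h0, h1, h2⟩
    have hν0 : ν ≠ 0 := by
      rintro rfl
      rw [Clc_ip_zero] at h0
      exact lt_irrefl _ h0
    have hn : 0 < ‖ν‖ := norm_pos_iff.2 hν0
    have hall : ∀ i, 0 < ip ν (P (x i) - c) := by
      intro i
      fin_cases i
      · exact h0
      · exact h1
      · exact h2
    have hneg : ∀ i, ip (-(‖ν‖⁻¹) • ν) (P (x i) - c) < 0 := by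
      intro i
      rw [Clc_ip_smul]
      have h3 := hall i
      have h4 : 0 < ‖ν‖⁻¹ := inv_pos.2 hn
      nlinarith [mul_pos h4 h3]
    have hunit : ‖(-(‖ν‖⁻¹) • ν : E2)‖ = 1 := by
      rw [norm_smul, norm_neg, norm_inv, norm_norm, inv_mul_cancel₀ hn.ne']
    have hne0 : (-(‖ν‖⁻¹) • ν : E2) ≠ 0 := by
      intro h
      rw [h, norm_zero] at hunit
      exact zero_ne_one hunit
    obtain ⟨i, hi⟩ := hN _ hne0
    have h5 := (Finset.mem_filter.1 (hx i)).2 _ ⟨hunit, hi⟩
    exact absurd (hneg i) (not_lt.2 h5)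

end Pool.Agent.SKP
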