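import Pool.Agent.SKP.StS

/-!
# Sierksma's bound in the plane (MP_001fdd_co): many large packings (S16)
-/

set_option autoImplicit false

namespace Pool.Agent.SKP

open scoped Classical

private theorem Cnt_uv {n : ℕ} (hn : 0 < n) (κ : Fin n → Bool) : uu κ + vv κ = 1 := by
  unfold uu vv
  rw [← add_div]
  have h : (Finset.univ.filter fun a => κ a = true).card +
      (Finset.univ.filter fun a => κ a = false).card = n := by
    have h1 := Finset.card_filter_add_card_filter_not (s := (Finset.univ : Finset (Fin n)))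
      (fun a => κ a = true)
    simpa using h1
  have h2 : (((Finset.univ.filter fun a => κ a = true).card : ℝ) +
      ((Finset.univ.filter fun a => κ a = false).card : ℝ)) = n := by exact_mod_cast h
  rw [h2]
  have h3 : (n : ℝ) ≠ 0 := by positivity
  exact div_self h3

private theorem Cnt_sumA {n : ℕ} (hn : 0 < n) (w : Fin n → Fin 3) (κ : Fin n → Bool) :
    ((∑ i, (sA w κ i).card : ℕ) : ℝ) = n * uu κ := by
  have h1 : (Finset.univ.filter fun a => κ a = true).card = ∑ i, (sA w κ i).card := by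
    rw [Finset.card_eq_sum_card_fiberwise (f := w) (t := Finset.univ) (fun x _ => by simp)]
    refine Finset.sum_congr rfl fun i _ => ?_
    congr 1
    unfold sA
    rw [Finset.filter_filter]
    ext a
    simp [and_comm]
  have h3 : (n : ℝ) ≠ 0 := by positivity
  unfold uu
  rw [← h1]
  field_simp

private theorem Cnt_sumB {n : ℕ} (hn : 0 < n) (w : Fin n → Fin 3) (κ : Fin n → Bool) :
    ((∑ i, (sB w κ i).card : ℕ) : ℝ) = n * vv κ := by
  have h1 : (Finset.univ.filter fun a => κ a = false).card = ∑ i, (sB w κ i).card := by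
    rw [Finset.card_eq_sum_card_fiberwise (f := w) (t := Finset.univ) (fun x _ => by simp)]
    refine Finset.sum_congr rfl fun i _ => ?_
    congr 1
    unfold sB
    rw [Finset.filter_filter]
    ext a
    simp [and_comm]
  have h3 : (n : ℝ) ≠ 0 := by positivity
  unfold vv
  rw [← h1]
  field_simp

private theorem Cnt_ss {n : ℕ} (w : Fin n → Fin 3) (κ : Fin n → Bool) (i : Fin 3) :
    0 ≤ ss w κ i ∧ ss w κ i ≤ 1 := by
  unfold ss
  constructor
  · positivity
  · apply div_le_one_of_le₀ _ (by positivity)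
    have h : cN w κ i ≤ (sA w κ i).card * (sB w κ i).card := by
      unfold cN
      refine le_trans (Finset.card_filter_le _ _) ?_
      rw [Finset.card_product]
    exact_mod_cast h

private theorem Cnt_dis {n : ℕ} (w : Fin n → Fin 3) (κ : Fin n → Bool) (i : Fin 3) :
    Disjoint (sA w κ i) (sB w κ i) := by
  rw [Finset.disjoint_left]
  intro a ha hb
  simp only [sA, sB, Finset.mem_filter, Finset.mem_univ, true_and] at ha hb
  rw [ha.2] at hb
  exact absurd hb.2 (by simp)

/-- the capacity of a sector -/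
private theorem Cnt_cap {k u v : ℝ} {s α P q aa η sq m1 m2 σ1 σ2 y1 z2 : ℝ}
    (hu0 : 0 < u) (hu1 : u ≤ 1)
    (hα : α + s ≤ k * u ^ 3) (hP : P + s ≤ k * (u * v)) (hsq : 0 ≤ sq) (hs : 0 ≤ s)
    (hm1 : m1 ≤ P * σ1 + 3 * sq) (hm2 : P * σ2 - 3 * sq ≤ m2)
    (hσ : 0 ≤ 1 + (σ1 - σ2)) (hy : y1 ≤ u * m1 + q) (hz : z2 ≤ u * (P - m2) + q)
    (hη : η + 6 * sq + 2 * q ≤ 2 * s)
    (ha : k * (u ^ 3 + u * v + u ^ 2 * v * (1 + (σ1 - σ2))) - η ≤ aa) :
    α + P + y1 + z2 ≤ aa := by
  have h1 : u * m1 ≤ u * (P * σ1 + 3 * sq) := mul_le_mul_of_nonneg_left hm1 hu0.le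
  have h2 : u * (P - m2) ≤ u * (P - (P * σ2 - 3 * sq)) :=
    mul_le_mul_of_nonneg_left (by linarith) hu0.le
  have h3 : u * sq ≤ sq := mul_le_of_le_one_left hsq hu1
  have h4 : (1 + (σ1 - σ2)) * u * P ≤ (1 + (σ1 - σ2)) * u * (k * (u * v)) :=
    mul_le_mul_of_nonneg_left (by linarith) (mul_nonneg hσ hu0.le)
  nlinarith [h1, h2, h3, h4]

theorem thm_Cnt : Stmt_Pair → Stmt_Fill → Stmt_Ent → Stmt_Cnt := by
  intro hPair hFill hEnt C₀ hC₀
  obtain ⟨C1, hC1, k1, hE⟩ := hEnt (C₀ + 9) (by linarith)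
  refine ⟨C1 + 5 * (C₀ + 10) + 2, by positivity, k1 + 1, ?_⟩
  intro k w κ β hk hBal hβ hβu hβv hCβ
  set C : ℝ := C1 + 5 * (C₀ + 10) + 2 with hC
  have hk1 : 1 ≤ k := by omega
  have hkR : (1 : ℝ) ≤ k := by exact_mod_cast hk1
  have hn : 0 < 3 * k := by omega
  set sq : ℝ := √k with hsq
  have hsq1 : 1 ≤ sq := Real.one_le_sqrt.mpr hkR
  have hsq0 : 0 ≤ sq := by linarith
  set u : ℝ := uu κ with hu
  set v : ℝ := vv κ with hv
  have huv : u + v = 1 := Cnt_uv hn κ
  have hu0 : 0 < u := by linarith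
  have hv0 : 0 < v := by linarith
  have hu1 : u ≤ 1 := by linarith
  have hv1 : v ≤ 1 := by linarith
  set s : ℕ := ⌈(C₀ + 8) * sq⌉₊ with hs
  have hs1 : (C₀ + 8) * sq ≤ s := Nat.le_ceil _
  have hs2 : (s : ℝ) ≤ (C₀ + 9) * sq := by
    have := Nat.ceil_lt_add_one (R := ℝ) (a := (C₀ + 8) * sq) (by positivity)
    nlinarith
  have hs3 : (s : ℝ) + 1 ≤ (C₀ + 10) * sq := by nlinarith
  -- lower bounds of the three numbers
  have hCs : (s : ℝ) + 1 + C₀ * sq + 2 ≤ C * sq := by
    rw [hC]; nlinarith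
  have hu3 : C * sq ≤ k * u ^ 3 := by
    refine le_trans hCβ (mul_le_mul_of_nonneg_left ?_ (by positivity))
    exact pow_le_pow_left₀ hβ.le hβu 3
  have hv3 : C * sq ≤ k * v ^ 3 := by
    refine le_trans hCβ (mul_le_mul_of_nonneg_left ?_ (by positivity))
    exact pow_le_pow_left₀ hβ.le hβv 3
  have huv3 : C * sq ≤ k * (u * v) := by
    refine le_trans hCβ (mul_le_mul_of_nonneg_left ?_ (by positivity))
    have h1 : β * β ≤ u * v := mul_le_mul hβu hβv hβ.le hu0.le
    have h2 : β ^ 3 ≤ β * β := by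
      have : β ≤ 1 := le_trans hβu hu1
      nlinarith [mul_pos hβ hβ]
    linarith
  have hsum : u ^ 3 + v ^ 3 + 3 * (u * v) = 1 := by
    have : v = 1 - u := by linarith
    rw [this]; ring
  have hs0 : (0 : ℝ) ≤ s := Nat.cast_nonneg _
  -- the three numbers
  have hfl : ∀ x : ℝ, C * sq ≤ x → ((⌊x⌋₊ - s : ℕ) : ℝ) + s ≤ x ∧
      x ≤ ((⌊x⌋₊ - s : ℕ) : ℝ) + s + 1 ∧ 1 ≤ ⌊x⌋₊ - s := by
    intro x hx
    have hx0 : 0 ≤ x := le_trans (by positivity) hx
    have h0 : s + 1 ≤ ⌊x⌋₊ := by
      apply Nat.le_floor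
      push_cast
      nlinarith
    have h1 : ((⌊x⌋₊ - s : ℕ) : ℝ) = (⌊x⌋₊ : ℝ) - s := by
      rw [Nat.cast_sub (by omega)]
    have h2 := Nat.floor_le hx0
    have h3 := Nat.lt_floor_add_one x
    refine ⟨by rw [h1]; linarith, by rw [h1]; linarith, by omega⟩
  obtain ⟨hα1, hα2, -⟩ := hfl _ hu3
  obtain ⟨hα'1, hα'2, -⟩ := hfl _ hv3
  obtain ⟨hP1, hP2, hP3⟩ := hfl _ huv3
  set α : ℕ := ⌊(k : ℝ) * u ^ 3⌋₊ - s with hα
  set α' : ℕ := ⌊(k : ℝ) * v ^ 3⌋₊ - s with hα'
  set P : ℕ := ⌊(k : ℝ) * (u * v)⌋₊ - s with hP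
  have hPk : (P : ℝ) ≤ k := by
    have : (k : ℝ) * (u * v) ≤ k * 1 := by
      apply mul_le_mul_of_nonneg_left _ (by positivity)
      nlinarith
    linarith
  have hsqP : √(P : ℝ) ≤ sq := Real.sqrt_le_sqrt hPk
  have hP0 : (0 : ℝ) ≤ P := Nat.cast_nonneg _
  -- sizes
  have hσ : ∀ i, 0 ≤ ss w κ i ∧ ss w κ i ≤ 1 := Cnt_ss w κ
  have hA : ∀ i, k * fA u v (ss w κ (i + 1) - ss w κ (i + 2)) - C₀ * sq ≤ (sA w κ i).card := by
    intro i
    have := (abs_le.mp (hBal i).1).1
    linarith
  have hB : ∀ i, k * fB u v (ss w κ (i + 1) - ss w κ (i + 2)) - C₀ * sq ≤ (sB w κ i).card := by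
    intro i
    have := (abs_le.mp (hBal i).2).1
    linarith
  have hA2 : ∀ i, P + 2 ≤ (sA w κ i).card := by
    intro i
    have h1 := hA i
    have h2 : 0 ≤ 1 + (ss w κ (i + 1) - ss w κ (i + 2)) := by
      have := (hσ (i + 1)).1
      have := (hσ (i + 2)).2
      linarith
    have h3 : (k : ℝ) * (u ^ 3 + u * v) ≤ k * fA u v (ss w κ (i + 1) - ss w κ (i + 2)) := by
      apply mul_le_mul_of_nonneg_left _ (by positivity)
      unfold fA
      have : 0 ≤ u ^ 2 * v * (1 + (ss w κ (i + 1) - ss w κ (i + 2))) := by positivity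
      linarith
    have h4 : ((P + 2 : ℕ) : ℝ) ≤ (sA w κ i).card := by
      push_cast
      nlinarith
    exact_mod_cast h4
  have hB2 : ∀ i, P + 2 ≤ (sB w κ i).card := by
    intro i
    have h1 := hB i
    have h2 : 0 ≤ 1 - (ss w κ (i + 1) - ss w κ (i + 2)) := by
      have := (hσ (i + 1)).2
      have := (hσ (i + 2)).1
      linarith
    have h3 : (k : ℝ) * (v ^ 3 + u * v) ≤ k * fB u v (ss w κ (i + 1) - ss w κ (i + 2)) := by
      apply mul_le_mul_of_nonneg_left _ (by positivity)
      unfold fB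
      have : 0 ≤ u * v ^ 2 * (1 - (ss w κ (i + 1) - ss w κ (i + 2))) := by positivity
      linarith
    have h4 : ((P + 2 : ℕ) : ℝ) ≤ (sB w κ i).card := by
      push_cast
      nlinarith
    exact_mod_cast h4
  -- popular values
  have hM : ∀ i, ∃ m : ℕ, m ≤ P ∧ |(m : ℝ) - P * ss w κ i| ≤ 3 * √P ∧
      (sA w κ i).card.descFactorial P * (sB w κ i).card.descFactorial P ≤
        (QQ (sA w κ i) (sB w κ i) P m).card * (P.choose m * (12 * P)) := by
    intro i
    have h1 := hA2 i
    have h2 := hB2 i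
    exact hPair (3 * k) P (sA w κ i) (sB w κ i) (Cnt_dis w κ i) hP3 (by omega) (by omega)
      (by omega) (by omega)
  choose m hmP hm hmQ using hM
  set y : Fin 3 → ℕ := fun i => ⌊u * (m i : ℕ)⌋₊ with hy
  set z : Fin 3 → ℕ := fun i => ⌊u * (P - m i : ℕ)⌋₊ with hz
  have hym : ∀ i, y i ≤ m i := by
    intro i
    have h1 : ((⌊u * (m i : ℕ)⌋₊ : ℕ) : ℝ) ≤ m i :=
      le_trans (Nat.floor_le (by positivity)) (mul_le_of_le_one_left (by positivity) hu1)
    exact_mod_cast h1
  have hzm : ∀ i, z i ≤ P - m i := by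
    intro i
    have h1 : ((⌊u * (P - m i : ℕ)⌋₊ : ℕ) : ℝ) ≤ (P - m i : ℕ) :=
      le_trans (Nat.floor_le (by positivity)) (mul_le_of_le_one_left (by positivity) hu1)
    exact_mod_cast h1
  have hPm : ∀ i, ((P - m i : ℕ) : ℝ) = P - m i := fun i => by rw [Nat.cast_sub (hmP i)]
  have hm1 : ∀ i, (m i : ℝ) ≤ P * ss w κ i + 3 * sq := by
    intro i
    have := (abs_le.mp (hm i)).2
    linarith
  have hm2 : ∀ i, P * ss w κ i - 3 * sq ≤ (m i : ℝ) := by
    intro i
    have := (abs_le.mp (hm i)).1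
    linarith
  have hyu : ∀ i, (y i : ℝ) ≤ u * m i := fun i => Nat.floor_le (by positivity)
  have hyl : ∀ i, u * m i ≤ (y i : ℝ) + 1 := fun i => (Nat.lt_floor_add_one _).le
  have hzu : ∀ i, (z i : ℝ) ≤ u * (P - m i) := by
    intro i
    have h1 : (z i : ℝ) ≤ u * ((P - m i : ℕ) : ℝ) := Nat.floor_le (by positivity)
    rw [hPm i] at h1
    exact h1
  have hzl : ∀ i, u * (P - m i) ≤ (z i : ℝ) + 1 := by
    intro i
    have h1 : u * ((P - m i : ℕ) : ℝ) ≤ (z i : ℝ) + 1 := (Nat.lt_floor_add_one _).le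
    rw [hPm i] at h1
    exact h1
  have hcapA : ∀ i, α + P + y (i + 1) + z (i + 2) ≤ (sA w κ i).card := by
    intro i
    have h := Cnt_cap (k := k) (u := u) (v := v) (s := s) (α := α) (P := P) (q := 0)
      (aa := (sA w κ i).card) (η := C₀ * sq) (sq := sq) (m1 := m (i + 1)) (m2 := m (i + 2))
      (σ1 := ss w κ (i + 1)) (σ2 := ss w κ (i + 2)) (y1 := y (i + 1)) (z2 := z (i + 2))
      hu0 hu1 hα1 hP1 hsq0 hs0 (hm1 _) (hm2 _)
      (by have := (hσ (i + 1)).1; have := (hσ (i + 2)).2; linarith)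
      (by have := hyu (i + 1); linarith) (by have := hzu (i + 2); linarith)
      (by nlinarith) (by have := hA i; unfold fA at this; linarith)
    exact_mod_cast h
  have hcapB : ∀ i, α' + P + (m (i + 2) - y (i + 2)) + (P - m (i + 1) - z (i + 1)) ≤
      (sB w κ i).card := by
    intro i
    have e1 : ((m (i + 2) - y (i + 2) : ℕ) : ℝ) = (m (i + 2) : ℝ) - y (i + 2) := by
      rw [Nat.cast_sub (hym _)]
    have e2 : ((P - m (i + 1) - z (i + 1) : ℕ) : ℝ) = (P : ℝ) - m (i + 1) - z (i + 1) := by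
      rw [Nat.cast_sub (hzm _), hPm]
    have h := Cnt_cap (k := k) (u := v) (v := u) (s := s) (α := α') (P := P) (q := 1)
      (aa := (sB w κ i).card) (η := C₀ * sq) (sq := sq) (m1 := m (i + 2)) (m2 := m (i + 1))
      (σ1 := ss w κ (i + 2)) (σ2 := ss w κ (i + 1))
      (y1 := (m (i + 2) : ℝ) - y (i + 2)) (z2 := (P : ℝ) - m (i + 1) - z (i + 1))
      hv0 hv1 hα'1 (by rw [mul_comm v u]; exact hP1) hsq0 hs0 (hm1 _) (hm2 _)
      (by have := (hσ (i + 2)).1; have := (hσ (i + 1)).2; linarith)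
      (by
        have h1 := hyl (i + 2)
        have h2 : v * (m (i + 2) : ℝ) = m (i + 2) - u * m (i + 2) := by
          have : v = 1 - u := by linarith
          rw [this]; ring
        linarith)
      (by
        have h1 := hzl (i + 1)
        have h2 : v * ((P : ℝ) - m (i + 1)) = (P - m (i + 1)) - u * (P - m (i + 1)) := by
          have : v = 1 - u := by linarith
          rw [this]; ring
        linarith)
      (by nlinarith)
      (by
        have h1 := hB i
        unfold fB at h1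
        have h2 : (k : ℝ) * (v ^ 3 + u * v + u * v ^ 2 * (1 - (ss w κ (i + 1) - ss w κ (i + 2)))) =
          k * (v ^ 3 + v * u + v ^ 2 * u * (1 + (ss w κ (i + 2) - ss w κ (i + 1)))) := by ring
        rw [h2] at h1
        exact h1)
    have h5 : ((α' + P + (m (i + 2) - y (i + 2)) + (P - m (i + 1) - z (i + 1)) : ℕ) : ℝ) ≤
        (sB w κ i).card := by
      rw [Nat.cast_add, Nat.cast_add, Nat.cast_add, e1, e2]
      exact h
    exact_mod_cast h5
  -- the count
  refine ⟨α + α' + 3 * P, ?_, ?_, ?_⟩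
  · have h : ((α + α' + 3 * P : ℕ) : ℝ) ≤ k := by
      push_cast
      have : (k : ℝ) * u ^ 3 + k * v ^ 3 + 3 * (k * (u * v)) = k := by
        have : (k : ℝ) * u ^ 3 + k * v ^ 3 + 3 * (k * (u * v)) =
          k * (u ^ 3 + v ^ 3 + 3 * (u * v)) := by ring
        rw [this, hsum, mul_one]
      linarith
    exact_mod_cast h
  · push_cast
    have h : (k : ℝ) * u ^ 3 + k * v ^ 3 + 3 * (k * (u * v)) = k := by
      have : (k : ℝ) * u ^ 3 + k * v ^ 3 + 3 * (k * (u * v)) =
        k * (u ^ 3 + v ^ 3 + 3 * (u * v)) := by ring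
      rw [this, hsum, mul_one]
    have h5 : 5 * ((s : ℝ) + 1) ≤ C * sq := by
      rw [hC]
      have : 0 ≤ (C1 + 2) * sq := by positivity
      nlinarith
    linarith
  · have hEE := hE k s α α' P (fun i => (sA w κ i).card) (fun i => (sB w κ i).card) m y z
      (fun i => α + P + y (i + 1) + z (i + 2))
      (fun i => α' + P + (m (i + 2) - y (i + 2)) + (P - m (i + 1) - z (i + 1))) u v
      (by omega) hu0 hv0 huv
      (by rw [Cnt_sumA hn w κ]; push_cast; ring) (by rw [Cnt_sumB hn w κ]; push_cast; ring)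
      hs2 (by linarith) hα2 (by linarith) hα'2 (by linarith) hP2 hP3 hmP
      (fun i => rfl) (fun i => rfl) (fun i => rfl) (fun i => rfl) hcapA hcapB
    have hFF := hFill (3 * k) α α' P w κ m y z hmP hym hzm
    -- product of S11
    have hQ : (∏ i, ((sA w κ i).card.descFactorial P * (sB w κ i).card.descFactorial P)) ≤
        ∏ i, ((QQ (sA w κ i) (sB w κ i) P (m i)).card * (P.choose (m i) * (12 * P))) :=
      Finset.prod_le_prod' fun i _ => hmQ i
    have hdA : ∀ i, (sA w κ i).card.descFactorial (α + P + y (i + 1) + z (i + 2)) =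
        ((sA w κ i).card - P).descFactorial (α + y (i + 1) + z (i + 2)) *
          (sA w κ i).card.descFactorial P := by
      intro i
      rw [← Nat.descFactorial_mul_descFactorial (k := P)
        (m := α + P + y (i + 1) + z (i + 2)) (n := (sA w κ i).card) (by omega)]
      congr 2
      omega
    have hdB : ∀ i, (sB w κ i).card.descFactorial
        (α' + P + (m (i + 2) - y (i + 2)) + (P - m (i + 1) - z (i + 1))) =
        ((sB w κ i).card - P).descFactorial
          (α' + (m (i + 2) - y (i + 2)) + (P - m (i + 1) - z (i + 1))) *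
          (sB w κ i).card.descFactorial P := by
      intro i
      rw [← Nat.descFactorial_mul_descFactorial (k := P)
        (m := α' + P + (m (i + 2) - y (i + 2)) + (P - m (i + 1) - z (i + 1)))
        (n := (sB w κ i).card) (by omega)]
      congr 2
      omega
    -- all together, in the natural numbers
    have hN : (∏ i, (sA w κ i).card.descFactorial (α + P + y (i + 1) + z (i + 2))) *
        (∏ i, (sB w κ i).card.descFactorial
          (α' + P + (m (i + 2) - y (i + 2)) + (P - m (i + 1) - z (i + 1)))) ≤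
        (Pk (Gs w κ) (α + α' + 3 * P)).card *
          ((12 * P) ^ 3 * (∏ i, P.choose (m i)) * (α.factorial * α'.factorial *
          ∏ i, ((y i).factorial * (m i - y i).factorial * (z i).factorial *
            (P - m i - z i).factorial))) := by
      rw [Finset.prod_congr rfl (fun i _ => hdA i), Finset.prod_congr rfl (fun i _ => hdB i),
        Finset.prod_mul_distrib, Finset.prod_mul_distrib]
      rw [Finset.prod_mul_distrib, Finset.prod_mul_distrib, Finset.prod_mul_distrib] at hQ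
      have h12 : (∏ _i : Fin 3, (12 * P)) = (12 * P) ^ 3 := by simp
      rw [h12] at hQ
      set qa := ∏ i, ((sA w κ i).card - P).descFactorial (α + y (i + 1) + z (i + 2))
      set qb := ∏ i, ((sB w κ i).card - P).descFactorial
          (α' + (m (i + 2) - y (i + 2)) + (P - m (i + 1) - z (i + 1)))
      set da := ∏ i, (sA w κ i).card.descFactorial P
      set db := ∏ i, (sB w κ i).card.descFactorial P
      set Q := ∏ i, (QQ (sA w κ i) (sB w κ i) P (m i)).card
      set ch := ∏ i, P.choose (m i)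
      set N := (Pk (Gs w κ) (α + α' + 3 * P)).card
      set X := α.factorial * α'.factorial *
          ∏ i, ((y i).factorial * (m i - y i).factorial * (z i).factorial *
            (P - m i - z i).factorial)
      calc qa * da * (qb * db) = (da * db) * (qa * qb) := by ring
        _ ≤ (Q * (ch * (12 * P) ^ 3)) * (qa * qb) := Nat.mul_le_mul_right _ hQ
        _ = (Q * qa * qb) * (ch * (12 * P) ^ 3) := by ring
        _ ≤ (N * X) * (ch * (12 * P) ^ 3) := Nat.mul_le_mul_right _ hFF
        _ = N * ((12 * P) ^ 3 * ch * X) := by ring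
    have hNR : (∏ i, (((sA w κ i).card.descFactorial (α + P + y (i + 1) + z (i + 2)) : ℕ) : ℝ)) *
        (∏ i, (((sB w κ i).card.descFactorial
          (α' + P + (m (i + 2) - y (i + 2)) + (P - m (i + 1) - z (i + 1))) : ℕ) : ℝ)) ≤
        ((Pk (Gs w κ) (α + α' + 3 * P)).card : ℝ) *
          ((12 * P : ℝ) ^ 3 * (∏ i, ((P.choose (m i) : ℕ) : ℝ)) *
          (α.factorial * α'.factorial *
          ∏ i, (((y i).factorial * (m i - y i).factorial * (z i).factorial *
            (P - m i - z i).factorial : ℕ) : ℝ))) := by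
      exact_mod_cast hN
    set X : ℝ := (12 * P : ℝ) ^ 3 * (∏ i, ((P.choose (m i) : ℕ) : ℝ)) *
          (α.factorial * α'.factorial *
          ∏ i, (((y i).factorial * (m i - y i).factorial * (z i).factorial *
            (P - m i - z i).factorial : ℕ) : ℝ)) with hX
    have hX0 : 0 < X := by
      rw [hX]
      have h1 : (0 : ℝ) < P := by exact_mod_cast hP3
      have h2 : 0 < ∏ i, ((P.choose (m i) : ℕ) : ℝ) := by
        apply Finset.prod_pos
        intro i _
        exact_mod_cast Nat.choose_pos (hmP i)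
      have h3 : 0 < ∏ i, (((y i).factorial * (m i - y i).factorial * (z i).factorial *
            (P - m i - z i).factorial : ℕ) : ℝ) := by
        apply Finset.prod_pos
        intro i _
        exact_mod_cast (by positivity : 0 < (y i).factorial * (m i - y i).factorial *
          (z i).factorial * (P - m i - z i).factorial)
      positivity
    have hfin : (k.factorial : ℝ) ^ 2 * X ≤
        Real.exp (C1 * sq * Real.log k) * ((Pk (Gs w κ) (α + α' + 3 * P)).card : ℝ) * X := by
      refine le_trans hEE ?_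
      refine le_trans (mul_le_mul_of_nonneg_left hNR (Real.exp_pos _).le) ?_
      exact (mul_assoc _ _ _).ge
    have hfin2 := le_of_mul_le_mul_right hfin hX0
    refine le_trans hfin2 (mul_le_mul_of_nonneg_right ?_ (Nat.cast_nonneg _))
    apply Real.exp_le_exp.mpr
    have hlog : 0 ≤ Real.log k := Real.log_nonneg hkR
    apply mul_le_mul_of_nonneg_right _ hlog
    apply mul_le_mul_of_nonneg_right _ hsq0
    rw [hC]
    nlinarith

end Pool.Agent.SKP
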