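import Pool.Agent.SKP.Defs

/-!
# Sierksma's bound in the plane (MP_001fdd_co): statements on labellings and cones

The points of `S` are the points `Q a`, `a : J k 3`, and one more point. A labelling `π` of `J k 3`
with labels in `Lb k = Option (Fin k)` stands for a partition into `k + 1` parts, the last point
has the label `none`. `UU x π a = ev (π a) ⊗ x a`, with `ev (some i)` the standard basis and
`ev none = - (1, ..., 1)`.
-/

set_option autoImplicit false

namespace Pool.Agent.SKP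

open scoped Classical
open Pool.Agent.Tvb (Pos Zero Base Good hat TP)
open Pool.Agent.Tvo (PP so ind)
open Pool.Agent.Tvv (J Lb ev UU dd)

/-- A1 (invariance; proof as `Pool.Agent.Tvv.vConst`). PROOF. By `Pool.Agent.Tvo.Stmt_OVec`
(`Pool.Agent.Tvo.oVec Pool.Agent.Tvo.oReal`) with `v = -ω'`,
`PP ω x - ∑ i, PP ω (update x i (-ω')) = so x * ind (Zero x (-ω')) = PP ω' x`
(`Pool.Agent.Tvv.const_zero`) for `x = fun a => u a (π a)`. Multiply by `W π` and sum over `π`: for
fixed `i` the family `update x i (-ω')` does not depend on `π i`, so by the hypothesis on `W` the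
sum over `π` is `0` (`Pool.Agent.Tvv.const_sum_zero`). -/
def Stmt_IGen : Prop := ∀ (ι L : Type) [Fintype ι] [DecidableEq ι] [Fintype L] [Inhabited L]
  (u : ι → L → ι → ℝ) (W : (ι → L) → ℝ) (ω ω' : ι → ℝ),
  (∀ (π : ι → L) (i : ι), ∑ l, W (Function.update π i l) = 0) →
  (∀ π : ι → L, Good ω (-ω') (fun a => u a (π a))) →
  ∑ π : ι → L, W π * ((PP ω (fun a => u a (π a)) : ℤ) : ℝ) =
    ∑ π : ι → L, W π * ((PP ω' (fun a => u a (π a)) : ℤ) : ℝ)

/-- A2 (general position). PROOF. `u a l = x a l + ε e_a`. For every `π` the determinant of the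
matrix with rows `u a (π a)`, `det (X_π + ε I)`, is a polynomial in `ε` with leading
coefficient 1, so it has finitely many zeros; choose a small `ε` for which it is not zero for all
`π`. Then the families `u_π` are independent. Choose `ω` near `T` outside of finitely many hyperplanes
(the coordinates with respect to the bases `u_π` are not zero): `Base ω u_π`. Then use
`Pool.Agent.Tvo.Stmt_OGen` (`Pool/Agent/Tvo/Gen.lean`) with the identity as linear map, near
`- T'`. -/
def Stmt_Apx : Prop := ∀ (ι L : Type) [Fintype ι] [DecidableEq ι] [Fintype L]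
  (x : ι → L → ι → ℝ) (T T' : ι → ℝ) (δ : ℝ), 0 < δ →
  ∃ (u : ι → L → ι → ℝ) (ω ω' : ι → ℝ), (∀ a l, ‖u a l - x a l‖ < δ) ∧ ‖ω - T‖ < δ ∧
    ‖ω' - T'‖ < δ ∧ ∀ π : ι → L, Good ω (-ω') (fun a => u a (π a))

/-- A3 (the weights). PROOF. First part: `∑ l, ev l j = 0` (`Pool.Agent.Tvv.const_ev`). Last part:
for `π = some ∘ ρ'` the product `∏ ev (some (ρ' a)) (ρ a)` is `1` if `ρ = ρ'`, otherwise `0`.
Second part: `UU x π a = ∑ j, ev (π a) j • UU x (fun _ => some j) a`, so
`dd x π = ∑ ρ, (∏ a, ev (π a) (ρ a)) * dd x (some ∘ ρ)`. The product is `(-1)^q`, `q` the number of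
the labels `none`, if `ρ a = j` whenever `π a = some j`, otherwise `0`; and
`dd x (some ∘ ρ) = 0` if some label has more than 3 elements (more than 3 rows which have
nonzero entries only in the 3 columns of this label). If `q ≤ 2` there are at most two `ρ` such
that `ρ` extends `π` and all labels have exactly 3 elements: the elements with label `none`
fill the missing places. So `WW x π = ± (σ₁ + σ₂)`, `dd x π = ± (d₁ + d₂)` with the same sign
`±`, `σ_i = sign d_i` (or only one term, or none). `(σ₁ + σ₂) sign (d₁ + d₂) ≥ 0`, and if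
`σ₁ + σ₂ ≠ 0` then `d₁ + d₂ ≠ 0`. -/
def Stmt_Wt : Prop := ∀ (k : ℕ) (x : J k 3 → Fin 3 → ℝ),
  (∀ (π : J k 3 → Lb k) (a : J k 3), ∑ l, WW x (Function.update π a l) = 0) ∧
  (∀ π : J k 3 → Lb k, (Finset.univ.filter fun a => π a = none).card ≤ 2 →
    |WW x π| ≤ 2 ∧ 0 ≤ WW x π * ((SignType.sign (dd x π) : SignType) : ℝ) ∧
      (WW x π ≠ 0 → dd x π ≠ 0)) ∧
  ∀ ρ : J k 3 → Fin k, WW x (fun a => some (ρ a)) = Fs x ρ

/-- A4 (few labels `none`). PROOF. If `k = 0` there are no labels. Let `k ≥ 1` and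
`A_j = {a : π a = some j}`, `N = {a : π a = none}`. The components of the equation in `CV` say
`Z := ∑_{A_j} c_a x_a = ∑_N c_a x_a + b z` for all `j`. `Z 2 > 0`: otherwise `b = 0` and all
`c_a = 0`. Assume `|N| ≥ 3`. By Caratheodory for cones there are `T_j ⊆ A_j` with at most 3
elements such that `Z` is a nonnegative combination of the `x_a`, `a ∈ T_j`
(`∑ |A_j| = 3 k - |N| ≤ 3 k - 3`). There is a labelling `π'` with all classes of size `≤ 3`,
`π' = some j` on `T_j`, and exactly three elements with label `none`: take three elements outside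
of the `T_j` for `none` and fill the labels `some j` up to 3 elements with the others. By `GJ` the
vectors `UU x π' a` are independent. In particular the `x_a` for the three `a` with label
`none` are a basis of `ℝ³`, and `Z = ∑ d_a x_a` over these three. Then
`∑_j ∑_{T_j} c'_a UU x π' a + ∑ d_a UU x π' a = 0` (the component `j` is `Z - Z`), so all
coefficients are `0` and `Z = 0`, a contradiction. -/
def Stmt_Non : Prop := ∀ (k : ℕ) (x : J k 3 → Fin 3 → ℝ) (z : Fin 3 → ℝ) (π : J k 3 → Lb k),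
  GJ x → (∀ a, x a 2 = 1) → z 2 = 1 → CV x z π →
  (Finset.univ.filter fun a => π a = none).card ≤ 2

/-- A5 (limits). PROOF. For `δ = 1 / (j + 1)` let `ω_j = ∑ c_a u_a` with `c_a > 0`, and divide by
`1 + ∑ c_a`: `b_j ω_j = ∑ c'_a u_a`, `b_j + ∑ c'_a = 1`. The simplex is compact; pass to a
subsequence and to the limit. -/
def Stmt_Lim : Prop := ∀ (ι : Type) [Fintype ι] (x : ι → ι → ℝ) (T : ι → ℝ),
  (∀ δ : ℝ, 0 < δ → ∃ (u : ι → ι → ℝ) (ω : ι → ℝ), (∀ a, ‖u a - x a‖ < δ) ∧ ‖ω - T‖ < δ ∧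
    Pos ω u) →
  ∃ (c : ι → ℝ) (b : ℝ), (∀ a, 0 ≤ c a) ∧ 0 ≤ b ∧ b + ∑ a, c a = 1 ∧ ∑ a, c a • x a = b • T

/-- A6 (the main inequality, uses A1, A2, A3, A4, A5). PROOF. By A5 there is `δ > 0` such that for
all `u` with `‖u a l - ev l ⊗ x a‖ < δ` and all `ω, ω'` with `‖ω - tn s‖ < δ`,
`‖ω' - tn z‖ < δ`, for all `π`: `Pos ω u_π → CV x s π` and `Pos ω' u_π → CV x z π`
(`u_π a = u a (π a)`; there are finitely many `π`). For smaller `δ` also: if `dd x π ≠ 0` then
`so u_π = sign (dd x π)`; and for all `ρ` counted by `Lbl x z` (here `dd x (some ∘ ρ) ≠ 0` by `GJ`,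
as the label `none` does not occur) `Pos ω' u_{some ∘ ρ}` (the coefficients are continuous by
Cramer's rule). Take `u, ω, ω'` from A2 for this `δ`. By A1 and A3, part 1,
`∑ WW x π PP ω u_π = ∑ WW x π PP ω' u_π`. On the left only `π` with `CV x s π` count, by A4 they
have at most 2 labels `none`, so by A3 the left side is at most `2 |{π : CV x s π}|`. On the
right only `π` with `CV x z π` count, by A4 and A3 `WW x π = 0` or
`WW x π so u_π = WW x π sign (dd x π) ≥ 0`; for the `ρ` counted by `Lbl x z` the term is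
`Fs x ρ sign (dd x (some ∘ ρ)) = 1`. So the right side is at least `Lbl x z`. -/
def Stmt_Con : Prop := ∀ (k : ℕ) (x : J k 3 → Fin 3 → ℝ) (s z : Fin 3 → ℝ), GJ x →
  (∀ a, x a 2 = 1) → s 2 = 1 → z 2 = 1 →
  Lbl x z ≤ 2 * (Finset.univ.filter fun π : J k 3 → Lb k => CV x s π).card

/-- A7 (an example). PROOF. The numbers `d_l = 3 - |{a : π a = l}| ≥ 0`, `l : Lb k`, have the sum
`3 (k + 1) - 3 k = 3`. Let `e_0, e_1, e_2 = hat p_i` with `p_0 = 0`, `p_1 = (1, 0)`,
`p_2 = (0, 1)`, a basis of `ℝ³`. Distribute the indices `0, 1, 2` to the labels, `d_l` indices to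
the label `l` (every index to exactly one label), and let the elements of the class of `l`
bijectively have the `3 - d_l` vectors `e_i` whose index `i` was not given to `l`. The rows
`UU x π a` are independent: if `∑ c_a UU x π a = 0` then `Z := ∑_{π a = none} c_a x_a` equals
`∑_{π a = some j} c_a x_a` for all `j`, so for every label `l` the coefficients of `Z` at the
`e_i` given to `l` are `0`; as every index is given to a label, `Z = 0`, and all `c_a = 0`. -/
def Stmt_GJx : Prop := ∀ (k : ℕ) (π : J k 3 → Lb k),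
  (∀ l, (Finset.univ.filter fun a => π a = l).card ≤ 3) → ∃ Q : J k 3 → E2, dd (ht Q) π ≠ 0

/-- A8 (density, uses A7). PROOF. Consider the finitely many functions of `Q`: `dd (ht Q) π` for the
`π` of A7, `Q a 1 - Q b 1` for `a ≠ b`, `cr (Q b - Q a) (Q c - Q a)` for different `a, b, c`. Each
of them, restricted to a line `Q + t (Q' - Q)`, is a polynomial in `t`, and each is nonzero for
some `Q`. Induction on the number of functions: if `Q₁` near `Q` is not a zero of the first
functions and `Q₂` is not a zero of the next one, then `Q₁ + t (Q₂ - Q₁)` for small `t > 0`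
outside of a finite set is not a zero of any of them. -/
def Stmt_Dns : Prop := ∀ (k : ℕ) (Q : J k 3 → E2) (δ : ℝ), 0 < δ →
  ∃ Q' : J k 3 → E2, (∀ a, dist (Q' a) (Q a) < δ) ∧ GJ (ht Q') ∧ GP Q'

/-- A9 (closedness). PROOF. As A5: the simplex of the `(c, b)` is compact. -/
def Stmt_Cl2 : Prop := ∀ (k : ℕ) (Q : J k 3 → E2) (s : Fin 3 → ℝ) (π : J k 3 → Lb k),
  (∀ δ : ℝ, 0 < δ → ∃ Q' : J k 3 → E2, (∀ a, dist (Q' a) (Q a) < δ) ∧ CV (ht Q') s π) →
  CV (ht Q) s π

/-- A10 (labellings and partitions, uses `Pool.Agent.Tvv.Stmt_Cvx`, `Pool.Agent.Tvv.Stmt_Lab`).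
PROOF. Let `A` be the set of all `f : Option (J k 3) → Lb k` such that some `y` is in the convex
hull of every class. For a label `h` the map `f ↦ swap none h ∘ f` is a bijection of `A` which maps
the `f ∈ A` with `f none = none` to those with `f none = h`. So
`|A| = (k + 1) |{f ∈ A : f none = none}|`. For `π` with `CV (ht Q) (hat s) π` the labelling
`none ↦ none`, `some a ↦ π a` is in `A` by `Stmt_Cvx` (coefficients `b` and `c a`;
`ev none j = -1`). By `Stmt_Lab` `|A| ≤ (k + 1)! |TP|`. -/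
def Stmt_Ctp : Prop := ∀ (k : ℕ) (S : Finset E2) (q : Option (J k 3) ≃ S),
  (Finset.univ.filter fun π : J k 3 → Lb k =>
    CV (ht fun a => (q (some a) : E2)) (hat (q none : E2)) π).card ≤
    k.factorial * (TP (k + 1) S).ncard

/-- A11 (arbitrary sets, uses A6, A8, A9, A10). PROOF. `S` has `3 k + 1` elements; choose
`q : Option (J k 3) ≃ S`, `Q = q ∘ some`, `s = hat (q none)`. By A9 there is `δ > 0` such that
for all `Q'` with `dist (Q' a) (Q a) < δ` and all (finitely many) `π`, `CV (ht Q') s π` implies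
`CV (ht Q) s π`. By A8 there is such a `Q'` with `GJ (ht Q')`, `GP Q'`. With the `c` of the
hypothesis and A6 (`hat` has last coordinate 1),
`B ≤ Lbl (ht Q') (hat c) ≤ 2 |{π : CV (ht Q') s π}| ≤ 2 |{π : CV (ht Q) s π}| ≤ 2 k! |TP|`. -/
def Stmt_FinA : Prop := ∀ k B : ℕ, (∀ Q : J k 3 → E2, GJ (ht Q) → GP Q →
    ∃ c : E2, B ≤ Lbl (ht Q) (hat c)) →
  ∀ S : Finset E2, S.card = 3 * k + 1 → B ≤ 2 * (k.factorial * (TP (k + 1) S).ncard)

/-- A12 (partitions into triangles, uses N3 of `StN`). PROOF. Let `ε = sg P c`, `P = Q ∘ e`,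
`M ∈ Pk (Gt ε) k`, a partition of `Fin (3 * k)`, and `β : M ≃ Fin k`. Let `ρ : J k 3 → Fin k` map
`e (od P c i)` to `β` of the member of `M` which contains `i`. Every class has 3 elements, and by
N3 `c` is strictly inside of their triangle, so `hat c` is a positive combination of the
`ht Q a` of the class: `Pos (tn (hat c)) (UU (ht Q) (some ∘ ρ))`. The map `(M, β) ↦ ρ` is
injective, and there are `k!` bijections for every `M`. -/
def Stmt_Lbl : Prop := ∀ (k : ℕ) (Q : J k 3 → E2) (e : Fin (3 * k) ≃ J k 3) (c : E2),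
  Gn (fun i => Q (e i)) c →
  k.factorial * (Pk (Gt (sg (fun i => Q (e i)) c)) k).card ≤ Lbl (ht Q) (hat c)

/-- F1 (generic points, uses C12 of `StC`, S17 of `StS`, N11 of `StN`). PROOF. Let `C₀` be the
constant of C12, `C₁` the constant of S17 for `C₀`, `k` large, `c₀, r1, r2` the center and the
borders of C12, `o = ⌈C₁ k^(11/12)⌉`. By S17 either `c = c₀` works, or `Clu (Gt (sg P c₀)) k o`. In the
second case N11 (`100 (o + 1) ≤ k`) gives a generic `c` with
`((k - j)!)² ≤ |Pk|`, `j = 21 o + 33 ≤ C₂ k^(11/12)`, and `k! ≤ (k - j)! k^j`. -/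
def Stmt_Comb : Prop := ∃ C : ℝ, 0 < C ∧ ∃ k₀ : ℕ, ∀ (k : ℕ) (P : Fin (3 * k) → E2), k₀ ≤ k →
  GP P → ∃ c : E2, Gn P c ∧ (k.factorial : ℝ) ^ 2 ≤
    Real.exp (C * (k : ℝ) ^ (11 / 12 : ℝ) * Real.log k) * ((Pk (Gt (sg P c)) k).card : ℝ)

/-- F2 (the theorem, uses F1, A11, A12 and `Pool.Agent.Tvw.mainW`). PROOF. Let `k = m - 1`. For
`k ≥ k₀` (and `k ≥ 2`) let `X = exp (C k^(11/12) log k)` and
`B = ⌈k! (k!)² / X⌉₊`. By F1 for `P = Q ∘ e` and A12, for all generic `Q` there is `c` with
`k! (k!)² / X ≤ k! |Pk| ≤ Lbl (ht Q) (hat c)`, so `B ≤ Lbl (ht Q) (hat c)`. A11: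
`k! (k!)² / X ≤ B ≤ 2 k! |TP|`, so `(k!)² ≤ 2 X |TP|`. For `k < k₀` the number `|TP|` is at least 1
by `mainW` (it is positive), and `(k!)² ≤ (k₀!)² ≤ exp (C' m^(11/12) log m)` for all
`m ≥ 2` if `C'` is large. -/
def Stmt_Main : Prop := ∃ C : ℝ, 0 < C ∧ ∀ m : ℕ, 2 ≤ m → ∀ S : Finset E2,
  S.card = 3 * (m - 1) + 1 →
  ((m - 1).factorial : ℝ) ^ 2 ≤
    Real.exp (C * (m : ℝ) ^ (11 / 12 : ℝ) * Real.log m) * ((TP m S).ncard : ℝ)

end Pool.Agent.SKP
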