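import Pool.Agent.SKP.Defs
import Pool.Agent.Helper30.HexParity

/-!
# Sierksma's bound in the plane (MP_001fdd_co): statements on the existence of a balanced point

Notation as in `StS`. `d_i = st (i+1) - st (i+2)`, `n = 3 k`, `0 < st i < 1`, `u + v = 1`,
`fA u v d + fB u v d = 1 + u v (u - v) d` and `fA u v d - fB u v d = (u - v) + u v d`.
-/

set_option autoImplicit false

namespace Pool.Agent.SKP

open scoped Classical

/-- C1 (Lipschitz). PROOF. Let `f, Y, μ` be as in `Clw`. `f` maps `A_i \ Y` into `A'_i`, and the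
elements of `A'_i` outside `f(Y)` are images of elements of `A_i`; so
`||A_i| - |A'_i|| ≤ m`, the same for `B_i` and for the number of the positions of colour `true`
(so `|u - u'| ≤ m / (3 k)`). A pair `x < y` in `A_i × B_i` with `x, y ∉ Y` is mapped to a pair in
`A'_i × B'_i`, increasing unless `μ x = y`; so `cN ≤ cN' + 2 m n + n`. A pair `x' < y'` in
`A'_i × B'_i` with `x' = f x`, `y' = f y`, `x, y ∉ Y` has `x < y`, or `y < x` and then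
`μ x = y`; so `cN' ≤ cN + 2 m n + n`. With `D = a b + k √k ≥ k √k`,
`|st - st'| ≤ (|cN - cN'| + |a b - a' b'|) / D ≤ (2 m n + n + 2 m n) / (k √k)`, as `0 ≤ st' ≤ 1`.
`fA` and `fB` are polynomials, Lipschitz on `[0, 1] × [0, 1] × [-1, 1]`. -/
def Stmt_Lip : Prop := ∀ m : ℕ, ∃ C : ℝ, 0 < C ∧ ∀ (k : ℕ) (w w' : Fin (3 * k) → Fin 3)
  (κ κ' : Fin (3 * k) → Bool), 1 ≤ k → Clw m w κ w' κ' →
  ∀ i, |eA k w κ i - eA k w' κ' i| ≤ C / √k ∧ |eB k w κ i - eB k w' κ' i| ≤ C / √k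

/-- C2. PROOF. Let `f, Y, μ` be as in `Cls`. For `i ∉ Y` the numbers `i = |{j : j < i}|` and
`f i = |{j : f j < f i}|` differ at most by the number of the `j` whose order with `i` changes;
such a `j` is in `Y` or equal to `μ i`, so `|f i - i| ≤ m + 1`. So the windows of `i` and `f i`
differ only if `r1` or `r2` is between them, for at most `4 (m + 1)` positions `i ∉ Y`. Add these
positions to `Y`. -/
def Stmt_Wi : Prop := ∀ (n m r1 r2 : ℕ) (ε ε' : Fin n → Bool), Cls m ε ε' →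
  Clw (5 * m + 4) (wn r1 r2) (kp ε r1 r2) (wn r1 r2) (kp ε' r1 r2)

/-- C3. PROOF. `f = id`, `Y` is the set of the positions where the two windows differ: this
happens only for `a = min r1 r1'` and `a = min r2 r2'`. -/
def Stmt_Wr : Prop := ∀ (n r1 r2 r1' r2' : ℕ) (ε : Fin n → Bool), r1 ≤ r1' + 1 → r1' ≤ r1 + 1 →
  r2 ≤ r2' + 1 → r2' ≤ r2 + 1 →
  Clw 2 (wn r1 r2) (kp ε r1 r2) (wn r1' r2') (kp ε r1' r2')

/-- C3a (uses C1, C2, C3). PROOF. Change first the sequence (C2 with `m = 1`, C1 with `m = 9`), then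
the windows (C3, C1 with `m = 2`), and add. -/
def Stmt_Cub : Prop := ∃ C : ℝ, 0 < C ∧ ∀ (k r1 r2 r1' r2' : ℕ) (ε ε' : Fin (3 * k) → Bool),
  1 ≤ k → Cls 1 ε ε' → r1 ≤ r1' + 1 → r1' ≤ r1 + 1 → r2 ≤ r2' + 1 → r2' ≤ r2 + 1 →
  ∀ i, |eA k (wn r1 r2) (kp ε r1 r2) i - eA k (wn r1' r2') (kp ε' r1' r2') i| ≤ C / √k ∧
    |eB k (wn r1 r2) (kp ε r1 r2) i - eB k (wn r1' r2') (kp ε' r1' r2') i| ≤ C / √k

/-- C4 (nearby centers). PROOF. For a point `P a` with `P a 1 ≠ Q 1` the function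
`c ↦ ky P c a` is continuous at `Q`, and for two such points
`ky P Q a = ky P Q b` if and only if `cr (P a - Q) (P b - Q) = 0`. So there is `δ > 0` such that for
`dist c Q < δ`: for all `a` with `P a 1 ≠ Q 1` the sign (`c 1 < P a 1`) is the one of `Q`, and for
all `a, b` with `P a 1 ≠ Q 1`, `P b 1 ≠ Q 1`, `cr (P a - Q) (P b - Q) ≠ 0` the order of
`ky P c a` and `ky P c b` is strict and the one of `Q`. Let `c, c'` be two such points,
`f i = (od P c').symm (od P c i)`, `Y` the set of the `i` with `P (od P c i) 1 = Q 1` (at most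
one, by `GP`). For `i < j` not in `Y` with `f j < f i`, with `a = od P c i`, `b = od P c j`,
`ky P c a ≤ ky P c b` and `ky P c' b ≤ ky P c' a` (`Tuple.monotone_sort`), so
`cr (P a - Q) (P b - Q) = 0`. For given `a` (with `P a ≠ Q`) there is at most one such `b ≠ a`:
otherwise `P a, P b, P b'` are on a line. Let `μ i` be the position (for `c`) of this `b` (and
`μ i = i` if there is none). -/
def Stmt_Nbh : Prop := ∀ (n : ℕ) (P : Fin n → E2), GP P → ∀ Q : E2, ∃ δ : ℝ, 0 < δ ∧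
  ∀ c c' : E2, dist c Q < δ → dist c' Q < δ → Cls 1 (sg P c) (sg P c')

/-- C5 (uniform version, uses C4). PROOF. The closed ball of radius `R` is compact, the balls
`ball Q (δ_Q)` of C4 cover it; take a Lebesgue number (`lebesgue_number_lemma_of_metric`). -/
def Stmt_Uni : Prop := ∀ (n : ℕ) (P : Fin n → E2), GP P → ∀ R : ℝ, ∃ δ : ℝ, 0 < δ ∧
  ∀ c c' : E2, ‖c‖ ≤ R → ‖c'‖ ≤ R → dist c c' < δ → Cls 1 (sg P c) (sg P c')

/-- C6 (extreme centers). PROOF. The first two are clear. Third: `0 < P a 0 - c 0` for all `a`; if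
`c 1 < P a 1` then `ky < 0`, otherwise `0 ≤ ky` (it is `0` if `P a 1 = c 1`, division by zero). The
keys are increasing in the order `od`, so the negative ones, with sign `true`, come first. Fourth:
`P a 0 - c 0 < 0`; `0 < ky` if `c 1 < P a 1`, otherwise `ky ≤ 0`. -/
def Stmt_Bdy : Prop := ∀ (n : ℕ) (P : Fin n → E2) (c : E2),
  ((∀ a, c 1 < P a 1) → ∀ i, sg P c i = true) ∧ ((∀ a, P a 1 ≤ c 1) → ∀ i, sg P c i = false) ∧
  ((∀ a, c 0 < P a 0) → ∃ j : ℕ, ∀ i, sg P c i = decide ((i : ℕ) < j)) ∧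
  ((∀ a, P a 0 < c 0) → ∃ j : ℕ, ∀ i, sg P c i = decide (j ≤ (i : ℕ)))

/-- the vertical error -/
noncomputable def G1 {n : ℕ} (k : ℕ) (w : Fin n → Fin 3) (κ : Fin n → Bool) : ℝ :=
  (eA k w κ 0 - eB k w κ 0) + (eA k w κ 2 - eB k w κ 2)

/-- the horizontal error -/
noncomputable def G2 {n : ℕ} (k : ℕ) (w : Fin n → Fin 3) (κ : Fin n → Bool) : ℝ :=
  (eA k w κ 0 - eB k w κ 0) - (eA k w κ 2 - eB k w κ 2)

/-- C7. PROOF. `eA + eB = (a_i + b_i) / k - 1 - u v (u - v) d_i`, `|d_i| ≤ 1` and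
`(u v (u - v))² ≤ 1 / 108 ≤ (97 / 1000)²` (with `t = u v ≤ 1/4`: `t² (1 - 4 t) ≤ 1 / 108`). -/
def Stmt_Nu1 : Prop := ∀ (k : ℕ) (w : Fin (3 * k) → Fin 3) (κ : Fin (3 * k) → Bool) (i : Fin 3),
  1 ≤ k → |eA k w κ i + eB k w κ i -
    ((((sA w κ i).card : ℝ) + (sB w κ i).card) / k - 1)| ≤ 97 / 1000

/-- C7a. PROOF. `eA i - eB i = (a_i - b_i) / k - (u - v) - u v d_i`. `d_0 + d_2 = st 0 - st 2` is in
`[-1, 1]`, `d_0 - d_2 = 2 st 1 - st 0 - st 2` is in `[-2, 2]`, and `0 ≤ u v ≤ 1/4`. -/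
def Stmt_GG : Prop := ∀ (k : ℕ) (w : Fin (3 * k) → Fin 3) (κ : Fin (3 * k) → Bool), 1 ≤ k →
  |G1 k w κ - ((((sA w κ 0).card : ℝ) - (sB w κ 0).card + (sA w κ 2).card - (sB w κ 2).card) / k -
    2 * (uu κ - vv κ))| ≤ 1 / 4 ∧
  |G2 k w κ - (((sA w κ 0).card : ℝ) - (sB w κ 0).card - (sA w κ 2).card +
    (sB w κ 2).card) / k| ≤ 1 / 2

/-- C8 (boundary values, uses C7a). PROOF. Let `x = r1 / k`, `y = (3 k - r2) / k` be the sizes of the windows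
0 and 2, between `0.9` and `1.1`; the window 1 has size `3 - x - y`. In units of `k`
`G1 = (a_0 - b_0 + a_2 - b_2) - 2 (u - v) - u v (d_0 + d_2)`,
`G2 = (a_0 - b_0 - a_2 + b_2) - u v (d_0 - d_2)`, where `|u v (d_0 + d_2)| ≤ 1/4`
(`d_0 + d_2 = st 0 - st 2`) and `|u v (d_0 - d_2)| ≤ 1/2` (`d_0 - d_2 = 2 st 1 - st 0 - st 2`).
All signs `true`: `a_0 = x`, `b_1 = 3 - x - y`, `a_2 = y`, `u - v = (2 (x + y) - 3) / 3`,
`G1 ≥ (x + y) - 2 (2 (x + y) - 3) / 3 - 1/4 = 2 - (x + y) / 3 - 1/4 ≥ 1/2`. All `false`: the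
same with the opposite sign.
`ε i = (i < j)`, `t = j / k`. Case `t ≤ x`: `a_0 = t`, `b_0 = x - t`, the other windows have sign
`false`: `a_1 = 3 - x - y`, `b_2 = y`, `u - v = (2 t + 3 - 2 x - 2 y) / 3`. If
`G2 ≤ 0` then `2 t ≤ x - y + 1/2`, and
`G1 ≤ 2 t - x - y - 2 (2 t + 3 - 2 x - 2 y) / 3 + 1/4 = 2 t / 3 + (x + y) / 3 - 7/4
 ≤ 2 x / 3 + 1/6 - 7/4 < - 1/2`. Case `x ≤ t ≤ 3 - y`: `a_0 = x`, `b_2 = y`,
`G2 ≥ x + y - 1/2 > 0`. Case `3 - y ≤ t`, `t' = t - 3 + y` (and `t' ≤ y`, or all signs are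
`true`, where `G1 ≥ 1/2`): `a_0 = x`, `b_1 = 3 - x - y`, `a_2 = t'`, `b_2 = y - t'`,
`u - v = (2 x + 2 t' - 3) / 3`. If `G2 ≤ 0` then `2 t' ≥ x + y - 1/2`, and
`G1 ≥ x + 2 t' - y - 2 (2 x + 2 t' - 3) / 3 - 1/4 = - x / 3 + 2 t' / 3 - y + 7/4
 ≥ - 2 y / 3 - 1/6 + 7/4 > 1/2`.
`ε i = (j ≤ i)`: the opposite signs; the exchange of the colours exchanges `eA` and `eB`
(`st` becomes `1 - st`, `u` and `v` are exchanged), so `G1, G2` become `-G1, -G2`. -/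
def Stmt_Nu2 : Prop := ∀ (k r1 r2 : ℕ) (ε : Fin (3 * k) → Bool), 1 ≤ k → r1 ≤ r2 → r2 ≤ 3 * k →
  9 * k ≤ 10 * r1 → 10 * r1 ≤ 11 * k → 9 * k + 10 * r2 ≤ 30 * k → 30 * k ≤ 11 * k + 10 * r2 →
  ((∀ i, ε i = true) → 1 / 2 ≤ G1 k (wn r1 r2) (kp ε r1 r2)) ∧
  ((∀ i, ε i = false) → G1 k (wn r1 r2) (kp ε r1 r2) ≤ -(1 / 2)) ∧
  ((∃ j : ℕ, ∀ i, ε i = decide ((i : ℕ) < j)) → G2 k (wn r1 r2) (kp ε r1 r2) ≤ 0 →
    1 / 2 ≤ |G1 k (wn r1 r2) (kp ε r1 r2)|) ∧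
  ((∃ j : ℕ, ∀ i, ε i = decide (j ≤ (i : ℕ))) → 0 ≤ G2 k (wn r1 r2) (kp ε r1 r2) →
    1 / 2 ≤ |G1 k (wn r1 r2) (kp ε r1 r2)|)

/-- C9 (the topological step, uses C3a, C7, C8 and
`Pool.Agent.Helper30.Hex.exists_simplex` with `n = 4`). PROOF. Let `lo = (9 k + 9) / 10`,
`hi = 11 k / 10`, `g t = hi - t * (hi - lo) / L` (natural division), decreasing from `hi` to `lo`
for `t ≤ L`, with steps at most 1 because `hi - lo ≤ k ≤ L`. For `p : Fin 4 → ℕ` with `p k ≤ L` let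
`ε = E (p 0) (p 1)`, `r1 = g (p 2)`, `r2 = 3 k - g (p 3)`, and let `G1, G2`,
`F = eA 0 + eB 0`, `F' = eA 2 + eB 2` be the values for `wn r1 r2`, `kp ε r1 r2`. Labels
(in `ZMod 2`): `b 0 p = 0` if `p 0 = 0`, `1` if `p 0 = L`, otherwise `0` if `0 < G2`, else `1`;
`b 1 p = 0` if `0 < G1`, else `1`; `b 2 p = 0` if `0 < F`, else `1`; `b 3 p = 0` if `0 < F'`,
else `1`. The boundary conditions `Bdry` hold: for `b 1` by C8 (`E x 0` all `true`, `E x L` all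
`false`); for `b 2`: if `p 2 = 0` the window 0 has size `hi ≥ 11 k / 10 - 1`, so
`F ≥ hi / k - 1 - 0.097 > 0` by C7 (`k ≥ 1000`); if `p 2 = L` it has size
`lo ≤ 9 k / 10 + 1`, so `F < 0`; the same for `b 3`. So there is a simplex `x, σ` with
`b i (vtx x σ i) ≠ b i (vtx x σ (i+1))` for `i < 4`. All its vertices are in the cube
`x k ≤ p k ≤ x k + 1`, and for two points `p, q` of this cube all of `eA i`, `eB i` differ at
most by `C' / √k` (C3a). So on the whole cube `|G1|, |F|, |F'| ≤ 4 C' / √k`. For `i = 0` let `p, q` be the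
two vertices with `b 0 p = 0`, `b 0 q = 1`. Then `0 < G2` at `p`: this is clear if `p 0 ≠ 0`,
and if `p 0 = 0` then `G2 ≤ 0` would give `|G1| ≥ 1/2` by C8, a contradiction for large `k`. In
the same way `G2 ≤ 0` at `q` (if `q 0 = L` then `0 ≤ G2` would give `|G1| ≥ 1/2`). So
`|G2| ≤ 4 C' / √k` on the cube. From `F, F', G1, G2` we get `eA 0, eB 0, eA 2, eB 2` (each is at
most `4 C' / √k`), and `eA 0 + eA 1 + eA 2 = 0`, `eB 0 + eB 1 + eB 2 = 0`, because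
`∑ a_i = 3 k u` and `∑ fA(d_i) = 3 (u³ + u v + u² v) = 3 u`, the same for `b`. -/
def Stmt_Grd : Prop := ∃ C : ℝ, 0 < C ∧ ∃ k₀ : ℕ, ∀ (k L : ℕ) (E : ℕ → ℕ → Fin (3 * k) → Bool),
  k₀ ≤ k → k ≤ L →
  (∀ x y x' y', x ≤ L → y ≤ L → x' ≤ L → y' ≤ L → x ≤ x' + 1 → x' ≤ x + 1 → y ≤ y' + 1 →
    y' ≤ y + 1 → Cls 1 (E x y) (E x' y')) →
  (∀ x i, x ≤ L → E x 0 i = true) → (∀ x i, x ≤ L → E x L i = false) →
  (∀ y, y ≤ L → ∃ j : ℕ, ∀ i, E 0 y i = decide ((i : ℕ) < j)) →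
  (∀ y, y ≤ L → ∃ j : ℕ, ∀ i, E L y i = decide (j ≤ (i : ℕ))) →
  ∃ x y r1 r2 : ℕ, x ≤ L ∧ y ≤ L ∧ r1 ≤ r2 ∧ r2 ≤ 3 * k ∧
    ∀ i, |eA k (wn r1 r2) (kp (E x y) r1 r2) i| ≤ C / √k ∧
      |eB k (wn r1 r2) (kp (E x y) r1 r2) i| ≤ C / √k

/-- C10 (without regularization). PROOF. It suffices to show `u v |st_j - s_j| ≤ C' / √k` for all
`j`, because `fA`, `fB` change by at most `u v |d - d'|`. Always `|st_j - s_j| ≤ 1`. If
`u < 4 C₁ / √k` or `v < 4 C₁ / √k` this is clear (`u v ≤ u, v`). Otherwise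
`a_j ≥ k (u³ + u v - C₁ / √k) ≥ k (3/4 u - C₁ / √k) ≥ k u / 2` (`u³ + u v = u (1 - u v)`),
`b_j ≥ k v / 2`, and with `M = k √k`, `a = a_j`, `b = b_j`, `N = cN`,
`|(N + M/2) / (a b + M) - N / (a b)| = M |a b / 2 - N| / (a b (a b + M)) ≤ M / (2 a b)
 ≤ 2 k √k / (k² u v)`. -/
def Stmt_Reg : Prop := ∀ C₁ : ℝ, 0 < C₁ → ∃ C : ℝ, 0 < C ∧ ∀ (k : ℕ)
  (w : Fin (3 * k) → Fin 3) (κ : Fin (3 * k) → Bool), 1 ≤ k →
  (∀ i, |eA k w κ i| ≤ C₁ / √k ∧ |eB k w κ i| ≤ C₁ / √k) → Bal k w κ (C * √k)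

/-- C11 (generic points are dense). PROOF. `Gn P c` fails only on finitely many lines:
`c 1 = P a 1`, and `cr (P a - c) (P b - c) = 0` with `P a ≠ P b`, which is an equation
`α c 0 + β c 1 = γ` with `(α, β) ≠ 0`. Finitely many lines do not cover a ball: choose
a direction which is not parallel to any of them; the line through `c` in this direction meets each of
them at most once. -/
def Stmt_Gen : Prop := ∀ (n : ℕ) (P : Fin n → E2), GP P → ∀ (c : E2) (δ : ℝ), 0 < δ →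
  ∃ c' : E2, dist c' c < δ ∧ Gn P c'

/-- C12 (a balanced point, uses C3a, C5, C6, C9, C10, C11). PROOF. Let `R > 0` be larger than
all `|P a 0|, |P a 1|`, `δ` the number of C5 for the radius `2 R + 1`, and
`L ≥ k` with `4 R / L < δ`, `E x y = sg P c_{x y}` with
`c_{x y} = (- R + 2 R x / L, - R + 2 R y / L)`. The hypotheses of C9 hold by C5 and C6
(`y = 0`: `c 1 = - R`, below all points). Let `x, y, r1, r2` be given by C9. By C11 there is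
a generic `c` with `dist c c_{x y} < min δ 1`; by C5 and C3a the errors `eA i, eB i` for `sg P c` are
at most `C' / √k`, and C10 gives the claim. -/
def Stmt_Ex : Prop := ∃ C₀ : ℝ, 0 < C₀ ∧ ∃ k₀ : ℕ, ∀ (k : ℕ) (P : Fin (3 * k) → E2), k₀ ≤ k →
  GP P → ∃ (c : E2) (r1 r2 : ℕ), Gn P c ∧ r1 ≤ r2 ∧
    Bal k (wn r1 r2) (kp (sg P c) r1 r2) (C₀ * √k)

end Pool.Agent.SKP
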