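import Pool.Agent.SKP.Defs

/-!
# Sierksma's bound in the plane (MP_001fdd_co): statements on points and half planes

`ip ν y` is the scalar product, `{y | a ≤ ip ν y}` a closed half plane. `n = 3 k` points `P`.
-/

set_option autoImplicit false

namespace Pool.Agent.SKP

open scoped Classical

/-- N1 (half planes and sequences). PROOF. For `a = od P c i` write `κ_i = ky P c a`; the `κ_i`
are increasing in `i` (`Tuple.monotone_sort`), and strictly because `κ_i = κ_j` would give
`cr (P a - c) (P b - c) = 0`. For all `ν`: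
`ip ν (P a - c) = (P a 1 - c 1) (ν 1 - ν 0 κ_i)`, and `sg P c i = true` iff `0 < P a 1 - c 1`.
Part 1: let `r : ℕ`, `r ≤ n` without loss of generality. Choose `τ` with `κ_i < τ` for `i < r`
and `τ < κ_i` for `r ≤ i`, and `ν = (-1, -τ)`: `ν 1 - ν 0 κ_i = κ_i - τ`, so for all `i`
`0 < ip ν (P a - c)` iff (`sg i = true` and `r ≤ i`) or (`sg i = false` and `i < r`), and
`ip ν (P a - c) ≠ 0`. Part 2: let `ν ≠ 0`. If `ν 0 = 0` then
`ip ν (P a - c) = ν 1 (P a 1 - c 1)`, take `r = 0` (`hp ε 0` is the set of the signs `true`). If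
`ν 0 ≠ 0` let `τ = ν 1 / ν 0`, `r = |{i : κ_i < τ}|`; for `κ_i ≠ τ` the sign of
`ν 1 - ν 0 κ_i = ν 0 (τ - κ_i)` is the one of `ν 0` iff `i < r`. -/
def Stmt_Hf : Prop := ∀ (n : ℕ) (P : Fin n → E2) (c : E2), Gn P c →
  (∀ r : ℕ, ∃ ν : E2, ν ≠ 0 ∧ ∀ i, (i ∈ hp (sg P c) r ↔ 0 < ip ν (P (od P c i) - c)) ∧
    ip ν (P (od P c i) - c) ≠ 0) ∧
  ∀ ν : E2, ν ≠ 0 → ∃ r : ℕ, (∀ i, ip ν (P (od P c i) - c) ≠ 0 →
      (i ∈ hp (sg P c) r ↔ 0 < ip ν (P (od P c i) - c))) ∨
    ∀ i, ip ν (P (od P c i) - c) ≠ 0 →
      (i ∈ hp (sg P c) r ↔ ip ν (P (od P c i) - c) < 0)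

/-- N2 (the triangle and the half planes). PROOF. If `c` is strictly inside, then
`0 = α ip ν (x - c) + β ip ν (y - c) + γ ip ν (z - c)`, so not all three are positive.
Conversely, let `c` be not strictly inside. If `c` is in the closed triangle, one coefficient is
`0` and `c` is on a line with two of the points, which is excluded. So `c` is not in the (compact
convex) triangle, and there is `ν` with `0 < ip ν (p - c)` for the three vertices (strict separation;
`ip` is the inner product of `E2`). -/
def Stmt_Sep : Prop := ∀ c x y z : E2, cr (x - c) (y - c) ≠ 0 → cr (y - c) (z - c) ≠ 0 →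
  cr (x - c) (z - c) ≠ 0 →
  (Sin c x y z ↔ ¬ ∃ ν : E2, 0 < ip ν (x - c) ∧ 0 < ip ν (y - c) ∧ 0 < ip ν (z - c))

/-- N3 (good triples are triangles, uses N1, N2). PROOF. If the triple is not good then for some
`r` it is contained in `hp r` or disjoint from it; the `ν` (or `-ν`) of N1 part 1 is positive on the
three vectors, so `Sin` fails by N2. If `Sin` fails then by N2 there is `ν` positive on the three
vectors, and N1 part 2 gives `r` such that the triple is contained in `hp r` or disjoint from
it. -/
def Stmt_GtS : Prop := ∀ (n : ℕ) (P : Fin n → E2) (c : E2), Gn P c →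
  ∀ i j l : Fin n, i ≠ j → j ≠ l → i ≠ l →
  (Gt (sg P c) {i, j, l} ↔ Sin c (P (od P c i)) (P (od P c j)) (P (od P c l)))

/-- N4 (depth, uses N1). PROOF. `hp r` is the set of the `i` with `0 < ip ν (P (od i) - c)`, where
`ip ν (P (od i) - c)` is never `0`; so `|hp r| ≥ k` by `Dep` for `ν`, and
`3 k - |hp r| ≥ k` by `Dep` for `-ν`. -/
def Stmt_Dhp : Prop := ∀ (k : ℕ) (P : Fin (3 * k) → E2) (c : E2), Gn P c → Dep P k c →
  ∀ r : ℕ, k ≤ (hp (sg P c) r).card ∧ (hp (sg P c) r).card ≤ 2 * k

/-- N5 (intersections of three half planes). Every `(ν j, a j)` is of type H (its complement has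
at most `k - 1` points) or of type G (it has at least `3 o + 1` points of every cluster). PROOF.
Write `G_j = {y | a j ≤ ip (ν j) y}`. FACT 1: if `c₀ ∉ G` and `G` is of type H then there is
an `i` such that no point of `D i` is in `G`, and for the other two indices at most `o - 1`
points of `D l` are not in `G`. (If every `D i` has a point in `G`, the rainbow triangle is in `G`
and contains `c₀`, a contradiction. The complement has at most `k - 1` points, and
`|D i| ≥ k - o` of them are in `D i`.) FACT 2: in this situation (say `i = 0`) choose `p ∈ D 0` and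
let `c₁` be the point of the ray `c₀ + t (c₀ - P p)`, `t > 0`, on the border of `G`. It exists,
and for all `q ∈ D 1`, `q' ∈ D 2` with `P q, P q' ∈ G` and all `p' ∈ D 0`: `c₁` is in the triangle
`P p', P q, P q'`. Indeed by `Sin c₀ (P p) (P q) (P q')` the ray meets the segment
`[P q, P q'] ⊆ G` in a point `y`, so `c₁ ∈ [c₀, y]`, and `c₀` and `y` are in the triangle.
FACT 3: if `c₁` is not in a half plane `G'`, then no point of `D 0` is in `G'`, or no point of
`D 1` which is in `G` is in `G'`, or the same for `D 2` (otherwise the triangle of FACT 2 is in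
`G'`). Hence `c₁` is in every `G'` of type G: `G'` has at least `3 o + 1 ≥ o` points of each
`D l`, and at most `o - 1` points of `D 1`, `D 2` are outside `G`.
Now the cases. Three of type H: the complements have together at most `3 k - 3` points, some
`P x` is in all three. No `G_j` of type H avoids `c₀`: then `c₀` is in all (type G contains a
rainbow triangle). One of type H avoids `c₀` (call it `G`), the other two of type G, or of type H
containing `c₁`: `c₁` is in all three. So let `G` of type H with `c₀ ∉ G`, `G'` of type H with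
`c₁ ∉ G'`, `G''` of type G. If one of the points of `D 1` or `D 2` which are in `G` and `G''` is in
`G'` we are done. Otherwise the at least `3 o + 1 - (o - 1) = 2 o + 2` such points of `D 1`, and
the same number of `D 2`, are outside `G'`. By FACT 3 the complement of `G'` contains all points
of `D 0`, or all points of `D 1` in `G`, or all points of `D 2` in `G`, at least
`k - o - (o - 1)`; with the `2 o + 2` points of another cluster these are at least `k + 3`
points outside `G'`, a contradiction. (The same if two indices `j` coincide in their role; all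
points used are in the convex hull of the points: `c₀`, `c₁`, `P x`.) -/
def Stmt_Tri : Prop := ∀ (k o : ℕ) (P : Fin (3 * k) → E2) (D : Fin 3 → Finset (Fin (3 * k)))
  (c₀ : E2) (ν : Fin 3 → E2) (a : Fin 3 → ℝ), 1 ≤ o → 10 * o ≤ k →
  (∀ i j, i ≠ j → Disjoint (D i) (D j)) → (∀ i, k ≤ (D i).card + o) →
  (∀ x : Fin 3 → Fin (3 * k), (∀ i, x i ∈ D i) → Sin c₀ (P (x 0)) (P (x 1)) (P (x 2))) →
  (∀ j, (Finset.univ.filter fun x => ip (ν j) (P x) < a j).card + 1 ≤ k ∨
    ∀ i, 3 * o + 1 ≤ ((D i).filter fun x => a j ≤ ip (ν j) (P x)).card) →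
  ∃ y ∈ convexHull ℝ (Set.range P), ∀ j, a j ≤ ip (ν j) y

/-- N6 (Helly, uses N5). PROOF. Apply `Convex.helly_theorem_compact'` to the compact convex sets
`{y ∈ convexHull ℝ (Set.range P) | a ≤ ip ν y}`, for all `(ν, a)` of type H or G; any at most three
of them have a common point by N5 (repeat one of them if there are less than three; if there is
none, use `P x`). Let `c` be a common point. `Dep P k c`: let `ν ≠ 0` with less than `k` points
in `{0 ≤ ip ν (P x - c)}`; choose `δ > 0` such that no point has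
`- δ ≤ ip ν (P x - c) < 0`. The half plane `{y | ip (-ν) y ≥ ip (-ν) c + δ}` has the complement
`{- δ < ip ν (y - c)}` with less than `k` points, so it is of type H, and `c` is not in
it. `Nea P D (3 o) c`: let `ν ≠ 0`, and assume that all clusters have at least `3 o + 1` points
with `ip ν (P x - c) < 0`; choose `δ > 0` with `ip ν (P x - c) ≤ - δ` for all points with
a negative value. The same half plane is of type G and does not contain `c`. -/
def Stmt_Hel : Prop := ∀ (k o : ℕ) (P : Fin (3 * k) → E2) (D : Fin 3 → Finset (Fin (3 * k)))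
  (c₀ : E2), 1 ≤ o → 10 * o ≤ k →
  (∀ i j, i ≠ j → Disjoint (D i) (D j)) → (∀ i, k ≤ (D i).card + o) →
  (∀ x : Fin 3 → Fin (3 * k), (∀ i, x i ∈ D i) → Sin c₀ (P (x 0)) (P (x 1)) (P (x 2))) →
  ∃ c : E2, Dep P k c ∧ Nea P D (3 * o) c

/-- N7 (the thin directions). PROOF. Let `T` be the set of the unit vectors `ν` with at most
`k - 1` points in the open half plane `{0 < ip ν (P x - c)}`. `T` is closed (if `ν_j → ν` then
`0 < ip ν (P x - c)` implies `0 < ip ν_j (P x - c)` for large `j`), hence compact, and its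
convex hull is compact. `0` is not in the convex hull: by Caratheodory
(`eq_pos_convex_span_of_mem_convexHull`) `0 = ∑ λ_i ν_i` with at most three `ν_i ∈ T` and
`λ_i > 0`; for every point `x`, `∑ λ_i ip ν_i (P x - c) = 0`, so some
`ip ν_i (P x - c)` is positive or all are `0`. By `GP` at most two points have
`ip ν_1 (P x - c) = 0` (a line contains at most two of the points), so
`3 k ≤ 3 (k - 1) + 2`, a contradiction. Separate `0` from the convex hull. -/
def Stmt_Thi : Prop := ∀ (k : ℕ) (P : Fin (3 * k) → E2) (c : E2), 1 ≤ k → GP P →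
  ∃ v : E2, ∀ ν : E2, ν ≠ 0 → (Finset.univ.filter fun x => 0 < ip ν (P x - c)).card < k →
    ip ν v < 0

/-- N8 (perturbation of the center, uses N7 and C11 of `StC`). PROOF. Let `v` be the vector of
N7. CLAIM: there is `δ > 0` such that for `0 < ε < δ`, `‖v' - v‖ < δ` the point
`c' = c + ε v'` has `Dep P k c'` and `Nea P D (t + 2) c'`. Otherwise there are
`ε_j → 0`, `v_j → v` and unit vectors `ν_j`, after passing to a subsequence `ν_j → ν`, such that
one of the two conditions fails for `c_j = c + ε_j v_j` and `ν_j`, for all `j` the same one.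
Points with `0 < ip ν (P x - c)` have `0 < ip ν_j (P x - c_j)` for large `j`.
`Dep`: less than `k` points have `0 ≤ ip ν_j (P x - c_j)`, so less than `k` points have
`0 < ip ν (P x - c)`, so `ip ν v < 0` and `ip ν_j v_j < 0` for large `j`. Then
`ip ν_j (P x - c_j) = ip ν_j (P x - c) - ε_j ip ν_j v_j ≥ ip ν_j (P x - c)`, and at least `k`
points have `0 ≤ ip ν_j (P x - c)` by `Dep P k c`, a contradiction. `Nea`: for every `i` at
least `t + 3` points of `D i` have `ip ν_j (P x - c_j) < 0`, so at least `t + 3` points of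
`D i` have `ip ν (P x - c) ≤ 0` (for large `j`, for all `i`). For some `i` at most `t` points of
`D i` have `ip ν (P x - c) < 0`, and at most two points have `ip ν (P x - c) = 0`, a
contradiction. So the claim holds; the points `c + ε v'` (`ε` fixed) fill a ball, which
contains a generic point by C11 (the third hypothesis below). -/
def Stmt_Per : Prop := ∀ (k t : ℕ) (P : Fin (3 * k) → E2) (D : Fin 3 → Finset (Fin (3 * k)))
  (c : E2), 1 ≤ k → GP P →
  (∀ (c : E2) (δ : ℝ), 0 < δ → ∃ c' : E2, dist c' c < δ ∧ Gn P c') →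
  Dep P k c → Nea P D t c → ∃ c' : E2, Gn P c' ∧ Dep P k c' ∧ Nea P D (t + 2) c'

/-- N9 (two extreme vectors). PROOF. If `S` is empty there is nothing to show in the first case.
Otherwise write the elements as `s = α v + β v'` with `v' = (- v 1, v 0)`, `α > 0`
(`ip s v > 0` means `α > 0`), and take `s₁, s₂ ∈ S` with the smallest and the largest `β / α`.
Every `s ∈ S` is `λ s₁ + μ s₂` with `λ, μ ≥ 0`. If `ip s z < 0` then `ip s₁ z < 0` or
`ip s₂ z < 0`. -/
def Stmt_Two : Prop := ∀ (S : Finset E2) (v : E2), (∀ s ∈ S, 0 < ip s v) →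
  S = ∅ ∨ ∃ s₁ ∈ S, ∃ s₂ ∈ S, ∀ s ∈ S, ∀ z : E2, ip s z < 0 → ip s₁ z < 0 ∨ ip s₂ z < 0

/-- N10 (from half planes to clusters, uses N2, N9). PROOF. For `i` let `T_i` be the set of the
unit vectors `ν` with `|{x ∈ D i : ip ν (P x - c) < 0}| ≤ t`, closed and compact as in N7.
`0` is not in the convex hull of `T_i`: otherwise `0 = ∑ λ_j ν_j` with at most three
`ν_j ∈ T_i`, `λ_j > 0`; for every `x ∈ D i` some `ip ν_j (P x - c) < 0` or all are `0`; the latter
holds for at most one `x` (by `Gn` two points are not on a line with `c`), so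
`|D i| ≤ 3 t + 1`, a contradiction. So there is `v_i` with `0 < ip ν v_i` for all `ν ∈ T_i`
(separation; any vector if `T_i` is empty). Let
`D' i = {x ∈ D i : 0 ≤ ip ν (P x - c) for all ν ∈ T_i}`. For `x ∈ D i \ D' i` choose
`ν_x ∈ T_i` with `ip ν_x (P x - c) < 0`; N9 for the set of these vectors gives `s₁, s₂ ∈ T_i`
such that every such `x` has `ip s₁ (P x - c) < 0` or `ip s₂ (P x - c) < 0`, so there are at most
`2 t` of them. Let `x i ∈ D' i` for all `i`. If `Sin` fails, by N2 there is `ν` with
`ip ν (P (x i) - c) < 0` for all `i` (change the sign), a unit vector without loss of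
generality, and by `Nea` it is in some `T_i`, so `0 ≤ ip ν (P (x i) - c)`, a contradiction. -/
def Stmt_Clc : Prop := ∀ (n t : ℕ) (P : Fin n → E2) (D : Fin 3 → Finset (Fin n)) (c : E2),
  Gn P c → Nea P D t c → (∀ i j, i ≠ j → Disjoint (D i) (D j)) →
  (∀ i, 3 * t + 2 ≤ (D i).card) →
  ∃ D' : Fin 3 → Finset (Fin n), (∀ i, D' i ⊆ D i) ∧ (∀ i, (D i).card ≤ (D' i).card + 2 * t) ∧
    ∀ x : Fin 3 → Fin n, (∀ i, x i ∈ D' i) → Sin c (P (x 0)) (P (x 1)) (P (x 2))

/-- N11 (near clusters, uses N3, N4, N6, N8, N10, C11 and S3). PROOF. Let `D` be the clusters of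
positions for `sg P c₀`, `o' = o + 1`. The sets `D₁ i = (D i).map (od P c₀)` of indices of points
have rainbow triangles which contain `c₀` strictly (N3). N6 gives `c` with `Dep P k c` and
`Nea P D₁ (3 o') c`, N8 (with C11) a generic `c'` with `Dep P k c'`, `Nea P D₁ (3 o' + 2) c'`. As
`|D₁ i| ≥ k - o' ≥ 3 (3 o' + 2) + 2`, N10 gives `D' i ⊆ D₁ i` with
`|D' i| ≥ k - o' - 2 (3 o' + 2) = k - (7 o' + 4)`. Apply S3 to `ε = sg P c'`, the sets of the
positions of the `D' i` (good by N3) and `r = 7 o' + 4`; the hypothesis on `hp` is N4.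
`3 r = 21 o + 33`. -/
def Stmt_GeoN : Prop := ∀ (k o : ℕ) (P : Fin (3 * k) → E2) (c₀ : E2), 100 * (o + 1) ≤ k → GP P →
  Gn P c₀ → Clu (Gt (sg P c₀)) k o →
  ∃ c : E2, Gn P c ∧ ((k - (21 * o + 33)).factorial) ^ 2 ≤ (Pk (Gt (sg P c)) k).card

end Pool.Agent.SKP
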