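import Pool.Agent.SKP.StS
import Pool.Agent.SKP.StC
import Pool.Agent.SKP.StN
import Pool.Agent.SKP.StA

/-!
# Sierksma's bound in the plane (MP_001fdd_co): generic point sets (Comb)
-/

set_option autoImplicit false

namespace Pool.Agent.SKP

open scoped Classical

private lemma fact_le (k j : ℕ) (hj : j ≤ k) :
    (k.factorial : ℝ) ≤ ((k - j).factorial : ℝ) * (k : ℝ) ^ j := by
  have h1 : k.factorial = (k - j).factorial * (k.descFactorial j) := by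
    rw [Nat.factorial_mul_descFactorial hj]
  have h2 : k.descFactorial j ≤ k ^ j := Nat.descFactorial_le_pow k j
  rw [h1]
  push_cast
  have h3 : ((k.descFactorial j : ℕ) : ℝ) ≤ (k : ℝ) ^ j := by exact_mod_cast h2
  exact mul_le_mul_of_nonneg_left h3 (by positivity)

private lemma large (C₁ : ℝ) : ∃ k₁ : ℕ, ∀ k : ℕ, k₁ ≤ k →
    100 * (C₁ * (k : ℝ) ^ (11 / 12 : ℝ) + 2) ≤ k ∧ 1 ≤ (k : ℝ) ^ (11 / 12 : ℝ) := by
  have h1 : Filter.Tendsto (fun k : ℕ => (k : ℝ) ^ (1 / 12 : ℝ)) Filter.atTop Filter.atTop :=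
    (tendsto_rpow_atTop (by norm_num)).comp tendsto_natCast_atTop_atTop
  have h2 := h1.eventually_ge_atTop (100 * C₁ + 200)
  obtain ⟨k₁, hk₁⟩ := Filter.eventually_atTop.1 h2
  refine ⟨max k₁ 1, fun k hk => ?_⟩
  have hk1 : (1 : ℝ) ≤ k := by
    have : 1 ≤ k := le_trans (le_max_right _ _) hk
    exact_mod_cast this
  have hkk := hk₁ k (le_trans (le_max_left _ _) hk)
  have h3 : (1 : ℝ) ≤ (k : ℝ) ^ (11 / 12 : ℝ) := Real.one_le_rpow hk1 (by norm_num)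
  have h4 : (k : ℝ) = (k : ℝ) ^ (11 / 12 : ℝ) * (k : ℝ) ^ (1 / 12 : ℝ) := by
    rw [← Real.rpow_add (by linarith)]
    norm_num
  refine ⟨?_, h3⟩
  have h5 : (k : ℝ) ^ (11 / 12 : ℝ) * (100 * C₁ + 200) ≤ k := by
    conv_rhs => rw [h4]
    exact mul_le_mul_of_nonneg_left hkk (by linarith)
  nlinarith

theorem thm_Comb : Stmt_Ex → Stmt_SeqF → Stmt_GeoN → Stmt_Comb := by
  intro hEx hSeq hGeo
  obtain ⟨C₀, hC₀, k₀, hEx⟩ := hEx
  obtain ⟨C₁, hC₁, k₁, hSeq⟩ := hSeq C₀ hC₀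
  obtain ⟨k₂, hk₂⟩ := large C₁
  refine ⟨42 * C₁ + 108, by linarith, max (max k₀ k₁) (max k₂ 3), fun k P hk hP => ?_⟩
  have hk0 : k₀ ≤ k := le_trans (le_max_left _ _) (le_trans (le_max_left _ _) hk)
  have hk1 : k₁ ≤ k := le_trans (le_max_right _ _) (le_trans (le_max_left _ _) hk)
  have hk2 : k₂ ≤ k := le_trans (le_max_left _ _) (le_trans (le_max_right _ _) hk)
  have hk3 : 3 ≤ k := le_trans (le_max_right _ _) (le_trans (le_max_right _ _) hk)
  have hk3' : (3 : ℝ) ≤ k := by exact_mod_cast hk3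
  obtain ⟨hl, h1⟩ := hk₂ k hk2
  have hlog : 0 ≤ Real.log k := Real.log_nonneg (by linarith)
  obtain ⟨c₀, r1, r2, hG, hr, hB⟩ := hEx k P hk0 hP
  set X : ℝ := (k : ℝ) ^ (11 / 12 : ℝ) with hX
  have ho1 : C₁ * X ≤ (⌈C₁ * X⌉₊ : ℝ) := Nat.le_ceil _
  have ho2 : (⌈C₁ * X⌉₊ : ℝ) < C₁ * X + 1 := Nat.ceil_lt_add_one (by positivity)
  rcases hSeq k (sg P c₀) r1 r2 ⌈C₁ * X⌉₊ hk1 hr hB ho1 with h | h
  · have h100 : 100 * (⌈C₁ * X⌉₊ + 1) ≤ k := by
      have : (100 * (⌈C₁ * X⌉₊ + 1) : ℝ) ≤ k := by linarith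
      exact_mod_cast this
    obtain ⟨c, hc, hP2⟩ := hGeo k ⌈C₁ * X⌉₊ P c₀ h100 hP hG h
    refine ⟨c, hc, ?_⟩
    set o : ℕ := ⌈C₁ * X⌉₊ with ho
    have hjk : 21 * o + 33 ≤ k := by omega
    have hf := fact_le k (21 * o + 33) hjk
    have hP3 : (((k - (21 * o + 33)).factorial : ℕ) : ℝ) ^ 2 ≤
        ((Pk (Gt (sg P c)) k).card : ℝ) := by exact_mod_cast hP2
    have hkpow : ((k : ℝ) ^ (21 * o + 33)) ^ 2 ≤
        Real.exp ((42 * C₁ + 108) * X * Real.log k) := by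
      have hk0' : (0 : ℝ) < k := by linarith
      have : (k : ℝ) ^ (21 * o + 33) = Real.exp (((21 * o + 33 : ℕ) : ℝ) * Real.log k) := by
        rw [Real.exp_nat_mul, Real.exp_log hk0']
      rw [this, ← Real.exp_nat_mul]
      apply Real.exp_le_exp.2
      have h5 : ((2 : ℕ) : ℝ) * (((21 * o + 33 : ℕ) : ℝ) * Real.log k) =
          (42 * (o : ℝ) + 66) * Real.log k := by
        push_cast
        ring
      rw [h5]
      apply mul_le_mul_of_nonneg_right _ hlog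
      nlinarith
    calc (k.factorial : ℝ) ^ 2
        ≤ (((k - (21 * o + 33)).factorial : ℝ) * (k : ℝ) ^ (21 * o + 33)) ^ 2 :=
          pow_le_pow_left₀ (by positivity) hf 2
      _ = ((k : ℝ) ^ (21 * o + 33)) ^ 2 * (((k - (21 * o + 33)).factorial : ℕ) : ℝ) ^ 2 := by
          ring
      _ ≤ Real.exp ((42 * C₁ + 108) * X * Real.log k) * ((Pk (Gt (sg P c)) k).card : ℝ) :=
          mul_le_mul hkpow hP3 (by positivity) (by positivity)
  · refine ⟨c₀, hG, le_trans h ?_⟩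
    apply mul_le_mul_of_nonneg_right _ (by positivity)
    apply Real.exp_le_exp.2
    apply mul_le_mul_of_nonneg_right _ hlog
    apply mul_le_mul_of_nonneg_right _ (by linarith)
    linarith

end Pool.Agent.SKP
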