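import Pool.Agent.SKP.StA

/-!
# Sierksma's bound in the plane (MP_001fdd_co): the main inequality
-/

set_option autoImplicit false

namespace Pool.Agent.SKP

open scoped Classical Topology
open Pool.Agent.Tvb (Pos Zero Base Good hat TP)
open Pool.Agent.Tvo (PP so ind)
open Pool.Agent.Tvv (J Lb ev UU dd)

/-- neighbourhoods -/
private lemma Con_nhds {k : ℕ} (u₀ : J k 3 → J k 3 → ℝ) (ω₀ : J k 3 → ℝ)
    (Q : (J k 3 → J k 3 → ℝ) × (J k 3 → ℝ) → Prop) (h : ∀ᶠ p in 𝓝 (u₀, ω₀), Q p) :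
    ∃ δ : ℝ, 0 < δ ∧ ∀ (u : J k 3 → J k 3 → ℝ) (ω : J k 3 → ℝ), (∀ a, ‖u a - u₀ a‖ < δ) →
      ‖ω - ω₀‖ < δ → Q (u, ω) := by
  obtain ⟨ε, hε, h1⟩ := Metric.eventually_nhds_iff.mp h
  refine ⟨ε, hε, fun u ω hu hω => h1 ?_⟩
  rw [Prod.dist_eq, max_lt_iff]
  refine ⟨?_, by rw [dist_eq_norm]; exact hω⟩
  rw [dist_pi_lt_iff hε]
  intro a
  rw [dist_eq_norm]
  exact hu a

private lemma Con_cont_det {k : ℕ} :
    Continuous fun p : (J k 3 → J k 3 → ℝ) × (J k 3 → ℝ) => Matrix.det (Matrix.of p.1) := by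
  refine Continuous.matrix_det ?_
  exact continuous_fst

private lemma Con_cont_num {k : ℕ} (a : J k 3) :
    Continuous fun p : (J k 3 → J k 3 → ℝ) × (J k 3 → ℝ) =>
      (Matrix.vecMul p.2 (Matrix.adjugate (Matrix.of p.1))) a := by
  have h1 : Continuous fun p : (J k 3 → J k 3 → ℝ) × (J k 3 → ℝ) => Matrix.adjugate (Matrix.of p.1) :=
    Continuous.matrix_adjugate (by exact continuous_fst)
  have h2 : Continuous fun p : (J k 3 → J k 3 → ℝ) × (J k 3 → ℝ) =>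
      Matrix.vecMul p.2 (Matrix.adjugate (Matrix.of p.1)) := Continuous.matrix_vecMul continuous_snd h1
  exact (continuous_apply a).comp h2

/-- the sign of the determinant is locally constant -/
private lemma Con_sign {k : ℕ} (u₀ : J k 3 → J k 3 → ℝ) (ω₀ : J k 3 → ℝ)
    (h : Matrix.det (Matrix.of u₀) ≠ 0) :
    ∀ᶠ p : (J k 3 → J k 3 → ℝ) × (J k 3 → ℝ) in 𝓝 (u₀, ω₀),
      SignType.sign (Matrix.det (Matrix.of p.1)) = SignType.sign (Matrix.det (Matrix.of u₀)) := by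
  have hc := (Con_cont_det (k := k)).continuousAt (x := (u₀, ω₀))
  rcases lt_or_gt_of_ne h with h1 | h1
  · filter_upwards [hc.eventually (gt_mem_nhds h1)] with p hp
    rw [sign_neg h1, sign_neg hp]
  · filter_upwards [hc.eventually (lt_mem_nhds h1)] with p hp
    rw [sign_pos h1, sign_pos hp]

private lemma Con_vecMul {k : ℕ} (c : J k 3 → ℝ) (u : J k 3 → J k 3 → ℝ) :
    ∑ a, c a • u a = Matrix.vecMul c (Matrix.of u) := by
  funext i
  rw [Finset.sum_apply]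
  rfl

/-- the open cone is stable -/
private lemma Con_pos {k : ℕ} (u₀ : J k 3 → J k 3 → ℝ) (ω₀ : J k 3 → ℝ)
    (h : Matrix.det (Matrix.of u₀) ≠ 0) (hp : Pos ω₀ u₀) :
    ∀ᶠ p : (J k 3 → J k 3 → ℝ) × (J k 3 → ℝ) in 𝓝 (u₀, ω₀), Pos p.2 p.1 := by
  obtain ⟨c, hc, hs⟩ := hp
  have h1 : ∀ a, (Matrix.vecMul ω₀ (Matrix.adjugate (Matrix.of u₀))) a =
      Matrix.det (Matrix.of u₀) * c a := by
    intro a
    rw [← hs, Con_vecMul, Matrix.vecMul_vecMul, Matrix.mul_adjugate, Matrix.vecMul_smul, Matrix.vecMul_one]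
    rfl
  have h2 : ∀ a, ∀ᶠ p : (J k 3 → J k 3 → ℝ) × (J k 3 → ℝ) in 𝓝 (u₀, ω₀),
      0 < (Matrix.vecMul p.2 (Matrix.adjugate (Matrix.of p.1))) a / Matrix.det (Matrix.of p.1) := by
    intro a
    have hc1 : ContinuousAt (fun p : (J k 3 → J k 3 → ℝ) × (J k 3 → ℝ) =>
        (Matrix.vecMul p.2 (Matrix.adjugate (Matrix.of p.1))) a / Matrix.det (Matrix.of p.1)) (u₀, ω₀) :=
      (Con_cont_num a).continuousAt.div Con_cont_det.continuousAt h
    refine hc1.eventually (lt_mem_nhds ?_)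
    show 0 < (Matrix.vecMul ω₀ (Matrix.adjugate (Matrix.of u₀))) a / Matrix.det (Matrix.of u₀)
    rw [h1 a, mul_div_cancel_left₀ _ h]
    exact hc a
  have h3 : ∀ᶠ p : (J k 3 → J k 3 → ℝ) × (J k 3 → ℝ) in 𝓝 (u₀, ω₀),
      Matrix.det (Matrix.of p.1) ≠ 0 :=
    Con_cont_det.continuousAt.eventually_ne h
  filter_upwards [h3, Filter.eventually_all.mpr h2] with p hp3 hp2
  refine ⟨fun a => (Matrix.vecMul p.2 (Matrix.adjugate (Matrix.of p.1))) a / Matrix.det (Matrix.of p.1),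
    hp2, ?_⟩
  rw [Con_vecMul]
  have h4 : (fun a => (Matrix.vecMul p.2 (Matrix.adjugate (Matrix.of p.1))) a / Matrix.det (Matrix.of p.1)) =
      (Matrix.det (Matrix.of p.1))⁻¹ • Matrix.vecMul p.2 (Matrix.adjugate (Matrix.of p.1)) := by
    funext a
    rw [Pi.smul_apply, smul_eq_mul, div_eq_inv_mul]
  rw [h4, Matrix.smul_vecMul, Matrix.vecMul_vecMul, Matrix.adjugate_mul, Matrix.vecMul_smul, Matrix.vecMul_one,
    smul_smul, inv_mul_cancel₀ hp3, one_smul]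

/-- the closed cone -/
private lemma Con_cl (hLim : Stmt_Lim) {k : ℕ} (x : J k 3 → Fin 3 → ℝ) (s : Fin 3 → ℝ) (π : J k 3 → Lb k) :
    ∃ δ : ℝ, 0 < δ ∧ ∀ (u : J k 3 → J k 3 → ℝ) (ω : J k 3 → ℝ), (∀ a, ‖u a - UU x π a‖ < δ) →
      ‖ω - tn s‖ < δ → Pos ω u → CV x s π := by
  by_cases h : CV x s π
  · exact ⟨1, one_pos, fun _ _ _ _ _ => h⟩
  · by_contra hc
    push Not at hc
    apply h
    refine hLim (J k 3) (UU x π) (tn s) fun δ hδ => ?_
    obtain ⟨u, ω, h1, h2, h3, -⟩ := hc δ hδ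
    exact ⟨u, ω, h1, h2, h3⟩

private lemma Con_min {ι : Type} [Finite ι] (f : ι → ℝ) (hf : ∀ i, 0 < f i) :
    ∃ δ : ℝ, 0 < δ ∧ ∀ i, δ ≤ f i := by
  rcases isEmpty_or_nonempty ι with h | h
  · exact ⟨1, one_pos, fun i => (h.false i).elim⟩
  · obtain ⟨i₀, hi₀⟩ := Finite.exists_min f
    exact ⟨f i₀, hf i₀, hi₀⟩

private lemma Con_loc (hLim : Stmt_Lim) {k : ℕ} (x : J k 3 → Fin 3 → ℝ) (s z : Fin 3 → ℝ) (π : J k 3 → Lb k) :
    ∃ δ : ℝ, 0 < δ ∧ ∀ (u : J k 3 → J k 3 → ℝ) (ω ω' : J k 3 → ℝ), (∀ a, ‖u a - UU x π a‖ < δ) →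
      ‖ω - tn s‖ < δ → ‖ω' - tn z‖ < δ → (Pos ω u → CV x s π) ∧ (Pos ω' u → CV x z π) ∧
      (dd x π ≠ 0 → SignType.sign (Matrix.det (Matrix.of u)) = SignType.sign (dd x π)) ∧
      (dd x π ≠ 0 → Pos (tn z) (UU x π) → Pos ω' u) := by
  obtain ⟨δ₁, hδ₁, h1⟩ := Con_cl hLim x s π
  obtain ⟨δ₂, hδ₂, h2⟩ := Con_cl hLim x z π
  obtain ⟨δ₃, hδ₃, h3⟩ : ∃ δ : ℝ, 0 < δ ∧ ∀ (u : J k 3 → J k 3 → ℝ) (ω : J k 3 → ℝ),
      (∀ a, ‖u a - UU x π a‖ < δ) → ‖ω - tn z‖ < δ →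
      (dd x π ≠ 0 → SignType.sign (Matrix.det (Matrix.of u)) = SignType.sign (dd x π)) := by
    by_cases hd : dd x π = 0
    · exact ⟨1, one_pos, fun _ _ _ _ h => absurd hd h⟩
    · obtain ⟨δ, hδ, h⟩ := Con_nhds (UU x π) (tn z)
        (fun p => SignType.sign (Matrix.det (Matrix.of p.1)) = SignType.sign (Matrix.det (Matrix.of (UU x π))))
        (Con_sign (UU x π) (tn z) hd)
      exact ⟨δ, hδ, fun u ω hu hω _ => h u ω hu hω⟩
  obtain ⟨δ₄, hδ₄, h4⟩ : ∃ δ : ℝ, 0 < δ ∧ ∀ (u : J k 3 → J k 3 → ℝ) (ω : J k 3 → ℝ),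
      (∀ a, ‖u a - UU x π a‖ < δ) → ‖ω - tn z‖ < δ →
      (dd x π ≠ 0 → Pos (tn z) (UU x π) → Pos ω u) := by
    by_cases hd : dd x π = 0
    · exact ⟨1, one_pos, fun _ _ _ _ h => absurd hd h⟩
    · by_cases hp : Pos (tn z) (UU x π)
      · obtain ⟨δ, hδ, h⟩ := Con_nhds (UU x π) (tn z) (fun p => Pos p.2 p.1) (Con_pos (UU x π) (tn z) hd hp)
        exact ⟨δ, hδ, fun u ω hu hω _ _ => h u ω hu hω⟩
      · exact ⟨1, one_pos, fun _ _ _ _ _ h => absurd h hp⟩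
  refine ⟨min (min δ₁ δ₂) (min δ₃ δ₄), lt_min (lt_min hδ₁ hδ₂) (lt_min hδ₃ hδ₄), ?_⟩
  intro u ω ω' hu hω hω'
  simp only [lt_min_iff] at hu hω hω'
  exact ⟨h1 u ω (fun a => (hu a).1.1) hω.1.1, h2 u ω' (fun a => (hu a).1.2) hω'.1.2,
    h3 u ω' (fun a => (hu a).2.1) hω'.2.1, h4 u ω' (fun a => (hu a).2.2) hω'.2.2⟩

private lemma Con_sgn_abs (t : SignType) : |((t : SignType) : ℝ)| ≤ 1 := by
  cases t <;> simp

theorem thm_Con : Stmt_IGen → Stmt_Apx → Stmt_Wt → Stmt_Non → Stmt_Lim → Stmt_Con := by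
  intro hI hA hW hN hLim k x s z hGJ hx hs hz
  choose f hf hloc using Con_loc hLim x s z
  obtain ⟨δ, hδ, hδf⟩ := Con_min f hf
  obtain ⟨u, ω, ω', hu, hω, hω', hGood⟩ := hA (J k 3) (Lb k) (fun a l c => ev l c.1 * x a c.2) (tn s) (tn z) δ hδ
  obtain ⟨hW1, hW2, hW3⟩ := hW k x
  have hEq := hI (J k 3) (Lb k) u (WW x) ω ω' hW1 hGood
  have hL : ∀ π : J k 3 → Lb k, (Pos ω (fun a => u a (π a)) → CV x s π) ∧
      (Pos ω' (fun a => u a (π a)) → CV x z π) ∧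
      (dd x π ≠ 0 → SignType.sign (Matrix.det (Matrix.of fun a => u a (π a))) = SignType.sign (dd x π)) ∧
      (dd x π ≠ 0 → Pos (tn z) (UU x π) → Pos ω' (fun a => u a (π a))) := by
    intro π
    refine hloc π (fun a => u a (π a)) ω ω' (fun a => ?_) (hω.trans_le (hδf π)) (hω'.trans_le (hδf π))
    exact (hu a (π a)).trans_le (hδf π)
  have hPP : ∀ (v : J k 3 → ℝ) (π : J k 3 → Lb k), ((PP v (fun a => u a (π a)) : ℤ) : ℝ) =
      ((SignType.sign (Matrix.det (Matrix.of fun a => u a (π a))) : SignType) : ℝ) *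
        (if Pos v (fun a => u a (π a)) then 1 else 0) := by
    intro v π
    unfold PP so ind
    push_cast
    congr 1
  -- the left side
  have hleft : ∑ π : J k 3 → Lb k, WW x π * ((PP ω (fun a => u a (π a)) : ℤ) : ℝ) ≤
      2 * ((Finset.univ.filter fun π : J k 3 → Lb k => CV x s π).card : ℝ) := by
    have e1 : 2 * ((Finset.univ.filter fun π : J k 3 → Lb k => CV x s π).card : ℝ) =
        ∑ π : J k 3 → Lb k, if CV x s π then (2 : ℝ) else 0 := by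
      rw [← Finset.sum_filter, Finset.sum_const, nsmul_eq_mul, mul_comm]
    rw [e1]
    refine Finset.sum_le_sum fun π _ => ?_
    rw [hPP]
    by_cases hp : Pos ω (fun a => u a (π a))
    · have hcv := (hL π).1 hp
      rw [if_pos hp, if_pos hcv, mul_one]
      have h1 := (hW2 π (hN k x s π hGJ hx hs hcv)).1
      have h2 := Con_sgn_abs (SignType.sign (Matrix.det (Matrix.of fun a => u a (π a))))
      refine (le_abs_self _).trans ?_
      rw [abs_mul]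
      calc _ ≤ 2 * 1 := mul_le_mul h1 h2 (abs_nonneg _) (by norm_num)
        _ = (2 : ℝ) := by norm_num
    · rw [if_neg hp, mul_zero, mul_zero]
      split_ifs <;> norm_num
  -- the right side
  have hnn : ∀ π : J k 3 → Lb k, 0 ≤ WW x π * ((PP ω' (fun a => u a (π a)) : ℤ) : ℝ) := by
    intro π
    rw [hPP]
    by_cases hp : Pos ω' (fun a => u a (π a))
    · rw [if_pos hp, mul_one]
      have hcv := (hL π).2.1 hp
      obtain ⟨-, h2, h3⟩ := hW2 π (hN k x z π hGJ hx hz hcv)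
      by_cases h0 : WW x π = 0
      · rw [h0, zero_mul]
      · rw [(hL π).2.2.1 (h3 h0)]
        exact h2
    · rw [if_neg hp, mul_zero, mul_zero]
  have hright : ((Lbl x z : ℕ) : ℝ) ≤ ∑ π : J k 3 → Lb k, WW x π * ((PP ω' (fun a => u a (π a)) : ℤ) : ℝ) := by
    set R := Finset.univ.filter fun ρ : J k 3 → Fin k =>
      (∀ j, (Finset.univ.filter fun a => ρ a = j).card ≤ 3) ∧ Pos (tn z) (UU x fun a => some (ρ a)) with hR
    have hinj : Set.InjOn (fun (ρ : J k 3 → Fin k) (a : J k 3) => (some (ρ a) : Lb k)) (R : Set _) := by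
      intro ρ _ ρ' _ h
      funext a
      exact Option.some.inj (congrFun h a)
    have e1 : (Lbl x z : ℕ) = (R.image fun (ρ : J k 3 → Fin k) (a : J k 3) => (some (ρ a) : Lb k)).card := by
      rw [Finset.card_image_of_injOn hinj]
      rfl
    rw [e1]
    have e2 : (((R.image fun (ρ : J k 3 → Fin k) (a : J k 3) => (some (ρ a) : Lb k)).card : ℕ) : ℝ) =
        ∑ _π ∈ R.image (fun (ρ : J k 3 → Fin k) (a : J k 3) => (some (ρ a) : Lb k)), (1 : ℝ) := by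
      simp
    rw [e2]
    refine (Finset.sum_le_sum fun π hπ => ?_).trans
      (Finset.sum_le_sum_of_subset_of_nonneg (Finset.subset_univ _) fun π _ _ => hnn π)
    obtain ⟨ρ, hρ, rfl⟩ := Finset.mem_image.mp hπ
    obtain ⟨-, hρ1, hρ2⟩ := Finset.mem_filter.mp hρ
    have hd : dd x (fun a => some (ρ a)) ≠ 0 := by
      refine hGJ _ fun l => ?_
      cases l with
      | none => simp
      | some j =>
        have := hρ1 j
        simpa using this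
    have hp := (hL (fun a => some (ρ a))).2.2.2 hd hρ2
    rw [hPP, if_pos hp, mul_one, (hL (fun a => some (ρ a))).2.2.1 hd, hW3 ρ]
    unfold Fs
    rcases lt_or_gt_of_ne hd with h | h
    · rw [sign_neg h]
      norm_num
    · rw [sign_pos h]
      norm_num
  have hfin := hright.trans (hEq ▸ hleft)
  exact_mod_cast hfin

end Pool.Agent.SKP
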