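import Pool.Agent.SKP.StA
import Pool.Agent.Tvv.Cvx
import Pool.Agent.Tvv.Lab

/-!
# Project SKP (MP_001fdd_co), module Ctp: labellings and Tverberg partitions
-/

set_option autoImplicit false

namespace Pool.Agent.SKP

open scoped Classical
open Pool.Agent.Tvb (Pos Zero Base Good hat TP)
open Pool.Agent.Tvv (J Lb ev UU dd)

/-- the labelling with the label `none` at `none` -/
private def CtpF {k : ℕ} (π : J k 3 → Lb k) : Option (J k 3) → Lb k
  | none => none
  | some a => π a

/-- the coefficients -/
private def CtpC {k : ℕ} (b : ℝ) (c : J k 3 → ℝ) : Option (J k 3) → ℝ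
  | none => b
  | some a => c a

theorem thm_Ctp : Stmt_Ctp := by
  intro k S q
  set R : (Option (J k 3) → Lb k) → Prop := fun f => ∃ y : E2, ∀ h : Lb k,
    y ∈ convexHull ℝ ((fun i => (q i : E2)) '' {i | f i = h}) with hR
  set A : Finset (Option (J k 3) → Lb k) := Finset.univ.filter fun f => R f with hA
  have hcard : A.card ≤ (k + 1).factorial * (TP (k + 1) S).ncard :=
    Pool.Agent.Tvv.vLab k 2 S q A fun f hf => (Finset.mem_filter.1 hf).2
  -- the fibres
  set B : Lb k → Finset (Option (J k 3) → Lb k) := fun h => A.filter fun f => f none = h with hB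
  have hfib : A.card = ∑ h : Lb k, (B h).card :=
    Finset.card_eq_sum_card_fiberwise fun f _ => Finset.mem_coe.2 (Finset.mem_univ _)
  have hBle : ∀ h, (B none).card ≤ (B h).card := by
    intro h
    refine Finset.card_le_card_of_injOn (fun f => Equiv.swap none h ∘ f) ?_ ?_
    · intro f hf
      have hf' : f ∈ A ∧ f none = none := Finset.mem_filter.1 (Finset.mem_coe.1 hf)
      obtain ⟨y, hy⟩ := (Finset.mem_filter.1 hf'.1).2
      refine Finset.mem_coe.2 (Finset.mem_filter.2 ⟨Finset.mem_filter.2
        ⟨Finset.mem_univ _, y, fun h' => ?_⟩, ?_⟩)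
      · have h1 := hy (Equiv.swap none h h')
        have h2 : {i | f i = Equiv.swap none h h'} = {i | (Equiv.swap none h ∘ f) i = h'} := by
          ext i
          show f i = Equiv.swap none h h' ↔ Equiv.swap none h (f i) = h'
          constructor
          · intro h3
            rw [h3, Equiv.swap_apply_self]
          · intro h3
            rw [← h3, Equiv.swap_apply_self]
        rwa [h2] at h1
      · show Equiv.swap none h (f none) = h
        rw [hf'.2, Equiv.swap_apply_left]
    · intro f _ g _ hfg
      funext i
      exact (Equiv.swap none h).injective (congrFun hfg i)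
  have h1 : (k + 1) * (B none).card ≤ A.card := by
    rw [hfib]
    calc (k + 1) * (B none).card = ∑ _h : Lb k, (B none).card := by
          rw [Finset.sum_const, Finset.card_univ, Fintype.card_option, Fintype.card_fin, smul_eq_mul]
      _ ≤ _ := Finset.sum_le_sum fun h _ => hBle h
  have h2 : (B none).card ≤ k.factorial * (TP (k + 1) S).ncard := by
    have h3 : (k + 1) * (B none).card ≤ (k + 1) * (k.factorial * (TP (k + 1) S).ncard) := by
      rw [← mul_assoc, ← Nat.factorial_succ]
      exact h1.trans hcard
    exact Nat.le_of_mul_le_mul_left h3 (Nat.succ_pos k)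
  refine le_trans (Finset.card_le_card_of_injOn (fun π => CtpF π) ?_ ?_) h2
  · intro π hπ
    obtain ⟨c, b, hc, hb, hsum, hcomb⟩ := (Finset.mem_filter.1 (Finset.mem_coe.1 hπ)).2
    refine Finset.mem_coe.2 (Finset.mem_filter.2 ⟨Finset.mem_filter.2 ⟨Finset.mem_univ _, ?_⟩, rfl⟩)
    refine Pool.Agent.Tvv.vCvx k 2 (fun i => (q i : E2)) (CtpF π) (CtpC b c) ?_ ?_ ?_
    · intro s
      cases s with
      | none => exact hb
      | some a => exact hc a
    · rw [Fintype.sum_option]
      exact hsum
    · intro j i
      rw [Fintype.sum_option]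
      have h3 := congrFun hcomb (j, i)
      rw [Finset.sum_apply] at h3
      have h4 : ∑ a, CtpC b c (some a) * (ev (CtpF π (some a)) j * hat ((q (some a) : E2)) i)
          = b * hat (q none : E2) i := by
        have h5 : (b • tn (k := k) (hat (q none : E2))) (j, i) = b * hat (q none : E2) i := rfl
        rw [← h5, ← h3]
        refine Finset.sum_congr rfl fun a _ => ?_
        rfl
      rw [h4]
      show b * (-1 * hat (q none : E2) i) + b * hat (q none : E2) i = 0
      ring
  · intro π _ π' _ h
    funext a
    exact congrFun h (some a)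

end Pool.Agent.SKP
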