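import Pool.Agent.SKP.StC

/-!
# SKP, module Cub: the Lipschitz property, combined
-/

set_option autoImplicit false

namespace Pool.Agent.SKP

theorem thm_Cub : Stmt_Lip → Stmt_Wi → Stmt_Wr → Stmt_Cub := by
  intro hL hI hR
  obtain ⟨C1, hC1, h1⟩ := hL 9
  obtain ⟨C2, hC2, h2⟩ := hL 2
  refine ⟨C1 + C2, by positivity, ?_⟩
  intro k r1 r2 r1' r2' ε ε' hk hc a1 a2 a3 a4 i
  have e1 := h1 k _ _ _ _ hk (hI (3 * k) 1 r1 r2 ε ε' hc) i
  have e2 := h2 k _ _ _ _ hk (hR (3 * k) r1 r2 r1' r2' ε' a1 a2 a3 a4) i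
  have key : ∀ x y z : ℝ, |x - y| ≤ C1 / √k → |y - z| ≤ C2 / √k → |x - z| ≤ (C1 + C2) / √k := by
    intro x y z hx hy
    have h := abs_sub_le x y z
    rw [add_div]
    linarith
  exact ⟨key _ _ _ e1.1 e2.1, key _ _ _ e1.2 e2.2⟩

end Pool.Agent.SKP
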