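import Pool.Agent.SKP.StS

/-!
# SKP: module Cut

A cut in a nearly ordered pair of sets.
-/

set_option autoImplicit false

namespace Pool.Agent.SKP

theorem Cut_step {n : ℕ} (A : Finset (Fin n)) (r : ℕ) :
    (A.filter fun x : Fin n => r ≤ (x : ℕ)).card ≤ (A.filter fun x : Fin n => r + 1 ≤ (x : ℕ)).card + 1 := by
  classical
  by_cases hr : r < n
  · have h : (A.filter fun x : Fin n => r ≤ (x : ℕ)) ⊆
        insert (⟨r, hr⟩ : Fin n) (A.filter fun x : Fin n => r + 1 ≤ (x : ℕ)) := by
      intro x hx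
      rw [Finset.mem_filter] at hx
      rw [Finset.mem_insert, Finset.mem_filter]
      rcases Nat.eq_or_lt_of_le hx.2 with h1 | h1
      · left
        exact Fin.ext h1.symm
      · right
        exact ⟨hx.1, h1⟩
    exact (Finset.card_le_card h).trans (Finset.card_insert_le _ _)
  · have h : (A.filter fun x : Fin n => r ≤ (x : ℕ)) ⊆ (A.filter fun x : Fin n => r + 1 ≤ (x : ℕ)) := by
      intro x hx
      rw [Finset.mem_filter] at hx
      exact absurd x.2 (by omega)
    exact (Finset.card_le_card h).trans (Nat.le_succ _)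

theorem Cut_main (n : ℕ) (A B : Finset (Fin n)) (δ : ℝ) (hδ : 0 < δ)
    (h : (((A ×ˢ B).filter fun q => q.2 < q.1).card : ℝ) ≤ 2 * δ * (A.card * B.card)) :
    ∃ ρ : ℕ, ((A.filter fun x : Fin n => ρ ≤ (x : ℕ)).card : ℝ) ≤ √(2 * δ) * A.card + 1 ∧
      ((B.filter fun y : Fin n => (y : ℕ) < ρ).card : ℝ) ≤ √(2 * δ) * B.card := by
  classical
  have hs : 0 < √(2 * δ) := Real.sqrt_pos.2 (by positivity)
  have hss : √(2 * δ) * √(2 * δ) = 2 * δ := Real.mul_self_sqrt (by positivity)
  set s := √(2 * δ) with hsd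
  have hex : ∃ ρ : ℕ, ((A.filter fun x : Fin n => ρ ≤ (x : ℕ)).card : ℝ) ≤ s * A.card + 1 := by
    refine ⟨n, ?_⟩
    have h1 : (A.filter fun x : Fin n => n ≤ (x : ℕ)) = ∅ := by
      rw [Finset.filter_eq_empty_iff]
      intro x _
      have := x.2
      omega
    rw [h1, Finset.card_empty, Nat.cast_zero]
    positivity
  refine ⟨Nat.find hex, Nat.find_spec hex, ?_⟩
  rcases Nat.eq_zero_or_pos (Nat.find hex) with h0 | h0
  · rw [h0]
    have h1 : (B.filter fun y : Fin n => (y : ℕ) < 0) = ∅ := by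
      rw [Finset.filter_eq_empty_iff]
      intro y _
      exact Nat.not_lt_zero _
    rw [h1, Finset.card_empty, Nat.cast_zero]
    positivity
  · obtain ⟨r, hr⟩ := Nat.exists_eq_succ_of_ne_zero h0.ne'
    have h1 := Nat.find_min hex (m := r) (by omega)
    push Not at h1
    have h2 := Cut_step A r
    rw [hr]
    have h3 : ((A.filter fun x : Fin n => r ≤ (x : ℕ)).card : ℝ) ≤
        (A.filter fun x : Fin n => r + 1 ≤ (x : ℕ)).card + 1 := by exact_mod_cast h2
    set f := (A.filter fun x : Fin n => r + 1 ≤ (x : ℕ)).card with hf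
    set g := (B.filter fun y : Fin n => (y : ℕ) < r + 1).card with hg
    have h4 : s * A.card < f := by linarith
    have h5 : f * g ≤ ((A ×ˢ B).filter fun q => q.2 < q.1).card := by
      rw [hf, hg, ← Finset.card_product]
      apply Finset.card_le_card
      rintro ⟨x, y⟩ hxy
      rw [Finset.mem_product, Finset.mem_filter, Finset.mem_filter] at hxy
      rw [Finset.mem_filter, Finset.mem_product]
      obtain ⟨⟨a1, a2⟩, a3, a4⟩ := hxy
      refine ⟨⟨a1, a3⟩, ?_⟩
      rw [Fin.lt_def]
      exact lt_of_lt_of_le a4 a2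
    have h6 : (f : ℝ) * g ≤ s * s * (A.card * B.card) := by
      rw [hss]
      refine le_trans ?_ h
      exact_mod_cast h5
    have hA : 0 < (A.card : ℝ) := by
      have h7 : f ≤ A.card := Finset.card_le_card (Finset.filter_subset _ _)
      have h8 : (0 : ℝ) < f := lt_of_le_of_lt (by positivity) h4
      have h9 : (f : ℝ) ≤ A.card := by exact_mod_cast h7
      linarith
    have h7 : s * A.card * g ≤ s * A.card * (s * B.card) := by
      calc s * A.card * g ≤ f * g := mul_le_mul_of_nonneg_right h4.le (by positivity)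
        _ ≤ s * s * (A.card * B.card) := h6
        _ = s * A.card * (s * B.card) := by ring
    exact le_of_mul_le_mul_left h7 (by positivity)

/-- the members of the set of the values -/
theorem Cut_mem {n : ℕ} [inst : ∀ P : Prop, Decidable P] (A : Finset (Fin n)) (x : ℕ) :
    x ∈ (do
      let a ← A
      pure (a : ℕ) : Finset ℕ) ↔ ∃ a ∈ A, (a : ℕ) = x := by
  have e := congrFun (congrFun (Finset.bind_def (α := ℕ) (β := Fin n)) A)
    (fun a => (pure (a : ℕ) : Finset ℕ))
  have h' : x ∈ (do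
      let a ← A
      pure (a : ℕ) : Finset ℕ) ↔ x ∈ Finset.sup A (fun a => (pure (a : ℕ) : Finset ℕ)) := by
    rw [← e]
  rw [h', Finset.mem_sup]
  constructor
  · rintro ⟨a, ha, hax⟩
    rw [Finset.pure_def, Finset.mem_singleton] at hax
    exact ⟨a, ha, hax.symm⟩
  · rintro ⟨a, ha, rfl⟩
    exact ⟨a, ha, by rw [Finset.pure_def, Finset.mem_singleton]⟩

/-- the same with the sets of the values -/
theorem Cut_card {n : ℕ} [inst : ∀ P : Prop, Decidable P] (A : Finset (Fin n)) (p : ℕ → Prop)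
    [DecidablePred p] [DecidablePred fun x : Fin n => p x] :
    (Finset.filter p (do
      let a ← A
      pure (a : ℕ))).card = (A.filter fun x : Fin n => p x).card := by
  refine le_antisymm ?_ ?_
  · refine Finset.card_le_card_of_surjOn (fun a : Fin n => (a : ℕ)) ?_
    intro x hx
    obtain ⟨h1, h2⟩ := Finset.mem_filter.1 (Finset.mem_coe.1 hx)
    obtain ⟨a, ha, hax⟩ := (Cut_mem A x).1 h1
    subst hax
    exact ⟨a, Finset.mem_coe.2 (Finset.mem_filter.2 ⟨ha, h2⟩), rfl⟩
  · refine Finset.card_le_card_of_injOn (fun a : Fin n => (a : ℕ)) ?_ Fin.val_injective.injOn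
    intro x hx
    obtain ⟨h1, h2⟩ := Finset.mem_filter.1 (Finset.mem_coe.1 hx)
    exact Finset.mem_coe.2 (Finset.mem_filter.2 ⟨(Cut_mem A _).2 ⟨x, h1, rfl⟩, h2⟩)

open scoped Classical in
theorem thm_Cut : Stmt_Cut := by
  intro n A B δ hδ h
  obtain ⟨ρ, h1, h2⟩ := Cut_main n A B δ hδ (by simpa using h)
  refine ⟨ρ, ?_, ?_⟩
  · refine le_trans (Nat.cast_le.2 (Cut_card A (fun x => ρ ≤ x)).le) ?_
    simpa using h1
  · refine le_trans (Nat.cast_le.2 (Cut_card B (fun x => x < ρ)).le) ?_
    simpa using h2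

end Pool.Agent.SKP
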