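import Pool.Agent.SKP.StS

/-!
# SKP, Cyc: windows and half planes
-/

set_option autoImplicit false

namespace Pool.Agent.SKP

open scoped Classical

private lemma Cyc_mem {n : ℕ} (ε : Fin n → Bool) (r : ℕ) (a : Fin n) :
    a ∈ hp ε r ↔ (ε a = true ∧ r ≤ (a : ℕ)) ∨ (ε a = false ∧ (a : ℕ) < r) := by
  simp [hp]

private lemma Cyc_KK {n : ℕ} (w : Fin n → Fin 3) (κ : Fin n → Bool) (i : Fin 3) (r : ℕ)
    (a : Fin n) : a ∈ KK w κ i r ↔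
      (w a = i ∧ ((κ a = true ∧ r ≤ (a : ℕ)) ∨ (κ a = false ∧ (a : ℕ) < r))) ∨
      (w a = i + 1 ∧ κ a = false) ∨ (w a = i + 2 ∧ κ a = true) := by
  simp [KK]

private lemma Cyc_cases {n : ℕ} (r1 r2 : ℕ) (ε : Fin n → Bool) (a : Fin n) :
    ((a : ℕ) < r1 ∧ wn r1 r2 a = 0 ∧ kp ε r1 r2 a = ε a) ∨
    (r1 ≤ (a : ℕ) ∧ (a : ℕ) < r2 ∧ wn r1 r2 a = 1 ∧ kp ε r1 r2 a = !(ε a)) ∨
    (r2 ≤ (a : ℕ) ∧ wn r1 r2 a = 2 ∧ kp ε r1 r2 a = ε a) := by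
  by_cases h1 : (a : ℕ) < r1
  · left
    have e : wn r1 r2 a = 0 := by simp [wn, h1]
    refine ⟨h1, e, ?_⟩
    unfold kp
    rw [e]
    simp
  · by_cases h2 : (a : ℕ) < r2
    · right; left
      have e : wn r1 r2 a = 1 := by simp [wn, h1, h2]
      refine ⟨not_lt.1 h1, h2, e, ?_⟩
      unfold kp
      rw [e]
      simp
    · right; right
      have e : wn r1 r2 a = 2 := by simp [wn, h1, h2]
      refine ⟨not_lt.1 h2, e, ?_⟩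
      unfold kp
      rw [e]
      simp

private lemma Cyc_0 {n : ℕ} (ε : Fin n → Bool) (r1 r2 r : ℕ) (h : r1 ≤ r2) :
    KK (wn r1 r2) (kp ε r1 r2) 0 r = hp ε (min r r1) := by
  ext a
  rw [Cyc_mem, Cyc_KK]
  rcases Cyc_cases r1 r2 ε a with ⟨h1, h2, h3⟩ | ⟨h1, h1', h2, h3⟩ | ⟨h1, h2, h3⟩ <;>
    rw [h2, h3] <;> rcases Bool.eq_false_or_eq_true (ε a) with h4 | h4 <;> rw [h4] <;>
    simp <;> omega

private lemma Cyc_1 {n : ℕ} (ε : Fin n → Bool) (r1 r2 r : ℕ) (h : r1 ≤ r2) :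
    KK (wn r1 r2) (kp ε r1 r2) 1 r = (hp ε (max r1 (min r r2)))ᶜ := by
  ext a
  rw [Finset.mem_compl, Cyc_mem, Cyc_KK]
  rcases Cyc_cases r1 r2 ε a with ⟨h1, h2, h3⟩ | ⟨h1, h1', h2, h3⟩ | ⟨h1, h2, h3⟩ <;>
    rw [h2, h3] <;> rcases Bool.eq_false_or_eq_true (ε a) with h4 | h4 <;> rw [h4] <;>
    simp <;> omega

private lemma Cyc_2 {n : ℕ} (ε : Fin n → Bool) (r1 r2 r : ℕ) (h : r1 ≤ r2) :
    KK (wn r1 r2) (kp ε r1 r2) 2 r = hp ε (max r r2) := by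
  ext a
  rw [Cyc_mem, Cyc_KK]
  rcases Cyc_cases r1 r2 ε a with ⟨h1, h2, h3⟩ | ⟨h1, h1', h2, h3⟩ | ⟨h1, h2, h3⟩ <;>
    rw [h2, h3] <;> rcases Bool.eq_false_or_eq_true (ε a) with h4 | h4 <;> rw [h4] <;>
    simp <;> omega

theorem thm_Cyc : Stmt_Cyc := by
  intro n ε r1 r2 h
  have A : ∀ (i : Fin 3) (r : ℕ), ∃ r' : ℕ, KK (wn r1 r2) (kp ε r1 r2) i r = hp ε r' ∨
      KK (wn r1 r2) (kp ε r1 r2) i r = (hp ε r')ᶜ := by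
    intro i r
    fin_cases i
    · exact ⟨_, Or.inl (Cyc_0 ε r1 r2 r h)⟩
    · exact ⟨_, Or.inr (Cyc_1 ε r1 r2 r h)⟩
    · exact ⟨_, Or.inl (Cyc_2 ε r1 r2 r h)⟩
  have B : ∀ r : ℕ, ∃ (i : Fin 3) (r' : ℕ), hp ε r = KK (wn r1 r2) (kp ε r1 r2) i r' ∨
      hp ε r = (KK (wn r1 r2) (kp ε r1 r2) i r')ᶜ := by
    intro r
    rcases le_total r r1 with h1 | h1
    · refine ⟨0, r, Or.inl ?_⟩
      rw [Cyc_0 ε r1 r2 r h, min_eq_left h1]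
    · rcases le_total r r2 with h2 | h2
      · refine ⟨1, r, Or.inr ?_⟩
        rw [Cyc_1 ε r1 r2 r h, min_eq_left h2, max_eq_right h1, compl_compl]
      · refine ⟨2, r, Or.inl ?_⟩
        rw [Cyc_2 ε r1 r2 r h, max_eq_left h2]
  have C : ∀ (t K : Finset (Fin n)), (t ∩ Kᶜ = t \ K) ∧ (t \ Kᶜ = t ∩ K) := fun t K =>
    ⟨(Finset.sdiff_eq_inter_compl t K).symm, sdiff_compl⟩
  refine ⟨A, B, fun t => ?_⟩
  constructor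
  · rintro ⟨h1, h2⟩
    refine ⟨h1, fun r => ?_⟩
    obtain ⟨i, r', e | e⟩ := B r
    · rw [e]; exact h2 i r'
    · rw [e, (C _ _).1, (C _ _).2]; exact (h2 i r').symm
  · rintro ⟨h1, h2⟩
    refine ⟨h1, fun i r => ?_⟩
    obtain ⟨r', e | e⟩ := A i r
    · rw [e]; exact h2 r'
    · rw [e, (C _ _).1, (C _ _).2]; exact (h2 r').symm

end Pool.Agent.SKP
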