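import Pool.Agent.SKP.StN

set_option autoImplicit false

namespace Pool.Agent.SKP

open scoped Classical

theorem Dhp_neg (ν y : E2) : ip (-ν) y = - ip ν y := by
  simp only [ip, PiLp.neg_apply]
  ring

theorem Dhp_perm {n : ℕ} (e : Equiv.Perm (Fin n)) (q : Fin n → Prop) :
    (Finset.univ.filter fun a => q a).card = (Finset.univ.filter fun i => q (e i)).card := by
  symm
  apply Finset.card_bij (fun i _ => e i)
  · intro i hi
    exact Finset.mem_filter.2 ⟨Finset.mem_univ _, (Finset.mem_filter.1 hi).2⟩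
  · intro a _ b _ h
    exact e.injective h
  · intro a ha
    refine ⟨e.symm a, Finset.mem_filter.2 ⟨Finset.mem_univ _, ?_⟩, by simp⟩
    simpa using (Finset.mem_filter.1 ha).2

theorem thm_Dhp : Stmt_Hf → Stmt_Dhp := by
  intro hHf k P c hG hD r
  obtain ⟨ν, hν, h⟩ := (hHf (3 * k) P c hG).1 r
  have h1 := hD ν hν
  have h2 := hD (-ν) (neg_ne_zero.2 hν)
  rw [Dhp_perm (od P c)] at h1 h2
  have e1 : (Finset.univ.filter fun i => 0 ≤ ip ν (P (od P c i) - c)) = hp (sg P c) r := by
    ext i
    rw [Finset.mem_filter, (h i).1]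
    constructor
    · intro hi
      exact lt_of_le_of_ne hi.2 (h i).2.symm
    · intro hi
      exact ⟨Finset.mem_univ _, hi.le⟩
  have e2 : (Finset.univ.filter fun i => 0 ≤ ip (-ν) (P (od P c i) - c)) = (hp (sg P c) r)ᶜ := by
    ext i
    rw [Finset.mem_filter, Finset.mem_compl, (h i).1, Dhp_neg]
    constructor
    · intro hi
      have := hi.2
      intro h3
      linarith
    · intro hi
      exact ⟨Finset.mem_univ _, by linarith [not_lt.1 hi]⟩
  rw [e1] at h1
  rw [e2, Finset.card_compl, Fintype.card_fin] at h2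
  have h3 := Finset.card_le_univ (hp (sg P c) r)
  rw [Fintype.card_fin] at h3
  refine ⟨h1, ?_⟩
  omega

end Pool.Agent.SKP
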