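import Pool.Agent.SKP.StA

/-!
# Sierksma's bound in the plane (MP_001fdd_co): generic configurations are dense
-/

set_option autoImplicit false

namespace Pool.Agent.SKP

open scoped Classical Topology
open Pool.Agent.Tvb (Pos Zero Base Good hat TP)
open Pool.Agent.Tvo (PP so ind)
open Pool.Agent.Tvv (J Lb ev UU dd)

/-- the coordinates are analytic -/
private lemma Dns_coord {ι : Type} [Fintype ι] (a : ι) (i : Fin 2) :
    AnalyticOnNhd ℝ (fun Q : ι → E2 => Q a i) Set.univ := by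
  have h := ((EuclideanSpace.proj i : EuclideanSpace ℝ (Fin 2) →L[ℝ] ℝ).comp
    (ContinuousLinearMap.proj (R := ℝ) (φ := fun _ : ι => E2) a)).analyticOnNhd Set.univ
  exact h

private lemma Dns_hat {ι : Type} [Fintype ι] (a : ι) (j : Fin 3) :
    AnalyticOnNhd ℝ (fun Q : ι → E2 => hat (Q a) j) Set.univ := by
  refine Fin.lastCases (motive := fun j : Fin (2 + 1) =>
    AnalyticOnNhd ℝ (fun Q : ι → E2 => hat (Q a) j) Set.univ) ?_ (fun i => ?_) j
  · have e : (fun Q : ι → E2 => hat (Q a) (Fin.last 2)) = fun _ => (1 : ℝ) := by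
      funext Q
      exact Fin.snoc_last (α := fun _ => ℝ) _ _
    rw [e]
    exact analyticOnNhd_const
  · have e : (fun Q : ι → E2 => hat (Q a) (Fin.castSucc i)) = fun Q => Q a i := by
      funext Q
      simp [hat]
    rw [e]
    exact Dns_coord a i

private lemma Dns_dd {k : ℕ} (π : J k 3 → Lb k) :
    AnalyticOnNhd ℝ (fun Q : J k 3 → E2 => dd (ht Q) π) Set.univ := by
  have e : (fun Q : J k 3 → E2 => dd (ht Q) π) = fun Q => ∑ σ : Equiv.Perm (J k 3),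
      ((Equiv.Perm.sign σ : ℤ) : ℝ) * ∏ a, (ev (π (σ a)) a.1 * hat (Q (σ a)) a.2) := by
    funext Q
    rw [dd, Matrix.det_apply']
    rfl
  rw [e]
  refine Finset.analyticOnNhd_fun_sum _ fun σ _ => ?_
  refine analyticOnNhd_const.mul ?_
  refine Finset.analyticOnNhd_fun_prod _ fun a _ => ?_
  exact analyticOnNhd_const.mul (Dns_hat (σ a) a.2)

/-- nonzero analytic functions do not vanish on a dense open set -/
private lemma Dns_dense {k : ℕ} (F : (J k 3 → E2) → ℝ) (hF : AnalyticOnNhd ℝ F Set.univ)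
    (h0 : ∃ Q, F Q ≠ 0) : IsOpen {Q | F Q ≠ 0} ∧ Dense {Q | F Q ≠ 0} := by
  constructor
  · have hc : Continuous F := by
      rw [← continuousOn_univ]
      exact hF.continuousOn
    exact isOpen_ne_fun hc continuous_const
  · intro Q
    rw [mem_closure_iff_frequently]
    by_contra hcon
    rw [Filter.not_frequently] at hcon
    have h1 : F =ᶠ[𝓝 Q] 0 := by
      filter_upwards [hcon] with x hx
      simpa using hx
    have h2 := hF.eqOn_zero_of_preconnected_of_eventuallyEq_zero isPreconnected_univ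
      (Set.mem_univ Q) h1
    obtain ⟨Q2, hQ2⟩ := h0
    exact hQ2 (h2 (Set.mem_univ Q2))

theorem thm_Dns : Stmt_GJx → Stmt_Dns := by
  intro hG k Q δ hδ
  -- the three families
  have D1 : ∀ π : {π : J k 3 → Lb k // ∀ l, (Finset.univ.filter fun a => π a = l).card ≤ 3},
      IsOpen {Q : J k 3 → E2 | dd (ht Q) π.1 ≠ 0} ∧ Dense {Q : J k 3 → E2 | dd (ht Q) π.1 ≠ 0} :=
    fun π => Dns_dense _ (Dns_dd π.1) (hG k π.1 π.2)
  have D2 : ∀ p : {p : J k 3 × J k 3 // p.1 ≠ p.2},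
      IsOpen {Q : J k 3 → E2 | Q p.1.1 1 - Q p.1.2 1 ≠ 0} ∧
        Dense {Q : J k 3 → E2 | Q p.1.1 1 - Q p.1.2 1 ≠ 0} := by
    intro p
    refine Dns_dense (fun Q : J k 3 → E2 => Q p.1.1 1 - Q p.1.2 1)
      ((Dns_coord p.1.1 1).sub (Dns_coord p.1.2 1)) ?_
    refine ⟨fun c => if c = p.1.1 then !₂[(0 : ℝ), 1] else 0, ?_⟩
    simp [p.2.symm]
  have D3 : ∀ p : {p : J k 3 × J k 3 × J k 3 // p.1 ≠ p.2.1 ∧ p.2.1 ≠ p.2.2 ∧ p.1 ≠ p.2.2},
      IsOpen {Q : J k 3 → E2 | cr (Q p.1.2.1 - Q p.1.1) (Q p.1.2.2 - Q p.1.1) ≠ 0} ∧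
        Dense {Q : J k 3 → E2 | cr (Q p.1.2.1 - Q p.1.1) (Q p.1.2.2 - Q p.1.1) ≠ 0} := by
    intro p
    refine Dns_dense (fun Q : J k 3 → E2 => cr (Q p.1.2.1 - Q p.1.1) (Q p.1.2.2 - Q p.1.1)) ?_ ?_
    · have e : (fun Q : J k 3 → E2 => cr (Q p.1.2.1 - Q p.1.1) (Q p.1.2.2 - Q p.1.1)) =
          fun Q => (Q p.1.2.1 0 - Q p.1.1 0) * (Q p.1.2.2 1 - Q p.1.1 1) -
            (Q p.1.2.1 1 - Q p.1.1 1) * (Q p.1.2.2 0 - Q p.1.1 0) := rfl
      rw [e]
      exact (((Dns_coord _ 0).sub (Dns_coord _ 0)).mul ((Dns_coord _ 1).sub (Dns_coord _ 1))).sub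
        (((Dns_coord _ 1).sub (Dns_coord _ 1)).mul ((Dns_coord _ 0).sub (Dns_coord _ 0)))
    · obtain ⟨h1, h2, h3⟩ := p.2
      refine ⟨fun c => if c = p.1.2.1 then !₂[(1 : ℝ), 0] else
        if c = p.1.2.2 then !₂[(0 : ℝ), 1] else 0, ?_⟩
      simp [cr, h1, h2, h3, h1.symm, h2.symm, h3.symm]
  have E1 := dense_iInter_of_isOpen (fun π => (D1 π).1) (fun π => (D1 π).2)
  have E2' := dense_iInter_of_isOpen (fun π => (D2 π).1) (fun π => (D2 π).2)
  have E3 := dense_iInter_of_isOpen (fun π => (D3 π).1) (fun π => (D3 π).2)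
  have O1 := isOpen_iInter_of_finite (fun π => (D1 π).1)
  have O2 := isOpen_iInter_of_finite (fun π => (D2 π).1)
  have O3 := isOpen_iInter_of_finite (fun π => (D3 π).1)
  have E12 := E1.inter_of_isOpen_left E2' O1
  have E123 := E12.inter_of_isOpen_left E3 (O1.inter O2)
  obtain ⟨Q', hQ', hd⟩ := E123.exists_dist_lt Q hδ
  obtain ⟨⟨q1, q2⟩, q3⟩ := hQ'
  rw [Set.mem_iInter] at q1 q2 q3
  refine ⟨Q', fun a => ?_, ?_, ?_, ?_⟩
  · rw [dist_comm]
    exact (dist_le_pi_dist Q Q' a).trans_lt hd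
  · intro π hπ
    exact q1 ⟨π, hπ⟩
  · intro a b hab
    exact sub_ne_zero.1 (q2 ⟨(a, b), hab⟩)
  · intro a b c h1 h2 h3
    exact q3 ⟨(a, b, c), h1, h2, h3⟩

end Pool.Agent.SKP
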