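import Pool.Agent.SKP.StS

/-!
# Sierksma's bound in the plane (MP_001fdd_co): elementary estimates
-/

set_option autoImplicit false

namespace Pool.Agent.SKP

open scoped Classical

private theorem Est_log {x : ℝ} (hx : 0 < x) : 1 - x⁻¹ ≤ Real.log x :=
  Real.one_sub_inv_le_log_of_pos hx

/-- convexity of `LL` -/
private theorem Est_conv {x y : ℝ} (hx : 0 ≤ x) (hy : 0 < y) :
    LL y + (x - y) * Real.log y ≤ LL x := by
  unfold LL
  rcases hx.eq_or_lt with rfl | hx
  · simp
    nlinarith [hy]
  · have h1 : 1 - (x / y)⁻¹ ≤ Real.log (x / y) := Est_log (div_pos hx hy)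
    rw [Real.log_div hx.ne' hy.ne', inv_div] at h1
    have h2 := mul_le_mul_of_nonneg_left h1 hx.le
    have h3 : x * (1 - y / x) = x - y := by
      field_simp
    rw [h3] at h2
    nlinarith [h2]

private theorem Est_low (n : ℕ) : LL n ≤ Real.log n.factorial := by
  induction n with
  | zero => simp [LL]
  | succ n ih =>
    rw [Nat.factorial_succ]
    push_cast
    rw [Real.log_mul (by positivity) (by positivity)]
    have h := Est_conv (x := (n : ℝ)) (y := n + 1) (by positivity) (by positivity)
    have e : LL ((n : ℝ) + 1) = LL ((n : ℝ) + 1) + ((n : ℝ) - (n + 1)) * Real.log (n + 1) +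
        Real.log (n + 1) := by ring
    rw [e]
    linarith

private theorem Est_up (n : ℕ) (hn : 1 ≤ n) :
    Real.log n.factorial ≤ LL n + Real.log n + 1 := by
  induction n, hn using Nat.le_induction with
  | base => simp [LL]
  | succ n hn ih =>
    have hn0 : (0 : ℝ) < n := by exact_mod_cast hn
    rw [Nat.factorial_succ]
    push_cast
    rw [Real.log_mul (by positivity) (by positivity)]
    have h1 : 1 - ((n + 1 : ℝ) / n)⁻¹ ≤ Real.log ((n + 1 : ℝ) / n) := Est_log (by positivity)
    rw [Real.log_div (by positivity) hn0.ne', inv_div] at h1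
    have h2 := mul_le_mul_of_nonneg_left h1 (by positivity : (0 : ℝ) ≤ n + 1)
    have h3 : ((n : ℝ) + 1) * (1 - n / (n + 1)) = 1 := by
      field_simp
      ring
    rw [h3] at h2
    unfold LL at ih ⊢
    nlinarith [h2, ih]

private theorem Est_one : (∀ n : ℕ, LL n ≤ Real.log n.factorial ∧
    Real.log n.factorial ≤ LL n + Real.log (n + 1) + 1) := by
  intro n
  refine ⟨Est_low n, ?_⟩
  rcases Nat.eq_zero_or_pos n with rfl | hn
  · simp [LL]
  · have h1 := Est_up n hn
    have h2 : Real.log (n : ℝ) ≤ Real.log (n + 1) := by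
      have hn0 : (0 : ℝ) < n := by exact_mod_cast hn
      exact Real.log_le_log hn0 (by linarith)
    linarith

private theorem Est_two (s t : ℝ) (hs : 0 ≤ s) (hst : s ≤ t) : LL s ≤ LL t + 1 := by
  rcases le_total s 1 with h | h
  · have h1 : LL s ≤ 0 := by
      unfold LL
      have := Real.mul_log_nonpos hs h
      linarith
    have h2 := Est_conv (x := t) (y := 1) (hs.trans hst) one_pos
    have h3 : LL 1 = -1 := by simp [LL]
    rw [h3, Real.log_one, mul_zero] at h2
    linarith
  · have h2 := Est_conv (x := t) (y := s) (hs.trans hst) (by linarith)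
    have h3 : 0 ≤ (t - s) * Real.log s := mul_nonneg (by linarith) (Real.log_nonneg h)
    linarith

private theorem Est_three (s t : ℝ) (hs : 0 ≤ s) (hst : s ≤ t) :
    LL t ≤ LL s + (t - s) * Real.log (t + 1) := by
  rcases (hs.trans hst).eq_or_lt with ht | ht
  · have : s = 0 := le_antisymm (hst.trans ht.symm.le) hs
    subst this
    rw [← ht]
    simp
  · have h1 := Est_conv (x := s) (y := t) hs ht
    have h2 : (t - s) * Real.log t ≤ (t - s) * Real.log (t + 1) :=
      mul_le_mul_of_nonneg_left (Real.log_le_log ht (by linarith)) (by linarith)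
    linarith

private theorem Est_four (u v : ℝ) (m : ℕ) (hu : 0 < u) (hv : 0 < v) (huv : u + v = 1) :
    m * (-u * Real.log u - v * Real.log v) - 4 * Real.log (m + 1) - 6 ≤
      Real.log (m.choose ⌊u * m⌋₊) := by
  rcases Nat.eq_zero_or_pos m with rfl | hm
  · simp
  have hm0 : (0 : ℝ) < m := by exact_mod_cast hm
  obtain ⟨y, hy⟩ : ∃ y : ℕ, y = ⌊u * m⌋₊ := ⟨_, rfl⟩
  have hy1 : (y : ℝ) ≤ u * m := by
    rw [hy]
    exact Nat.floor_le (by positivity)
  have hy2 : u * m < y + 1 := by
    rw [hy]
    exact Nat.lt_floor_add_one _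
  have hum : u * m ≤ m := by nlinarith
  have hym : y ≤ m := by
    have : (y : ℝ) ≤ m := hy1.trans hum
    exact_mod_cast this
  rw [← hy]
  have hc : Real.log (m.choose y) = Real.log m.factorial - Real.log y.factorial -
      Real.log (m - y).factorial := by
    have h1 := Nat.choose_mul_factorial_mul_factorial hym
    have h2 : (m.choose y : ℝ) * y.factorial * (m - y).factorial = m.factorial := by
      exact_mod_cast h1
    have h3 : (0 : ℝ) < m.choose y := by exact_mod_cast Nat.choose_pos hym
    rw [← h2, Real.log_mul (by positivity) (by positivity), Real.log_mul (by positivity)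
      (by positivity)]
    ring
  have hcast : ((m - y : ℕ) : ℝ) = m - y := Nat.cast_sub hym
  have f1 := (Est_one m).1
  have f2 := (Est_one y).2
  have f3 := (Est_one (m - y)).2
  rw [hcast] at f3
  have g1 := Est_two y (u * m) (by positivity) hy1
  have hmy0 : (0 : ℝ) ≤ m - y := by
    have : (y : ℝ) ≤ m := by exact_mod_cast hym
    linarith
  have hvm : (m : ℝ) - y ≤ v * m + 1 := by
    have : (m : ℝ) = u * m + v * m := by rw [← add_mul, huv, one_mul]
    linarith
  have g2 := Est_two ((m : ℝ) - y) (v * m + 1) hmy0 hvm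
  have g3 := Est_three (v * m) (v * m + 1) (by positivity) (by linarith)
  have l1 : Real.log ((y : ℝ) + 1) ≤ Real.log (m + 1) := by
    refine Real.log_le_log (by positivity) ?_
    have : (y : ℝ) ≤ m := by exact_mod_cast hym
    linarith
  have l2 : Real.log ((m : ℝ) - y + 1) ≤ Real.log (m + 1) := by
    refine Real.log_le_log (by linarith) ?_
    have : (0 : ℝ) ≤ y := by positivity
    linarith
  have l3 : Real.log (v * m + 1 + 1) ≤ Real.log (m + 1) + 1 := by
    have hv1 : v ≤ 1 := by linarith
    have h1 : Real.log (v * m + 1 + 1) ≤ Real.log (2 * (m + 1)) := by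
      refine Real.log_le_log (by positivity) ?_
      nlinarith
    rw [Real.log_mul (by norm_num) (by positivity)] at h1
    have h2 : Real.log 2 ≤ 1 := by
      have := Real.log_two_lt_d9
      linarith
    linarith
  have l0 : 0 ≤ Real.log ((m : ℝ) + 1) := Real.log_nonneg (by linarith)
  have e : LL m - LL (u * m) - LL (v * m) = m * (-u * Real.log u - v * Real.log v) := by
    unfold LL
    rw [Real.log_mul hu.ne' hm0.ne', Real.log_mul hv.ne' hm0.ne']
    have : v = 1 - u := by linarith
    rw [this]
    ring
  have g3' : LL (v * m + 1) ≤ LL (v * m) + Real.log (v * m + 1 + 1) := by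
    have : (v * m + 1 - v * m) = 1 := by ring
    rw [this, one_mul] at g3
    exact g3
  rw [hc]
  linarith

private theorem Est_five (a : Fin 3 → ℕ) (S : ℝ) (hS : 0 ≤ S)
    (h : ((∑ i, a i : ℕ) : ℝ) = 3 * S) :
    3 * LL S - 3 * Real.log (S + 1) ≤ ∑ i, Real.log (a i).factorial := by
  have h0 : 3 * LL S ≤ ∑ i, LL (a i) := by
    rcases hS.eq_or_lt with rfl | hS
    · have h1 : ∑ i, a i = 0 := by
        have : ((∑ i, a i : ℕ) : ℝ) = 0 := by rw [h]; ring
        exact_mod_cast this
      have h2 : ∀ i, a i = 0 := by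
        intro i
        exact (Finset.sum_eq_zero_iff.1 h1) i (Finset.mem_univ i)
      simp [h2, LL]
    · have h1 : ∀ i, LL S + ((a i : ℝ) - S) * Real.log S ≤ LL (a i) := fun i =>
        Est_conv (by positivity) hS
      have h2 := Finset.sum_le_sum fun i (_ : i ∈ Finset.univ) => h1 i
      rw [Finset.sum_add_distrib, ← Finset.sum_mul, Finset.sum_sub_distrib] at h2
      push_cast at h
      rw [h] at h2
      simp only [Finset.sum_const, Finset.card_univ, Fintype.card_fin, nsmul_eq_mul] at h2
      push_cast at h2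
      linarith
  have h1 : ∑ i, LL (a i) ≤ ∑ i, Real.log (a i).factorial :=
    Finset.sum_le_sum fun i _ => (Est_one (a i)).1
  have h2 : 0 ≤ Real.log (S + 1) := Real.log_nonneg (by linarith)
  linarith

theorem thm_Est : Stmt_Est := ⟨Est_one, Est_two, Est_three, Est_four, Est_five⟩

end Pool.Agent.SKP
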