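import Pool.Agent.SKP.StC

/-!
# Sierksma's bound in the plane (MP_001fdd_co), module Ex: existence of a balanced point
-/

set_option autoImplicit false

namespace Pool.Agent.SKP

open scoped Classical

namespace Ex

lemma norm_le (v : E2) : ‖v‖ ≤ |v 0| + |v 1| := by
  rw [EuclideanSpace.norm_eq, Fin.sum_univ_two, Real.sqrt_le_left (by positivity), Real.norm_eq_abs,
    Real.norm_eq_abs]
  nlinarith [abs_nonneg (v 0), abs_nonneg (v 1)]

/-- the points of the grid -/
noncomputable def cc (R L : ℝ) (x y : ℕ) : E2 :=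
  !₂[-R + 2 * R * x / L, -R + 2 * R * y / L]

lemma cc0 (R L : ℝ) (x y : ℕ) : cc R L x y 0 = -R + 2 * R * x / L := rfl

lemma cc1 (R L : ℝ) (x y : ℕ) : cc R L x y 1 = -R + 2 * R * y / L := rfl

lemma coord {R L : ℝ} (hR : 0 < R) (hL : 0 < L) {x : ℕ} (hx : (x : ℝ) ≤ L) :
    |-R + 2 * R * x / L| ≤ R := by
  have h1 : 0 ≤ 2 * R * x / L := by positivity
  have h2 : 2 * R * x / L ≤ 2 * R := by
    rw [div_le_iff₀ hL]
    exact mul_le_mul_of_nonneg_left hx (by positivity)
  rw [abs_le]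
  constructor <;> linarith

lemma step {R L : ℝ} (hR : 0 < R) (hL : 0 < L) {x x' : ℕ} (h1 : x ≤ x' + 1) (h2 : x' ≤ x + 1) :
    |(-R + 2 * R * x / L) - (-R + 2 * R * x' / L)| ≤ 2 * R / L := by
  have h1' : (x : ℝ) ≤ x' + 1 := by exact_mod_cast h1
  have h2' : (x' : ℝ) ≤ x + 1 := by exact_mod_cast h2
  have e : (-R + 2 * R * x / L) - (-R + 2 * R * x' / L) = 2 * R / L * ((x : ℝ) - x') := by ring
  rw [e, abs_mul, abs_of_pos (by positivity)]
  have h3 : |(x : ℝ) - x'| ≤ 1 := by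
    rw [abs_le]
    constructor <;> linarith
  calc 2 * R / L * |(x : ℝ) - x'| ≤ 2 * R / L * 1 := by gcongr
    _ = 2 * R / L := mul_one _

end Ex

open Ex in
theorem thm_Ex : Stmt_Cub → Stmt_Uni → Stmt_Bdy → Stmt_Grd → Stmt_Reg → Stmt_Gen → Stmt_Ex := by
  intro hCub hUni hBdy hGrd hReg hGen
  obtain ⟨C3, hC3, hCub⟩ := hCub
  obtain ⟨Cg, hCg, k₁, hGrd⟩ := hGrd
  obtain ⟨C, hC, hReg⟩ := hReg (C3 + Cg) (by positivity)
  refine ⟨C, hC, max k₁ 1, ?_⟩
  intro k P hk hP
  have hk1 : k₁ ≤ k := (le_max_left _ _).trans hk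
  have hk2 : 1 ≤ k := (le_max_right _ _).trans hk
  obtain ⟨R, hR⟩ : ∃ R : ℝ, R = 1 + ∑ a, (|P a 0| + |P a 1|) := ⟨_, rfl⟩
  have hsum0 : 0 ≤ ∑ a, (|P a 0| + |P a 1|) := Finset.sum_nonneg fun a _ => by positivity
  have hR0 : 0 < R := by rw [hR]; linarith
  have hPa : ∀ a, |P a 0| < R ∧ |P a 1| < R := by
    intro a
    have h1 : |P a 0| + |P a 1| ≤ ∑ a, (|P a 0| + |P a 1|) :=
      Finset.single_le_sum (f := fun a => |P a 0| + |P a 1|) (fun b _ => by positivity)
        (Finset.mem_univ a)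
    have h2 := abs_nonneg (P a 0)
    have h3 := abs_nonneg (P a 1)
    rw [hR]
    constructor <;> linarith
  obtain ⟨δ, hδ, hU⟩ := hUni (3 * k) P hP (2 * R + 1)
  obtain ⟨N, hN⟩ := exists_nat_gt (4 * R / δ)
  obtain ⟨L, hL⟩ : ∃ L : ℕ, L = max k N := ⟨_, rfl⟩
  have hLk : k ≤ L := by rw [hL]; exact le_max_left _ _
  have hLN : (N : ℝ) ≤ L := by rw [hL]; exact_mod_cast le_max_right k N
  have hL0 : (0 : ℝ) < L := by
    have : 0 < L := by omega
    exact_mod_cast this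
  have hLδ : 4 * R / L < δ := by
    rw [div_lt_iff₀ hL0]
    rw [div_lt_iff₀ hδ] at hN
    have : (N : ℝ) * δ ≤ L * δ := mul_le_mul_of_nonneg_right hLN hδ.le
    linarith
  have hcn : ∀ x y : ℕ, x ≤ L → y ≤ L → ‖cc R L x y‖ ≤ 2 * R := by
    intro x y hx hy
    have h1 := norm_le (cc R L x y)
    rw [cc0, cc1] at h1
    have h2 := coord hR0 hL0 (x := x) (by exact_mod_cast hx)
    have h3 := coord hR0 hL0 (x := y) (by exact_mod_cast hy)
    linarith
  have hL' : (L : ℝ) / L = 1 := div_self hL0.ne'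
  obtain ⟨x, y, r1, r2, hx, hy, h12, h23, herr⟩ := hGrd k L (fun x y => sg P (cc R L x y)) hk1 hLk
    (by
      intro x y x' y' hx hy hx' hy' h1 h2 h3 h4
      refine hU _ _ ((hcn x y hx hy).trans (by linarith)) ((hcn x' y' hx' hy').trans (by linarith)) ?_
      rw [dist_eq_norm]
      refine lt_of_le_of_lt (norm_le _) (lt_of_le_of_lt ?_ hLδ)
      have e1 : (cc R L x y - cc R L x' y') 0 = (-R + 2 * R * x / L) - (-R + 2 * R * x' / L) := rfl
      have e2 : (cc R L x y - cc R L x' y') 1 = (-R + 2 * R * y / L) - (-R + 2 * R * y' / L) := rfl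
      rw [e1, e2]
      have f1 := step hR0 hL0 h1 h2
      have f2 := step hR0 hL0 h3 h4
      have e3 : 4 * R / (L : ℝ) = 2 * R / L + 2 * R / L := by ring
      linarith)
    (by
      intro x i hx
      refine (hBdy (3 * k) P (cc R L x 0)).1 (fun a => ?_) i
      rw [cc1]
      have := (abs_lt.1 (hPa a).2).1
      simp only [Nat.cast_zero, mul_zero, zero_div, add_zero]
      linarith)
    (by
      intro x i hx
      refine (hBdy (3 * k) P (cc R L x L)).2.1 (fun a => ?_) i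
      rw [cc1, mul_div_assoc, hL']
      have := (abs_lt.1 (hPa a).2).2
      linarith)
    (by
      intro y hy
      refine (hBdy (3 * k) P (cc R L 0 y)).2.2.1 fun a => ?_
      rw [cc0]
      have := (abs_lt.1 (hPa a).1).1
      simp only [Nat.cast_zero, mul_zero, zero_div, add_zero]
      linarith)
    (by
      intro y hy
      refine (hBdy (3 * k) P (cc R L L y)).2.2.2 fun a => ?_
      rw [cc0, mul_div_assoc, hL']
      have := (abs_lt.1 (hPa a).1).2
      linarith)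
  obtain ⟨c, hc, hGn⟩ := hGen (3 * k) P hP (cc R L x y) (min δ 1) (lt_min hδ one_pos)
  have hc1 : dist c (cc R L x y) < δ := lt_of_lt_of_le hc (min_le_left _ _)
  have hc2 : dist c (cc R L x y) < 1 := lt_of_lt_of_le hc (min_le_right _ _)
  have hcc : ‖c‖ ≤ 2 * R + 1 := by
    have h1 : ‖c‖ ≤ ‖c - cc R L x y‖ + ‖cc R L x y‖ := by
      have := norm_add_le (c - cc R L x y) (cc R L x y)
      rwa [sub_add_cancel] at this
    rw [dist_eq_norm] at hc2
    have := hcn x y hx hy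
    linarith
  have hcls := hU c (cc R L x y) hcc ((hcn x y hx hy).trans (by linarith)) hc1
  have hcub := hCub k r1 r2 r1 r2 _ _ hk2 hcls (by omega) (by omega) (by omega) (by omega)
  refine ⟨c, r1, r2, hGn, h12, hReg k _ _ hk2 fun i => ?_⟩
  obtain ⟨a1, a2⟩ := hcub i
  obtain ⟨b1, b2⟩ := herr i
  have e : (C3 + Cg) / √(k : ℝ) = C3 / √k + Cg / √k := add_div _ _ _
  rw [e]
  constructor
  · have h1 := abs_add_le (eA k (wn r1 r2) (kp (sg P c) r1 r2) i -
      eA k (wn r1 r2) (kp (sg P (cc R L x y)) r1 r2) i)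
      (eA k (wn r1 r2) (kp (sg P (cc R L x y)) r1 r2) i)
    rw [sub_add_cancel] at h1
    linarith
  · have h1 := abs_add_le (eB k (wn r1 r2) (kp (sg P c) r1 r2) i -
      eB k (wn r1 r2) (kp (sg P (cc R L x y)) r1 r2) i)
      (eB k (wn r1 r2) (kp (sg P (cc R L x y)) r1 r2) i)
    rw [sub_add_cancel] at h1
    linarith

end Pool.Agent.SKP
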