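import Pool.Agent.SKP.StS

/-!
# SKP, Fi1: fillings of slots, abstract count
-/

set_option autoImplicit false

namespace Pool.Agent.SKP

open scoped Classical

theorem thm_Fi1 : Stmt_Fi1 := by
  intro n G σ τ _ _ ty dec Φ hΦ
  obtain ⟨tr, htr⟩ : ∃ tr : (σ → Fin 3 → Fin n) → σ → Finset (Fin n),
    ∀ F s, tr F s = {F s 0, F s 1, F s 2} := ⟨fun F s => {F s 0, F s 1, F s 2}, fun _ _ => rfl⟩
  have hdis : ∀ F ∈ Φ, ∀ s s', s ≠ s' → Disjoint (tr F s) (tr F s') := by
    intro F hF s s' h
    rw [htr, htr]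
    exact (hΦ F hF).2.1 s s' h
  have hmem : ∀ F s, F s 0 ∈ tr F s := fun F s => by rw [htr]; simp
  have hinj : ∀ F ∈ Φ, Function.Injective (tr F) := by
    intro F hF s s' h
    by_contra hne
    have h1 := hdis F hF s s' hne
    rw [h] at h1
    exact Finset.disjoint_left.1 h1 (hmem F s') (hmem F s')
  have hdec : ∀ F ∈ Φ, ∀ s, dec (tr F s) = (ty s, F s) := by
    intro F hF s
    rw [htr]
    exact (hΦ F hF).2.2 s
  obtain ⟨M, hMdef⟩ : ∃ M : (σ → Fin 3 → Fin n) → Finset (Finset (Fin n)),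
    ∀ F, M F = Finset.univ.image (tr F) := ⟨fun F => Finset.univ.image (tr F), fun _ => rfl⟩
  have hMP : ∀ F ∈ Φ, M F ∈ Pk G (Fintype.card σ) := by
    intro F hF
    unfold Pk
    rw [Finset.mem_filter]
    refine ⟨Finset.mem_univ _, ?_, ?_, ?_⟩
    · rw [hMdef, Finset.card_image_of_injective _ (hinj F hF), Finset.card_univ]
    · intro t ht
      rw [hMdef] at ht
      obtain ⟨s, -, rfl⟩ := Finset.mem_image.1 ht
      rw [htr]
      exact (hΦ F hF).1 s
    · intro t ht t' ht' hne
      rw [hMdef] at ht ht'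
      obtain ⟨s, -, rfl⟩ := Finset.mem_image.1 ht
      obtain ⟨s', -, rfl⟩ := Finset.mem_image.1 ht'
      exact hdis F hF s s' (fun e => hne (by rw [e]))
  rw [mul_comm]
  refine Finset.card_le_mul_card_image_of_maps_to hMP _ ?_
  intro M0 hM0
  rcases (Φ.filter fun F => M F = M0).eq_empty_or_nonempty with he | ⟨F0, hF0⟩
  · rw [he, Finset.card_empty]
    exact Nat.zero_le _
  rw [Finset.mem_filter] at hF0
  have hθ : ∀ F ∈ Φ.filter fun F => M F = M0, ∃ θ : Equiv.Perm σ, ∀ s, tr F0 (θ s) = tr F s := by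
    intro F hF
    rw [Finset.mem_filter] at hF
    have h1 : ∀ s, ∃ s', tr F0 s' = tr F s := by
      intro s
      have h2 : tr F s ∈ M F := by
        rw [hMdef]
        exact Finset.mem_image_of_mem _ (Finset.mem_univ s)
      rw [hF.2, ← hF0.2, hMdef] at h2
      obtain ⟨s', -, h3⟩ := Finset.mem_image.1 h2
      exact ⟨s', h3⟩
    choose g hg using h1
    have hginj : Function.Injective g := by
      intro s s' h
      apply hinj F hF.1
      rw [← hg s, ← hg s', h]
    exact ⟨Equiv.ofBijective g (Finite.injective_iff_bijective.1 hginj), hg⟩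
  choose! θ hθ using hθ
  have hty : ∀ F ∈ Φ.filter fun F => M F = M0, ∀ s, ty (θ F s) = ty s ∧ F0 (θ F s) = F s := by
    intro F hF s
    have h1 := hdec F0 hF0.1 (θ F s)
    have h2 := hdec F (Finset.mem_filter.1 hF).1 s
    rw [hθ F hF s, h2, Prod.mk.injEq] at h1
    exact ⟨h1.1.symm, h1.2.symm⟩
  have hcard : (Finset.univ.filter fun g : Equiv.Perm σ => ty ∘ g = ty).card =
      ∏ t, (Finset.univ.filter fun s => ty s = t).card.factorial := by
    have h1 := DomMulAct.stabilizer_card ty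
    rw [Fintype.card_subtype] at h1
    rw [h1]
    refine Finset.prod_congr rfl fun t _ => ?_
    rw [Fintype.card_subtype]
  rw [← hcard]
  refine Finset.card_le_card_of_injOn θ ?_ ?_
  · intro F hF
    rw [Finset.mem_coe, Finset.mem_filter]
    refine ⟨Finset.mem_univ _, ?_⟩
    funext s
    exact (hty F hF s).1
  · intro F hF F' hF' h
    funext s
    have h1 := (hty F hF s).2
    have h2 := (hty F' hF' s).2
    rw [← h1, ← h2, h]

end Pool.Agent.SKP
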