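import Pool.Agent.SKP.StS

/-!
# SKP, Fill: number of the packings with prescribed types
-/

set_option autoImplicit false

namespace Pool.Agent.SKP

open scoped Classical
open Finset

section gen

/-- counting of injective choices -/
private theorem Fill_cnt {V T X : Type} [Fintype V] [Fintype T] [Fintype X] [DecidableEq V]
    (tg : V → T) (R : T → Finset X) [DecidablePred fun g : V → X =>
      (∀ v, g v ∈ R (tg v)) ∧ Function.Injective g]
    (hR : ∀ τ τ', τ ≠ τ' → Disjoint (R τ) (R τ')) (N : T → ℕ)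
    (hN : ∀ τ, Nat.card {v // tg v = τ} = N τ) :
    ∏ τ, (R τ).card.descFactorial (N τ) ≤
      (univ.filter fun g : V → X => (∀ v, g v ∈ R (tg v)) ∧ Function.Injective g).card := by
  have h1 : Fintype.card (∀ τ, ({v // tg v = τ} ↪ {x // x ∈ R τ})) =
      ∏ τ, (R τ).card.descFactorial (N τ) := by
    rw [Fintype.card_pi]
    refine prod_congr rfl fun τ _ => ?_
    rw [Fintype.card_embedding_eq, Fintype.card_coe, ← hN τ, Nat.card_eq_fintype_card]
  have htr : ∀ (h : ∀ τ, ({v // tg v = τ} ↪ {x // x ∈ R τ})) (v : V) (τ : T) (h1 : tg v = τ),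
      ((h τ ⟨v, h1⟩ : {x // x ∈ R τ}) : X) = (h (tg v) ⟨v, rfl⟩ : {x // x ∈ R (tg v)}) := by
    intro h v τ h1
    subst h1
    rfl
  rw [← h1, ← Fintype.card_coe]
  refine Fintype.card_le_of_injective (fun h => ⟨fun v => (h (tg v) ⟨v, rfl⟩ : X), ?_⟩) ?_
  · rw [mem_filter]
    refine ⟨mem_univ _, fun v => (h (tg v) ⟨v, rfl⟩).2, fun v v' hv => ?_⟩
    have hv' : ((h (tg v) ⟨v, rfl⟩ : {x // x ∈ R (tg v)}) : X) =
        (h (tg v') ⟨v', rfl⟩ : {x // x ∈ R (tg v')}) := hv
    by_cases ht : tg v = tg v'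
    · have h3 : ((h (tg v') ⟨v, ht⟩ : {x // x ∈ R (tg v')}) : X) =
          (h (tg v') ⟨v', rfl⟩ : {x // x ∈ R (tg v')}) := (htr h v _ ht).trans hv'
      exact congrArg Subtype.val ((h (tg v')).injective (Subtype.ext h3))
    · exfalso
      have h4 := (h (tg v') ⟨v', rfl⟩).2
      rw [← hv'] at h4
      exact Finset.disjoint_left.1 (hR _ _ ht) (h (tg v) ⟨v, rfl⟩).2 h4
  · intro h h' hh
    funext τ
    refine Function.Embedding.ext fun ⟨v, hv⟩ => Subtype.ext ?_
    rw [htr h v τ hv, htr h' v τ hv]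
    exact congrFun (congrArg Subtype.val hh) v

end gen

/-- types of triangles -/
private abbrev FillT : Type := Bool ⊕ (Fin 3 × Fin 4)

/-- class of the third vertex -/
private def Fill_th (i : Fin 3) (k : Fin 4) : Fin 3 × Bool :=
  if k = 0 then (i + 2, true) else if k = 1 then (i + 1, false)
  else if k = 2 then (i + 1, true) else (i + 2, false)

/-- classes of the vertices -/
private def Fill_C : FillT → Fin 3 → Fin 3 × Bool
  | Sum.inl b, j => (j, b)
  | Sum.inr (i, k), j => if j = 0 then (i, true) else if j = 1 then (i, false) else Fill_th i k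

private theorem Fill_Cinj : ∀ (t : FillT) (j j' : Fin 3), Fill_C t j = Fill_C t j' → j = j' := by
  decide

private theorem Fill_Cty : ∀ t t' : FillT, (∀ j, ∃ j', Fill_C t j = Fill_C t' j') → t = t' := by
  decide

section slots

variable {α α' P : ℕ}

private abbrev FillS (α α' P : ℕ) : Type := Fin α ⊕ (Fin α' ⊕ (Fin 3 × Fin P))

private abbrev FillV (α α' P : ℕ) : Type := (Fin α × Fin 3) ⊕ ((Fin α' × Fin 3) ⊕ (Fin 3 × Fin P))

private abbrev FillW (α α' P : ℕ) : Type := FillV α α' P ⊕ ((Fin 3 × Bool) × Fin P)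

private def Fill_k (m y z t : ℕ) : Fin 4 :=
  if t < y then 0 else if t < m then 1 else if t < m + z then 2 else 3

private def Fill_ty (m y z : Fin 3 → ℕ) : FillS α α' P → FillT
  | Sum.inl _ => Sum.inl true
  | Sum.inr (Sum.inl _) => Sum.inl false
  | Sum.inr (Sum.inr (i, t)) => Sum.inr (i, Fill_k (m i) (y i) (z i) t)

private def Fill_tg (m y z : Fin 3 → ℕ) : FillV α α' P → Fin 3 × Bool
  | Sum.inl (_, j) => (j, true)
  | Sum.inr (Sum.inl (_, j)) => (j, false)
  | Sum.inr (Sum.inr (i, t)) => Fill_th i (Fill_k (m i) (y i) (z i) t)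

private def Fill_vert : FillS α α' P → Fin 3 → FillW α α' P
  | Sum.inl a, j => Sum.inl (Sum.inl (a, j))
  | Sum.inr (Sum.inl b), j => Sum.inl (Sum.inr (Sum.inl (b, j)))
  | Sum.inr (Sum.inr (i, t)), j => if j = 0 then Sum.inr ((i, true), t)
      else if j = 1 then Sum.inr ((i, false), t) else Sum.inl (Sum.inr (Sum.inr (i, t)))

private def Fill_cls (m y z : Fin 3 → ℕ) (x : FillW α α' P) : Fin 3 × Bool :=
  Sum.elim (Fill_tg m y z) (fun x => x.1) x

private theorem Fill_cls_vert (m y z : Fin 3 → ℕ) (s : FillS α α' P) (j : Fin 3) :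
    Fill_cls m y z (Fill_vert s j) = Fill_C (Fill_ty m y z s) j := by
  rcases s with a | b | ⟨i, t⟩
  · rfl
  · rfl
  · fin_cases j <;> rfl

private theorem Fill_vert_inj (s s' : FillS α α' P) (j j' : Fin 3)
    (h : Fill_vert s j = Fill_vert s' j') : s = s' ∧ j = j' := by
  rcases s with a | b | ⟨i, t⟩ <;> rcases s' with a' | b' | ⟨i', t'⟩
  · simp only [Fill_vert, Sum.inl.injEq, Prod.mk.injEq] at h
    exact ⟨by rw [h.1], h.2⟩
  · simp [Fill_vert] at h
  · fin_cases j' <;> simp [Fill_vert] at h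
  · simp [Fill_vert] at h
  · simp only [Fill_vert, Sum.inl.injEq, Sum.inr.injEq, Prod.mk.injEq] at h
    exact ⟨by rw [h.1], h.2⟩
  · fin_cases j' <;> simp [Fill_vert] at h
  · fin_cases j <;> simp [Fill_vert] at h
  · fin_cases j <;> simp [Fill_vert] at h
  · fin_cases j <;> fin_cases j' <;> simp [Fill_vert] at h ⊢ <;> exact h

private theorem Fill_vert_surj (x : FillW α α' P) : ∃ s j, Fill_vert s j = x := by
  rcases x with (⟨a, j⟩ | ⟨b, j⟩ | ⟨i, t⟩) | ⟨⟨i, b⟩, t⟩
  · exact ⟨Sum.inl a, j, rfl⟩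
  · exact ⟨Sum.inr (Sum.inl b), j, rfl⟩
  · exact ⟨Sum.inr (Sum.inr (i, t)), 2, rfl⟩
  · cases b
    · exact ⟨Sum.inr (Sum.inr (i, t)), 1, rfl⟩
    · exact ⟨Sum.inr (Sum.inr (i, t)), 0, rfl⟩

private theorem Fill_N (P m y z : ℕ) (hm : m ≤ P) (hy : y ≤ m) (hz : z ≤ P - m) (k : Fin 4) :
    ∑ t : Fin P, (if Fill_k m y z t = k then 1 else 0) =
      if k = 0 then y else if k = 1 then m - y else if k = 2 then z else P - m - z := by
  rw [← Finset.sum_range (fun t => if Fill_k m y z t = k then 1 else 0), ← card_filter]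
  have h : ∀ a b : ℕ, a ≤ b → b ≤ P → (∀ t, t < P → (Fill_k m y z t = k ↔ a ≤ t ∧ t < b)) →
      ((range P).filter fun t => Fill_k m y z t = k).card = b - a := by
    intro a b _ hb h
    rw [← Nat.card_Ico]
    congr 1
    ext t
    rw [mem_filter, mem_range, mem_Ico]
    constructor
    · rintro ⟨h1, h2⟩
      exact (h t h1).1 h2
    · intro h1
      have h2 : t < P := by omega
      exact ⟨h2, (h t h2).2 h1⟩
  fin_cases k
  · rw [h 0 y (by omega) (by omega) fun t ht => by
      simp only [Fill_k]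
      split_ifs <;> simp <;> omega]
    rfl
  · rw [h y m (by omega) (by omega) fun t ht => by
      simp only [Fill_k]
      split_ifs <;> simp <;> omega]
    rfl
  · rw [h m (m + z) (by omega) (by omega) fun t ht => by
      simp only [Fill_k]
      split_ifs <;> simp <;> omega]
    show m + z - m = z
    omega
  · rw [h (m + z) P (by omega) (by omega) fun t ht => by
      simp only [Fill_k]
      split_ifs <;> simp <;> omega]
    show P - (m + z) = P - m - z
    omega

private theorem Fill_tyfib (m y z : Fin 3 → ℕ) (hm : ∀ i, m i ≤ P) (hy : ∀ i, y i ≤ m i)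
    (hz : ∀ i, z i ≤ P - m i) (t : FillT)
    [DecidablePred fun s : FillS α α' P => Fill_ty m y z s = t] :
    (univ.filter fun s : FillS α α' P => Fill_ty m y z s = t).card =
      Sum.elim (fun b => if b = true then α else α')
        (fun x : Fin 3 × Fin 4 => if x.2 = 0 then y x.1 else if x.2 = 1 then m x.1 - y x.1 else
          if x.2 = 2 then z x.1 else P - m x.1 - z x.1) t := by
  rw [card_filter, Fintype.sum_sum_type, Fintype.sum_sum_type, Fintype.sum_prod_type]
  rcases t with b | ⟨i, k⟩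
  · cases b <;> simp [Fill_ty]
  · have h1 : ∀ a : Fin α, Fill_ty m y z (Sum.inl a : FillS α α' P) ≠ Sum.inr (i, k) := fun a h => by
      simp [Fill_ty] at h
    have h2 : ∀ a : Fin α', Fill_ty m y z (Sum.inr (Sum.inl a) : FillS α α' P) ≠
        Sum.inr (i, k) := fun a h => by
      simp [Fill_ty] at h
    rw [Finset.sum_eq_zero fun a _ => if_neg (h1 a), Finset.sum_eq_zero fun a _ => if_neg (h2 a),
      zero_add, zero_add, Fintype.sum_eq_single i]
    · rw [Sum.elim_inr, ← Fill_N P (m i) (y i) (z i) (hm i) (hy i) (hz i) k]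
      refine sum_congr rfl fun t _ => ?_
      by_cases h : Fill_k (m i) (y i) (z i) t = k
      · rw [if_pos h, if_pos]
        rw [Fill_ty, h]
      · rw [if_neg h, if_neg]
        intro h'
        rw [Fill_ty, Sum.inr.injEq, Prod.mk.injEq] at h'
        exact h h'.2
    · intro i' hi'
      refine Finset.sum_eq_zero fun t _ => if_neg fun h => hi' ?_
      rw [Fill_ty, Sum.inr.injEq, Prod.mk.injEq] at h
      exact h.1

private theorem Fill_S3 (m y z : Fin 3 → ℕ) (hm : ∀ i, m i ≤ P) (hy : ∀ i, y i ≤ m i)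
    (hz : ∀ i, z i ≤ P - m i) (i' : Fin 3) (c : Fin 3 × Bool) :
    ∑ t : Fin P, (if Fill_th i' (Fill_k (m i') (y i') (z i') t) = c then 1 else 0) =
      ∑ k : Fin 4, if Fill_th i' k = c then
        (if k = 0 then y i' else if k = 1 then m i' - y i' else if k = 2 then z i' else
          P - m i' - z i') else 0 := by
  calc ∑ t : Fin P, (if Fill_th i' (Fill_k (m i') (y i') (z i') t) = c then 1 else 0) =
      ∑ t : Fin P, ∑ k : Fin 4, (if Fill_k (m i') (y i') (z i') t = k then
        (if Fill_th i' k = c then 1 else 0) else 0) := by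
        refine sum_congr rfl fun t _ => ?_
        rw [Finset.sum_ite_eq, if_pos (mem_univ _)]
    _ = ∑ k : Fin 4, ∑ t : Fin P, (if Fill_k (m i') (y i') (z i') t = k then
        (if Fill_th i' k = c then 1 else 0) else 0) := sum_comm
    _ = _ := by
        refine sum_congr rfl fun k _ => ?_
        rw [← Fill_N P (m i') (y i') (z i') (hm i') (hy i') (hz i') k]
        by_cases h : Fill_th i' k = c
        · simp only [if_pos h]
        · simp only [if_neg h, ite_self, sum_const_zero]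

private theorem Fill_tgfib (m y z : Fin 3 → ℕ) (hm : ∀ i, m i ≤ P) (hy : ∀ i, y i ≤ m i)
    (hz : ∀ i, z i ≤ P - m i) (c : Fin 3 × Bool)
    [DecidablePred fun v : FillV α α' P => Fill_tg m y z v = c] :
    (univ.filter fun v : FillV α α' P => Fill_tg m y z v = c).card =
      if c.2 = true then α + y (c.1 + 1) + z (c.1 + 2) else
        α' + (m (c.1 + 2) - y (c.1 + 2)) + (P - m (c.1 + 1) - z (c.1 + 1)) := by
  have h3 : ∑ i' : Fin 3, ∑ t : Fin P,
      (if Fill_th i' (Fill_k (m i') (y i') (z i') t) = c then 1 else 0) =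
        if c.2 = true then y (c.1 + 1) + z (c.1 + 2) else
          (m (c.1 + 2) - y (c.1 + 2)) + (P - m (c.1 + 1) - z (c.1 + 1)) := by
    rw [sum_congr rfl fun i' _ => Fill_S3 m y z hm hy hz i' c]
    obtain ⟨i, b⟩ := c
    fin_cases i <;> cases b <;> simp [Fin.sum_univ_succ, Fill_th] <;> ring
  rw [card_filter, Fintype.sum_sum_type, Fintype.sum_sum_type]
  have h1 : ∑ v : Fin α × Fin 3, (if Fill_tg m y z (Sum.inl v : FillV α α' P) = c then 1 else 0) =
      if c.2 = true then α else 0 := by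
    rw [Fintype.sum_prod_type]
    obtain ⟨i, b⟩ := c
    cases b <;> simp [Fill_tg]
  have h2 : ∑ v : Fin α' × Fin 3,
      (if Fill_tg m y z (Sum.inr (Sum.inl v) : FillV α α' P) = c then 1 else 0) =
      if c.2 = true then 0 else α' := by
    rw [Fintype.sum_prod_type]
    obtain ⟨i, b⟩ := c
    cases b <;> simp [Fill_tg]
  have h4 : ∑ v : Fin 3 × Fin P,
      (if Fill_tg m y z (Sum.inr (Sum.inr v) : FillV α α' P) = c then 1 else 0) =
      ∑ i' : Fin 3, ∑ t : Fin P,
      (if Fill_th i' (Fill_k (m i') (y i') (z i') t) = c then 1 else 0) := by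
    rw [Fintype.sum_prod_type]
    refine sum_congr rfl fun i' _ => sum_congr rfl fun t _ => ?_
    by_cases h : Fill_th i' (Fill_k (m i') (y i') (z i') t) = c
    · rw [if_pos h, if_pos]
      exact h
    · rw [if_neg h, if_neg]
      exact h
  rw [h1, h2, h4, h3]
  split_ifs <;> omega

end slots

section fill

variable {n α α' P : ℕ}

/-- positions of the class `τ` -/
private def Fill_Cs (w : Fin n → Fin 3) (κ : Fin n → Bool) (τ : Fin 3 × Bool) : Finset (Fin n) :=
  univ.filter fun a => w a = τ.1 ∧ κ a = τ.2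

private theorem Fill_Cs_eq {w : Fin n → Fin 3} {κ : Fin n → Bool} {τ τ' : Fin 3 × Bool} {a : Fin n}
    (h : a ∈ Fill_Cs w κ τ) (h' : a ∈ Fill_Cs w κ τ') : τ = τ' := by
  have h1 := (mem_filter.1 h).2
  have h2 := (mem_filter.1 h').2
  exact Prod.ext (h1.1.symm.trans h2.1) (h1.2.symm.trans h2.2)

private def Fill_pr (q : Fin 3 → (Fin P ↪ Fin n) × (Fin P ↪ Fin n)) (τ : Fin 3 × Bool) :
    Fin P ↪ Fin n :=
  cond τ.2 (q τ.1).1 (q τ.1).2

private def Fill_val (q : Fin 3 → (Fin P ↪ Fin n) × (Fin P ↪ Fin n)) (g : FillV α α' P → Fin n)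
    (x : FillW α α' P) : Fin n :=
  Sum.elim g (fun x => Fill_pr q x.1 x.2) x

private def Fill_R (w : Fin n → Fin 3) (κ : Fin n → Bool)
    (q : Fin 3 → (Fin P ↪ Fin n) × (Fin P ↪ Fin n)) (τ : Fin 3 × Bool) : Finset (Fin n) :=
  Fill_Cs w κ τ \ univ.map (Fill_pr q τ)

private theorem Fill_pr_mem {w : Fin n → Fin 3} {κ : Fin n → Bool} {m : Fin 3 → ℕ}
    {q : Fin 3 → (Fin P ↪ Fin n) × (Fin P ↪ Fin n)}
    (hq : ∀ i, q i ∈ QQ (sA w κ i) (sB w κ i) P (m i)) (τ : Fin 3 × Bool) (t : Fin P) :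
    Fill_pr q τ t ∈ Fill_Cs w κ τ := by
  obtain ⟨i, b⟩ := τ
  have h := (mem_filter.1 (hq i)).2
  cases b
  · exact h.2.1 t
  · exact h.1 t

private theorem Fill_R_card {w : Fin n → Fin 3} {κ : Fin n → Bool} {m : Fin 3 → ℕ}
    {q : Fin 3 → (Fin P ↪ Fin n) × (Fin P ↪ Fin n)}
    (hq : ∀ i, q i ∈ QQ (sA w κ i) (sB w κ i) P (m i)) (τ : Fin 3 × Bool) :
    (Fill_R w κ q τ).card = (Fill_Cs w κ τ).card - P := by
  rw [Fill_R, card_sdiff_of_subset, card_map, card_univ, Fintype.card_fin]
  intro a ha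
  obtain ⟨t, _, rfl⟩ := mem_map.1 ha
  exact Fill_pr_mem hq τ t

private theorem Fill_val_mem {w : Fin n → Fin 3} {κ : Fin n → Bool} {m y z : Fin 3 → ℕ}
    {q : Fin 3 → (Fin P ↪ Fin n) × (Fin P ↪ Fin n)} {g : FillV α α' P → Fin n}
    (hq : ∀ i, q i ∈ QQ (sA w κ i) (sB w κ i) P (m i))
    (hg : ∀ v, g v ∈ Fill_R w κ q (Fill_tg m y z v)) (x : FillW α α' P) :
    Fill_val q g x ∈ Fill_Cs w κ (Fill_cls m y z x) := by
  rcases x with v | ⟨τ, t⟩
  · exact (mem_sdiff.1 (hg v)).1
  · exact Fill_pr_mem hq τ t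

private theorem Fill_val_inj {w : Fin n → Fin 3} {κ : Fin n → Bool} {m y z : Fin 3 → ℕ}
    {q : Fin 3 → (Fin P ↪ Fin n) × (Fin P ↪ Fin n)} {g : FillV α α' P → Fin n}
    (hq : ∀ i, q i ∈ QQ (sA w κ i) (sB w κ i) P (m i))
    (hg : ∀ v, g v ∈ Fill_R w κ q (Fill_tg m y z v)) (hgi : Function.Injective g) :
    Function.Injective (Fill_val q g) := by
  intro x x' h
  have hc : Fill_cls m y z x = Fill_cls m y z x' := by
    have h1 := Fill_val_mem hq hg x
    rw [h] at h1
    exact Fill_Cs_eq h1 (Fill_val_mem hq hg x')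
  rcases x with v | ⟨τ, t⟩ <;> rcases x' with v' | ⟨τ', t'⟩
  · have h1 : g v = g v' := h
    rw [hgi h1]
  · exfalso
    have h1 : Fill_tg m y z v = τ' := hc
    have h2 : g v = Fill_pr q τ' t' := h
    have h3 := (mem_sdiff.1 (hg v)).2
    rw [h1] at h3
    exact h3 (mem_map.2 ⟨t', mem_univ _, h2.symm⟩)
  · exfalso
    have h1 : τ = Fill_tg m y z v' := hc
    have h2 : Fill_pr q τ t = g v' := h
    have h3 := (mem_sdiff.1 (hg v')).2
    rw [← h1] at h3
    exact h3 (mem_map.2 ⟨t, mem_univ _, h2⟩)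
  · have h1 : τ = τ' := hc
    subst h1
    have h2 : Fill_pr q τ t = Fill_pr q τ t' := h
    rw [(Fill_pr q τ).injective h2]

end fill

theorem thm_Fill : Stmt_Typ → Stmt_Fi1 → Stmt_Fill := by
  intro hT hF n α α' P w κ m y z hm hy hz
  set QS : Finset (Fin 3 → (Fin P ↪ Fin n) × (Fin P ↪ Fin n)) :=
    Fintype.piFinset fun i => QQ (sA w κ i) (sB w κ i) P (m i) with hQS
  set GG : (Fin 3 → (Fin P ↪ Fin n) × (Fin P ↪ Fin n)) → Finset (FillV α α' P → Fin n) := fun q =>
    univ.filter fun g => (∀ v, g v ∈ Fill_R w κ q (Fill_tg m y z v)) ∧ Function.Injective g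
    with hGG
  set Φ : Finset (FillS α α' P → Fin 3 → Fin n) :=
    (QS.sigma GG).image (fun d s j => Fill_val d.1 d.2 (Fill_vert s j)) with hΦ
  -- the number of the fillings
  have hcard : (∏ i, (QQ (sA w κ i) (sB w κ i) P (m i)).card) *
      (∏ i, ((sA w κ i).card - P).descFactorial (α + y (i + 1) + z (i + 2))) *
      (∏ i, ((sB w κ i).card - P).descFactorial
        (α' + (m (i + 2) - y (i + 2)) + (P - m (i + 1) - z (i + 1)))) ≤ Φ.card := by
    have h1 : Φ.card = (QS.sigma GG).card := by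
      refine card_image_of_injOn ?_
      rintro ⟨q, g⟩ _ ⟨q', g'⟩ _ h
      have h2 : ∀ x : FillW α α' P, Fill_val q g x = Fill_val q' g' x := by
        intro x
        obtain ⟨s, j, rfl⟩ := Fill_vert_surj x
        exact congrFun (congrFun h s) j
      have h3 : g = g' := funext fun v => h2 (Sum.inl v)
      have h4 : q = q' := by
        funext i
        refine Prod.ext ?_ ?_
        · exact Function.Embedding.ext fun t => h2 (Sum.inr ((i, true), t))
        · exact Function.Embedding.ext fun t => h2 (Sum.inr ((i, false), t))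
      rw [h3, h4]
    have h2 : ∀ q ∈ QS, ∏ τ : Fin 3 × Bool, ((Fill_Cs w κ τ).card - P).descFactorial
        (if τ.2 = true then α + y (τ.1 + 1) + z (τ.1 + 2) else
        α' + (m (τ.1 + 2) - y (τ.1 + 2)) + (P - m (τ.1 + 1) - z (τ.1 + 1))) ≤ (GG q).card := by
      intro q hq
      have hq' : ∀ i, q i ∈ QQ (sA w κ i) (sB w κ i) P (m i) := Fintype.mem_piFinset.1 hq
      have h3 : ∀ τ τ', τ ≠ τ' → Disjoint (Fill_R w κ q τ) (Fill_R w κ q τ') := by
        intro τ τ' hne
        rw [Finset.disjoint_left]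
        intro a ha ha'
        exact hne (Fill_Cs_eq (mem_sdiff.1 ha).1 (mem_sdiff.1 ha').1)
      refine le_trans (le_of_eq ?_) (@Fill_cnt (FillV α α' P) (Fin 3 × Bool) (Fin n) _ _ _ _
        (Fill_tg m y z) (Fill_R w κ q) _ h3 (fun τ => if τ.2 = true then
        α + y (τ.1 + 1) + z (τ.1 + 2) else
        α' + (m (τ.1 + 2) - y (τ.1 + 2)) + (P - m (τ.1 + 1) - z (τ.1 + 1))) fun τ => ?_)
      · refine prod_congr rfl fun τ _ => ?_
        rw [Fill_R_card hq' τ]
      · rw [Nat.card_eq_fintype_card, Fintype.card_subtype, Fill_tgfib m y z hm hy hz τ]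
    rw [h1, card_sigma]
    refine le_trans (le_of_eq ?_) (card_nsmul_le_sum QS _ _ h2)
    rw [smul_eq_mul, hQS, Fintype.card_piFinset, mul_assoc]
    congr 1
    rw [Fintype.prod_prod_type, ← prod_mul_distrib]
    refine prod_congr rfl fun i _ => ?_
    rw [Fintype.prod_bool]
    rfl
  refine hcard.trans ?_
  -- properties of the fillings
  have hval : ∀ F ∈ Φ, ∃ (q : Fin 3 → (Fin P ↪ Fin n) × (Fin P ↪ Fin n))
      (g : FillV α α' P → Fin n), (∀ i, q i ∈ QQ (sA w κ i) (sB w κ i) P (m i)) ∧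
      (∀ v, g v ∈ Fill_R w κ q (Fill_tg m y z v)) ∧ Function.Injective g ∧
      F = fun s j => Fill_val q g (Fill_vert s j) := by
    intro F hFm
    obtain ⟨⟨q, g⟩, hd, rfl⟩ := mem_image.1 hFm
    obtain ⟨hq, hg⟩ := mem_sigma.1 hd
    exact ⟨q, g, Fintype.mem_piFinset.1 hq, (mem_filter.1 hg).2.1, (mem_filter.1 hg).2.2, rfl⟩
  have hcl : ∀ F ∈ Φ, ∀ s j, F s j ∈ Fill_Cs w κ (Fill_C (Fill_ty m y z s) j) := by
    intro F hFm s j
    obtain ⟨q, g, hq, hg, _, rfl⟩ := hval F hFm
    have h1 := Fill_val_mem hq hg (Fill_vert s j)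
    rw [Fill_cls_vert] at h1
    exact h1
  have hinj : ∀ F ∈ Φ, ∀ s j s' j', F s j = F s' j' → s = s' ∧ j = j' := by
    intro F hFm s j s' j' h
    obtain ⟨q, g, hq, hg, hgi, rfl⟩ := hval F hFm
    exact Fill_vert_inj s s' j j' (Fill_val_inj hq hg hgi h)
  have hG : ∀ F ∈ Φ, ∀ s, Gs w κ {F s 0, F s 1, F s 2} := by
    intro F hFm s
    have hc := hcl F hFm s
    obtain ⟨t1, t2, t3⟩ := hT n w κ
    rcases s with a | b | ⟨i, t⟩
    · exact t1 _ _ _ (hc 0) (hc 1) (hc 2)
    · exact t2 _ _ _ (hc 0) (hc 1) (hc 2)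
    · obtain ⟨q, g, hq, hg, _, rfl⟩ := hval F hFm
      have hc0 : (q i).1 t ∈ sA w κ i := hc 0
      have hc1 : (q i).2 t ∈ sB w κ i := hc 1
      have hc2 : g (Sum.inr (Sum.inr (i, t))) ∈ Fill_Cs w κ
        (Fill_th i (Fill_k (m i) (y i) (z i) t)) := hc 2
      have hlt := (mem_filter.1 (hq i)).2.2.2 t
      show Gs w κ {(q i).1 t, (q i).2 t, g (Sum.inr (Sum.inr (i, t)))}
      have hne : (q i).1 t ≠ (q i).2 t := by
        intro h
        have h1 := (mem_filter.1 hc0).2.2
        have h2 := (mem_filter.1 hc1).2.2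
        rw [h, h2] at h1
        exact absurd h1 (by decide)
      obtain ⟨u1, u2⟩ := t3 i _ _ (g (Sum.inr (Sum.inr (i, t)))) hc0 hc1
      have hy' := hy i
      by_cases e1 : (t : ℕ) < m i
      · refine u1 (hlt.2 e1) ?_
        by_cases e2 : (t : ℕ) < y i
        · left
          have e3 : Fill_k (m i) (y i) (z i) t = 0 := by
            rw [Fill_k, if_pos e2]
          rw [e3] at hc2
          exact hc2
        · right
          have e3 : Fill_k (m i) (y i) (z i) t = 1 := by
            rw [Fill_k, if_neg e2, if_pos e1]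
          rw [e3] at hc2
          exact hc2
      · have e0 : ¬ (t : ℕ) < y i := by omega
        refine u2 (lt_of_le_of_ne (not_lt.1 fun h => e1 (hlt.1 h)) hne.symm) ?_
        by_cases e2 : (t : ℕ) < m i + z i
        · left
          have e3 : Fill_k (m i) (y i) (z i) t = 2 := by
            rw [Fill_k, if_neg e0, if_neg e1, if_pos e2]
          rw [e3] at hc2
          exact hc2
        · right
          have e3 : Fill_k (m i) (y i) (z i) t = 3 := by
            rw [Fill_k, if_neg e0, if_neg e1, if_neg e2]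
          rw [e3] at hc2
          exact hc2
  have hD : ∀ F ∈ Φ, ∀ s s', s ≠ s' →
      Disjoint ({F s 0, F s 1, F s 2} : Finset (Fin n)) {F s' 0, F s' 1, F s' 2} := by
    intro F hFm s s' hne
    rw [Finset.disjoint_left]
    intro a ha ha'
    have h1 : ∃ j, a = F s j := by
      rw [mem_insert, mem_insert, mem_singleton] at ha
      rcases ha with h | h | h
      exacts [⟨0, h⟩, ⟨1, h⟩, ⟨2, h⟩]
    have h2 : ∃ j, a = F s' j := by
      rw [mem_insert, mem_insert, mem_singleton] at ha'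
      rcases ha' with h | h | h
      exacts [⟨0, h⟩, ⟨1, h⟩, ⟨2, h⟩]
    obtain ⟨j, hj⟩ := h1
    obtain ⟨j', hj'⟩ := h2
    exact hne (hinj F hFm s j s' j' (hj.symm.trans hj')).1
  have hU : ∀ F ∈ Φ, ∀ F' ∈ Φ, ∀ s s', ({F s 0, F s 1, F s 2} : Finset (Fin n)) =
      {F' s' 0, F' s' 1, F' s' 2} → Fill_ty m y z s = Fill_ty m y z s' ∧ F s = F' s' := by
    intro F hFm F' hFm' s s' h
    have h1 : ∀ j, ∃ j', F s j = F' s' j' := by
      intro j
      have h2 : F s j ∈ ({F s 0, F s 1, F s 2} : Finset (Fin n)) := by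
        fin_cases j <;> simp
      rw [h, mem_insert, mem_insert, mem_singleton] at h2
      rcases h2 with h2 | h2 | h2
      exacts [⟨0, h2⟩, ⟨1, h2⟩, ⟨2, h2⟩]
    have h3 : ∀ j j', F s j = F' s' j' →
        Fill_C (Fill_ty m y z s) j = Fill_C (Fill_ty m y z s') j' := by
      intro j j' hj
      have h4 := hcl F hFm s j
      rw [hj] at h4
      exact Fill_Cs_eq h4 (hcl F' hFm' s' j')
    have h5 : Fill_ty m y z s = Fill_ty m y z s' := Fill_Cty _ _ fun j => by
      obtain ⟨j', hj'⟩ := h1 j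
      exact ⟨j', h3 j j' hj'⟩
    refine ⟨h5, funext fun j => ?_⟩
    obtain ⟨j', hj'⟩ := h1 j
    have h6 := h3 j j' hj'
    rw [h5] at h6
    rw [hj', ← Fill_Cinj _ _ _ h6]
  have hσ : Fintype.card (FillS α α' P) = α + α' + 3 * P := by
    rw [Fintype.card_sum, Fintype.card_sum, Fintype.card_prod, Fintype.card_fin, Fintype.card_fin,
      Fintype.card_fin, Fintype.card_fin, add_assoc]
  have hprod : ∀ (inst : ∀ t, DecidablePred fun s : FillS α α' P => Fill_ty m y z s = t),
      ∏ t : FillT, (@Finset.filter _ (fun s : FillS α α' P => Fill_ty m y z s = t) (inst t)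
        univ).card.factorial = α.factorial * α'.factorial *
      ∏ i, ((y i).factorial * (m i - y i).factorial * (z i).factorial *
      (P - m i - z i).factorial) := by
    intro inst
    rw [prod_congr rfl fun t _ => by rw [@Fill_tyfib α α' P m y z hm hy hz t (inst t)],
      Fintype.prod_sum_type, Fintype.prod_bool, Fintype.prod_prod_type]
    refine congrArg₂ _ rfl (prod_congr rfl fun i _ => ?_)
    rw [Fin.prod_univ_four]
    rfl
  rcases Nat.eq_zero_or_pos n with hn | hn
  · subst hn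
    rcases isEmpty_or_nonempty (FillS α α' P) with hE | ⟨⟨s⟩⟩
    · have h1 : Φ.card ≤ 1 := by
        refine (card_le_univ Φ).trans (le_of_eq ?_)
        exact Fintype.card_unique
      have h2 : 1 ≤ (Pk (Gs w κ) (α + α' + 3 * P)).card := by
        refine card_pos.2 ⟨∅, ?_⟩
        rw [Pk, mem_filter]
        refine ⟨mem_univ _, ?_, ?_, ?_⟩
        · rw [card_empty, ← hσ, Fintype.card_eq_zero]
        · intro t ht
          exact absurd ht (notMem_empty t)
        · intro t ht
          exact absurd ht (notMem_empty t)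
      refine h1.trans ((Nat.one_le_iff_ne_zero.2 (mul_ne_zero (by omega) ?_)))
      refine mul_ne_zero (mul_ne_zero (Nat.factorial_ne_zero _) (Nat.factorial_ne_zero _)) ?_
      refine prod_ne_zero_iff.2 fun i _ => ?_
      exact mul_ne_zero (mul_ne_zero (mul_ne_zero (Nat.factorial_ne_zero _)
        (Nat.factorial_ne_zero _)) (Nat.factorial_ne_zero _)) (Nat.factorial_ne_zero _)
    · have h1 : Φ = ∅ := by
        rw [eq_empty_iff_forall_notMem]
        intro F _
        exact (F s 0).elim0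
      rw [h1, card_empty]
      exact Nat.zero_le _
  · set dec : Finset (Fin n) → FillT × (Fin 3 → Fin n) := fun T =>
      if h : ∃ x : FillS α α' P × (FillS α α' P → Fin 3 → Fin n), x.2 ∈ Φ ∧
        ({x.2 x.1 0, x.2 x.1 1, x.2 x.1 2} : Finset (Fin n)) = T then
        (Fill_ty m y z h.choose.1, h.choose.2 h.choose.1) else
        (Sum.inl true, fun _ => ⟨0, hn⟩) with hdec
    have h1 := hF n (Gs w κ) (FillS α α' P) FillT (Fill_ty m y z) dec Φ (fun F hFm => ⟨hG F hFm,
      hD F hFm, fun s => by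
        have h2 : ∃ x : FillS α α' P × (FillS α α' P → Fin 3 → Fin n), x.2 ∈ Φ ∧
          ({x.2 x.1 0, x.2 x.1 1, x.2 x.1 2} : Finset (Fin n)) = {F s 0, F s 1, F s 2} :=
          ⟨(s, F), hFm, rfl⟩
        rw [hdec]
        simp only [dif_pos h2]
        obtain ⟨h3, h4⟩ := h2.choose_spec
        obtain ⟨h5, h6⟩ := hU _ h3 F hFm _ _ h4
        rw [h5, h6]⟩)
    rw [hσ] at h1
    refine h1.trans (le_of_eq (congrArg (fun x => (Pk (Gs w κ) (α + α' + 3 * P)).card * x) ?_))
    exact hprod _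

end Pool.Agent.SKP
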