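import Pool.Agent.SKP.StA

/-!
# Sierksma's bound in the plane (MP_001fdd_co): arbitrary sets
-/

set_option autoImplicit false

namespace Pool.Agent.SKP

open scoped Classical
open Pool.Agent.Tvb (Pos Zero Base Good hat TP)
open Pool.Agent.Tvo (PP so ind)
open Pool.Agent.Tvv (J Lb ev UU dd)

private theorem FinA_hat (p : E2) : hat p 2 = 1 := by
  have h : (2 : Fin 3) = Fin.last 2 := rfl
  rw [h]
  unfold hat
  rw [Fin.snoc_last]

private theorem FinA_delta (hL : Stmt_Cl2) (k : ℕ) (Q : J k 3 → E2) (s : Fin 3 → ℝ) :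
    ∃ δ : ℝ, 0 < δ ∧ ∀ Q' : J k 3 → E2, (∀ a, dist (Q' a) (Q a) < δ) →
      ∀ π : J k 3 → Lb k, CV (ht Q') s π → CV (ht Q) s π := by
  have h : ∀ π : J k 3 → Lb k, ∃ δ : ℝ, 0 < δ ∧ ∀ Q' : J k 3 → E2,
      (∀ a, dist (Q' a) (Q a) < δ) → CV (ht Q') s π → CV (ht Q) s π := by
    intro π
    by_cases hc : CV (ht Q) s π
    · exact ⟨1, one_pos, fun _ _ _ => hc⟩
    · by_contra hcon
      push Not at hcon
      refine hc (hL k Q s π fun δ hδ => ?_)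
      obtain ⟨Q', h1, h2, -⟩ := hcon δ hδ
      exact ⟨Q', h1, h2⟩
  choose δ hδ0 hδ using h
  obtain ⟨δ0, h1, h2⟩ : ∃ δ0 : ℝ, 0 < δ0 ∧ ∀ π, δ0 ≤ δ π := by
    by_cases hne : Nonempty (J k 3 → Lb k)
    · refine ⟨Finset.univ.inf' Finset.univ_nonempty δ, ?_, fun π =>
        Finset.inf'_le _ (Finset.mem_univ π)⟩
      rw [Finset.lt_inf'_iff]
      exact fun π _ => hδ0 π
    · exact ⟨1, one_pos, fun π => (hne ⟨π⟩).elim⟩
  exact ⟨δ0, h1, fun Q' hQ' π hc => hδ π Q' (fun a => (hQ' a).trans_le (h2 π)) hc⟩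

theorem thm_FinA : Stmt_Con → Stmt_Dns → Stmt_Cl2 → Stmt_Ctp → Stmt_FinA := by
  intro hCon hDns hCl hCtp k B hB S hS
  have hJ : Fintype.card (Option (J k 3)) = Fintype.card S := by
    rw [Fintype.card_option, Fintype.card_coe, hS, Fintype.card_prod, Fintype.card_fin,
      Fintype.card_fin]
    ring
  obtain ⟨q⟩ : Nonempty (Option (J k 3) ≃ S) := Fintype.card_eq.1 hJ
  obtain ⟨Q, hQ⟩ : ∃ Q : J k 3 → E2, Q = fun a => (q (some a) : E2) := ⟨_, rfl⟩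
  obtain ⟨s, hs⟩ : ∃ s : Fin 3 → ℝ, s = hat (q none : E2) := ⟨_, rfl⟩
  obtain ⟨δ, hδ, hδ1⟩ := FinA_delta hCl k Q s
  obtain ⟨Q', hQ1, hQ2, hQ3⟩ := hDns k Q δ hδ
  obtain ⟨c, hc⟩ := hB Q' hQ2 hQ3
  have h1 := hCon k (ht Q') s (hat c) hQ2 (fun a => FinA_hat (Q' a)) (by rw [hs]; exact FinA_hat _)
    (FinA_hat c)
  have h2 : (Finset.univ.filter fun π : J k 3 → Lb k => CV (ht Q') s π).card ≤
      (Finset.univ.filter fun π : J k 3 → Lb k => CV (ht Q) s π).card := by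
    refine Finset.card_le_card fun π hπ => ?_
    rw [Finset.mem_filter] at hπ ⊢
    exact ⟨Finset.mem_univ _, hδ1 Q' hQ1 π hπ.2⟩
  have h3 := hCtp k S q
  rw [← hs, ← hQ] at h3
  omega

end Pool.Agent.SKP
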