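import Pool.Agent.SKP.Nu1

/-!
# Sierksma's bound in the plane (MP_001fdd_co), module GG: formulas for G1 and G2
-/

set_option autoImplicit false

namespace Pool.Agent.SKP

open scoped Classical

/-- C7a -/
theorem thm_GG : Stmt_GG := by
  intro k w κ hk
  obtain ⟨huv, hu, hv⟩ := Nu1_uv (n := 3 * k) (by omega) κ
  have h0 := Nu1_st k hk w κ 0
  have h1 := Nu1_st k hk w κ 1
  have h2 := Nu1_st k hk w κ 2
  have e3 : (0 : Fin 3) + 1 = 1 := rfl
  have e4 : (0 : Fin 3) + 2 = 2 := rfl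
  have e5 : (2 : Fin 3) + 1 = 0 := rfl
  have e6 : (2 : Fin 3) + 2 = 1 := rfl
  unfold G1 G2 eA eB fA fB
  rw [e3, e4, e5, e6]
  generalize st k w κ 0 = s0 at *
  generalize st k w κ 1 = s1 at *
  generalize st k w κ 2 = s2 at *
  generalize uu κ = u at *
  generalize vv κ = v at *
  obtain rfl : v = 1 - u := by linarith
  have ht : u * (1 - u) ≤ 1 / 4 := by nlinarith [sq_nonneg (2 * u - 1)]
  have ht0 : 0 ≤ u * (1 - u) := mul_nonneg hu hv
  constructor
  · have e : ((((sA w κ 0).card : ℝ) / k -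
        (u ^ 3 + u * (1 - u) + u ^ 2 * (1 - u) * (1 + (s1 - s2)))) -
        (((sB w κ 0).card : ℝ) / k -
        ((1 - u) ^ 3 + u * (1 - u) + u * (1 - u) ^ 2 * (1 - (s1 - s2)))) +
        ((((sA w κ 2).card : ℝ) / k -
        (u ^ 3 + u * (1 - u) + u ^ 2 * (1 - u) * (1 + (s0 - s1)))) -
        (((sB w κ 2).card : ℝ) / k -
        ((1 - u) ^ 3 + u * (1 - u) + u * (1 - u) ^ 2 * (1 - (s0 - s1)))))) -
        ((((sA w κ 0).card : ℝ) - (sB w κ 0).card + (sA w κ 2).card - (sB w κ 2).card) / k -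
        2 * (u - (1 - u))) = -(u * (1 - u) * (s0 - s2)) := by
      rw [sub_div, add_div, sub_div]
      ring
    rw [e, abs_neg, abs_mul, abs_of_nonneg ht0]
    have hs : |s0 - s2| ≤ 1 := by rw [abs_le]; constructor <;> linarith [h0.1, h0.2, h2.1, h2.2]
    calc u * (1 - u) * |s0 - s2| ≤ 1 / 4 * 1 := mul_le_mul ht hs (abs_nonneg _) (by norm_num)
      _ = 1 / 4 := by norm_num
  · have e : ((((sA w κ 0).card : ℝ) / k -
        (u ^ 3 + u * (1 - u) + u ^ 2 * (1 - u) * (1 + (s1 - s2)))) -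
        (((sB w κ 0).card : ℝ) / k -
        ((1 - u) ^ 3 + u * (1 - u) + u * (1 - u) ^ 2 * (1 - (s1 - s2)))) -
        ((((sA w κ 2).card : ℝ) / k -
        (u ^ 3 + u * (1 - u) + u ^ 2 * (1 - u) * (1 + (s0 - s1)))) -
        (((sB w κ 2).card : ℝ) / k -
        ((1 - u) ^ 3 + u * (1 - u) + u * (1 - u) ^ 2 * (1 - (s0 - s1)))))) -
        (((sA w κ 0).card : ℝ) - (sB w κ 0).card - (sA w κ 2).card + (sB w κ 2).card) / k
        = -(u * (1 - u) * (2 * s1 - s0 - s2)) := by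
      rw [add_div, sub_div, sub_div]
      ring
    rw [e, abs_neg, abs_mul, abs_of_nonneg ht0]
    have hs : |2 * s1 - s0 - s2| ≤ 2 := by
      rw [abs_le]
      constructor <;> linarith [h0.1, h0.2, h1.1, h1.2, h2.1, h2.2]
    calc u * (1 - u) * |2 * s1 - s0 - s2| ≤ 1 / 4 * 2 :=
          mul_le_mul ht hs (abs_nonneg _) (by norm_num)
      _ = 1 / 2 := by norm_num

end Pool.Agent.SKP
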