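import Pool.Agent.SKP.StA

set_option autoImplicit false

namespace Pool.Agent.SKP

open scoped Classical
open Pool.Agent.Tvb (hat)
open Pool.Agent.Tvv (J Lb ev UU dd)

/-- distribution of the indices -/
private theorem GJx_comb (k : ℕ) (π : J k 3 → Lb k)
    (h : ∀ l, (Finset.univ.filter fun a => π a = l).card ≤ 3) :
    ∃ (g : Fin 3 → Lb k) (idx : J k 3 → Fin 3), (∀ a, g (idx a) ≠ π a) ∧
      ∀ a b, π a = π b → idx a = idx b → a = b := by
  let d : Lb k → ℕ := fun l => 3 - (Finset.univ.filter fun a => π a = l).card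
  have hcard : ∑ l, (Finset.univ.filter fun a => π a = l).card = 3 * k := by
    have h1 := Finset.card_eq_sum_card_fiberwise (f := π) (s := Finset.univ) (t := Finset.univ)
      (fun a _ => Finset.mem_coe.2 (Finset.mem_univ _))
    rw [← h1, Finset.card_univ, Fintype.card_prod, Fintype.card_fin, Fintype.card_fin, mul_comm]
  have hd : ∑ l, d l = 3 := by
    have h1 : ∑ l, (d l + (Finset.univ.filter fun a => π a = l).card) = ∑ _l : Lb k, 3 :=
      Finset.sum_congr rfl fun l _ => Nat.sub_add_cancel (h l)
    rw [Finset.sum_add_distrib, hcard, Finset.sum_const, Finset.card_univ, smul_eq_mul,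
      Fintype.card_option, Fintype.card_fin] at h1
    omega
  have e1 : Fintype.card (Σ l : Lb k, Fin (d l)) = Fintype.card (Fin 3) := by
    rw [Fintype.card_sigma, Fintype.card_fin]
    simp only [Fintype.card_fin]
    exact hd
  let E : Fin 3 ≃ (Σ l : Lb k, Fin (d l)) := (Fintype.equivOfCardEq e1).symm
  let g : Fin 3 → Lb k := fun i => (E i).1
  have hg : ∀ l, Fintype.card {i // g i = l} = d l := by
    intro l
    have h1 : Fintype.card {i // g i = l} = Fintype.card (Fin (d l)) := by
      refine Fintype.card_congr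
        { toFun := fun i => (finCongr (congrArg d i.2)) (E i.1).2
          invFun := fun c => ⟨E.symm ⟨l, c⟩, by
            show (E (E.symm ⟨l, c⟩)).1 = l
            rw [Equiv.apply_symm_apply]⟩
          left_inv := ?_
          right_inv := ?_ }
      · rintro ⟨i, hi⟩
        apply Subtype.ext
        show E.symm ⟨l, (finCongr (congrArg d hi)) (E i).2⟩ = i
        rw [Equiv.symm_apply_eq]
        subst hi
        rfl
      · intro c
        apply Fin.ext
        show ((E (E.symm ⟨l, c⟩)).2 : ℕ) = (c : ℕ)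
        rw [Equiv.apply_symm_apply]
    rw [h1, Fintype.card_fin]
  have hθ : ∀ l, Fintype.card {a // π a = l} = Fintype.card {i // g i ≠ l} := by
    intro l
    have h1 : Fintype.card {i // g i ≠ l} = Fintype.card (Fin 3) - Fintype.card {i // g i = l} :=
      Fintype.card_subtype_compl _
    rw [h1, hg, Fintype.card_fin, Fintype.card_subtype]
    have h2 := h l
    have h3 : d l = 3 - (Finset.univ.filter fun a => π a = l).card := rfl
    omega
  let θ : ∀ l, {a // π a = l} ≃ {i // g i ≠ l} := fun l => Fintype.equivOfCardEq (hθ l)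
  refine ⟨g, fun a => (θ (π a) ⟨a, rfl⟩).1, fun a => (θ (π a) ⟨a, rfl⟩).2, ?_⟩
  intro a b hab h1
  have key : ∀ (l : Lb k) (ha : π a = l) (hb : π b = l),
      ((θ l ⟨a, ha⟩ : {i // g i ≠ l}) : Fin 3) = (θ l ⟨b, hb⟩ : {i // g i ≠ l}) → a = b := by
    intro l ha hb h2
    have h3 := (θ l).injective (Subtype.ext h2)
    exact congrArg Subtype.val h3
  have h4 : ∀ (l : Lb k) (hb : π b = l), ((θ (π b) ⟨b, rfl⟩ : {i // g i ≠ π b}) : Fin 3) =
      (θ l ⟨b, hb⟩ : {i // g i ≠ l}) := by
    intro l hb
    subst hb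
    rfl
  exact key (π a) rfl hab.symm (h1.trans (h4 (π a) hab.symm))

private noncomputable def GJx_p (i : Fin 3) : E2 :=
  !₂[(if i = 1 then 1 else 0 : ℝ), if i = 2 then 1 else 0]

private theorem GJx_h0 (i : Fin 3) : hat (GJx_p i) 0 = if i = 1 then 1 else 0 := by
  have : (0 : Fin 3) = Fin.castSucc (0 : Fin 2) := rfl
  rw [hat, this, Fin.snoc_castSucc]
  rfl

private theorem GJx_h1 (i : Fin 3) : hat (GJx_p i) 1 = if i = 2 then 1 else 0 := by
  have : (1 : Fin 3) = Fin.castSucc (1 : Fin 2) := rfl
  rw [hat, this, Fin.snoc_castSucc]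
  rfl

private theorem GJx_h2 (i : Fin 3) : hat (GJx_p i) 2 = 1 := by
  have : (2 : Fin 3) = Fin.last 2 := rfl
  rw [hat, this, Fin.snoc_last]

/-- coordinates -/
private def GJx_l (i : Fin 3) (m : Fin 3) : ℝ :=
  if i = 0 then (if m = 2 then 1 else -1) else (if (m : ℕ) + 1 = i then 1 else 0)

private theorem GJx_dual (i j : Fin 3) :
    ∑ m, GJx_l i m * hat (GJx_p j) m = if j = i then 1 else 0 := by
  rw [Fin.sum_univ_three, GJx_h0, GJx_h1, GJx_h2]
  fin_cases i <;> fin_cases j <;> simp [GJx_l]

theorem thm_GJx : Stmt_GJx := by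
  intro k π h
  obtain ⟨g, idx, h1, h2⟩ := GJx_comb k π h
  refine ⟨fun a => GJx_p (idx a), ?_⟩
  intro hdet
  obtain ⟨v, hv, hv0⟩ := Matrix.exists_vecMul_eq_zero_iff.2 hdet
  apply hv
  have hs : ∀ (j : Fin k) (m : Fin 3), ∑ a, v a * (ev (π a) j * hat (GJx_p (idx a)) m) = 0 := by
    intro j m
    have := congrFun hv0 (j, m)
    exact this
  -- the coordinates
  have hc : ∀ (j : Fin k) (i : Fin 3), ∑ a, v a * (ev (π a) j * if idx a = i then 1 else 0) = 0 := by
    intro j i
    calc ∑ a, v a * (ev (π a) j * if idx a = i then 1 else 0)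
        = ∑ a, ∑ m, GJx_l i m * (v a * (ev (π a) j * hat (GJx_p (idx a)) m)) := by
          refine Finset.sum_congr rfl fun a _ => ?_
          rw [← GJx_dual i (idx a), Finset.mul_sum, Finset.mul_sum]
          refine Finset.sum_congr rfl fun m _ => ?_
          ring
      _ = ∑ m, ∑ a, GJx_l i m * (v a * (ev (π a) j * hat (GJx_p (idx a)) m)) := Finset.sum_comm
      _ = ∑ m, GJx_l i m * ∑ a, v a * (ev (π a) j * hat (GJx_p (idx a)) m) := by
          refine Finset.sum_congr rfl fun m _ => ?_
          rw [Finset.mul_sum]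
      _ = 0 := by
          refine Finset.sum_eq_zero fun m _ => ?_
          rw [hs, mul_zero]
  let W : Lb k → Fin 3 → ℝ := fun l i => ∑ a, v a * ((if π a = l then 1 else 0) *
    if idx a = i then 1 else 0)
  have hW1 : ∀ (j : Fin k) (i : Fin 3), W (some j) i = W none i := by
    intro j i
    have e1 : W (some j) i - W none i = ∑ a, v a * (ev (π a) j * if idx a = i then 1 else 0) := by
      show (∑ a, v a * ((if π a = some j then 1 else 0) * if idx a = i then 1 else 0)) -
        (∑ a, v a * ((if π a = none then 1 else 0) * if idx a = i then 1 else 0)) = _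
      rw [← Finset.sum_sub_distrib]
      refine Finset.sum_congr rfl fun a _ => ?_
      rw [← mul_sub, ← sub_mul]
      congr 2
      rcases hπ : π a with _ | j'
      · simp [ev]
      · simp [ev]
    rw [hc] at e1
    linarith
  have hW0 : ∀ i : Fin 3, W (g i) i = 0 := by
    intro i
    refine Finset.sum_eq_zero fun a _ => ?_
    by_cases h3 : idx a = i
    · have h4 : π a ≠ g i := by
        rw [← h3]
        exact (h1 a).symm
      rw [if_neg h4, zero_mul, mul_zero]
    · rw [if_neg h3, mul_zero, mul_zero]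
  have hWn : ∀ i : Fin 3, W none i = 0 := by
    intro i
    have h3 := hW0 i
    rcases hgi : g i with _ | j
    · rw [hgi] at h3
      exact h3
    · rw [hgi, hW1] at h3
      exact h3
  have hW : ∀ (l : Lb k) (i : Fin 3), W l i = 0 := by
    intro l i
    rcases l with _ | j
    · exact hWn i
    · rw [hW1]
      exact hWn i
  funext a
  have h3 : W (π a) (idx a) = v a := by
    show (∑ b, v b * ((if π b = π a then 1 else 0) * if idx b = idx a then 1 else 0)) = v a
    rw [Finset.sum_eq_single a]
    · simp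
    · intro b _ hb
      by_cases h4 : π b = π a
      · have h5 : idx b ≠ idx a := fun h6 => hb (h2 b a h4 h6)
        rw [if_neg h5, mul_zero, mul_zero]
      · rw [if_neg h4, zero_mul, mul_zero]
    · intro h4
      exact absurd (Finset.mem_univ _) h4
  rw [← h3]
  exact hW _ _

end Pool.Agent.SKP
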