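import Pool.Agent.SKP.StC

/-!
# SKP, module Gen: generic points are dense (helper52)

The points `c + (s, s ^ 2)` fail to be generic only for finitely many `s`: the conditions are
nonzero polynomials in `s`.
-/

set_option autoImplicit false

namespace Pool.Agent.SKP

/-- a nonzero quadratic polynomial has finitely many zeros -/
theorem Gen_fin (x y z : ℝ) (h : y ≠ 0 ∨ z ≠ 0) : {s : ℝ | x + y * s + z * s ^ 2 = 0}.Finite := by
  have h1 : (Polynomial.C x + Polynomial.C y * Polynomial.X +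
      Polynomial.C z * Polynomial.X ^ 2 : Polynomial ℝ) ≠ 0 := by
    intro h0
    rcases h with h | h
    · apply h
      have h2 := congrArg (fun f : Polynomial ℝ => f.coeff 1) h0
      simpa [Polynomial.coeff_X_pow, Polynomial.coeff_C] using h2
    · apply h
      have h2 := congrArg (fun f : Polynomial ℝ => f.coeff 2) h0
      simpa [Polynomial.coeff_X, Polynomial.coeff_C] using h2
  refine (Polynomial.finite_setOf_isRoot h1).subset fun s hs => ?_
  simpa [Polynomial.IsRoot] using hs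

theorem thm_Gen : Stmt_Gen := by
  intro n P hP c δ hδ
  have hf1 : ∀ a : Fin n, {s : ℝ | (c 1 - P a 1) + 0 * s + 1 * s ^ 2 = 0}.Finite :=
    fun a => Gen_fin _ _ _ (Or.inr one_ne_zero)
  have hf2 : ∀ q : {q : Fin n × Fin n // q.1 ≠ q.2},
      {s : ℝ | cr (P q.1.1 - c) (P q.1.2 - c) + (P q.1.1 1 - P q.1.2 1) * s +
        (P q.1.2 0 - P q.1.1 0) * s ^ 2 = 0}.Finite :=
    fun q => Gen_fin _ _ _ (Or.inl (sub_ne_zero.2 (hP.1 _ _ q.2)))
  have hbad := (Set.finite_iUnion hf1).union (Set.finite_iUnion hf2)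
  have hm : (0 : ℝ) < min 1 (δ / 2) := lt_min one_pos (by positivity)
  obtain ⟨s, ⟨hs0, hs1⟩, hs2⟩ := (Set.Ioo_infinite hm).exists_notMem_finite hbad
  have hsa : s < 1 := lt_of_lt_of_le hs1 (min_le_left _ _)
  have hsb : s < δ / 2 := lt_of_lt_of_le hs1 (min_le_right _ _)
  simp only [Set.mem_union, Set.mem_iUnion, Set.mem_setOf_eq, not_or, not_exists] at hs2
  obtain ⟨g1, g2⟩ := hs2
  set v : E2 := !₂[s, s ^ 2] with hv
  have v0 : v 0 = s := by simp [hv]
  have v1 : v 1 = s ^ 2 := by simp [hv]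
  refine ⟨c + v, ?_, fun a h => ?_, fun a b hab h => ?_⟩
  · rw [dist_eq_norm, add_sub_cancel_left, EuclideanSpace.norm_eq, Fin.sum_univ_two, v0, v1,
      Real.norm_eq_abs, Real.norm_eq_abs, sq_abs, sq_abs]
    have h3 : √(s ^ 2 + (s ^ 2) ^ 2) ≤ 2 * s := by
      rw [Real.sqrt_le_left (by positivity)]
      nlinarith [mul_pos hs0 hs0, mul_lt_mul_of_pos_left hsa hs0]
    linarith
  · apply g1 a
    rw [PiLp.add_apply, v1] at h
    rw [h]
    ring
  · apply g2 ⟨(a, b), hab⟩
    simp only [cr, PiLp.sub_apply, PiLp.add_apply, v0, v1] at h ⊢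
    linear_combination h

end Pool.Agent.SKP
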