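import Pool.Agent.SKP.Defs

/-!
# Sierksma's bound in the plane (MP_001fdd_co): statements on sequences of signs

Throughout `n = 3 k`. A sequence of signs `ε` describes `n` points seen from a point `c`, in the
order of the angles modulo `π`. `hp ε r` are the half planes, `Gt ε` the triangles which
contain `c`. For two borders `r1 ≤ r2` there are three windows, and the six sectors
`sA w κ i`, `sB w κ i` (`i : Fin 3`); the indices `i + 1`, `i + 2` are modulo 3.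
Write `A_i = sA w κ i`, `B_i = sB w κ i`, `a_i, b_i` for their sizes, `s_i = ss w κ i`,
`u = uu κ`, `v = vv κ`; if `n = 3 k > 0` then `u + v = 1` and `0 ≤ s_i ≤ 1`.
-/

set_option autoImplicit false

namespace Pool.Agent.SKP

open scoped Classical

/-- S1 (Birch). PROOF. Let `l_0, ..., l_{3t-1}` be the elements of `R` in the following order:
first the elements with `ε = true`, increasing, then the elements with `ε = false`, increasing
(the order of the key `(!ε a, a)` in `Bool ×ₗ Fin n`). For every `r` the set `R ∩ hp ε r`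
consists of the `l_j` with `j` in an interval: the elements with `ε = true` and `r ≤ a` are a
final part of the first block, the elements with `ε = false` and `a < r` an initial part of the
second block. The length of this interval is `(R ∩ hp ε r).card`, between `t` and `2 t`. Let
`T_j = {l_j, l_{j+t}, l_{j+2t}}` for `j < t`. An interval of length `≥ t` in `0..3t-1` contains
one of `j, j + t, j + 2 t` (if it contains none, it is inside one of `[0, j)`, `(j, j + t)`,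
`(j + t, j + 2 t)`, `(j + 2 t, 3 t)`, all of length `< t`); an interval of length `≤ 2 t` does not
contain both `j` and `j + 2 t`. So `T_j` is good. `M = {T_j}`. -/
def Stmt_Bir : Prop := ∀ (n t : ℕ) (ε : Fin n → Bool) (R : Finset (Fin n)), R.card = 3 * t →
  (∀ r : ℕ, t ≤ (R ∩ hp ε r).card ∧ (R ∩ hp ε r).card ≤ 2 * t) →
  ∃ M ∈ Pk (Gt ε) t, M.biUnion id = R

/-- S2. PROOF. For `y ≠ z` the element `z` is in `hp ε y` if and only if it is in
`hp ε (y + 1)` (as `z < y + 1` iff `z < y`); `y` itself is in exactly one of the two sets.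
(F): if `{y, z, z'}` (three different elements) is good then exactly one of `z, z'` is in
`hp ε y`: if both are, take `r = y` or `r = y + 1` with `y ∈ hp ε r`, then the triple is
contained in `hp ε r`, a contradiction; if none is, take `r` with `y ∉ hp ε r`.
Let `t` be good, `t ⊆ D 0 ∪ D 1 ∪ D 2`, and assume that `t ∩ D i = ∅` for some `i`. Then two
elements `x ≠ x'` of `t` are in the same `D j`; let `y` be the third one.
Case `y ∈ D l`, `l ≠ j`: let `m` be the third index and `q ∈ D m`. Then `{x, y, q}`,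
`{x', y, q}` are good (rainbow), `{x, x', y} = t` is good, and by (F) at `y` the three
elements `x, x', q` are pairwise on different sides of `y`; there are only two sides.
Case `y ∈ D j`: let `l, m` be the other indices, `p ∈ D l`, `q ∈ D m`. `{x, p, q}`,
`{x', p, q}`, `{y, p, q}` are good, so by (F) at `p` the elements `x, x', y` are all on the side
of `p` which does not contain `q`: `t ⊆ hp ε p` or `t ∩ hp ε p = ∅`, a contradiction. -/
def Stmt_Rbw : Prop := ∀ (n : ℕ) (ε : Fin n → Bool) (D : Fin 3 → Finset (Fin n)),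
  (∀ i j, i ≠ j → Disjoint (D i) (D j)) → (∀ i, (D i).Nonempty) →
  (∀ x : Fin 3 → Fin n, (∀ i, x i ∈ D i) → Gt ε {x 0, x 1, x 2}) →
  ∀ t, Gt ε t → t ⊆ D 0 ∪ D 1 ∪ D 2 → ∀ i, (t ∩ D i).Nonempty

/-- S3 (rematching, uses S1 and S2). PROOF. By S1 with `R = univ`, `t = k` there is
`M ∈ Pk (Gt ε) k`, a partition of `Fin (3 * k)`. If `k ≤ 3 r` this is all (`0! = 1`). Let
`3 r < k`; then all `D i` are nonempty. The union `U` of the `D i` has at least `3 (k - r)`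
elements, so at most `3 r` elements of `M` are not contained in `U`; the others are contained in
`U`, so by S2 they meet every `D i` (and have one element in each). Let `M₁ ⊆ M` be these, and
`g = M₁.card ≥ k - 3 r`. Let `X i` be the set of the elements in `D i` of the members of `M₁`;
`(X i).card = g`. For bijections `σ : X 0 → X 1`, `τ : X 0 → X 2` let
`M(σ, τ) = (M \ M₁) ∪ {{x, σ x, τ x} : x ∈ X 0}`: its members are good, pairwise disjoint, and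
there are `k` of them. `(σ, τ)` is determined by `M(σ, τ)` (the member which contains `x ∈ X 0`
has one element in `D 1` and one in `D 2`). There are `(g!)² ≥ ((k - 3 r)!)²` pairs. -/
def Stmt_NE : Prop := ∀ (k r : ℕ) (ε : Fin (3 * k) → Bool) (D : Fin 3 → Finset (Fin (3 * k))),
  (∀ s : ℕ, k ≤ (hp ε s).card ∧ (hp ε s).card ≤ 2 * k) →
  (∀ i j, i ≠ j → Disjoint (D i) (D j)) → (∀ i, k ≤ (D i).card + r) →
  (∀ x : Fin 3 → Fin (3 * k), (∀ i, x i ∈ D i) → Gt ε {x 0, x 1, x 2}) →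
  ((k - 3 * r).factorial) ^ 2 ≤ (Pk (Gt ε) k).card

/-- S4. PROOF. `KK 0 r = hp ε (min r r1)`, `KK 1 r = (hp ε (max r1 (min r r2)))ᶜ`,
`KK 2 r = hp ε (max r r2)`, by inspection of the three windows (in the window 1 the colour is the
opposite of the sign). Conversely `hp ε r = KK 0 r` if `r ≤ r1`, `hp ε r = (KK 1 r)ᶜ` if
`r1 ≤ r ≤ r2`, `hp ε r = KK 2 r` if `r2 ≤ r`. The third part follows, as both conditions of
goodness together are symmetric under complements: `t \ K = t ∩ Kᶜ`. -/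
def Stmt_Cyc : Prop := ∀ (n : ℕ) (ε : Fin n → Bool) (r1 r2 : ℕ), r1 ≤ r2 →
  (∀ (i : Fin 3) (r : ℕ), ∃ r' : ℕ, KK (wn r1 r2) (kp ε r1 r2) i r = hp ε r' ∨
    KK (wn r1 r2) (kp ε r1 r2) i r = (hp ε r')ᶜ) ∧
  (∀ r : ℕ, ∃ (i : Fin 3) (r' : ℕ), hp ε r = KK (wn r1 r2) (kp ε r1 r2) i r' ∨
    hp ε r = (KK (wn r1 r2) (kp ε r1 r2) i r')ᶜ) ∧
  ∀ t, Gs (wn r1 r2) (kp ε r1 r2) t ↔ Gt ε t

/-- S5 (exchange of the colours). PROOF. Direct: every position has exactly one of the windows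
`i, i + 1, i + 2`. `cN w (ng κ) i = a_i b_i - cN w κ i`, because for `x ∈ A_i`, `y ∈ B_i` exactly
one of `x < y`, `y < x` holds. `fA v u (-d) = fB u v d`, `fB v u (-d) = fA u v d`. -/
def Stmt_Swp : Prop := ∀ (n : ℕ) (w : Fin n → Fin 3) (κ : Fin n → Bool),
  (∀ i, sA w (ng κ) i = sB w κ i ∧ sB w (ng κ) i = sA w κ i) ∧
  (uu (ng κ) = vv κ ∧ vv (ng κ) = uu κ) ∧ (∀ i r, KK w (ng κ) i r = (KK w κ i r)ᶜ) ∧
  (∀ t, Gs w (ng κ) t ↔ Gs w κ t) ∧
  ((∀ i, (sA w κ i).Nonempty ∧ (sB w κ i).Nonempty) →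
    (∀ i, ss w (ng κ) i = 1 - ss w κ i) ∧
    ∀ (k : ℕ) (η : ℝ), Bal k w κ η → Bal k w (ng κ) η)

/-- S6 (slack). PROOF. First part: `1 - s_i` is the proportion of the pairs `x ∈ A_i`,
`y ∈ B_i` with `y < x`; such a pair has `r ≤ x` or `y < r`, so `1 - s_i ≤ φ + ψ`.
Second part: `0 ≤ φ, ψ ≤ 1`, and
`|KK i r| = φ a_i + ψ b_i + b_{i+1} + a_{i+2}
 ≥ k (φ fA(d_i) + ψ fB(d_i) + fB(d_{i+1}) + fA(d_{i+2})) - 4 η`, `d_j = s_{j+1} - s_{j+2}`.
As `1 ± d_i ≥ 0` we have `fA(d_i) ≥ u³ + u v`, `fB(d_i) ≥ v³ + u v`. With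
`d_{i+1} = s_{i+2} - s_i`, `d_{i+2} = s_i - s_{i+1}` and `u³ + v³ = 1 - 3 u v`:
`fB(d_{i+1}) + fA(d_{i+2}) = 1 - u v (1 - s_i) + u v² (1 - s_{i+2}) + u² v (1 - s_{i+1})`.
The sum is at least
`1 + φ u³ + ψ v³ + u v (φ + ψ - (1 - s_i)) + u v² (1 - s_{i+2}) + u² v (1 - s_{i+1})`, and the
first part gives the claim. -/
def Stmt_Slk : Prop := ∀ (k : ℕ) (w : Fin (3 * k) → Fin 3) (κ : Fin (3 * k) → Bool) (η : ℝ),
  1 ≤ k → Bal k w κ η → (∀ i, (sA w κ i).Nonempty ∧ (sB w κ i).Nonempty) →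
  ∀ (i : Fin 3) (r : ℕ) (φ ψ : ℝ),
  φ * (sA w κ i).card = ((sA w κ i).filter fun a => r ≤ (a : ℕ)).card →
  ψ * (sB w κ i).card = ((sB w κ i).filter fun a => (a : ℕ) < r).card →
  1 - ss w κ i ≤ φ + ψ ∧
  (k : ℝ) * (1 + φ * uu κ ^ 3 + ψ * vv κ ^ 3 + uu κ * vv κ ^ 2 * (1 - ss w κ (i + 2)) +
    uu κ ^ 2 * vv κ * (1 - ss w κ (i + 1))) - 4 * η ≤ ((KK w κ i r).card : ℝ)

/-- S7. PROOF. Case `v ≤ β`: `D i = A_i`. A rainbow triple `x_i ∈ A_i` is good: it has three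
elements (different windows), `x_{i+2} ∈ KK i r`, `x_{i+1} ∉ KK i r`.
`a_i ≥ k fA - η`, `fA ≥ u³ + u v = u (1 - u v) ≥ (1 - v)² ≥ 1 - 2 β` (as `1 + d ≥ 0`).
Case `u ≤ β`: the same with `D i = B_i` (`x_{i+1} ∈ KK i r`, `x_{i+2} ∉ KK i r`),
`fB ≥ v³ + u v ≥ 1 - 2 u`. -/
def Stmt_ClA : Prop := ∀ (k o : ℕ) (w : Fin (3 * k) → Fin 3) (κ : Fin (3 * k) → Bool)
  (η β : ℝ), 1 ≤ k → Bal k w κ η → (vv κ ≤ β ∨ uu κ ≤ β) → 2 * k * β + η ≤ o →
  Clu (Gs w κ) k o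

/-- S7a (cut). PROOF. If `A` is empty take `ρ = 0`. Let `q = ⌈√(2δ) |A|⌉₊ ≥ 1`. If `q > |A|` then
`√(2δ) |A| > |A| - 1` and `ρ = 0` works (`|A| ≤ √(2δ) |A| + 1`). Otherwise let `ρ` be the `q`-th
largest element of `A`; then exactly `q ≤ √(2δ) |A| + 1` elements of `A` are `≥ ρ`, and every
`y ∈ B` with `y < ρ` is smaller than all of them, so
`q |{y ∈ B : y < ρ}| ≤ |{(x, y) : y < x}| ≤ 2 δ |A| |B|`, and `q ≥ √(2δ) |A|`. -/
def Stmt_Cut : Prop := ∀ (n : ℕ) (A B : Finset (Fin n)) (δ : ℝ), 0 < δ →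
  (((A ×ˢ B).filter fun q => q.2 < q.1).card : ℝ) ≤ 2 * δ * (A.card * B.card) →
  ∃ ρ : ℕ, ((A.filter fun x => ρ ≤ (x : ℕ)).card : ℝ) ≤ √(2 * δ) * A.card + 1 ∧
    ((B.filter fun y => (y : ℕ) < ρ).card : ℝ) ≤ √(2 * δ) * B.card

/-- S8 (a nearly tight half plane, uses S6, S7a). PROOF. Let `δ = θ / β³ ∈ (0, 1]`, and `φ, ψ` the
proportions of S6 for `i, r`. By S6 `φ u³ + ψ v³ + u v² (1 - s_{i+2}) + u² v (1 - s_{i+1}) ≤ θ`,
all terms are nonnegative and `u³, v³, u v², u² v ≥ β³`, so `φ, ψ, 1 - s_{i+1}, 1 - s_{i+2} ≤ δ`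
and `1 - s_i ≤ φ + ψ ≤ 2 δ`. So `1 - s_j ≤ 2 δ` for all `j`.
By S7a (`|{(x, y) ∈ A_j × B_j : y < x}| = (1 - s_j) a_j b_j ≤ 2 δ a_j b_j`) for every `j` there
is `ρ_j` with `|{x ∈ A_j : ρ_j ≤ x}| ≤ √(2δ) a_j + 1` and
`|{y ∈ B_j : y < ρ_j}| ≤ √(2δ) b_j`.
If `2 δ > 1` then `o ≥ 2 √δ k ≥ k`, and `D i = ∅` works. Otherwise let
`D j = {x ∈ A_j : x < ρ_j} ∪ {y ∈ B_{j+2} : ρ_{j+2} ≤ y}`, pairwise disjoint.
Rainbow triples `x_j ∈ D j` are good: they have three elements; for `KK i r` (any `i, r`):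
`D (i+2) ⊆ A_{i+2} ∪ B_{i+1} ⊆ KK i r` (as `i + 4 = i + 1`), so `x_{i+2} ∈ KK i r`; the
complement is `{A_i, x < r} ∪ {B_i, r ≤ y} ∪ A_{i+1} ∪ B_{i+2}`: if `ρ_i ≤ r` it contains
`D i = {A_i, x < ρ_i} ∪ {B_{i+2}, ..}`, if `r ≤ ρ_i` it contains
`D (i+1) = {A_{i+1}, ..} ∪ {B_i, ρ_i ≤ y}`.
Sizes: `X = a_j + b_{j+2} ≥ k (fA(s_{j+1} - s_{j+2}) + fB(s_j - s_{j+1})) - 2 η
 ≥ k (u³ + v³ + 2 u v + u v s_{j+1}) - 2 η = k (1 - u v (1 - s_{j+1})) - 2 η
 ≥ k (1 - δ / 2) - 2 η =: Y`, and `|D j| ≥ (1 - √(2δ)) X - 1 ≥ (1 - √(2δ)) Y - 1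
 ≥ k - k (δ / 2 + √(2δ)) - 2 η - 1 ≥ k - 2 √δ k - 2 η - 1` (`δ / 2 + √2 √δ ≤ 2 √δ`). -/
def Stmt_ClB : Prop := ∀ (k o : ℕ) (w : Fin (3 * k) → Fin 3) (κ : Fin (3 * k) → Bool)
  (η β θ : ℝ) (i : Fin 3) (r : ℕ), 1 ≤ k → Bal k w κ η →
  (∀ i, (sA w κ i).Nonempty ∧ (sB w κ i).Nonempty) → 0 < β → β ≤ uu κ → β ≤ vv κ →
  0 < θ → θ ≤ β ^ 3 → ((KK w κ i r).card : ℝ) ≤ k * (1 + θ) - 4 * η →
  2 * √(θ / β ^ 3) * k + 2 * η + 1 ≤ o → Clu (Gs w κ) k o

/-- S9 (adaptive reservoir, uses S1). PROOF. Let `E = k - m`, `Λ` the set of the `3 E` elements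
not covered by `M`, `g = σ / 8 ≥ 1` (so `16 g ≥ σ`). For `H = hp ε r` or `H = (hp ε r)ᶜ` we have
`|H| ≥ k + σ`. Every `T ∈ M` has 1 or 2 elements in `H`; let `W_H` be the set of the `T ∈ M`
with `|T ∩ H| = 2`. `|H| = m + |W_H| + |H ∩ Λ|` gives `|W_H| ≥ k + σ - m - 3 E = σ - 2 E`.
For `i ≤ 3 k / g` and both choices of the side, `H_i` with `r = i g`: at most `g` members of `M`
meet `[i g, (i+1) g)`, and `σ - 2 E - g ≥ E` because `4 E ≤ σ`. So there is a set `C_{i,side}` of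
`E` members of `W_{H_i}` which do not meet `[i g, (i+1) g)`. Let `M₀` be the union of all
`C_{i,side}`; `|M₀| ≤ 2 (3 k / g + 1) E`, so `|M₀| σ ≤ (96 k + 2 σ) E ≤ 98 k E`.
Let `R = Λ ∪ ⋃ M₀`, `|R| = 3 t`, `t = E + |M₀|`. For every `r` (for `r > 3 k` the half plane is
the one of `3 k`) let `i = r / g`; `hp ε r` and `hp ε (i g)` differ only in positions in
`[i g, r) ⊆ [i g, (i+1) g)`, so the members `T` of `C_{i,side}` have `|T ∩ H| = 2` for the half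
plane `H` of `r` on that side, and `|R ∩ H| ≥ |M₀| + E = t`. The same for the other side gives
`|R ∩ hp ε r| ≤ 2 t`. By S1 there is a partition `M₁` of `R` into `t` good triples, and
`M' = (M \ M₀) ∪ M₁` has `m - |M₀| + t = k` members. `M \ M' ⊆ M₀`. -/
def Stmt_Res : Prop := ∀ (k m σ : ℕ) (ε : Fin (3 * k) → Bool), m ≤ k → 8 ≤ σ → σ ≤ k →
  4 * (k - m) ≤ σ → (∀ r : ℕ, k + σ ≤ (hp ε r).card ∧ (hp ε r).card + σ ≤ 2 * k) →
  ∀ M ∈ Pk (Gt ε) m, ∃ M' ∈ Pk (Gt ε) k, (M \ M').card * σ ≤ 98 * k * (k - m)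

/-- S10. PROOF. Choose `M'` for every `M ∈ X`. The map
`M ↦ (M', M \ M', M' \ M)` is injective, `M = (M' \ (M' \ M)) ∪ (M \ M')`. `M \ M'` is a set of
at most `R` triples; there are at most `n³` triples, and a set with `N` elements has at most
`(N + 1)^R` subsets with at most `R` elements (they are the images, without `none`, of the
functions `Fin R → Option _`). `M' \ M` is a subset of `M'` (which has `k` elements) with
`k - (m - |M \ M'|) ≤ k - m + R` elements. -/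
def Stmt_Mul : Prop := ∀ (n k m R : ℕ) (G : Finset (Fin n) → Prop), (∀ t, G t → t.card = 3) →
  m ≤ k → (∀ M ∈ Pk G m, ∃ M' ∈ Pk G k, (M \ M').card ≤ R) →
  (Pk G m).card ≤ (Pk G k).card * ((n ^ 3 + 1) ^ R * (k + 1) ^ (k - m + R))

/-- S11a (second moment). PROOF. Let `a = |A|`, `b = |B|`, `N` the number of pairs `x < y` in
`A × B`, `p = N / (a b) ≤ 1`, `X(f, g) = |{t : f t < g t}|`, `T = a^(P) b^(P)` (falling
factorials) the number of the pairs `(f, g)`. For given `t` and `(x, y)` the number of the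
`(f, g)` with `f t = x`, `g t = y` is `T / (a b)`; for given `t ≠ t'`, `x ≠ x'`, `y ≠ y'` the
number of the `(f, g)` with `f t = x`, `f t' = x'`, `g t = y`, `g t' = y'` is
`T / (a (a - 1) b (b - 1))`. So the mean of `X` is `P p` and the mean of `X²` is
`P p + P (P - 1) N' / (a (a - 1) b (b - 1))`, where `N' ≤ N²` is the number of
`(x, y), (x', y')` with `x ≠ x'`, `y ≠ y'`, `x < y`, `x' < y'`. So the variance is at most
`P p + p² P ((P - 1) a b / ((a - 1) (b - 1)) - P)`. As `P ≤ a`, `(P - 1) a ≤ P (a - 1)`, so the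
bracket is at most `P b / (b - 1) - P = P / (b - 1) ≤ b / (b - 1) ≤ 2`, and the variance is at most
`3 P`. -/
def Stmt_Mom : Prop := ∀ (n P : ℕ) (A B : Finset (Fin n)), 1 ≤ P → P ≤ A.card → P ≤ B.card →
  2 ≤ A.card → 2 ≤ B.card →
  ∑ f : Fin P ↪ A, ∑ g : Fin P ↪ B,
    (((Finset.univ.filter fun t => (f t : Fin n) < (g t : Fin n)).card : ℝ) -
      P * ((((A ×ˢ B).filter fun q => q.1 < q.2).card : ℝ) /
        ((A.card : ℝ) * B.card))) ^ 2 ≤
    3 * P * ((A.card.descFactorial P : ℝ) * B.card.descFactorial P)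

/-- S11 (a popular value, uses S11a). PROOF. With the notation of S11a: by Chebyshev at most
`T / 3` pairs `(f, g)` have `|X - P p| ≥ 3 √P`; the others, at least `2 T / 3`, have
`|X - P p| < 3 √P`, and there are at most `6 √P + 1 ≤ 8 P` such values. So for some
`m` with `|m - P p| ≤ 3 √P` at least `T / (12 P)` pairs have `X = m` (and `m ≤ P`). By the symmetry
in `t : Fin P` (compose `f` and `g` with a permutation of `Fin P`), for every subset `S` of `Fin P`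
with `m` elements the number of the pairs with `{t : f t < g t} = S` is the same, so it is
`|QQ A B P m|`, and the number of the pairs with `X = m` is `choose P m * |QQ A B P m|`. -/
def Stmt_Pair : Prop := ∀ (n P : ℕ) (A B : Finset (Fin n)), Disjoint A B → 1 ≤ P →
  P ≤ A.card → P ≤ B.card → 2 ≤ A.card → 2 ≤ B.card →
  ∃ m : ℕ, m ≤ P ∧ |(m : ℝ) - P * ((((A ×ˢ B).filter fun q => q.1 < q.2).card : ℝ) /
      ((A.card : ℝ) * B.card))| ≤ 3 * √P ∧
    A.card.descFactorial P * B.card.descFactorial P ≤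
      (QQ A B P m).card * (P.choose m * (12 * P))

/-- S12 (the types of the triangles are good). PROOF. Direct. For example
`x ∈ A_i`, `y ∈ B_i`, `x < y`, `z ∈ A_{i+2}`: `z ∈ KK i r`, and `x ∉ KK i r` (if `x < r`) or
`y ∉ KK i r` (if `r ≤ x < y`); `x ∈ KK (i+1) r` (`A_{(i+1)+2} = A_i`), `y ∉ KK (i+1) r`;
`y ∈ KK (i+2) r` (`B_{(i+2)+1} = B_i`), `x ∉ KK (i+2) r`. -/
def Stmt_Typ : Prop := ∀ (n : ℕ) (w : Fin n → Fin 3) (κ : Fin n → Bool),
  (∀ x y z, x ∈ sA w κ 0 → y ∈ sA w κ 1 → z ∈ sA w κ 2 → Gs w κ {x, y, z}) ∧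
  (∀ x y z, x ∈ sB w κ 0 → y ∈ sB w κ 1 → z ∈ sB w κ 2 → Gs w κ {x, y, z}) ∧
  ∀ (i : Fin 3) (x y z : Fin n), x ∈ sA w κ i → y ∈ sB w κ i →
    (x < y → (z ∈ sA w κ (i + 2) ∨ z ∈ sB w κ (i + 1)) → Gs w κ {x, y, z}) ∧
    (y < x → (z ∈ sA w κ (i + 1) ∨ z ∈ sB w κ (i + 2)) → Gs w κ {x, y, z})

/-- S12a (fillings of slots, abstract). PROOF. For `F ∈ Φ` the triples `{F s 0, F s 1, F s 2}` are
pairwise disjoint and not empty, so they form a set `M(F) ∈ Pk G |σ|`. For given `M` let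
`F₀ ∈ Φ` with `M(F₀) = M`. For every other `F ∈ Φ` with `M(F) = M` let `θ_F : σ ≃ σ` be the
permutation such that the triple of `F` at `s` is the triple of `F₀` at `θ_F s`. By the
hypothesis on `dec`, `ty s = ty (θ_F s)` and `F s = F₀ (θ_F s)`. So `F ↦ θ_F` is injective, with
values in the permutations of `σ` which preserve `ty`; their number is the product of the
factorials (`DomMulAct.stabilizer_card`, or a direct argument). -/
def Stmt_Fi1 : Prop := ∀ (n : ℕ) (G : Finset (Fin n) → Prop) (σ τ : Type) [Fintype σ]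
  [Fintype τ] (ty : σ → τ) (dec : Finset (Fin n) → τ × (Fin 3 → Fin n))
  (Φ : Finset (σ → Fin 3 → Fin n)),
  (∀ F ∈ Φ, (∀ s, G {F s 0, F s 1, F s 2}) ∧
    (∀ s s', s ≠ s' → Disjoint ({F s 0, F s 1, F s 2} : Finset (Fin n)) {F s' 0, F s' 1, F s' 2}) ∧
    ∀ s, dec {F s 0, F s 1, F s 2} = (ty s, F s)) →
  Φ.card ≤ (Pk G (Fintype.card σ)).card *
    ∏ t, (Finset.univ.filter fun s => ty s = t).card.factorial

/-- S13 (number of the packings with prescribed types, uses S12, S12a). PROOF. The slots: `α` slots of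
type 1 (vertices in `A_0, A_1, A_2`), `α'` slots of type 2 (in `B_0, B_1, B_2`), and for every
`i` and `t < P` a slot with a vertex `x` in `A_i`, a vertex `y` in `B_i` and a third vertex,
of type `(i, 1)` if `t < y_i` (`x < y`, third vertex in `A_{i+2}`), `(i, 2)` if
`y_i ≤ t < m_i` (`x < y`, third vertex in `B_{i+1}`), `(i, 3)` if
`m_i ≤ t < m_i + z_i` (`y < x`, third vertex in `A_{i+1}`), `(i, 4)` if
`m_i + z_i ≤ t` (`y < x`, third vertex in `B_{i+2}`).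
A filling gives to every vertex of every slot an element of the required set, all these elements
different, with the required order for the pairs. The number of the fillings is the left side:
choose first for every `i` the pairs (an element of `QQ A_i B_i P m_i`), then for every `i` an
injection of the remaining `α + y_{i+1} + z_{i+2}` vertices in `A_i` into the remaining
`a_i - P` elements of `A_i` (the third vertices in `A_i` come from the types `(i+1, 1)` and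
`(i+2, 3)`), and the same for `B_i` (third vertices from `(i+2, 2)` and `(i+1, 4)`).
Use S12a with `σ = Fin α ⊕ Fin α' ⊕ (Fin 3 × Fin P)`, `τ` the set of the 14 types; by S12 all
triples are good. The type of a slot is determined by its triple: the three vertices are in three
different ones of the six sets, and these sets, and the order of the two vertices of the same
window, determine the type and the role of each vertex (`dec`). The numbers of the slots of the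
types are `α`, `α'`, `y_i`, `m_i - y_i`, `z_i`, `P - m_i - z_i`. -/
def Stmt_Fill : Prop := ∀ (n α α' P : ℕ) (w : Fin n → Fin 3) (κ : Fin n → Bool)
  (m y z : Fin 3 → ℕ), (∀ i, m i ≤ P) → (∀ i, y i ≤ m i) → (∀ i, z i ≤ P - m i) →
  (∏ i, (QQ (sA w κ i) (sB w κ i) P (m i)).card) *
    (∏ i, ((sA w κ i).card - P).descFactorial (α + y (i + 1) + z (i + 2))) *
    (∏ i, ((sB w κ i).card - P).descFactorial
      (α' + (m (i + 2) - y (i + 2)) + (P - m (i + 1) - z (i + 1)))) ≤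
  (Pk (Gs w κ) (α + α' + 3 * P)).card * (α.factorial * α'.factorial *
    ∏ i, ((y i).factorial * (m i - y i).factorial * (z i).factorial *
      (P - m i - z i).factorial))

/-- S14 (elementary estimates). PROOF. `LL t = t log t - t` has derivative `log t`, is decreasing
on `[0, 1]` and increasing on `[1, ∞)`, `LL 0 = 0`, `LL 1 = -1`.
(1) `n! ≥ (n / e)^n` and `n! ≤ e (n + 1) (n / e)^n` (induction).
(2) if `s ≤ 1` then `LL s ≤ 0 ≤ LL t + 1`, if `1 ≤ s` then `LL s ≤ LL t`.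
(3) mean value theorem.
(4) by (1), `log choose ≥ LL m - LL y - LL (m - y) - 2 (log (m + 1) + 1)`; `LL y ≤ LL (u m) + 1`
by (2), `LL (m - y) ≤ LL (v m + 1) + 1 ≤ LL (v m) + log (v m + 1) + 1` by (2) (as
`m - y ≤ v m + 1`) and (3), and `LL m - LL (u m) - LL (v m) = m (- u log u - v log v)`.
(5) for every natural number `g`, `a! ≥ g! g^(a - g)` (in the reals, with a negative exponent
if `a < g`); multiply for the three numbers, with `g = ⌊S⌋` and `a 0 + a 1 + a 2 - 3 g ≥ 0`; so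
the product is at least `(g!)³ ≥ exp (3 LL g)`, and `LL S ≤ LL g + log (S + 1)` by (3). -/
def Stmt_Est : Prop :=
  (∀ n : ℕ, LL n ≤ Real.log n.factorial ∧ Real.log n.factorial ≤ LL n + Real.log (n + 1) + 1) ∧
  (∀ s t : ℝ, 0 ≤ s → s ≤ t → LL s ≤ LL t + 1) ∧
  (∀ s t : ℝ, 0 ≤ s → s ≤ t → LL t ≤ LL s + (t - s) * Real.log (t + 1)) ∧
  (∀ (u v : ℝ) (m : ℕ), 0 < u → 0 < v → u + v = 1 →
    m * (-u * Real.log u - v * Real.log v) - 4 * Real.log (m + 1) - 6 ≤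
      Real.log (m.choose ⌊u * m⌋₊)) ∧
  ∀ (a : Fin 3 → ℕ) (S : ℝ), 0 ≤ S → ((∑ i, a i : ℕ) : ℝ) = 3 * S →
    3 * LL S - 3 * Real.log (S + 1) ≤ ∑ i, Real.log (a i).factorial

/-- S15 (the entropy, uses S14). PROOF. Let `h = -u log u - v log v ≤ 1`. Take logarithms.
`a^(s) = a! / (a - s)!` for `s ≤ a`, and `(a - s)! ≤ (3 k)^(a - s)`. The sum of all
`a_i - sa_i` and `b_i - sb_i` is `3 k - 3 α - 3 α' - 9 P ≤ 15 (s + 1)`, because
`u³ + v³ + 3 u v = 1` and `α ≥ k u³ - s - 1`, `α' ≥ k v³ - s - 1`, `P ≥ k u v - s - 1`. So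
`log RHS ≥ C √k log k + 3 LL(k u) + 3 LL(k v) - 6 log(k + 1) - 15 (s + 1) log(3 k)`. On the left,
`choose P m * y! (m - y)! z! (P - m - z)! = P! / (choose m y * choose (P - m) z)`, and by S14
`log P! ≤ LL(k u v) + 1 + log(k + 1) + 1`, `log α! ≤ LL(k u³) + log(k + 1) + 2`, the same for
`α'`, and
`log choose m_i y_i + log choose (P - m_i) z_i ≥ P h - 8 log(k + 1) - 12`, whose sum over `i` is
at least `3 k u v h - 3 (s + 1) - 24 log(k + 1) - 36`; `2 log k! ≤ 2 LL k + 2 log(k + 1) + 2`.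
Finally `3 LL(k u) + 3 LL(k v) - LL(k u³) - LL(k v³) - 3 LL(k u v) + 3 k u v h = 2 LL k`: the
coefficient of `k log k - k` is `3 u + 3 v - u³ - v³ - 3 u v = 2`, the coefficient of `k log u` is
`3 u - 3 u³ - 3 u v - 3 u² v = 3 u (1 - u² - v - u v) = 3 u (1 - v - u (u + v)) = 0`, the same
for `k log v`. All errors are at most a constant times `(s + 1) log k ≤ C' √k log k`. -/
def Stmt_Ent : Prop := ∀ C₀ : ℝ, 0 < C₀ → ∃ C : ℝ, 0 < C ∧ ∃ k₀ : ℕ,
  ∀ (k s α α' P : ℕ) (a b m y z sa sb : Fin 3 → ℕ) (u v : ℝ), k₀ ≤ k → 0 < u → 0 < v →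
  u + v = 1 → ((∑ i, a i : ℕ) : ℝ) = 3 * (k * u) → ((∑ i, b i : ℕ) : ℝ) = 3 * (k * v) →
  (s : ℝ) ≤ C₀ * √k → (α : ℝ) ≤ k * u ^ 3 → k * u ^ 3 ≤ α + s + 1 → (α' : ℝ) ≤ k * v ^ 3 →
  k * v ^ 3 ≤ α' + s + 1 → (P : ℝ) ≤ k * (u * v) → k * (u * v) ≤ P + s + 1 → 1 ≤ P →
  (∀ i, m i ≤ P) → (∀ i, y i = ⌊u * (m i : ℕ)⌋₊) → (∀ i, z i = ⌊u * (P - m i : ℕ)⌋₊) →
  (∀ i, sa i = α + P + y (i + 1) + z (i + 2)) →
  (∀ i, sb i = α' + P + (m (i + 2) - y (i + 2)) + (P - m (i + 1) - z (i + 1))) →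
  (∀ i, sa i ≤ a i) → (∀ i, sb i ≤ b i) →
  (k.factorial : ℝ) ^ 2 * ((12 * P : ℝ) ^ 3 * (∏ i, ((P.choose (m i) : ℕ) : ℝ)) *
    (α.factorial * α'.factorial *
      ∏ i, (((y i).factorial * (m i - y i).factorial * (z i).factorial *
        (P - m i - z i).factorial : ℕ) : ℝ))) ≤
  Real.exp (C * √k * Real.log k) *
    ((∏ i, (((a i).descFactorial (sa i) : ℕ) : ℝ)) *
      ∏ i, (((b i).descFactorial (sb i) : ℕ) : ℝ))

/-- S16 (many large packings, uses S11, S13, S15). PROOF. Let `η = C₀ √k` and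
`s = ⌈(C₀ + 8) √k⌉`, `α = ⌊k u³⌋ - s`, `α' = ⌊k v³⌋ - s`, `P = ⌊k u v⌋ - s`; these are `≥ 1` if
`C` is large, because `k u³, k v³, k u v ≥ k β³ ≥ C √k` (`β ≤ 1/2`). Also
`a_i ≥ k (u³ + u v) - η ≥ P + 2`, `b_i ≥ P + 2`. For every `i` let `m_i` be the number of S11 for
`A_i, B_i`: `|m_i - s_i P| ≤ 3 √P ≤ 3 √k`. `y_i = ⌊u m_i⌋`, `z_i = ⌊u (P - m_i)⌋`.
Capacity: `sa_i = α + P + y_{i+1} + z_{i+2}
 ≤ k u³ - s + k u v - s + u (s_{i+1} P + 3 √k) + u (P - s_{i+2} P + 3 √k)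
 ≤ k u³ + k u v + k u² v (1 + s_{i+1} - s_{i+2}) - 2 s + 6 √k ≤ a_i + η - 2 s + 6 √k ≤ a_i`, and
`sb_i ≤ k v³ - s + k u v - s + (v m_{i+2} + 1) + (v (P - m_{i+1}) + 1)
 ≤ k fB + 2 + 6 √k - 2 s ≤ b_i + η + 2 + 6 √k - 2 s ≤ b_i`.
With `a^(P) (a - P)^(q) = a^(P + q)`, S11 and S13 give
`∏ a_i^(sa_i) ∏ b_i^(sb_i) ≤ |Pk| (α! α'! ∏ ..) ∏ (choose P m_i * 12 P)`, and S15 gives
`(k!)² ≤ exp(C √k log k) |Pk|`. The number of the triples is
`α + α' + 3 P ≥ k - 5 - 5 s`, and it is `≤ k`. -/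
def Stmt_Cnt : Prop := ∀ C₀ : ℝ, 0 < C₀ → ∃ C : ℝ, 0 < C ∧ ∃ k₀ : ℕ,
  ∀ (k : ℕ) (w : Fin (3 * k) → Fin 3) (κ : Fin (3 * k) → Bool) (β : ℝ), k₀ ≤ k →
  Bal k w κ (C₀ * √k) → 0 < β → β ≤ uu κ → β ≤ vv κ → C * √k ≤ k * β ^ 3 →
  ∃ m : ℕ, m ≤ k ∧ (k : ℝ) ≤ m + C * √k ∧
    (k.factorial : ℝ) ^ 2 ≤ Real.exp (C * √k * Real.log k) * ((Pk (Gs w κ) m).card : ℝ)

/-- S17 (the dichotomy for sequences, uses S4, S5, S7, S8, S9, S10, S16). PROOF. Let
`w = wn r1 r2`, `κ = kp ε r1 r2`; by S4 `Gs w κ = Gt ε`. Let `β = k^(-1/12)`,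
`θ = k^(-5/12)`, `η = C₀ √k`, `o ≥ C k^(11/12)`, `k` large. If `v ≤ β` or `u ≤ β` then S7 gives
`Clu (Gt ε) k o` (`2 k β + η ≤ o`). So let `u, v > β`. Then the `A_i, B_i` are nonempty:
`a_i ≥ k (u³ + u v) - η ≥ 3/4 k u - η > 0` (`u³ + u v = u (1 - u v) ≥ 3/4 u`). If
`|KK i r| ≤ k (1 + θ) - 4 η` for some `i, r`, then S8 gives `Clu` (`θ / β³ = k^(-1/6)`,
`2 k^(11/12) + 2 η + 1 ≤ o`). If `|(KK i r)ᶜ| ≤ k (1 + θ) - 4 η`, the same for `ng κ` by S5.
Otherwise all `KK i r` and their complements have more than `k (1 + θ) - 4 η ≥ k + σ` elements,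
`σ = ⌊k θ / 2⌋` (as `4 η ≤ k θ / 2 = k^(7/12) / 2`); by S4 `k + σ ≤ |hp ε r| ≤ 2 k - σ` for all
`r`. Let `m` be the number of S16 (`C √k ≤ k β³ = k^(3/4)`); `4 (k - m) ≤ 4 C √k ≤ σ`. By S9 every
`M ∈ Pk (Gt ε) m` has an `M' ∈ Pk (Gt ε) k` with `|M \ M'| ≤ R`,
`R = ⌊98 k (k - m) / σ⌋ ≤ C' k^(1 + 1/2 - 7/12) = C' k^(11/12)`. By S10 and S16
`(k!)² ≤ exp(C √k log k) ((3k)³ + 1)^R (k + 1)^(k - m + R) |Pk (Gt ε) k|`. -/
def Stmt_SeqF : Prop := ∀ C₀ : ℝ, 0 < C₀ → ∃ C : ℝ, 0 < C ∧ ∃ k₀ : ℕ,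
  ∀ (k : ℕ) (ε : Fin (3 * k) → Bool) (r1 r2 o : ℕ), k₀ ≤ k → r1 ≤ r2 →
  Bal k (wn r1 r2) (kp ε r1 r2) (C₀ * √k) → C * (k : ℝ) ^ (11 / 12 : ℝ) ≤ o →
  Clu (Gt ε) k o ∨
    (k.factorial : ℝ) ^ 2 ≤ Real.exp (C * (k : ℝ) ^ (11 / 12 : ℝ) * Real.log k) *
      ((Pk (Gt ε) k).card : ℝ)

end Pool.Agent.SKP
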