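import Pool.Agent.SKP.StN
import Pool.Agent.SKP.StC
import Pool.Agent.SKP.StS

/-!
# Sierksma's bound in the plane (MP_001fdd_co): near clusters, combination (N11)
-/

set_option autoImplicit false

namespace Pool.Agent.SKP

open scoped Classical

private lemma GeoN_ne {n : ℕ} {D : Fin 3 → Finset (Fin n)} (hD : ∀ i j, i ≠ j → Disjoint (D i) (D j))
    {x : Fin 3 → Fin n} (hx : ∀ i, x i ∈ D i) {i j : Fin 3} (h : i ≠ j) : x i ≠ x j := by
  intro e
  have h1 := hx i
  rw [e] at h1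
  exact Finset.disjoint_left.1 (hD i j h) h1 (hx j)

private lemma GeoN_dis {n : ℕ} {D : Fin 3 → Finset (Fin n)} (hD : ∀ i j, i ≠ j → Disjoint (D i) (D j))
    (f : Equiv.Perm (Fin n)) : ∀ i j, i ≠ j →
    Disjoint ((D i).map f.toEmbedding) ((D j).map f.toEmbedding) := fun i j h =>
  (Finset.disjoint_map _).2 (hD i j h)

private lemma GeoN_mem {n : ℕ} {D : Finset (Fin n)} (f : Equiv.Perm (Fin n)) {x : Fin n}
    (h : x ∈ D.map f.toEmbedding) : f.symm x ∈ D := by
  obtain ⟨y, hy, rfl⟩ := Finset.mem_map.1 h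
  simpa using hy

theorem thm_GeoN : Stmt_GtS → Stmt_Dhp → Stmt_Hel → Stmt_Per → Stmt_Clc → Stmt_Gen → Stmt_NE →
    Stmt_GeoN := by
  intro hGtS hDhp hHel hPer hClc hGen hNE k o P c₀ hk hGP hGn hClu
  obtain ⟨D, hD1, hD2, hD3⟩ := hClu
  have n01 : (0 : Fin 3) ≠ 1 := by decide
  have n12 : (1 : Fin 3) ≠ 2 := by decide
  have n02 : (0 : Fin 3) ≠ 2 := by decide
  have d1 := GeoN_dis hD1 (od P c₀)
  have c1 : ∀ i, k ≤ ((D i).map (od P c₀).toEmbedding).card + (o + 1) := by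
    intro i
    rw [Finset.card_map]
    have := hD2 i
    omega
  have s1 : ∀ x : Fin 3 → Fin (3 * k), (∀ i, x i ∈ (D i).map (od P c₀).toEmbedding) →
      Sin c₀ (P (x 0)) (P (x 1)) (P (x 2)) := by
    intro x hx
    have hy : ∀ i, (od P c₀).symm (x i) ∈ D i := fun i => GeoN_mem _ (hx i)
    have h1 := hD3 (fun i => (od P c₀).symm (x i)) hy
    have h2 := (hGtS _ P c₀ hGn _ _ _ (GeoN_ne hD1 hy n01) (GeoN_ne hD1 hy n12)
      (GeoN_ne hD1 hy n02)).1 h1
    simpa only [Equiv.apply_symm_apply] using h2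
  obtain ⟨c, hdep, hnea⟩ := hHel k (o + 1) P (fun i => (D i).map (od P c₀).toEmbedding) c₀
    (by omega) (by omega) d1 c1 s1
  obtain ⟨c', hGn', hdep', hnea'⟩ := hPer k (3 * (o + 1)) P _ c (by omega) hGP
    (fun c δ hδ => hGen _ P hGP c δ hδ) hdep hnea
  obtain ⟨D', hs', hc', hS'⟩ := hClc _ (3 * (o + 1) + 2) P _ c' hGn' hnea' d1 (by
    intro i
    have := c1 i
    omega)
  have dD' : ∀ i j, i ≠ j → Disjoint (D' i) (D' j) := fun i j h =>
    (d1 i j h).mono (hs' i) (hs' j)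
  refine ⟨c', hGn', ?_⟩
  have key := hNE k (7 * (o + 1) + 4) (sg P c') (fun i => (D' i).map (od P c').symm.toEmbedding)
    (hDhp k P c' hGn' hdep') (GeoN_dis dD' _) ?_ ?_
  · have e : 3 * (7 * (o + 1) + 4) = 21 * o + 33 := by ring
    rw [e] at key
    exact key
  · intro i
    simp only [Finset.card_map]
    have h1 := c1 i
    have h2 := hc' i
    have h3 := hD2 i
    rw [Finset.card_map] at h2
    omega
  · intro x hx
    have hy : ∀ i, od P c' (x i) ∈ D' i := by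
      intro i
      have := GeoN_mem _ (hx i)
      simpa using this
    have hxx := GeoN_dis dD' (od P c').symm
    refine (hGtS _ P c' hGn' _ _ _ (GeoN_ne hxx hx n01) (GeoN_ne hxx hx n12)
      (GeoN_ne hxx hx n02)).2 ?_
    exact hS' (fun i => od P c' (x i)) hy

end Pool.Agent.SKP
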