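import Pool.Agent.SKP.StC

/-!
# SKP C9: the topological step
-/

set_option autoImplicit false

namespace Pool.Agent.SKP

open scoped Classical
open Pool.Agent.Helper30

/-! ### Four functions on a grid -/

private noncomputable def Grd_sl (t : ℝ) : ZMod 2 := if 0 < t then 0 else 1

private theorem Grd_sl0 {t : ℝ} (h : 0 < t) : Grd_sl t = 0 := if_pos h

private theorem Grd_sl1 {t : ℝ} (h : t ≤ 0) : Grd_sl t = 1 := if_neg (not_lt.2 h)

/-- A change of sign gives a bound. -/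
private theorem Grd_sign {s t r η : ℝ} (h : Grd_sl s ≠ Grd_sl t) (h1 : |s - r| ≤ η)
    (h2 : |t - r| ≤ η) : |r| ≤ η := by
  have h3 := abs_le.1 h1
  have h4 := abs_le.1 h2
  rcases lt_or_ge 0 s with hs | hs
  · rcases lt_or_ge 0 t with ht | ht
    · exact absurd (by rw [Grd_sl0 hs, Grd_sl0 ht]) h
    · rw [abs_le]
      constructor <;> linarith
  · rcases lt_or_ge 0 t with ht | ht
    · rw [abs_le]
      constructor <;> linarith
    · exact absurd (by rw [Grd_sl1 hs, Grd_sl1 ht]) h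

private noncomputable def Grd_b (L : ℕ) (g1 g2 f f' : (Fin 4 → ℕ) → ℝ) (i : ℕ)
    (p : Fin 4 → ℕ) : ZMod 2 :=
  if i = 0 then (if p 0 = 0 then 0 else if p 0 = L then 1 else Grd_sl (g2 p))
  else if i = 1 then Grd_sl (g1 p) else if i = 2 then Grd_sl (f p) else Grd_sl (f' p)

private theorem Grd_top (L : ℕ) (hL : 1 ≤ L) (g1 g2 f f' : (Fin 4 → ℕ) → ℝ) (η : ℝ)
    (hη : η < 1 / 2)
    (hadj : ∀ p q : Fin 4 → ℕ, (∀ j, p j ≤ L) → (∀ j, q j ≤ L) → (∀ j, p j ≤ q j + 1) →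
      (∀ j, q j ≤ p j + 1) →
      |g1 p - g1 q| ≤ η ∧ |g2 p - g2 q| ≤ η ∧ |f p - f q| ≤ η ∧ |f' p - f' q| ≤ η)
    (h1 : ∀ p : Fin 4 → ℕ, (∀ j, p j ≤ L) → (p 1 = 0 → 0 < g1 p) ∧ (p 1 = L → g1 p ≤ 0))
    (h0 : ∀ p : Fin 4 → ℕ, (∀ j, p j ≤ L) → (p 0 = 0 → g2 p ≤ 0 → 1 / 2 ≤ |g1 p|) ∧
      (p 0 = L → 0 ≤ g2 p → 1 / 2 ≤ |g1 p|))
    (h2 : ∀ p : Fin 4 → ℕ, (∀ j, p j ≤ L) → (p 2 = 0 → 0 < f p) ∧ (p 2 = L → f p ≤ 0))
    (h3 : ∀ p : Fin 4 → ℕ, (∀ j, p j ≤ L) → (p 3 = 0 → 0 < f' p) ∧ (p 3 = L → f' p ≤ 0)) :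
    ∃ p : Fin 4 → ℕ, (∀ j, p j ≤ L) ∧ |g1 p| ≤ η ∧ |g2 p| ≤ η ∧ |f p| ≤ η ∧ |f' p| ≤ η := by
  have hb : Hex.Bdry L 4 (Grd_b L g1 g2 f f') := by
    constructor
    · intro i p hp hi
      fin_cases i
      · show Grd_b L g1 g2 f f' 0 p = 0
        have hi' : p 0 = 0 := hi
        unfold Grd_b
        rw [if_pos rfl, if_pos hi']
      · show Grd_b L g1 g2 f f' 1 p = 0
        unfold Grd_b
        rw [if_neg (by norm_num), if_pos rfl, Grd_sl0 ((h1 p hp).1 hi)]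
      · show Grd_b L g1 g2 f f' 2 p = 0
        unfold Grd_b
        rw [if_neg (by norm_num), if_neg (by norm_num), if_pos rfl, Grd_sl0 ((h2 p hp).1 hi)]
      · show Grd_b L g1 g2 f f' 3 p = 0
        unfold Grd_b
        rw [if_neg (by norm_num), if_neg (by norm_num), if_neg (by norm_num),
          Grd_sl0 ((h3 p hp).1 hi)]
    · intro i p hp hi
      fin_cases i
      · show Grd_b L g1 g2 f f' 0 p = 1
        have hi' : p 0 = L := hi
        unfold Grd_b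
        rw [if_pos rfl, if_neg (by omega), if_pos hi']
      · show Grd_b L g1 g2 f f' 1 p = 1
        unfold Grd_b
        rw [if_neg (by norm_num), if_pos rfl, Grd_sl1 ((h1 p hp).2 hi)]
      · show Grd_b L g1 g2 f f' 2 p = 1
        unfold Grd_b
        rw [if_neg (by norm_num), if_neg (by norm_num), if_pos rfl, Grd_sl1 ((h2 p hp).2 hi)]
      · show Grd_b L g1 g2 f f' 3 p = 1
        unfold Grd_b
        rw [if_neg (by norm_num), if_neg (by norm_num), if_neg (by norm_num),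
          Grd_sl1 ((h3 p hp).2 hi)]
  obtain ⟨x, σ, hx⟩ := Hex.exists_simplex L 4 (Grd_b L g1 g2 f f') hb
  obtain ⟨v, hv⟩ : ∃ v : ℕ → Fin 4 → ℕ, v = fun j => Hex.vtx (fun k => (x k : ℕ)) σ j := ⟨_, rfl⟩
  have hvx : ∀ j k, (x k : ℕ) ≤ v j k ∧ v j k ≤ (x k : ℕ) + 1 := by
    intro j k
    rw [hv]
    simp only [Hex.vtx]
    split_ifs <;> omega
  have hvL : ∀ j k, v j k ≤ L := fun j k => by
    have := (hvx j k).2
    have := (x k).2
    omega
  have hvv : ∀ i j k, v i k ≤ v j k + 1 := fun i j k => by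
    have := hvx i k
    have := hvx j k
    omega
  have hva : ∀ i j, |g1 (v i) - g1 (v j)| ≤ η ∧ |g2 (v i) - g2 (v j)| ≤ η ∧
      |f (v i) - f (v j)| ≤ η ∧ |f' (v i) - f' (v j)| ≤ η :=
    fun i j => hadj _ _ (hvL i) (hvL j) (hvv i j) (hvv j i)
  have hx' : ∀ i < 4, Grd_b L g1 g2 f f' i (v i) ≠ Grd_b L g1 g2 f f' i (v (i + 1)) := by
    intro i hi
    rw [hv]
    exact hx i hi
  -- the last three functions
  have k1 : ∀ j, |g1 (v j)| ≤ η := by
    intro j
    have := hx' 1 (by norm_num)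
    unfold Grd_b at this
    rw [if_neg (by norm_num), if_pos rfl, if_neg (by norm_num), if_pos rfl] at this
    exact Grd_sign this (hva _ _).1 (hva _ _).1
  have k2 : ∀ j, |f (v j)| ≤ η := by
    intro j
    have := hx' 2 (by norm_num)
    unfold Grd_b at this
    rw [if_neg (by norm_num), if_neg (by norm_num), if_pos rfl, if_neg (by norm_num),
      if_neg (by norm_num), if_pos rfl] at this
    exact Grd_sign this (hva _ _).2.2.1 (hva _ _).2.2.1
  have k3 : ∀ j, |f' (v j)| ≤ η := by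
    intro j
    have := hx' 3 (by norm_num)
    unfold Grd_b at this
    rw [if_neg (by norm_num), if_neg (by norm_num), if_neg (by norm_num), if_neg (by norm_num),
      if_neg (by norm_num), if_neg (by norm_num)] at this
    exact Grd_sign this (hva _ _).2.2.2 (hva _ _).2.2.2
  -- the first one
  have k0 : ∀ j, Grd_b L g1 g2 f f' 0 (v j) = Grd_sl (g2 (v j)) := by
    intro j
    have hj := k1 j
    unfold Grd_b
    rw [if_pos rfl]
    by_cases c0 : v j 0 = 0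
    · rw [if_pos c0]
      have : 0 < g2 (v j) := by
        by_contra hc
        have := (h0 (v j) (hvL j)).1 c0 (not_lt.1 hc)
        linarith
      rw [Grd_sl0 this]
    · rw [if_neg c0]
      by_cases c1 : v j 0 = L
      · rw [if_pos c1]
        have : g2 (v j) ≤ 0 := by
          by_contra hc
          have := (h0 (v j) (hvL j)).2 c1 (not_le.1 hc).le
          linarith
        rw [Grd_sl1 this]
      · rw [if_neg c1]
  have k4 : |g2 (v 0)| ≤ η := by
    have := hx' 0 (by norm_num)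
    rw [k0, k0] at this
    exact Grd_sign this (hva _ _).2.1 (hva _ _).2.1
  exact ⟨v 0, hvL 0, k1 0, k4, k2 0, k3 0⟩

/-! ### The sizes of the windows -/

private theorem Grd_c0 {n : ℕ} (r1 r2 : ℕ) (κ : Fin n → Bool) (h1 : r1 ≤ n) :
    (sA (wn r1 r2) κ 0).card + (sB (wn r1 r2) κ 0).card = r1 := by
  have h2 : Disjoint (sA (wn r1 r2) κ 0) (sB (wn r1 r2) κ 0) := by
    rw [Finset.disjoint_left]
    intro a ha hb
    simp only [sA, sB, Finset.mem_filter] at ha hb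
    rw [ha.2.2] at hb
    exact absurd hb.2.2 (by decide)
  rw [← Finset.card_union_of_disjoint h2]
  have h3 : sA (wn r1 r2) κ 0 ∪ sB (wn r1 r2) κ 0 =
      Finset.univ.filter fun a : Fin n => (a : ℕ) < r1 := by
    ext a
    simp only [sA, sB, Finset.mem_union, Finset.mem_filter, Finset.mem_univ, true_and]
    have h4 : wn r1 r2 a = 0 ↔ (a : ℕ) < r1 := by
      unfold wn
      by_cases c1 : (a : ℕ) < r1
      · simp [c1]
      · by_cases c2 : (a : ℕ) < r2
        · simp [c1, c2]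
        · simp [c1, c2]
    rw [h4]
    cases κ a <;> simp
  rw [h3, Fin.card_filter_val_lt]
  omega

private theorem Grd_c2 {n : ℕ} (r1 r2 : ℕ) (κ : Fin n → Bool) (h1 : r1 ≤ r2) (h2 : r2 ≤ n) :
    (sA (wn r1 r2) κ 2).card + (sB (wn r1 r2) κ 2).card = n - r2 := by
  have h2' : Disjoint (sA (wn r1 r2) κ 2) (sB (wn r1 r2) κ 2) := by
    rw [Finset.disjoint_left]
    intro a ha hb
    simp only [sA, sB, Finset.mem_filter] at ha hb
    rw [ha.2.2] at hb
    exact absurd hb.2.2 (by decide)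
  rw [← Finset.card_union_of_disjoint h2']
  have h3 : sA (wn r1 r2) κ 2 ∪ sB (wn r1 r2) κ 2 =
      (Finset.univ.filter fun a : Fin n => (a : ℕ) < r2)ᶜ := by
    ext a
    simp only [sA, sB, Finset.mem_union, Finset.mem_filter, Finset.mem_univ, true_and,
      Finset.mem_compl]
    have h4 : wn r1 r2 a = 2 ↔ ¬ (a : ℕ) < r2 := by
      unfold wn
      by_cases c1 : (a : ℕ) < r1
      · have : (a : ℕ) < r2 := by omega
        simp [c1, this]
      · by_cases c2 : (a : ℕ) < r2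
        · simp [c1, c2]
        · simp [c1, c2]
    rw [h4]
    cases κ a <;> simp
  rw [h3, Finset.card_compl, Fin.card_filter_val_lt, Fintype.card_fin]
  omega

/-! ### The sum of the errors -/

private theorem Grd_tot {n : ℕ} (w : Fin n → Fin 3) (κ : Fin n → Bool) :
    ((sA w κ 0).card + (sA w κ 1).card + (sA w κ 2).card =
      (Finset.univ.filter fun a => κ a = true).card) ∧
    ((sB w κ 0).card + (sB w κ 1).card + (sB w κ 2).card =
      (Finset.univ.filter fun a => κ a = false).card) := by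
  have h : ∀ b : Bool, ∑ i : Fin 3, (Finset.univ.filter fun a => w a = i ∧ κ a = b).card =
      (Finset.univ.filter fun a => κ a = b).card := by
    intro b
    rw [Finset.card_eq_sum_card_fiberwise (f := w) (t := Finset.univ)
      (fun a _ => Finset.mem_coe.2 (Finset.mem_univ _))]
    refine Finset.sum_congr rfl fun i _ => ?_
    congr 1
    ext a
    simp only [Finset.mem_filter, Finset.mem_univ, true_and]
    exact and_comm
  constructor
  · have := h true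
    rw [Fin.sum_univ_three] at this
    exact this
  · have := h false
    rw [Fin.sum_univ_three] at this
    exact this

private theorem Grd_sum (k : ℕ) (hk : 1 ≤ k) (w : Fin (3 * k) → Fin 3) (κ : Fin (3 * k) → Bool) :
    eA k w κ 0 + eA k w κ 1 + eA k w κ 2 = 0 ∧ eB k w κ 0 + eB k w κ 1 + eB k w κ 2 = 0 := by
  obtain ⟨hA, hB⟩ := Grd_tot w κ
  have hk0 : (k : ℝ) ≠ 0 := by
    have : (0 : ℝ) < k := by exact_mod_cast hk
    exact this.ne'
  have hA' : ((sA w κ 0).card : ℝ) + (sA w κ 1).card + (sA w κ 2).card =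
      ((Finset.univ.filter fun a => κ a = true).card : ℝ) := by exact_mod_cast hA
  have hB' : ((sB w κ 0).card : ℝ) + (sB w κ 1).card + (sB w κ 2).card =
      ((Finset.univ.filter fun a => κ a = false).card : ℝ) := by exact_mod_cast hB
  have hu : 3 * uu κ = (((sA w κ 0).card : ℝ) + (sA w κ 1).card + (sA w κ 2).card) / k := by
    rw [hA', uu]
    push_cast
    field_simp
  have hv : 3 * vv κ = (((sB w κ 0).card : ℝ) + (sB w κ 1).card + (sB w κ 2).card) / k := by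
    rw [hB', vv]
    push_cast
    field_simp
  have h1 : uu κ + vv κ = 1 := by
    have h2 := Finset.card_filter_add_card_filter_not
      (s := (Finset.univ : Finset (Fin (3 * k)))) (fun a => κ a = true)
    have h3 : (Finset.univ.filter fun a => ¬ κ a = true) =
        (Finset.univ.filter fun a => κ a = false) := by
      ext a
      simp only [Finset.mem_filter, Finset.mem_univ, true_and]
      cases κ a <;> simp
    rw [h3, Finset.card_univ, Fintype.card_fin] at h2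
    have h4 : ((Finset.univ.filter fun a => κ a = true).card : ℝ) +
        (Finset.univ.filter fun a => κ a = false).card = ((3 * k : ℕ) : ℝ) := by exact_mod_cast h2
    unfold uu vv
    rw [← add_div, h4, div_self]
    exact_mod_cast (by omega : 3 * k ≠ 0)
  have i1 : (0 : Fin 3) + 1 = 1 := rfl
  have i2 : (0 : Fin 3) + 2 = 2 := rfl
  have i3 : (1 : Fin 3) + 1 = 2 := rfl
  have i4 : (1 : Fin 3) + 2 = 0 := rfl
  have i5 : (2 : Fin 3) + 1 = 0 := rfl
  have i6 : (2 : Fin 3) + 2 = 1 := rfl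
  obtain ⟨u, hu'⟩ : ∃ u, u = uu κ := ⟨_, rfl⟩
  obtain ⟨v, hv'⟩ : ∃ v, v = vv κ := ⟨_, rfl⟩
  unfold eA eB fA fB
  rw [i1, i2, i3, i4, i5, i6]
  rw [add_div, add_div] at hu hv
  rw [← hu', ← hv'] at h1
  rw [← hu'] at hu
  rw [← hv'] at hv
  rw [← hu', ← hv']
  have hv1 : v = 1 - u := by linarith
  subst hv1
  constructor
  · linear_combination -hu
  · linear_combination -hv

/-! ### The topological step -/

private def Grd_g (k L t : ℕ) : ℕ := 11 * k / 10 - t * (11 * k / 10 - (9 * k + 9) / 10) / L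

private theorem Grd_g0 (k L : ℕ) : Grd_g k L 0 = 11 * k / 10 := by
  unfold Grd_g
  rw [zero_mul, Nat.zero_div, Nat.sub_zero]

private theorem Grd_gL {k L : ℕ} (hk : 1000 ≤ k) (hL : 1 ≤ L) : Grd_g k L L = (9 * k + 9) / 10 := by
  unfold Grd_g
  rw [Nat.mul_div_cancel_left _ (by omega)]
  omega

private theorem Grd_gb {k L t : ℕ} (hk : 1000 ≤ k) (ht : t ≤ L) :
    9 * k ≤ 10 * Grd_g k L t ∧ 10 * Grd_g k L t ≤ 11 * k := by
  unfold Grd_g
  have h1 : t * (11 * k / 10 - (9 * k + 9) / 10) / L ≤ 11 * k / 10 - (9 * k + 9) / 10 := by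
    apply Nat.div_le_of_le_mul
    exact Nat.mul_le_mul_right _ ht
  obtain ⟨Q, hQ⟩ : ∃ Q, Q = t * (11 * k / 10 - (9 * k + 9) / 10) / L := ⟨_, rfl⟩
  rw [← hQ] at h1 ⊢
  omega

private theorem Grd_gs {k L t t' : ℕ} (hk : 1000 ≤ k) (hkL : k ≤ L) (h : t ≤ t' + 1) :
    Grd_g k L t' ≤ Grd_g k L t + 1 := by
  unfold Grd_g
  obtain ⟨D, hD⟩ : ∃ D, D = 11 * k / 10 - (9 * k + 9) / 10 := ⟨_, rfl⟩
  rw [← hD]
  have h1 : t * D / L ≤ t' * D / L + 1 := by
    have h2 : t * D ≤ t' * D + L := by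
      have h3 : t * D ≤ (t' + 1) * D := Nat.mul_le_mul_right _ h
      have h4 : D ≤ L := by omega
      rw [add_mul, one_mul] at h3
      omega
    calc t * D / L ≤ (t' * D + L) / L := Nat.div_le_div_right h2
      _ = t' * D / L + 1 := Nat.add_div_right _ (by omega)
  omega

theorem thm_Grd : Stmt_Cub → Stmt_Nu1 → Stmt_Nu2 → Stmt_Grd := by
  intro hCub hNu1 hNu2
  obtain ⟨C, hC, hCub⟩ := hCub
  obtain ⟨k₁, hk₁⟩ := exists_nat_gt ((8 * C) ^ 2)
  refine ⟨8 * C, by linarith, max 1000 (k₁ + 1), ?_⟩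
  intro k L E hk hkL hE hE0 hEL hE1 hE2
  have hk1000 : 1000 ≤ k := (le_max_left _ _).trans hk
  have hkk : k₁ + 1 ≤ k := (le_max_right _ _).trans hk
  have hk1 : 1 ≤ k := by omega
  have hL : 1 ≤ L := by omega
  have hkr : (1000 : ℝ) ≤ k := by exact_mod_cast hk1000
  have hk0 : (0 : ℝ) < k := by linarith
  have hsq : 8 * C < √k := by
    rw [Real.lt_sqrt (by linarith)]
    have : ((k₁ + 1 : ℕ) : ℝ) ≤ k := by exact_mod_cast hkk
    push_cast at this
    linarith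
  have hs0 : 0 < √k := by linarith
  -- the data at a point of the grid
  obtain ⟨g, hg⟩ : ∃ g, g = Grd_g k L := ⟨_, rfl⟩
  obtain ⟨A, hA⟩ : ∃ A : Fin 3 → (Fin 4 → ℕ) → ℝ, A = fun i p =>
      eA k (wn (g (p 2)) (3 * k - g (p 3)))
        (kp (E (p 0) (p 1)) (g (p 2)) (3 * k - g (p 3))) i := ⟨_, rfl⟩
  obtain ⟨B, hB⟩ : ∃ B : Fin 3 → (Fin 4 → ℕ) → ℝ, B = fun i p =>
      eB k (wn (g (p 2)) (3 * k - g (p 3)))
        (kp (E (p 0) (p 1)) (g (p 2)) (3 * k - g (p 3))) i := ⟨_, rfl⟩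
  have hgb : ∀ t, t ≤ L → 9 * k ≤ 10 * g t ∧ 10 * g t ≤ 11 * k := by
    intro t ht
    rw [hg]
    exact Grd_gb hk1000 ht
  have hr : ∀ p : Fin 4 → ℕ, (∀ j, p j ≤ L) → g (p 2) ≤ 3 * k - g (p 3) ∧
      3 * k - g (p 3) ≤ 3 * k := by
    intro p hp
    have h1 := hgb _ (hp 2)
    have h2 := hgb _ (hp 3)
    omega
  have hadj : ∀ p q : Fin 4 → ℕ, (∀ j, p j ≤ L) → (∀ j, q j ≤ L) → (∀ j, p j ≤ q j + 1) →
      (∀ j, q j ≤ p j + 1) → ∀ i, |A i p - A i q| ≤ C / √k ∧ |B i p - B i q| ≤ C / √k := by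
    intro p q hp hq h1 h2 i
    rw [hA, hB]
    have s1 : g (p 2) ≤ g (q 2) + 1 := by rw [hg]; exact Grd_gs hk1000 hkL (h2 2)
    have s2 : g (q 2) ≤ g (p 2) + 1 := by rw [hg]; exact Grd_gs hk1000 hkL (h1 2)
    have s3 : g (p 3) ≤ g (q 3) + 1 := by rw [hg]; exact Grd_gs hk1000 hkL (h2 3)
    have s4 : g (q 3) ≤ g (p 3) + 1 := by rw [hg]; exact Grd_gs hk1000 hkL (h1 3)
    exact hCub k _ _ _ _ _ _ hk1 (hE _ _ _ _ (hp 0) (hp 1) (hq 0) (hq 1) (h1 0) (h2 0) (h1 1)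
      (h2 1)) s1 s2 (by omega) (by omega) i
  -- the boundary values
  have hN2 : ∀ p : Fin 4 → ℕ, (∀ j, p j ≤ L) →
      ((∀ i, E (p 0) (p 1) i = true) → 1 / 2 ≤ (A 0 p - B 0 p) + (A 2 p - B 2 p)) ∧
      ((∀ i, E (p 0) (p 1) i = false) → (A 0 p - B 0 p) + (A 2 p - B 2 p) ≤ -(1 / 2)) ∧
      ((∃ j : ℕ, ∀ i, E (p 0) (p 1) i = decide ((i : ℕ) < j)) →
        (A 0 p - B 0 p) - (A 2 p - B 2 p) ≤ 0 → 1 / 2 ≤ |(A 0 p - B 0 p) + (A 2 p - B 2 p)|) ∧
      ((∃ j : ℕ, ∀ i, E (p 0) (p 1) i = decide (j ≤ (i : ℕ))) →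
        0 ≤ (A 0 p - B 0 p) - (A 2 p - B 2 p) →
        1 / 2 ≤ |(A 0 p - B 0 p) + (A 2 p - B 2 p)|) := by
    intro p hp
    have h1 := hgb _ (hp 2)
    have h2 := hgb _ (hp 3)
    have h3 := hNu2 k (g (p 2)) (3 * k - g (p 3)) (E (p 0) (p 1)) hk1 (hr p hp).1 (hr p hp).2
      h1.1 h1.2 (by omega) (by omega)
    rw [hA, hB]
    exact h3
  have hF0 : ∀ p : Fin 4 → ℕ, (∀ j, p j ≤ L) →
      |A 0 p + B 0 p - ((g (p 2) : ℝ) / k - 1)| ≤ 97 / 1000 := by
    intro p hp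
    have h1 := hNu1 k (wn (g (p 2)) (3 * k - g (p 3)))
      (kp (E (p 0) (p 1)) (g (p 2)) (3 * k - g (p 3))) 0 hk1
    have h2 := Grd_c0 (g (p 2)) (3 * k - g (p 3))
      (kp (E (p 0) (p 1)) (g (p 2)) (3 * k - g (p 3))) ((hr p hp).1.trans (hr p hp).2)
    have h3 : (((sA (wn (g (p 2)) (3 * k - g (p 3)))
        (kp (E (p 0) (p 1)) (g (p 2)) (3 * k - g (p 3))) 0).card : ℝ) +
        (sB (wn (g (p 2)) (3 * k - g (p 3)))
        (kp (E (p 0) (p 1)) (g (p 2)) (3 * k - g (p 3))) 0).card) = (g (p 2) : ℝ) := by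
      exact_mod_cast h2
    rw [h3] at h1
    rw [hA, hB]
    exact h1
  have hF2 : ∀ p : Fin 4 → ℕ, (∀ j, p j ≤ L) →
      |A 2 p + B 2 p - ((g (p 3) : ℝ) / k - 1)| ≤ 97 / 1000 := by
    intro p hp
    have h1 := hNu1 k (wn (g (p 2)) (3 * k - g (p 3)))
      (kp (E (p 0) (p 1)) (g (p 2)) (3 * k - g (p 3))) 2 hk1
    have h2 := Grd_c2 (g (p 2)) (3 * k - g (p 3))
      (kp (E (p 0) (p 1)) (g (p 2)) (3 * k - g (p 3))) (hr p hp).1 (hr p hp).2
    have h4 : 3 * k - (3 * k - g (p 3)) = g (p 3) := by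
      have := hgb _ (hp 3)
      omega
    rw [h4] at h2
    have h3 : (((sA (wn (g (p 2)) (3 * k - g (p 3)))
        (kp (E (p 0) (p 1)) (g (p 2)) (3 * k - g (p 3))) 2).card : ℝ) +
        (sB (wn (g (p 2)) (3 * k - g (p 3)))
        (kp (E (p 0) (p 1)) (g (p 2)) (3 * k - g (p 3))) 2).card) = (g (p 3) : ℝ) := by
      exact_mod_cast h2
    rw [h3] at h1
    rw [hA, hB]
    exact h1
  have hg0 : 1 + 99 / 1000 ≤ (g 0 : ℝ) / k := by
    rw [le_div_iff₀ hk0, hg, Grd_g0]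
    have h1 : 11 * k ≤ 10 * (11 * k / 10) + 9 := by omega
    have h2 : (11 : ℝ) * k ≤ 10 * ((11 * k / 10 : ℕ) : ℝ) + 9 := by exact_mod_cast h1
    linarith
  have hgL : (g L : ℝ) / k ≤ 1 - 99 / 1000 := by
    rw [div_le_iff₀ hk0, hg, Grd_gL hk1000 hL]
    have h1 : 10 * ((9 * k + 9) / 10) ≤ 9 * k + 9 := by omega
    have h2 : (10 : ℝ) * (((9 * k + 9) / 10 : ℕ) : ℝ) ≤ 9 * k + 9 := by exact_mod_cast h1
    linarith
  have hη : 4 * (C / √k) < 1 / 2 := by
    have : C / √k < 1 / 8 := by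
      rw [div_lt_iff₀ hs0]
      linarith
    linarith
  obtain ⟨p, hp, e1, e2, e3, e4⟩ := Grd_top L hL
    (fun p => (A 0 p - B 0 p) + (A 2 p - B 2 p)) (fun p => (A 0 p - B 0 p) - (A 2 p - B 2 p))
    (fun p => A 0 p + B 0 p) (fun p => A 2 p + B 2 p) (4 * (C / √k)) hη
    (by
      intro p q hp hq h1 h2
      have a0 := hadj p q hp hq h1 h2 0
      have a2 := hadj p q hp hq h1 h2 2
      have b1 := abs_le.1 a0.1
      have b2 := abs_le.1 a0.2
      have b3 := abs_le.1 a2.1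
      have b4 := abs_le.1 a2.2
      have hpos : 0 < C / √k := div_pos hC hs0
      refine ⟨?_, ?_, ?_, ?_⟩ <;> rw [abs_le] <;> constructor <;> linarith)
    (by
      intro p hp
      refine ⟨fun h => ?_, fun h => ?_⟩
      · have := (hN2 p hp).1 (fun i => by rw [h]; exact hE0 _ i (hp 0))
        linarith
      · have := (hN2 p hp).2.1 (fun i => by rw [h]; exact hEL _ i (hp 0))
        linarith)
    (by
      intro p hp
      refine ⟨fun h => ?_, fun h => ?_⟩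
      · exact (hN2 p hp).2.2.1 (by rw [h]; exact hE1 _ (hp 1))
      · exact (hN2 p hp).2.2.2 (by rw [h]; exact hE2 _ (hp 1)))
    (by
      intro p hp
      have h1 := abs_le.1 (hF0 p hp)
      refine ⟨fun h => ?_, fun h => ?_⟩
      · rw [h] at h1
        linarith [h1.1]
      · rw [h] at h1
        linarith [h1.2])
    (by
      intro p hp
      have h1 := abs_le.1 (hF2 p hp)
      refine ⟨fun h => ?_, fun h => ?_⟩
      · rw [h] at h1
        linarith [h1.1]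
      · rw [h] at h1
        linarith [h1.2])
  refine ⟨p 0, p 1, g (p 2), 3 * k - g (p 3), hp 0, hp 1, (hr p hp).1, (hr p hp).2, ?_⟩
  obtain ⟨s1, s2⟩ := Grd_sum k hk1 (wn (g (p 2)) (3 * k - g (p 3)))
    (kp (E (p 0) (p 1)) (g (p 2)) (3 * k - g (p 3)))
  have hAe : ∀ i, eA k (wn (g (p 2)) (3 * k - g (p 3)))
      (kp (E (p 0) (p 1)) (g (p 2)) (3 * k - g (p 3))) i = A i p := fun i => by rw [hA]
  have hBe : ∀ i, eB k (wn (g (p 2)) (3 * k - g (p 3)))
      (kp (E (p 0) (p 1)) (g (p 2)) (3 * k - g (p 3))) i = B i p := fun i => by rw [hB]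
  simp only [hAe, hBe] at s1 s2 ⊢
  have f1 := abs_le.1 e1
  have f2 := abs_le.1 e2
  have f3 := abs_le.1 e3
  have f4 := abs_le.1 e4
  have h8 : 8 * C / √k = 8 * (C / √k) := by ring
  rw [h8]
  have hpos : 0 < C / √k := div_pos hC hs0
  have key : (|A 0 p| ≤ 8 * (C / √k) ∧ |B 0 p| ≤ 8 * (C / √k)) ∧
      (|A 1 p| ≤ 8 * (C / √k) ∧ |B 1 p| ≤ 8 * (C / √k)) ∧
      (|A 2 p| ≤ 8 * (C / √k) ∧ |B 2 p| ≤ 8 * (C / √k)) := by
    refine ⟨⟨?_, ?_⟩, ⟨?_, ?_⟩, ?_, ?_⟩ <;> rw [abs_le] <;> constructor <;> linarith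
  intro i
  fin_cases i
  · exact key.1
  · exact key.2.1
  · exact key.2.2

end Pool.Agent.SKP
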