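import Pool.Agent.SKP.StN

/-!
# SKP, module GtS: good triples are triangles around `c`
-/

set_option autoImplicit false

namespace Pool.Agent.SKP

open scoped Classical

theorem GtS_neg (ν y : E2) : ip (-ν) y = -(ip ν y) := by
  rw [ip, ip, PiLp.neg_apply, PiLp.neg_apply]
  ring

theorem GtS_zero (y : E2) : ip 0 y = 0 := by
  rw [ip, PiLp.zero_apply, PiLp.zero_apply]
  ring

theorem GtS_cr {n : ℕ} {P : Fin n → E2} {c : E2} (h : Gn P c) {i j : Fin n} (hij : i ≠ j) :
    cr (P (od P c i) - c) (P (od P c j) - c) ≠ 0 :=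
  h.2 _ _ fun e => hij ((od P c).injective e)

theorem thm_GtS : Stmt_Hf → Stmt_Sep → Stmt_GtS := by
  intro hHf hSep n P c hG i j l hij hjl hil
  obtain ⟨h1, h2⟩ := hHf n P c hG
  rw [hSep c _ _ _ (GtS_cr hG hij) (GtS_cr hG hjl) (GtS_cr hG hil)]
  constructor
  · rintro ⟨_, hgt⟩ ⟨ν, hi, hj, hl⟩
    have hν : ν ≠ 0 := by
      rintro rfl
      rw [GtS_zero] at hi
      exact lt_irrefl _ hi
    have hall : ∀ m ∈ ({i, j, l} : Finset (Fin n)), 0 < ip ν (P (od P c m) - c) := by
      intro m hm
      simp only [Finset.mem_insert, Finset.mem_singleton] at hm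
      rcases hm with rfl | rfl | rfl
      · exact hi
      · exact hj
      · exact hl
    obtain ⟨r, hr | hr⟩ := h2 ν hν
    · obtain ⟨m, hm⟩ := (hgt r).2
      rw [Finset.mem_sdiff] at hm
      exact hm.2 ((hr m (hall m hm.1).ne').2 (hall m hm.1))
    · obtain ⟨m, hm⟩ := (hgt r).1
      rw [Finset.mem_inter] at hm
      have := (hr m (hall m hm.1).ne').1 hm.2
      exact absurd (hall m hm.1) (not_lt.2 this.le)
  · intro hno
    refine ⟨Finset.card_eq_three.2 ⟨i, j, l, hij, hil, hjl, rfl⟩, fun r => ?_⟩
    obtain ⟨ν, hν, hr⟩ := h1 r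
    constructor
    · by_contra hemp
      rw [Finset.not_nonempty_iff_eq_empty] at hemp
      apply hno
      have key : ∀ m ∈ ({i, j, l} : Finset (Fin n)), 0 < ip (-ν) (P (od P c m) - c) := by
        intro m hm
        have h3 : m ∉ hp (sg P c) r := by
          intro h4
          have : m ∈ ({i, j, l} : Finset (Fin n)) ∩ hp (sg P c) r :=
            Finset.mem_inter.2 ⟨hm, h4⟩
          rw [hemp] at this
          exact absurd this (Finset.notMem_empty m)
        have h5 := mt (hr m).1.2 h3
        rw [GtS_neg]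
        have h6 := (hr m).2
        rcases lt_or_gt_of_ne h6 with h7 | h7
        · linarith
        · exact absurd h7 h5
      exact ⟨-ν, key i (by simp), key j (by simp), key l (by simp)⟩
    · by_contra hemp
      rw [Finset.not_nonempty_iff_eq_empty] at hemp
      apply hno
      have key : ∀ m ∈ ({i, j, l} : Finset (Fin n)), 0 < ip ν (P (od P c m) - c) := by
        intro m hm
        refine (hr m).1.1 ?_
        by_contra h4
        have : m ∈ ({i, j, l} : Finset (Fin n)) \ hp (sg P c) r :=
          Finset.mem_sdiff.2 ⟨hm, h4⟩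
        rw [hemp] at this
        exact absurd this (Finset.notMem_empty m)
      exact ⟨ν, key i (by simp), key j (by simp), key l (by simp)⟩

end Pool.Agent.SKP
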