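import Pool.Agent.SKP.StN

/-!
# Sierksma's bound in the plane (MP_001fdd_co): N6 (Helly)
-/

set_option autoImplicit false

namespace Pool.Agent.SKP

open scoped Classical
open Filter Topology

private lemma Hel_ip_sub (ν y c : E2) : ip ν (y - c) = ip ν y - ip ν c := by
  simp only [ip, PiLp.sub_apply]
  ring

private lemma Hel_ip_neg (ν y : E2) : ip (-ν) y = - ip ν y := by
  simp only [ip, PiLp.neg_apply]
  ring

private lemma Hel_ip_lin (ν : E2) : IsLinearMap ℝ (ip ν) where
  map_add x y := by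
    simp only [ip, PiLp.add_apply]
    ring
  map_smul r x := by
    simp only [ip, PiLp.smul_apply, smul_eq_mul]
    ring

private lemma Hel_ip_cont (ν : E2) : Continuous (ip ν) := by
  unfold ip
  fun_prop

private lemma Hel_delta {n : ℕ} (f : Fin n → ℝ) :
    ∃ δ : ℝ, 0 < δ ∧ ∀ x, f x < 0 → f x < -δ := by
  have h : ∀ᶠ δ in 𝓝[>] (0 : ℝ), ∀ x, f x < 0 → f x < -δ := by
    rw [Filter.eventually_all]
    intro x
    by_cases hx : f x < 0
    · have h1 : Tendsto (fun δ : ℝ => -δ) (𝓝 0) (𝓝 (-0)) := continuous_neg.tendsto 0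
      have h2 := h1.eventually (lt_mem_nhds (a := f x) (by simpa using hx))
      filter_upwards [nhdsWithin_le_nhds h2] with δ hδ _
      exact hδ
    · exact Eventually.of_forall fun δ h' => absurd h' hx
  obtain ⟨δ, h1, h2⟩ := (h.and self_mem_nhdsWithin).exists
  exact ⟨δ, h2, h1⟩

private lemma Hel_enum {ι : Type} (I : Finset ι) (hI : I.card ≤ 3) (h0 : I.Nonempty) :
    ∃ f : Fin 3 → ι, ∀ i ∈ I, ∃ j, f j = i := by
  obtain ⟨i0, hi0⟩ := h0
  refine ⟨fun j => if h : (j : ℕ) < I.card then (I.equivFin.symm ⟨j, h⟩ : ι) else i0,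
    fun i hi => ?_⟩
  refine ⟨⟨I.equivFin ⟨i, hi⟩, lt_of_lt_of_le (I.equivFin ⟨i, hi⟩).2 hI⟩, ?_⟩
  simp

theorem thm_Hel : Stmt_Tri → Stmt_Hel := by
  intro hT k o P D c₀ ho hk hD hc hr
  obtain ⟨Ty, hTy⟩ : ∃ Ty : E2 × ℝ → Prop, ∀ q, Ty q ↔
      ((Finset.univ.filter fun x => ip q.1 (P x) < q.2).card + 1 ≤ k ∨
        ∀ i, 3 * o + 1 ≤ ((D i).filter fun x => q.2 ≤ ip q.1 (P x)).card) :=
    ⟨_, fun _ => Iff.rfl⟩
  have hH : (⋂ q : {q : E2 × ℝ // Ty q},
      {y : E2 | y ∈ convexHull ℝ (Set.range P) ∧ q.1.2 ≤ ip q.1.1 y}).Nonempty := by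
    refine Convex.helly_theorem_compact' (𝕜 := ℝ) (fun q => ?_) (fun q => ?_) fun I hI => ?_
    · exact (convex_convexHull ℝ _).inter (convex_halfSpace_ge (Hel_ip_lin q.1.1) q.1.2)
    · exact ((Set.finite_range P).isCompact_convexHull (𝕜 := ℝ)).inter_right
        (isClosed_le continuous_const (Hel_ip_cont q.1.1))
    · have h3 : Module.finrank ℝ E2 + 1 = 3 := by
        rw [finrank_euclideanSpace, Fintype.card_fin]
      rw [h3] at hI
      rcases I.eq_empty_or_nonempty with h0 | h0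
      · rw [h0]
        simp
      · obtain ⟨f, hf⟩ := Hel_enum I hI h0
        obtain ⟨y, hy, hy'⟩ := hT k o P D c₀ (fun j => (f j).1.1) (fun j => (f j).1.2) ho hk hD hc hr
          (fun j => (hTy _).1 (f j).2)
        refine ⟨y, ?_⟩
        simp only [Set.mem_iInter]
        intro q hq
        obtain ⟨j, hj⟩ := hf q hq
        refine ⟨hy, ?_⟩
        rw [← hj]
        exact hy' j
  obtain ⟨c, hcm⟩ := hH
  have hc' : ∀ (ν : E2) (a : ℝ), Ty (ν, a) → a ≤ ip ν c := by
    intro ν a h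
    have h1 := Set.mem_iInter.1 hcm ⟨(ν, a), h⟩
    exact h1.2
  refine ⟨c, fun ν hν => ?_, fun ν hν => ?_⟩
  · by_contra h
    rw [not_le] at h
    obtain ⟨δ, hδ, hδ'⟩ := Hel_delta fun x => ip ν (P x - c)
    have h1 := hc' (-ν) (ip (-ν) c + δ) (by
      rw [hTy]
      left
      refine lt_of_le_of_lt (Finset.card_le_card ?_) h
      intro x hx
      rw [Finset.mem_filter] at hx ⊢
      refine ⟨hx.1, ?_⟩
      by_contra hn
      have h2 := hδ' x (not_le.1 hn)
      have h3 := hx.2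
      simp only [Hel_ip_neg] at h3
      simp only [Hel_ip_sub] at h2
      linarith)
    linarith
  · by_contra h
    rw [not_exists] at h
    obtain ⟨δ, hδ, hδ'⟩ := Hel_delta fun x => ip ν (P x - c)
    have h1 := hc' (-ν) (ip (-ν) c + δ) (by
      rw [hTy]
      right
      intro i
      have h2 := h i
      rw [not_le] at h2
      refine (Nat.succ_le_of_lt h2).trans (Finset.card_le_card ?_)
      intro x hx
      rw [Finset.mem_filter] at hx ⊢
      refine ⟨hx.1, ?_⟩
      have h3 := hδ' x hx.2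
      simp only [Hel_ip_neg]
      simp only [Hel_ip_sub] at h3
      linarith)
    linarith

end Pool.Agent.SKP
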