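import Pool.Agent.SKP.StN

/-!
# Project SKP (MP_001fdd_co), module Hf: half planes and sequences
-/

set_option autoImplicit false

namespace Pool.Agent.SKP

open scoped Classical

private theorem Hf_tau {n : ℕ} {κ : Fin n → ℝ} (hκ : StrictMono κ) (r : ℕ) :
    ∃ τ : ℝ, (∀ i : Fin n, (i : ℕ) < r → κ i < τ) ∧ ∀ i : Fin n, r ≤ (i : ℕ) → τ < κ i := by
  rcases lt_or_ge r n with hr | hr
  · rcases Nat.eq_zero_or_pos r with h0 | h0
    · subst h0
      refine ⟨κ ⟨0, hr⟩ - 1, fun i hi => absurd hi (Nat.not_lt_zero _), fun i _ => ?_⟩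
      have : κ ⟨0, hr⟩ ≤ κ i := hκ.monotone (Fin.mk_le_of_le_val (Nat.zero_le _))
      linarith
    · have hlt : κ ⟨r - 1, by omega⟩ < κ ⟨r, hr⟩ := hκ (Fin.mk_lt_mk.2 (by omega))
      refine ⟨(κ ⟨r - 1, by omega⟩ + κ ⟨r, hr⟩) / 2, fun i hi => ?_, fun i hi => ?_⟩
      · have : κ i ≤ κ ⟨r - 1, by omega⟩ := hκ.monotone (Fin.le_def.2 (by show (i : ℕ) ≤ r - 1; omega))
        linarith
      · have : κ ⟨r, hr⟩ ≤ κ i := hκ.monotone (Fin.le_def.2 hi)
        linarith
  · rcases Nat.eq_zero_or_pos n with h0 | h0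
    · subst h0
      exact ⟨0, fun i => i.elim0, fun i => i.elim0⟩
    · refine ⟨κ ⟨n - 1, by omega⟩ + 1, fun i _ => ?_, fun i hi => ?_⟩
      · have : κ i ≤ κ ⟨n - 1, by omega⟩ :=
          hκ.monotone (Fin.le_def.2 (by show (i : ℕ) ≤ n - 1; have := i.2; omega))
        linarith
      · have := i.2
        omega

private theorem Hf_cut {n : ℕ} {κ : Fin n → ℝ} (hκ : StrictMono κ) (τ : ℝ) :
    ∃ r : ℕ, (∀ i : Fin n, (i : ℕ) < r → κ i < τ) ∧ ∀ i : Fin n, r ≤ (i : ℕ) → τ ≤ κ i := by
  have hex : ∃ r : ℕ, ∀ i : Fin n, r ≤ (i : ℕ) → τ ≤ κ i :=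
    ⟨n, fun i hi => absurd i.2 (not_lt.2 hi)⟩
  refine ⟨Nat.find hex, fun i hi => ?_, Nat.find_spec hex⟩
  by_contra hcon
  push Not at hcon
  refine Nat.find_min hex hi fun j hj => hcon.trans (hκ.monotone (Fin.le_def.2 hj))

theorem thm_Hf : Stmt_Hf := by
  intro n P c hG
  set κ : Fin n → ℝ := fun i => ky P c (od P c i) with hκd
  have hh : ∀ i, P (od P c i) 1 - c 1 ≠ 0 := fun i => sub_ne_zero.2 (hG.1 _)
  have hx : ∀ i, P (od P c i) 0 - c 0 = -(κ i * (P (od P c i) 1 - c 1)) := by
    intro i
    simp only [hκd, ky]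
    have := hh i
    field_simp
  have hip : ∀ (ν : E2) i, ip ν (P (od P c i) - c)
      = (P (od P c i) 1 - c 1) * (ν 1 - ν 0 * κ i) := by
    intro ν i
    have e0 : (P (od P c i) - c) 0 = P (od P c i) 0 - c 0 := rfl
    have e1 : (P (od P c i) - c) 1 = P (od P c i) 1 - c 1 := rfl
    rw [ip, e0, e1, hx]
    ring
  have hmono : Monotone κ := Tuple.monotone_sort (ky P c)
  have hinj : Function.Injective κ := by
    intro i j hij
    by_contra hne
    have hne' : od P c i ≠ od P c j := fun h => hne ((od P c).injective h)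
    apply hG.2 _ _ hne'
    have e0 : (P (od P c i) - c) 0 = P (od P c i) 0 - c 0 := rfl
    have e1 : (P (od P c i) - c) 1 = P (od P c i) 1 - c 1 := rfl
    have e2 : (P (od P c j) - c) 0 = P (od P c j) 0 - c 0 := rfl
    have e3 : (P (od P c j) - c) 1 = P (od P c j) 1 - c 1 := rfl
    rw [cr, e0, e1, e2, e3, hx, hx, hij]
    ring
  have hκ : StrictMono κ := hmono.strictMono_of_injective hinj
  have hsg : ∀ i, (sg P c i = true ↔ 0 < P (od P c i) 1 - c 1) ∧
      (sg P c i = false ↔ P (od P c i) 1 - c 1 < 0) := by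
    intro i
    have h1 : sg P c i = true ↔ 0 < P (od P c i) 1 - c 1 := by
      rw [sub_pos]
      simp [sg]
    refine ⟨h1, ?_⟩
    have h2 : sg P c i = false ↔ ¬ (sg P c i = true) := by simp
    rw [h2, h1, not_lt]
    exact ⟨fun h => lt_of_le_of_ne h (hh i), le_of_lt⟩
  have hmem : ∀ r i, i ∈ hp (sg P c) r ↔ (0 < P (od P c i) 1 - c 1 ∧ r ≤ (i : ℕ)) ∨
      (P (od P c i) 1 - c 1 < 0 ∧ (i : ℕ) < r) := by
    intro r i
    rw [hp, Finset.mem_filter, (hsg i).1, (hsg i).2]
    simp
  constructor
  · intro r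
    obtain ⟨τ, ht1, ht2⟩ := Hf_tau hκ r
    refine ⟨!₂[-1, -τ], ?_, ?_⟩
    · intro h
      have h0 : (!₂[(-1 : ℝ), -τ] : E2) 0 = (0 : E2) 0 := by rw [h]
      have h1 : (-1 : ℝ) = 0 := h0
      norm_num at h1
    · intro i
      have e : ip !₂[-1, -τ] (P (od P c i) - c) = (P (od P c i) 1 - c 1) * (κ i - τ) := by
        rw [hip]
        have e0 : (!₂[(-1 : ℝ), -τ] : E2) 0 = -1 := rfl
        have e1 : (!₂[(-1 : ℝ), -τ] : E2) 1 = -τ := rfl
        rw [e0, e1]
        ring
      rw [hmem, e]
      rcases lt_or_ge (i : ℕ) r with hi | hi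
      · have h1 := ht1 i hi
        have h2 : κ i - τ < 0 := by linarith
        refine ⟨?_, mul_ne_zero (hh i) h2.ne⟩
        constructor
        · rintro (h | h)
          · omega
          · exact mul_pos_of_neg_of_neg h.1 h2
        · intro h
          exact Or.inr ⟨by by_contra hc; push Not at hc; linarith [mul_nonpos_of_nonneg_of_nonpos hc h2.le], hi⟩
      · have h1 := ht2 i hi
        have h2 : 0 < κ i - τ := by linarith
        refine ⟨?_, mul_ne_zero (hh i) h2.ne'⟩
        constructor
        · rintro (h | h)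
          · exact mul_pos h.1 h2
          · omega
        · intro h
          exact Or.inl ⟨by by_contra hc; push Not at hc; linarith [mul_nonpos_of_nonpos_of_nonneg hc h2.le], hi⟩
  · intro ν hν
    rcases eq_or_ne (ν 0) 0 with h0 | h0
    · have h1 : ν 1 ≠ 0 := by
        intro h1
        apply hν
        ext j
        fin_cases j
        · exact h0
        · exact h1
      refine ⟨0, ?_⟩
      rcases lt_or_gt_of_ne h1 with h1 | h1
      · right
        intro i _
        rw [hmem, hip, h0, zero_mul, sub_zero]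
        constructor
        · rintro (h | h)
          · exact mul_neg_of_pos_of_neg h.1 h1
          · omega
        · intro h
          exact Or.inl ⟨by by_contra hc; push Not at hc; linarith [mul_nonneg_of_nonpos_of_nonpos hc h1.le], Nat.zero_le _⟩
      · left
        intro i _
        rw [hmem, hip, h0, zero_mul, sub_zero]
        constructor
        · rintro (h | h)
          · exact mul_pos h.1 h1
          · omega
        · intro h
          exact Or.inl ⟨by by_contra hc; push Not at hc; linarith [mul_nonpos_of_nonpos_of_nonneg hc h1.le], Nat.zero_le _⟩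
    · obtain ⟨r, hr1, hr2⟩ := Hf_cut hκ (ν 1 / ν 0)
      have e : ∀ i, ip ν (P (od P c i) - c)
          = (P (od P c i) 1 - c 1) * (ν 0 * (ν 1 / ν 0 - κ i)) := by
        intro i
        rw [hip]
        congr 1
        field_simp
      have hlt : ∀ i : Fin n, ip ν (P (od P c i) - c) ≠ 0 →
          (r ≤ (i : ℕ) → ν 1 / ν 0 - κ i < 0) ∧ ((i : ℕ) < r → 0 < ν 1 / ν 0 - κ i) := by
        intro i hi
        refine ⟨fun h => ?_, fun h => by linarith [hr1 i h]⟩
        have h2 := hr2 i h
        rcases h2.lt_or_eq with h3 | h3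
        · linarith
        · exfalso
          apply hi
          rw [e, h3, sub_self, mul_zero, mul_zero]
      refine ⟨r, ?_⟩
      rcases lt_or_gt_of_ne h0 with h0 | h0
      · left
        intro i hi
        rw [hmem, e]
        obtain ⟨h1, h2⟩ := hlt i hi
        rcases lt_or_ge (i : ℕ) r with hir | hir
        · have h3 := mul_neg_of_neg_of_pos h0 (h2 hir)
          constructor
          · rintro (h | h)
            · omega
            · exact mul_pos_of_neg_of_neg h.1 h3
          · intro h
            exact Or.inr ⟨by by_contra hc; push Not at hc; linarith [mul_nonpos_of_nonneg_of_nonpos hc h3.le], hir⟩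
        · have h3 := mul_pos_of_neg_of_neg h0 (h1 hir)
          constructor
          · rintro (h | h)
            · exact mul_pos h.1 h3
            · omega
          · intro h
            exact Or.inl ⟨by by_contra hc; push Not at hc; linarith [mul_nonpos_of_nonpos_of_nonneg hc h3.le], hir⟩
      · right
        intro i hi
        rw [hmem, e]
        obtain ⟨h1, h2⟩ := hlt i hi
        rcases lt_or_ge (i : ℕ) r with hir | hir
        · have h3 := mul_pos h0 (h2 hir)
          constructor
          · rintro (h | h)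
            · omega
            · exact mul_neg_of_neg_of_pos h.1 h3
          · intro h
            exact Or.inr ⟨by by_contra hc; push Not at hc; linarith [mul_nonneg hc h3.le], hir⟩
        · have h3 := mul_neg_of_pos_of_neg h0 (h1 hir)
          constructor
          · rintro (h | h)
            · exact mul_neg_of_pos_of_neg h.1 h3
            · omega
          · intro h
            exact Or.inl ⟨by by_contra hc; push Not at hc; linarith [mul_nonneg_of_nonpos_of_nonpos hc h3.le], hir⟩

end Pool.Agent.SKP
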