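import Pool.Agent.SKP.StA
import Pool.Agent.Tvv.Const
import Pool.Agent.Tvo.Vec
import Pool.Agent.Tvo.Real

/-!
# Invariance of the weighted number of cones
-/

set_option autoImplicit false

namespace Pool.Agent.SKP

open scoped Classical
open Pool.Agent.Tvb (Pos Zero Base Good hat TP)
open Pool.Agent.Tvo (PP so ind)

theorem IGen_zero {ι : Type} [Fintype ι] (ω' : ι → ℝ) (U : ι → ι → ℝ) :
    Zero U (-ω') ↔ Pos ω' U := by
  constructor
  · rintro ⟨b, c, hb, hc, h⟩
    refine ⟨fun i => b⁻¹ * c i, fun i => mul_pos (inv_pos.2 hb) (hc i), ?_⟩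
    have h1 : ∑ i, c i • U i = b • ω' := by
      rw [smul_neg] at h
      rw [← sub_eq_zero, sub_eq_neg_add]
      exact h
    have h2 : ∑ i, (b⁻¹ * c i) • U i = b⁻¹ • ∑ i, c i • U i := by
      rw [Finset.smul_sum]
      exact Finset.sum_congr rfl (fun i _ => by rw [mul_smul])
    rw [h2, h1, smul_smul, inv_mul_cancel₀ hb.ne', one_smul]
  · rintro ⟨c, hc, h⟩
    refine ⟨1, c, one_pos, hc, ?_⟩
    rw [h, one_smul]
    exact neg_add_cancel ω'

theorem IGen_upd {ι L : Type} [DecidableEq ι] (u : ι → L → ι → ℝ) (π : ι → L) (i : ι) (l : L)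
    (v : ι → ℝ) :
    Function.update (fun a => u a (Function.update π i l a)) i v =
      Function.update (fun a => u a (π a)) i v := by
  funext a
  by_cases ha : a = i
  · subst ha
    rw [Function.update_self, Function.update_self]
  · rw [Function.update_of_ne ha, Function.update_of_ne ha, Function.update_of_ne ha]

theorem thm_IGen : Stmt_IGen := by
  intro ι L _ _ _ _ u W ω ω' hW hG
  have hterm : ∀ π : ι → L, W π * ((PP ω' (fun a => u a (π a)) : ℤ) : ℝ) =
      W π * ((PP ω (fun a => u a (π a)) : ℤ) : ℝ) -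
        ∑ i, W π * ((PP ω (Function.update (fun a => u a (π a)) i (-ω')) : ℤ) : ℝ) := by
    intro π
    have h := (Pool.Agent.Tvo.oVec Pool.Agent.Tvo.oReal ι ω (-ω') (fun a => u a (π a)) (hG π)).1
    have hz : ind (Zero (fun a => u a (π a)) (-ω')) = ind (Pos ω' (fun a => u a (π a))) := by
      have h0 : Zero (fun a => u a (π a)) (-ω') = Pos ω' (fun a => u a (π a)) :=
        propext (IGen_zero ω' (fun a => u a (π a)))
      rw [h0]
    rw [hz] at h
    have h' : PP ω' (fun a => u a (π a)) = PP ω (fun a => u a (π a)) -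
        ∑ i, PP ω (Function.update (fun a => u a (π a)) i (-ω')) := h.symm
    rw [h', ← Finset.mul_sum, ← mul_sub]
    congr 1
    push_cast
    rfl
  have hfix : ∀ i : ι, ∑ π : ι → L,
      W π * ((PP ω (Function.update (fun a => u a (π a)) i (-ω')) : ℤ) : ℝ) = 0 := by
    intro i
    refine Pool.Agent.Tvv.const_sum_zero _ i (fun π => ?_)
    simp only [IGen_upd]
    rw [← Finset.sum_mul, hW, zero_mul]
  rw [Finset.sum_congr rfl fun π _ => hterm π, Finset.sum_sub_distrib, Finset.sum_comm,
    Finset.sum_eq_zero fun i _ => hfix i, sub_zero]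

end Pool.Agent.SKP
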