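import Pool.Agent.SKP.StA
import Pool.Agent.SKP.StN

/-!
# Sierksma's bound in the plane (MP_001fdd_co): A12 (partitions into triangles as labellings)
-/

set_option autoImplicit false

namespace Pool.Agent.SKP

open scoped Classical
open Pool.Agent.Tvb (Pos Zero Base Good hat TP)
open Pool.Agent.Tvv (J Lb ev UU dd)

private lemma Lbl_mem {n m : ℕ} {G : Finset (Fin n) → Prop} {M : Finset (Finset (Fin n))} :
    M ∈ Pk G m ↔ M.card = m ∧ (∀ t ∈ M, G t) ∧
      ∀ t ∈ M, ∀ t' ∈ M, t ≠ t' → Disjoint t t' := by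
  unfold Pk
  rw [Finset.mem_filter]
  exact and_iff_right (Finset.mem_univ _)

private lemma Lbl_f {k : ℕ} {G : Finset (Fin (3 * k)) → Prop} (hG : ∀ t, G t → t.card = 3)
    {M : Finset (Finset (Fin (3 * k)))} (hM : M ∈ Pk G k) :
    ∃ f : Fin (3 * k) → Fin k, (∀ j, (Finset.univ.filter fun i => f i = j) ∈ M) ∧
      ∀ t ∈ M, ∃ j, t = Finset.univ.filter fun i => f i = j := by
  obtain ⟨h1, h2, h3⟩ := Lbl_mem.1 hM
  have hcov : M.biUnion id = Finset.univ := by
    apply Finset.eq_univ_of_card
    have hcu : (M.biUnion id).card = ∑ t ∈ M, (id t).card :=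
      Finset.card_biUnion (fun t ht t' ht' h => h3 t ht t' ht' h)
    rw [hcu]
    have e : ∀ t ∈ M, (id t).card = 3 := fun t ht => hG t (h2 t ht)
    rw [Finset.sum_congr rfl e, Finset.sum_const, h1, Fintype.card_fin, smul_eq_mul, mul_comm]
  have hex : ∀ i : Fin (3 * k), ∃ t : M, i ∈ t.1 := by
    intro i
    have hi : i ∈ M.biUnion id := by
      rw [hcov]
      exact Finset.mem_univ _
    obtain ⟨t, ht, hit⟩ := Finset.mem_biUnion.1 hi
    exact ⟨⟨t, ht⟩, hit⟩
  choose g hg using hex
  obtain ⟨β⟩ : Nonempty (M ≃ Fin k) := by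
    refine ⟨Fintype.equivOfCardEq ?_⟩
    rw [Fintype.card_coe, h1, Fintype.card_fin]
  have key : ∀ j, (Finset.univ.filter fun i => β (g i) = j) = (β.symm j).1 := by
    intro j
    ext i
    rw [Finset.mem_filter]
    constructor
    · rintro ⟨-, rfl⟩
      rw [Equiv.symm_apply_apply]
      exact hg i
    · intro hi
      refine ⟨Finset.mem_univ _, ?_⟩
      have h : g i = β.symm j := by
        by_contra hne
        have hne' : (g i).1 ≠ (β.symm j).1 := fun h => hne (Subtype.ext h)
        exact (Finset.disjoint_left.1 (h3 _ (g i).2 _ (β.symm j).2 hne')) (hg i) hi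
      rw [h, Equiv.apply_symm_apply]
  refine ⟨fun i => β (g i), fun j => ?_, fun t ht => ?_⟩
  · rw [key]
    exact (β.symm j).2
  · refine ⟨β ⟨t, ht⟩, ?_⟩
    rw [key, Equiv.symm_apply_apply]

private lemma Lbl_w {n : ℕ} (hGt : Stmt_GtS) (P : Fin n → E2) (c : E2) (hg : Gn P c)
    {t : Finset (Fin n)} (ht : Gt (sg P c) t) :
    ∃ w : Fin n → ℝ, (∀ i, 0 < w i) ∧
      ∀ m : Fin 3, ∑ i ∈ t, w i * hat (P (od P c i)) m = hat c m := by
  obtain ⟨x, y, z, hxy, hxz, hyz, rfl⟩ := Finset.card_eq_three.1 ht.1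
  obtain ⟨α, β, γ, hα, hβ, hγ, hs, hc⟩ := (hGt n P c hg x y z hxy hyz hxz).1 ht
  refine ⟨fun i => if i = x then α else if i = y then β else γ, fun i => ?_, fun m => ?_⟩
  · dsimp only
    split_ifs <;> assumption
  · have h1 : x ∉ ({y, z} : Finset (Fin n)) := by
      simp [hxy, hxz]
    have h2 : y ∉ ({z} : Finset (Fin n)) := by
      simp [hyz]
    rw [Finset.sum_insert h1, Finset.sum_insert h2, Finset.sum_singleton]
    simp only [if_true, if_neg hxy.symm, if_neg hxz.symm, if_neg hyz.symm]
    have hc0 := congrArg (fun p : E2 => p 0) hc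
    have hc1 := congrArg (fun p : E2 => p 1) hc
    simp only [PiLp.add_apply, PiLp.smul_apply, smul_eq_mul] at hc0 hc1
    fin_cases m
    · simp only [hat, Fin.snoc]
      simp
      linarith
    · simp only [hat, Fin.snoc]
      simp
      linarith
    · simp only [hat, Fin.snoc]
      simp
      linarith

theorem thm_Lbl : Stmt_GtS → Stmt_Lbl := by
  intro hGt k Q e c hg
  obtain ⟨P, hP⟩ : ∃ P : Fin (3 * k) → E2, P = fun i => Q (e i) := ⟨_, rfl⟩
  rw [← hP] at hg ⊢
  obtain ⟨π, hπ⟩ : ∃ π : Fin (3 * k) ≃ J k 3, π = (od P c).trans e := ⟨_, rfl⟩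
  have hQ : ∀ i, Q (π i) = P (od P c i) := by
    intro i
    rw [hπ, hP]
    rfl
  have hf := fun (M : {M // M ∈ Pk (Gt (sg P c)) k}) => Lbl_f (fun t ht => ht.1) M.2
  choose f hf1 hf2 using hf
  have hcard : k.factorial * (Pk (Gt (sg P c)) k).card =
      ((Pk (Gt (sg P c)) k).attach ×ˢ (Finset.univ : Finset (Equiv.Perm (Fin k)))).card := by
    rw [Finset.card_product, Finset.card_attach, Finset.card_univ, Fintype.card_perm,
      Fintype.card_fin, mul_comm]
  rw [hcard]
  unfold Lbl
  refine Finset.card_le_card_of_injOn (fun q a => q.2 (f q.1 (π.symm a))) ?_ ?_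
  · rintro ⟨M, σ⟩ -
    rw [Finset.mem_coe, Finset.mem_filter]
    refine ⟨Finset.mem_univ _, fun j => ?_, ?_⟩
    · have h1 : (Finset.univ.filter fun a => σ (f M (π.symm a)) = j) =
          (Finset.univ.filter fun i => f M i = σ.symm j).map π.toEmbedding := by
        ext a
        rw [Finset.mem_filter, Finset.mem_map]
        constructor
        · rintro ⟨-, h⟩
          refine ⟨π.symm a, ?_, by simp⟩
          rw [Finset.mem_filter]
          refine ⟨Finset.mem_univ _, ?_⟩
          rw [← h, Equiv.symm_apply_apply]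
        · rintro ⟨i, hi, rfl⟩
          rw [Finset.mem_filter] at hi
          refine ⟨Finset.mem_univ _, ?_⟩
          rw [Equiv.coe_toEmbedding, Equiv.symm_apply_apply, hi.2, Equiv.apply_symm_apply]
      rw [h1, Finset.card_map]
      exact ((Lbl_mem.1 M.2).2.1 _ (hf1 M (σ.symm j))).1.le
    · have hw := fun j : Fin k => Lbl_w hGt P c hg ((Lbl_mem.1 M.2).2.1 _ (hf1 M j))
      choose w hw1 hw2 using hw
      refine ⟨fun a => w (f M (π.symm a)) (π.symm a), fun a => hw1 _ _, ?_⟩
      funext q
      obtain ⟨j, m⟩ := q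
      rw [Finset.sum_apply]
      have h1 : ∀ a : J k 3, (w (f M (π.symm a)) (π.symm a) •
          UU (ht Q) (fun a => some (σ (f M (π.symm a)))) a) (j, m) =
          if f M (π.symm a) = σ.symm j then w (σ.symm j) (π.symm a) * hat (Q a) m else 0 := by
        intro a
        simp only [Pi.smul_apply, smul_eq_mul, UU, ev, ht]
        by_cases h : f M (π.symm a) = σ.symm j
        · rw [if_pos h, h, Equiv.apply_symm_apply, if_pos rfl, one_mul]
        · have h' : σ (f M (π.symm a)) ≠ j := by
            intro h2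
            apply h
            rw [← h2, Equiv.symm_apply_apply]
          rw [if_neg h, if_neg h']
          ring
      rw [Finset.sum_congr rfl fun a _ => h1 a, ← Equiv.sum_comp π]
      simp only [Equiv.symm_apply_apply, hQ]
      rw [← Finset.sum_filter, hw2]
      rfl
  · rintro ⟨M, σ⟩ - ⟨M', σ'⟩ - h
    have h0 : ∀ i, σ (f M i) = σ' (f M' i) := by
      intro i
      have h1 := congrFun h (π i)
      simpa using h1
    have hfib : ∀ j, (Finset.univ.filter fun i => f M i = j) =
        Finset.univ.filter fun i => f M' i = σ'.symm (σ j) := by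
      intro j
      ext i
      rw [Finset.mem_filter, Finset.mem_filter]
      constructor
      · rintro ⟨-, rfl⟩
        refine ⟨Finset.mem_univ _, ?_⟩
        rw [h0, Equiv.symm_apply_apply]
      · rintro ⟨-, hi⟩
        refine ⟨Finset.mem_univ _, ?_⟩
        have h1 := h0 i
        rw [hi, Equiv.apply_symm_apply] at h1
        exact σ.injective h1
    have hsub : M.1 ⊆ M'.1 := by
      intro t ht
      obtain ⟨j, rfl⟩ := hf2 M t ht
      rw [hfib]
      exact hf1 M' _
    have hMM : M = M' := by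
      apply Subtype.ext
      apply Finset.eq_of_subset_of_card_le hsub
      rw [(Lbl_mem.1 M.2).1, (Lbl_mem.1 M'.2).1]
    subst hMM
    have hσ : σ = σ' := by
      ext1 j
      have hne : (Finset.univ.filter fun i => f M i = j).Nonempty := by
        rw [← Finset.card_pos, ((Lbl_mem.1 M.2).2.1 _ (hf1 M j)).1]
        norm_num
      obtain ⟨i, hi⟩ := hne
      rw [Finset.mem_filter] at hi
      rw [← hi.2]
      exact h0 i
    rw [hσ]

end Pool.Agent.SKP
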