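import Pool.Agent.SKP.StA

/-!
# SKP, module Lim: limits of cones
-/

set_option autoImplicit false

namespace Pool.Agent.SKP

open scoped Classical
open Pool.Agent.Tvb (Pos Zero Base Good hat TP)
open Pool.Agent.Tvo (PP so ind)
open Pool.Agent.Tvv (J Lb ev UU dd)

theorem Lim_step {ι : Type} [Fintype ι] (x : ι → ι → ℝ) (T : ι → ℝ) {δ : ℝ}
    (u : ι → ι → ℝ) (ω : ι → ℝ) (hu : ∀ a, ‖u a - x a‖ < δ) (hω : ‖ω - T‖ < δ)
    (hpos : Pos ω u) : ∃ p ∈ stdSimplex ℝ (Option ι),
      ‖∑ a, p (some a) • x a - p none • T‖ ≤ δ := by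
  obtain ⟨c, hc, hcu⟩ := hpos
  set s : ℝ := 1 + ∑ a, c a with hs
  have hsum : 0 ≤ ∑ a, c a := Finset.sum_nonneg fun a _ => (hc a).le
  have hs0 : 0 < s := by linarith
  refine ⟨fun o => o.elim (1 / s) fun a => c a / s, ⟨?_, ?_⟩, ?_⟩
  · intro o
    cases o with
    | none => exact (one_div_pos.2 hs0).le
    | some a => exact (div_pos (hc a) hs0).le
  · rw [Fintype.sum_option]
    change 1 / s + ∑ a, c a / s = 1
    rw [← Finset.sum_div, ← add_div, ← hs, div_self hs0.ne']
  · change ‖∑ a, (c a / s) • x a - (1 / s) • T‖ ≤ δ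
    have h1 : ∑ a, (c a / s) • u a = (1 / s) • ω := by
      rw [← hcu, Finset.smul_sum]
      refine Finset.sum_congr rfl fun a _ => ?_
      rw [smul_smul]
      congr 1
      ring
    have h2 : ∑ a, (c a / s) • x a - (1 / s) • T =
        (1 / s) • (ω - T) - ∑ a, (c a / s) • (u a - x a) := by
      simp only [smul_sub, Finset.sum_sub_distrib]
      rw [h1]
      abel
    rw [h2]
    have h3 : ‖(1 / s) • (ω - T)‖ ≤ 1 / s * δ := by
      rw [norm_smul, Real.norm_of_nonneg (one_div_pos.2 hs0).le]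
      exact mul_le_mul_of_nonneg_left hω.le (one_div_pos.2 hs0).le
    have h4 : ‖∑ a, (c a / s) • (u a - x a)‖ ≤ ∑ a, c a / s * δ := by
      refine (norm_sum_le _ _).trans (Finset.sum_le_sum fun a _ => ?_)
      rw [norm_smul, Real.norm_of_nonneg (div_pos (hc a) hs0).le]
      exact mul_le_mul_of_nonneg_left (hu a).le (div_pos (hc a) hs0).le
    have h5 : 1 / s * δ + ∑ a, c a / s * δ = δ := by
      rw [← Finset.sum_mul, ← Finset.sum_div, ← add_mul, ← add_div, ← hs, div_self hs0.ne',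
        one_mul]
    exact (norm_sub_le _ _).trans ((add_le_add h3 h4).trans h5.le)

theorem thm_Lim : Stmt_Lim := by
  intro ι _ x T h
  have hcont : Continuous fun p : Option ι → ℝ => ‖∑ a, p (some a) • x a - p none • T‖ := by
    fun_prop
  have hne : (stdSimplex ℝ (Option ι)).Nonempty := ⟨_, single_mem_stdSimplex ℝ none⟩
  obtain ⟨p, hp, hmin⟩ := (isCompact_stdSimplex ℝ (Option ι)).exists_isMinOn hne
    hcont.continuousOn
  have h0 : ‖∑ a, p (some a) • x a - p none • T‖ ≤ 0 := by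
    refine le_of_forall_pos_le_add fun δ hδ => ?_
    obtain ⟨u, ω, hu, hω, hpos⟩ := h δ hδ
    obtain ⟨q, hq, hqδ⟩ := Lim_step x T u ω hu hω hpos
    rw [zero_add]
    exact (isMinOn_iff.1 hmin q hq).trans hqδ
  refine ⟨fun a => p (some a), p none, fun a => hp.1 _, hp.1 _, ?_, ?_⟩
  · have h1 := hp.2
    rw [Fintype.sum_option] at h1
    exact h1
  · exact sub_eq_zero.1 (norm_le_zero_iff.1 h0)

end Pool.Agent.SKP
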