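import Pool.Agent.SKP.StC

/-!
# SKP: Lip, Lipschitz property of the errors
-/

set_option autoImplicit false

namespace Pool.Agent.SKP

/-! ### Counting -/

private lemma Lip_abs {α : Type} [DecidableEq α] (S T B : Finset α) (h1 : S ⊆ T ∪ B) (h2 : T ⊆ S ∪ B) :
    |(S.card : ℝ) - T.card| ≤ B.card := by
  have e1 : (S.card : ℝ) ≤ T.card + B.card := by
    exact_mod_cast (Finset.card_le_card h1).trans (Finset.card_union_le T B)
  have e2 : (T.card : ℝ) ≤ S.card + B.card := by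
    exact_mod_cast (Finset.card_le_card h2).trans (Finset.card_union_le S B)
  rw [abs_le]
  constructor <;> linarith

private lemma Lip_perm {α : Type} [Fintype α] (f : Equiv.Perm α) (P' : α → Prop)
    [DecidablePred P'] :
    (Finset.univ.filter P').card = (Finset.univ.filter fun a => P' (f a)).card := by
  symm
  apply Finset.card_bij (fun a _ => f a)
  · intro a ha
    simpa using ha
  · intro a _ b _ h
    exact f.injective h
  · intro b hb
    refine ⟨f.symm b, ?_, f.apply_symm_apply b⟩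
    simpa using hb

private lemma Lip_card {α : Type} [Fintype α] [DecidableEq α] (f : Equiv.Perm α) (Y : Finset α)
    (P P' : α → Prop) [DecidablePred P] [DecidablePred P'] (h : ∀ a, a ∉ Y → (P' (f a) ↔ P a)) :
    |((Finset.univ.filter P).card : ℝ) - (Finset.univ.filter P').card| ≤ Y.card := by
  rw [Lip_perm f P']
  apply Lip_abs
  · intro a ha
    rw [Finset.mem_union]
    by_cases hY : a ∈ Y
    · exact Or.inr hY
    · left
      rw [Finset.mem_filter] at ha ⊢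
      exact ⟨ha.1, (h a hY).2 ha.2⟩
  · intro a ha
    rw [Finset.mem_union]
    by_cases hY : a ∈ Y
    · exact Or.inr hY
    · left
      rw [Finset.mem_filter] at ha ⊢
      exact ⟨ha.1, (h a hY).1 ha.2⟩

open scoped Classical

private lemma Lip_cN_perm {n : ℕ} (f : Equiv.Perm (Fin n)) (w' : Fin n → Fin 3)
    (κ' : Fin n → Bool) (i : Fin 3) :
    cN w' κ' i = ((Finset.univ : Finset (Fin n × Fin n)).filter fun q =>
      f q.1 ∈ sA w' κ' i ∧ f q.2 ∈ sB w' κ' i ∧ f q.1 < f q.2).card := by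
  unfold cN
  symm
  apply Finset.card_bij (fun q _ => (f q.1, f q.2))
  · intro q hq
    rw [Finset.mem_filter] at hq
    rw [Finset.mem_filter, Finset.mem_product]
    exact ⟨⟨hq.2.1, hq.2.2.1⟩, hq.2.2.2⟩
  · intro q _ q' _ h
    rw [Prod.mk.injEq] at h
    exact Prod.ext (f.injective h.1) (f.injective h.2)
  · intro q hq
    rw [Finset.mem_filter, Finset.mem_product] at hq
    refine ⟨(f.symm q.1, f.symm q.2), ?_, by simp⟩
    rw [Finset.mem_filter]
    simp only [Finset.mem_univ, Equiv.apply_symm_apply, true_and]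
    exact ⟨hq.1.1, hq.1.2, hq.2⟩

private lemma Lip_cN_univ {n : ℕ} (w : Fin n → Fin 3)
    (κ : Fin n → Bool) (i : Fin 3) :
    cN w κ i = ((Finset.univ : Finset (Fin n × Fin n)).filter fun q =>
      q.1 ∈ sA w κ i ∧ q.2 ∈ sB w κ i ∧ q.1 < q.2).card :=
  Lip_cN_perm (Equiv.refl _) w κ i

private lemma Lip_bad {n m : ℕ} (Y : Finset (Fin n)) (μ : Fin n → Fin n) (hY : Y.card ≤ m) :
    (((Y ×ˢ (Finset.univ : Finset (Fin n))) ∪ ((Finset.univ : Finset (Fin n)) ×ˢ Y) ∪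
      (Finset.univ : Finset (Fin n)).image (fun x => (x, μ x))).card : ℝ) ≤ (2 * m + 1) * n := by
  have h1 := Finset.card_union_le ((Y ×ˢ (Finset.univ : Finset (Fin n))) ∪
    ((Finset.univ : Finset (Fin n)) ×ˢ Y))
    ((Finset.univ : Finset (Fin n)).image (fun x => (x, μ x)))
  have h2 := Finset.card_union_le (Y ×ˢ (Finset.univ : Finset (Fin n)))
    ((Finset.univ : Finset (Fin n)) ×ˢ Y)
  have h3 : ((Finset.univ : Finset (Fin n)).image (fun x => (x, μ x))).card ≤ n := by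
    have := Finset.card_image_le (s := (Finset.univ : Finset (Fin n))) (f := fun x => (x, μ x))
    simpa using this
  rw [Finset.card_product, Finset.card_product, Finset.card_univ, Fintype.card_fin] at h2
  have h4 : Y.card * n ≤ m * n := Nat.mul_le_mul_right n hY
  have h5 : n * Y.card ≤ m * n := by rw [mul_comm]; exact h4
  have h6 : ((Y ×ˢ (Finset.univ : Finset (Fin n))) ∪ ((Finset.univ : Finset (Fin n)) ×ˢ Y) ∪
      (Finset.univ : Finset (Fin n)).image (fun x => (x, μ x))).card ≤ (2 * m + 1) * n := by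
    have : (2 * m + 1) * n = m * n + m * n + n := by ring
    rw [this]
    omega
  exact_mod_cast h6

private lemma Lip_cN {n m : ℕ} (w w' : Fin n → Fin 3) (κ κ' : Fin n → Bool)
    (f : Equiv.Perm (Fin n)) (Y : Finset (Fin n)) (μ : Fin n → Fin n) (hY : Y.card ≤ m)
    (h1 : ∀ a, a ∉ Y → w' (f a) = w a ∧ κ' (f a) = κ a)
    (h2 : ∀ a b, a ∉ Y → b ∉ Y → a < b → f b < f a → μ a = b ∧ μ b = a) (i : Fin 3) :
    |(cN w κ i : ℝ) - cN w' κ' i| ≤ (2 * m + 1) * n := by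
  refine le_trans ?_ (Lip_bad Y μ hY)
  rw [Lip_cN_univ w κ i, Lip_cN_perm f w' κ' i]
  have hA : ∀ a, a ∉ Y → (f a ∈ sA w' κ' i ↔ a ∈ sA w κ i) := by
    intro a ha
    unfold sA
    simp only [Finset.mem_filter, Finset.mem_univ, true_and, (h1 a ha).1, (h1 a ha).2]
  have hB : ∀ a, a ∉ Y → (f a ∈ sB w' κ' i ↔ a ∈ sB w κ i) := by
    intro a ha
    unfold sB
    simp only [Finset.mem_filter, Finset.mem_univ, true_and, (h1 a ha).1, (h1 a ha).2]
  have hdisj : ∀ a, a ∈ sA w κ i → a ∉ sB w κ i := by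
    intro a ha hb
    unfold sA at ha
    unfold sB at hb
    rw [Finset.mem_filter] at ha hb
    rw [ha.2.2] at hb
    exact Bool.noConfusion hb.2.2
  apply Lip_abs
  · rintro ⟨x, y⟩ hq
    rw [Finset.mem_filter] at hq
    obtain ⟨-, hx, hy, hxy⟩ := hq
    simp only at hx hy hxy
    rw [Finset.mem_union, Finset.mem_union, Finset.mem_union]
    by_cases hxY : x ∈ Y
    · exact Or.inr (Or.inl (Or.inl (Finset.mem_product.2 ⟨hxY, Finset.mem_univ _⟩)))
    by_cases hyY : y ∈ Y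
    · exact Or.inr (Or.inl (Or.inr (Finset.mem_product.2 ⟨Finset.mem_univ _, hyY⟩)))
    by_cases hf : f x < f y
    · left
      rw [Finset.mem_filter]
      exact ⟨Finset.mem_univ _, (hA x hxY).2 hx, (hB y hyY).2 hy, hf⟩
    · right
      right
      have hne : f y ≠ f x := fun h => hxy.ne' (f.injective h)
      have := h2 x y hxY hyY hxy (lt_of_le_of_ne (not_lt.1 hf) hne)
      rw [Finset.mem_image]
      exact ⟨x, Finset.mem_univ _, by rw [this.1]⟩
  · rintro ⟨x, y⟩ hq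
    rw [Finset.mem_filter] at hq
    obtain ⟨-, hx, hy, hxy⟩ := hq
    simp only at hx hy hxy
    rw [Finset.mem_union, Finset.mem_union, Finset.mem_union]
    by_cases hxY : x ∈ Y
    · exact Or.inr (Or.inl (Or.inl (Finset.mem_product.2 ⟨hxY, Finset.mem_univ _⟩)))
    by_cases hyY : y ∈ Y
    · exact Or.inr (Or.inl (Or.inr (Finset.mem_product.2 ⟨Finset.mem_univ _, hyY⟩)))
    by_cases hlt : x < y
    · left
      rw [Finset.mem_filter]
      exact ⟨Finset.mem_univ _, (hA x hxY).1 hx, (hB y hyY).1 hy, hlt⟩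
    · right
      right
      have hne : y ≠ x := by
        rintro rfl
        exact lt_irrefl _ hxy
      have := h2 y x hyY hxY (lt_of_le_of_ne (not_lt.1 hlt) hne) hxy
      rw [Finset.mem_image]
      exact ⟨x, Finset.mem_univ _, by rw [this.2]⟩

private lemma Lip_cN_le {n : ℕ} (w : Fin n → Fin 3) (κ : Fin n → Bool) (i : Fin 3) :
    (cN w κ i : ℝ) ≤ ((sA w κ i).card : ℝ) * (sB w κ i).card := by
  have h : cN w κ i ≤ (sA w κ i).card * (sB w κ i).card := by
    unfold cN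
    rw [← Finset.card_product]
    exact Finset.card_filter_le _ _
  exact_mod_cast h

private lemma Lip_card_le {n : ℕ} (S : Finset (Fin n)) : (S.card : ℝ) ≤ n := by
  have := Finset.card_le_univ S
  rw [Fintype.card_fin] at this
  exact_mod_cast this

/-! ### Real numbers -/

private lemma Lip_quot (N N' D D' q c1 c2 : ℝ) (hq : 0 < q) (hD : q ≤ D) (hD' : q ≤ D')
    (h0 : 0 ≤ N') (hN' : N' ≤ D') (h1 : |N - N'| ≤ c1) (h2 : |D - D'| ≤ c2) :
    |N / D - N' / D'| ≤ (c1 + c2) / q := by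
  have hDp : 0 < D := hq.trans_le hD
  have hD'p : 0 < D' := hq.trans_le hD'
  have e : N / D - N' / D' = ((N - N') + (N' / D') * (D' - D)) / D := by
    field_simp
    ring
  have hr0 : 0 ≤ N' / D' := div_nonneg h0 hD'p.le
  have hr1 : N' / D' ≤ 1 := (div_le_one hD'p).2 hN'
  rw [e, abs_div, abs_of_pos hDp]
  have h3 : |(N - N') + (N' / D') * (D' - D)| ≤ c1 + c2 := by
    refine (abs_add_le _ _).trans (add_le_add h1 ?_)
    rw [abs_mul, abs_of_nonneg hr0, abs_sub_comm]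
    calc N' / D' * |D - D'| ≤ 1 * |D - D'| := mul_le_mul_of_nonneg_right hr1 (abs_nonneg _)
      _ = |D - D'| := one_mul _
      _ ≤ c2 := h2
  have h4 : 0 ≤ c1 + c2 := (abs_nonneg _).trans h3
  exact div_le_div₀ h4 h3 hq hD

private lemma Lip_fA (u v d u' v' d' : ℝ) (hu : 0 ≤ u ∧ u ≤ 1) (hv : 0 ≤ v ∧ v ≤ 1)
    (hd : -1 ≤ d ∧ d ≤ 1) (hu' : 0 ≤ u' ∧ u' ≤ 1) (hv' : 0 ≤ v' ∧ v' ≤ 1) :
    |fA u v d - fA u' v' d'| ≤ 8 * |u - u'| + 3 * |v - v'| + |d - d'| := by
  have e : fA u v d - fA u' v' d' =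
      (u ^ 2 + u * u' + u' ^ 2 + v + (u + u') * (v * (1 + d))) * (u - u') +
      (u' + u' ^ 2 * (1 + d)) * (v - v') + (u' ^ 2 * v') * (d - d') := by
    unfold fA
    ring
  obtain ⟨hu0, hu1⟩ := hu
  obtain ⟨hv0, hv1⟩ := hv
  obtain ⟨hd0, hd1⟩ := hd
  obtain ⟨ha0, ha1⟩ := hu'
  obtain ⟨hb0, hb1⟩ := hv'
  have k1 : u ^ 2 ≤ 1 := pow_le_one₀ hu0 hu1
  have k2 : u * u' ≤ 1 := mul_le_one₀ hu1 ha0 ha1
  have k3 : u' ^ 2 ≤ 1 := pow_le_one₀ ha0 ha1
  have k4 : v * (1 + d) ≤ 2 := by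
    calc v * (1 + d) ≤ 1 * 2 := mul_le_mul hv1 (by linarith) (by linarith) zero_le_one
      _ = 2 := one_mul _
  have k4' : 0 ≤ v * (1 + d) := mul_nonneg hv0 (by linarith)
  have k5 : (u + u') * (v * (1 + d)) ≤ 4 := by
    calc (u + u') * (v * (1 + d)) ≤ 2 * 2 := mul_le_mul (by linarith) k4 k4' (by norm_num)
      _ = 4 := by norm_num
  have k6 : u' ^ 2 * (1 + d) ≤ 2 := by
    calc u' ^ 2 * (1 + d) ≤ 1 * 2 := mul_le_mul k3 (by linarith) (by linarith) zero_le_one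
      _ = 2 := one_mul _
  have k7 : u' ^ 2 * v' ≤ 1 := mul_le_one₀ k3 hb0 hb1
  have n1 : 0 ≤ u ^ 2 + u * u' + u' ^ 2 + v + (u + u') * (v * (1 + d)) := by positivity
  have hd2 : 0 ≤ 1 + d := by linarith
  have n2 : 0 ≤ u' + u' ^ 2 * (1 + d) := by positivity
  have n3 : 0 ≤ u' ^ 2 * v' := by positivity
  rw [e]
  refine (abs_add_three _ _ _).trans ?_
  rw [abs_mul, abs_mul, abs_mul, abs_of_nonneg n1, abs_of_nonneg n2, abs_of_nonneg n3]
  refine add_le_add (add_le_add ?_ ?_) ?_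
  · exact mul_le_mul_of_nonneg_right (by linarith) (abs_nonneg _)
  · exact mul_le_mul_of_nonneg_right (by linarith) (abs_nonneg _)
  · calc u' ^ 2 * v' * |d - d'| ≤ 1 * |d - d'| := mul_le_mul_of_nonneg_right k7 (abs_nonneg _)
      _ = |d - d'| := one_mul _

private lemma Lip_fB (u v d u' v' d' : ℝ) (hu : 0 ≤ u ∧ u ≤ 1) (hv : 0 ≤ v ∧ v ≤ 1)
    (hd : -1 ≤ d ∧ d ≤ 1) (hu' : 0 ≤ u' ∧ u' ≤ 1) (hv' : 0 ≤ v' ∧ v' ≤ 1) :
    |fB u v d - fB u' v' d'| ≤ 8 * |v - v'| + 3 * |u - u'| + |d - d'| := by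
  have h := Lip_fA v u (-d) v' u' (-d') hv hu ⟨by linarith [hd.2], by linarith [hd.1]⟩ hv' hu'
  have e1 : fA v u (-d) = fB u v d := by unfold fA fB; ring
  have e2 : fA v' u' (-d') = fB u' v' d' := by unfold fA fB; ring
  have e3 : |(-d) - (-d')| = |d - d'| := by
    rw [← abs_neg]; congr 1; ring
  rw [e1, e2, e3] at h
  exact h

/-! ### The statement -/

private lemma Lip_st01 (k : ℕ) (hk : 1 ≤ k) (w : Fin (3 * k) → Fin 3) (κ : Fin (3 * k) → Bool)
    (i : Fin 3) : 0 ≤ st k w κ i ∧ st k w κ i ≤ 1 := by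
  have hk0 : (0 : ℝ) < k := by exact_mod_cast hk
  have hs : 0 < √(k : ℝ) := Real.sqrt_pos.2 hk0
  have hks : 0 < (k : ℝ) * √(k : ℝ) := mul_pos hk0 hs
  have hAB : 0 ≤ ((sA w κ i).card : ℝ) * (sB w κ i).card := by positivity
  have hc := Lip_cN_le w κ i
  have hc0 : (0 : ℝ) ≤ cN w κ i := Nat.cast_nonneg _
  unfold st
  constructor
  · exact div_nonneg (by positivity) (by linarith)
  · rw [div_le_one (by linarith)]
    linarith

private lemma Lip_st (m k : ℕ) (hk : 1 ≤ k) (w w' : Fin (3 * k) → Fin 3)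
    (κ κ' : Fin (3 * k) → Bool)
    (f : Equiv.Perm (Fin (3 * k))) (Y : Finset (Fin (3 * k))) (μ : Fin (3 * k) → Fin (3 * k))
    (hY : Y.card ≤ m)
    (h1 : ∀ a, a ∉ Y → w' (f a) = w a ∧ κ' (f a) = κ a)
    (h2 : ∀ a b, a ∉ Y → b ∉ Y → a < b → f b < f a → μ a = b ∧ μ b = a) (i : Fin 3)
    (hA : |((sA w κ i).card : ℝ) - (sA w' κ' i).card| ≤ m)
    (hB : |((sB w κ i).card : ℝ) - (sB w' κ' i).card| ≤ m) :
    |st k w κ i - st k w' κ' i| ≤ (12 * m + 3) / √(k : ℝ) := by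
  have hk0 : (0 : ℝ) < k := by exact_mod_cast hk
  have hs : 0 < √(k : ℝ) := Real.sqrt_pos.2 hk0
  have hks : 0 < (k : ℝ) * √(k : ℝ) := mul_pos hk0 hs
  have hc := Lip_cN w w' κ κ' f Y μ hY h1 h2 i
  have hn : (((3 * k : ℕ)) : ℝ) = 3 * k := by push_cast; ring
  rw [hn] at hc
  have hcle := Lip_cN_le w' κ' i
  have hAB : 0 ≤ ((sA w κ i).card : ℝ) * (sB w κ i).card := by positivity
  have hAB' : 0 ≤ ((sA w' κ' i).card : ℝ) * (sB w' κ' i).card := by positivity
  have hc0 : (0 : ℝ) ≤ cN w' κ' i := Nat.cast_nonneg _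
  have hb := Lip_card_le (sB w κ i)
  have ha' := Lip_card_le (sA w' κ' i)
  rw [hn] at hb ha'
  have hm0 : (0 : ℝ) ≤ m := Nat.cast_nonneg _
  have hD : |(((sA w κ i).card : ℝ) * (sB w κ i).card + k * √(k : ℝ)) -
      (((sA w' κ' i).card : ℝ) * (sB w' κ' i).card + k * √(k : ℝ))| ≤ 6 * m * k := by
    have e : (((sA w κ i).card : ℝ) * (sB w κ i).card + k * √(k : ℝ)) -
      (((sA w' κ' i).card : ℝ) * (sB w' κ' i).card + k * √(k : ℝ)) =
      (((sA w κ i).card : ℝ) - (sA w' κ' i).card) * (sB w κ i).card +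
      ((sA w' κ' i).card : ℝ) * (((sB w κ i).card : ℝ) - (sB w' κ' i).card) := by ring
    rw [e]
    refine (abs_add_le _ _).trans ?_
    rw [abs_mul, abs_mul, Nat.abs_cast, Nat.abs_cast]
    have t1 : |((sA w κ i).card : ℝ) - (sA w' κ' i).card| * (sB w κ i).card ≤ m * (3 * k) :=
      mul_le_mul hA hb (Nat.cast_nonneg _) hm0
    have t2 : ((sA w' κ' i).card : ℝ) * |((sB w κ i).card : ℝ) - (sB w' κ' i).card| ≤
        (3 * k) * m :=
      mul_le_mul ha' hB (abs_nonneg _) (by positivity)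
    linarith
  have hN : |((cN w κ i : ℝ) + k * √(k : ℝ) / 2) - ((cN w' κ' i : ℝ) + k * √(k : ℝ) / 2)| ≤
      (2 * m + 1) * (3 * k) := by
    have e : ((cN w κ i : ℝ) + k * √(k : ℝ) / 2) - ((cN w' κ' i : ℝ) + k * √(k : ℝ) / 2) =
        (cN w κ i : ℝ) - cN w' κ' i := by ring
    rw [e]
    exact hc
  have hq := Lip_quot ((cN w κ i : ℝ) + k * √(k : ℝ) / 2) ((cN w' κ' i : ℝ) + k * √(k : ℝ) / 2)
    (((sA w κ i).card : ℝ) * (sB w κ i).card + k * √(k : ℝ))
    (((sA w' κ' i).card : ℝ) * (sB w' κ' i).card + k * √(k : ℝ)) (k * √(k : ℝ))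
    ((2 * m + 1) * (3 * k)) (6 * m * k) hks (by linarith) (by linarith) (by positivity)
    (by linarith) hN hD
  unfold st
  refine hq.trans (le_of_eq ?_)
  field_simp
  ring

theorem thm_Lip : Stmt_Lip := by
  intro m
  refine ⟨36 * m + 6, by positivity, ?_⟩
  intro k w w' κ κ' hk hC i
  obtain ⟨f, Y, μ, hY, h1, h2⟩ := hC
  have hk0 : (0 : ℝ) < k := by exact_mod_cast hk
  have hk1 : (1 : ℝ) ≤ k := by exact_mod_cast hk
  have hs : 0 < √(k : ℝ) := Real.sqrt_pos.2 hk0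
  have hsk : √(k : ℝ) ≤ k := by
    rw [Real.sqrt_le_left hk0.le]
    nlinarith
  have hm0 : (0 : ℝ) ≤ m := Nat.cast_nonneg _
  have hYm : (Y.card : ℝ) ≤ m := by exact_mod_cast hY
  have hn : (((3 * k : ℕ)) : ℝ) = 3 * k := by push_cast; ring
  -- the cardinalities
  have cA : ∀ j, |((sA w κ j).card : ℝ) - (sA w' κ' j).card| ≤ m := by
    intro j
    refine le_trans ?_ hYm
    unfold sA
    apply Lip_card f Y
    intro a ha
    rw [(h1 a ha).1, (h1 a ha).2]
  have cB : ∀ j, |((sB w κ j).card : ℝ) - (sB w' κ' j).card| ≤ m := by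
    intro j
    refine le_trans ?_ hYm
    unfold sB
    apply Lip_card f Y
    intro a ha
    rw [(h1 a ha).1, (h1 a ha).2]
  have hst : ∀ j, |st k w κ j - st k w' κ' j| ≤ (12 * m + 3) / √(k : ℝ) := fun j =>
    Lip_st m k hk w w' κ κ' f Y μ hY h1 h2 j (cA j) (cB j)
  have hmk : (m : ℝ) / k ≤ m / √(k : ℝ) := div_le_div_of_nonneg_left hm0 hs hsk
  have hm3k : (m : ℝ) / (3 * k) ≤ m / √(k : ℝ) :=
    div_le_div_of_nonneg_left hm0 hs (by linarith)
  have huu : |uu κ - uu κ'| ≤ m / √(k : ℝ) := by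
    unfold uu
    rw [hn, ← sub_div, abs_div, abs_of_pos (by positivity : (0 : ℝ) < 3 * k)]
    refine le_trans ?_ hm3k
    apply div_le_div_of_nonneg_right _ (by positivity)
    refine le_trans ?_ hYm
    apply Lip_card f Y
    intro a ha
    rw [(h1 a ha).2]
  have hvv : |vv κ - vv κ'| ≤ m / √(k : ℝ) := by
    unfold vv
    rw [hn, ← sub_div, abs_div, abs_of_pos (by positivity : (0 : ℝ) < 3 * k)]
    refine le_trans ?_ hm3k
    apply div_le_div_of_nonneg_right _ (by positivity)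
    refine le_trans ?_ hYm
    apply Lip_card f Y
    intro a ha
    rw [(h1 a ha).2]
  have h01 : ∀ S : Finset (Fin (3 * k)), 0 ≤ (S.card : ℝ) / ((3 * k : ℕ) : ℝ) ∧
      (S.card : ℝ) / ((3 * k : ℕ) : ℝ) ≤ 1 := by
    intro S
    have hpos : (0 : ℝ) < ((3 * k : ℕ) : ℝ) := by rw [hn]; positivity
    exact ⟨by positivity, (div_le_one hpos).2 (Lip_card_le S)⟩
  have hu01 : ∀ q : Fin (3 * k) → Bool, 0 ≤ uu q ∧ uu q ≤ 1 := fun q => h01 _
  have hv01 : ∀ q : Fin (3 * k) → Bool, 0 ≤ vv q ∧ vv q ≤ 1 := fun q => h01 _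
  have hst01 := Lip_st01 k hk w κ
  have hd : -1 ≤ st k w κ (i + 1) - st k w κ (i + 2) ∧
      st k w κ (i + 1) - st k w κ (i + 2) ≤ 1 := by
    constructor
    · linarith [(hst01 (i + 1)).1, (hst01 (i + 2)).2]
    · linarith [(hst01 (i + 1)).2, (hst01 (i + 2)).1]
  have hdd : |(st k w κ (i + 1) - st k w κ (i + 2)) - (st k w' κ' (i + 1) - st k w' κ' (i + 2))| ≤
      2 * ((12 * m + 3) / √(k : ℝ)) := by
    have e : (st k w κ (i + 1) - st k w κ (i + 2)) - (st k w' κ' (i + 1) - st k w' κ' (i + 2)) =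
        (st k w κ (i + 1) - st k w' κ' (i + 1)) - (st k w κ (i + 2) - st k w' κ' (i + 2)) := by
      ring
    rw [e]
    refine (abs_sub _ _).trans ?_
    linarith [hst (i + 1), hst (i + 2)]
  have fin : (m : ℝ) / √(k : ℝ) + (8 * (m / √(k : ℝ)) + 3 * (m / √(k : ℝ)) +
      2 * ((12 * m + 3) / √(k : ℝ))) = (36 * m + 6) / √(k : ℝ) := by
    field_simp
    ring
  constructor
  · unfold eA
    have e : ((sA w κ i).card : ℝ) / k - fA (uu κ) (vv κ) (st k w κ (i + 1) - st k w κ (i + 2)) -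
        (((sA w' κ' i).card : ℝ) / k - fA (uu κ') (vv κ')
          (st k w' κ' (i + 1) - st k w' κ' (i + 2))) =
        (((sA w κ i).card : ℝ) - (sA w' κ' i).card) / k -
        (fA (uu κ) (vv κ) (st k w κ (i + 1) - st k w κ (i + 2)) - fA (uu κ') (vv κ')
          (st k w' κ' (i + 1) - st k w' κ' (i + 2))) := by ring
    rw [e]
    refine (abs_sub _ _).trans ?_
    rw [← fin]
    refine add_le_add ?_ ?_
    · rw [abs_div, abs_of_pos hk0]
      exact (div_le_div_of_nonneg_right (cA i) hk0.le).trans hmk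
    · refine (Lip_fA _ _ _ _ _ _ (hu01 κ) (hv01 κ) hd (hu01 κ') (hv01 κ')).trans ?_
      linarith
  · unfold eB
    have e : ((sB w κ i).card : ℝ) / k - fB (uu κ) (vv κ) (st k w κ (i + 1) - st k w κ (i + 2)) -
        (((sB w' κ' i).card : ℝ) / k - fB (uu κ') (vv κ')
          (st k w' κ' (i + 1) - st k w' κ' (i + 2))) =
        (((sB w κ i).card : ℝ) - (sB w' κ' i).card) / k -
        (fB (uu κ) (vv κ) (st k w κ (i + 1) - st k w κ (i + 2)) - fB (uu κ') (vv κ')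
          (st k w' κ' (i + 1) - st k w' κ' (i + 2))) := by ring
    rw [e]
    refine (abs_sub _ _).trans ?_
    rw [← fin]
    refine add_le_add ?_ ?_
    · rw [abs_div, abs_of_pos hk0]
      exact (div_le_div_of_nonneg_right (cB i) hk0.le).trans hmk
    · refine (Lip_fB _ _ _ _ _ _ (hu01 κ) (hv01 κ) hd (hu01 κ') (hv01 κ')).trans ?_
      linarith

end Pool.Agent.SKP
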