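import Pool.Agent.SKP.StA
import Pool.Agent.Tvw.MainW

/-!
# Sierksma's bound in the plane (MP_001fdd_co): the theorem (Main)
-/

set_option autoImplicit false

namespace Pool.Agent.SKP

open scoped Classical
open Pool.Agent.Tvb (Pos Zero Base Good hat TP)
open Pool.Agent.Tvo (PP so ind)
open Pool.Agent.Tvv (J Lb ev UU dd)

private lemma gp_comp {ι κ : Type} (Q : κ → E2) (e : ι → κ) (he : Function.Injective e)
    (h : GP Q) : GP fun i => Q (e i) :=
  ⟨fun _ _ hab => h.1 _ _ fun hh => hab (he hh),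
    fun _ _ _ hab hbc hac => h.2 _ _ _ (fun hh => hab (he hh)) (fun hh => hbc (he hh))
      fun hh => hac (he hh)⟩

private lemma two_le_exp (m : ℕ) (hm : 2 ≤ m) :
    Real.log 2 ≤ (m : ℝ) ^ (11 / 12 : ℝ) * Real.log m := by
  have hm' : (2 : ℝ) ≤ m := by exact_mod_cast hm
  have h1 : 1 ≤ (m : ℝ) ^ (11 / 12 : ℝ) := Real.one_le_rpow (by linarith) (by norm_num)
  have h2 : Real.log 2 ≤ Real.log m := Real.log_le_log (by norm_num) hm'
  have h3 : 0 < Real.log 2 := Real.log_pos (by norm_num)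
  nlinarith

private lemma tp_pos (k : ℕ) (hk : 1 ≤ k) (S : Finset E2) (hS : S.card = 3 * k + 1) :
    1 ≤ ((TP (k + 1) S).ncard : ℝ) := by
  have h := Pool.Agent.Tvw.mainW k 2 hk S (by omega)
  rcases Nat.eq_zero_or_pos (TP (k + 1) S).ncard with h0 | h0
  · exfalso
    rw [h0] at h
    have h1 : (0 : ℝ) < (k.factorial : ℝ) ^ 2 := by
      have := Nat.factorial_pos k
      positivity
    simp only [Nat.cast_zero, mul_zero] at h
    linarith
  · exact_mod_cast h0

theorem thm_Main : Stmt_Comb → Stmt_FinA → Stmt_Lbl → Stmt_Main := by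
  intro hComb hFin hLbl
  obtain ⟨C, hC, k₀, hComb⟩ := hComb
  set K : ℕ := max k₀ 2 with hK
  have hl2 : 0 < Real.log 2 := Real.log_pos (by norm_num)
  have hKf : (1 : ℝ) ≤ (K.factorial : ℝ) := by exact_mod_cast Nat.factorial_pos K
  set D : ℝ := Real.log ((K.factorial : ℝ) ^ 2) / Real.log 2 with hD
  have hD0 : 0 ≤ D := div_nonneg (Real.log_nonneg (one_le_pow₀ hKf)) hl2.le
  refine ⟨C + 1 + D, by linarith, fun m hm S hS => ?_⟩
  obtain ⟨k, rfl⟩ : ∃ k, m = k + 1 := ⟨m - 1, by omega⟩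
  have hk1 : 1 ≤ k := by omega
  have e1 : k + 1 - 1 = k := rfl
  rw [e1] at hS ⊢
  have hT := tp_pos k hk1 S hS
  have h2 := two_le_exp (k + 1) hm
  set X : ℝ := ((k + 1 : ℕ) : ℝ) ^ (11 / 12 : ℝ) with hX
  set L : ℝ := Real.log ((k + 1 : ℕ) : ℝ) with hL
  have hX0 : 0 ≤ X := by positivity
  have hL0 : 0 ≤ L := Real.log_nonneg (by exact_mod_cast (by omega : 1 ≤ k + 1))
  have hXL : 0 ≤ X * L := mul_nonneg hX0 hL0
  rcases lt_or_ge k K with hlt | hge
  · have h3 : (k.factorial : ℝ) ^ 2 ≤ (K.factorial : ℝ) ^ 2 := by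
      apply pow_le_pow_left₀ (by positivity)
      exact_mod_cast Nat.factorial_le hlt.le
    have h4 : (K.factorial : ℝ) ^ 2 ≤ Real.exp ((C + 1 + D) * X * L) := by
      have h5 : (K.factorial : ℝ) ^ 2 = Real.exp (D * Real.log 2) := by
        rw [hD, div_mul_cancel₀ _ hl2.ne', Real.exp_log (by positivity)]
      rw [h5]
      apply Real.exp_le_exp.2
      nlinarith
    calc (k.factorial : ℝ) ^ 2 ≤ Real.exp ((C + 1 + D) * X * L) * 1 := by linarith
      _ ≤ _ := mul_le_mul_of_nonneg_left hT (Real.exp_pos _).le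
  · have hkk : k₀ ≤ k := le_trans (le_max_left _ _) hge
    have hk2 : 2 ≤ k := le_trans (le_max_right _ _) hge
    set E : ℝ := Real.exp (C * (k : ℝ) ^ (11 / 12 : ℝ) * Real.log k) with hE
    have hE0 : 0 < E := Real.exp_pos _
    have key : ∀ Q : J k 3 → E2, GJ (ht Q) → GP Q →
        ∃ c : E2, ⌈(k.factorial : ℝ) * (k.factorial : ℝ) ^ 2 / E⌉₊ ≤ Lbl (ht Q) (hat c) := by
      intro Q _ hQ
      have hcard : Fintype.card (Fin (3 * k)) = Fintype.card (J k 3) := by
        simp [J, mul_comm]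
      let e : Fin (3 * k) ≃ J k 3 := Fintype.equivOfCardEq hcard
      obtain ⟨c, hc, hP⟩ := hComb k (fun i => Q (e i)) hkk (gp_comp Q e e.injective hQ)
      refine ⟨c, Nat.ceil_le.2 ?_⟩
      have h5 := hLbl k Q e c hc
      have h6 : ((k.factorial * (Pk (Gt (sg (fun i => Q (e i)) c)) k).card : ℕ) : ℝ) ≤
          (Lbl (ht Q) (hat c) : ℝ) := by exact_mod_cast h5
      refine le_trans ?_ h6
      rw [div_le_iff₀ hE0]
      push_cast
      have h7 : (0 : ℝ) ≤ k.factorial := by positivity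
      nlinarith [mul_le_mul_of_nonneg_left hP h7]
    have h8 := hFin k _ key S hS
    have h9 : (k.factorial : ℝ) * (k.factorial : ℝ) ^ 2 / E ≤
        2 * ((k.factorial : ℝ) * ((TP (k + 1) S).ncard : ℝ)) := by
      refine le_trans (Nat.le_ceil _) ?_
      exact_mod_cast h8
    have h10 : (k.factorial : ℝ) ^ 2 ≤ 2 * E * ((TP (k + 1) S).ncard : ℝ) := by
      rw [div_le_iff₀ hE0] at h9
      have h11 : (0 : ℝ) < k.factorial := by exact_mod_cast Nat.factorial_pos k
      have h12 : (k.factorial : ℝ) * ((k.factorial : ℝ) ^ 2) ≤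
          (k.factorial : ℝ) * (2 * E * ((TP (k + 1) S).ncard : ℝ)) := by
        nlinarith
      exact le_of_mul_le_mul_left h12 h11
    refine le_trans h10 ?_
    apply mul_le_mul_of_nonneg_right _ (by linarith)
    have h13 : (2 : ℝ) = Real.exp (Real.log 2) := (Real.exp_log (by norm_num)).symm
    have h14 : 2 * E = Real.exp (Real.log 2 + C * (k : ℝ) ^ (11 / 12 : ℝ) * Real.log k) := by
      rw [Real.exp_add, ← h13]
    rw [h14]
    apply Real.exp_le_exp.2
    have hkR : (2 : ℝ) ≤ k := by exact_mod_cast hk2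
    have hkk1 : (k : ℝ) ≤ ((k + 1 : ℕ) : ℝ) := by push_cast; linarith
    have h15 : (k : ℝ) ^ (11 / 12 : ℝ) ≤ X :=
      Real.rpow_le_rpow (by positivity) hkk1 (by norm_num)
    have h16 : Real.log k ≤ L := Real.log_le_log (by linarith) hkk1
    have h17 : (k : ℝ) ^ (11 / 12 : ℝ) * Real.log k ≤ X * L :=
      mul_le_mul h15 h16 (Real.log_nonneg (by linarith)) hX0
    nlinarith [mul_le_mul_of_nonneg_left h17 hC.le, mul_nonneg hD0 hXL]

end Pool.Agent.SKP
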