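import Pool.Agent.SKP.StS

/-!
# SKP Mom: second moment of the number of increasing pairs (MP_001fdd_co)
-/

set_option autoImplicit false

namespace Pool.Agent.SKP

open scoped Classical

private theorem Mom_gen {F Q : Type} [Fintype F] [DecidableEq Q] (D : Finset Q) (e : F → Q)
    (he : ∀ f, e f ∈ D) (hc : ∀ q ∈ D, ∀ q' ∈ D,
      (Finset.univ.filter fun f => e f = q).card = (Finset.univ.filter fun f => e f = q').card)
    (ψ : Q → ℝ) : (D.card : ℝ) * ∑ f, ψ (e f) = (Fintype.card F : ℝ) * ∑ q ∈ D, ψ q := by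
  have h1 : ∑ f, ψ (e f) = ∑ q ∈ D, ((Finset.univ.filter fun f => e f = q).card : ℝ) * ψ q := by
    rw [← Finset.sum_fiberwise_of_maps_to (s := Finset.univ) (t := D) (g := e)
      (fun f _ => he f) (fun f => ψ (e f))]
    refine Finset.sum_congr rfl fun q _ => ?_
    rw [Finset.sum_congr rfl (fun f hf => by rw [(Finset.mem_filter.1 hf).2] :
      ∀ f ∈ Finset.univ.filter (fun f => e f = q), ψ (e f) = ψ q), Finset.sum_const, nsmul_eq_mul]
  have h2 : (Fintype.card F : ℝ) = ∑ q ∈ D, ((Finset.univ.filter fun f => e f = q).card : ℝ) := by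
    rw [← Finset.card_univ, Finset.card_eq_sum_card_fiberwise (f := e) (t := D)
      (fun f _ => he f)]
    push_cast
    rfl
  rw [h1, h2, Finset.mul_sum, Finset.mul_sum]
  refine Finset.sum_congr rfl fun q hq => ?_
  have h3 : ∑ q' ∈ D, ((Finset.univ.filter fun f => e f = q').card : ℝ) =
      D.card * ((Finset.univ.filter fun f => e f = q).card : ℝ) := by
    rw [Finset.sum_congr rfl (fun q' hq' => by rw [hc q' hq' q hq] : ∀ q' ∈ D,
      ((Finset.univ.filter fun f => e f = q').card : ℝ) =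
        ((Finset.univ.filter fun f => e f = q).card : ℝ)), Finset.sum_const, nsmul_eq_mul]
  rw [h3]
  ring

private theorem Mom_perm {α : Type} {x x' y y' : α} (h : x ≠ x') (h' : y ≠ y') :
    ∃ π : Equiv.Perm α, π x = y ∧ π x' = y' := by
  refine ⟨(Equiv.swap x y).trans (Equiv.swap (Equiv.swap x y x') y'), ?_, ?_⟩
  · rw [Equiv.trans_apply, Equiv.swap_apply_left]
    apply Equiv.swap_apply_of_ne_of_ne
    · intro h2
      have h3 : Equiv.swap x y x' = Equiv.swap x y x := by
        rw [Equiv.swap_apply_left, ← h2]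
      exact h ((Equiv.swap x y).injective h3).symm
    · exact h'
  · rw [Equiv.trans_apply, Equiv.swap_apply_left]

/-- transport of a fibre by a permutation of both targets -/
private theorem Mom_fib {P : ℕ} {α β Q : Type} [Fintype α] [Fintype β] [DecidableEq Q]
    (e : (Fin P ↪ α) × (Fin P ↪ β) → Q) (q q' : Q) (π : Equiv.Perm α) (ρ : Equiv.Perm β)
    (h : ∀ f g, e (f, g) = q → e (f.trans π.toEmbedding, g.trans ρ.toEmbedding) = q') :
    (Finset.univ.filter fun f => e f = q).card ≤ (Finset.univ.filter fun f => e f = q').card := by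
  refine Finset.card_le_card_of_injOn
    (fun p => (p.1.trans π.toEmbedding, p.2.trans ρ.toEmbedding)) ?_ ?_
  · intro p hp
    rw [Finset.mem_coe, Finset.mem_filter] at hp ⊢
    exact ⟨Finset.mem_univ _, h p.1 p.2 hp.2⟩
  · intro p _ p' _ hpp
    rw [Prod.mk.injEq] at hpp
    refine Prod.ext ?_ ?_
    · ext t
      have h1 := DFunLike.congr_fun hpp.1 t
      exact π.injective h1
    · ext t
      have h1 := DFunLike.congr_fun hpp.2 t
      exact ρ.injective h1

theorem thm_Mom : Stmt_Mom := by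
  intro n P A B hP hPA hPB hA2 hB2
  set a : ℝ := (A.card : ℝ) with ha
  set b : ℝ := (B.card : ℝ) with hb
  set N : ℝ := (((A ×ˢ B).filter fun q => q.1 < q.2).card : ℝ) with hN
  set p : ℝ := N / (a * b) with hp
  set T : ℝ := (A.card.descFactorial P : ℝ) * B.card.descFactorial P with hT
  have ha2 : 2 ≤ a := by rw [ha]; exact_mod_cast hA2
  have hb2 : 2 ≤ b := by rw [hb]; exact_mod_cast hB2
  have hPa : (P : ℝ) ≤ a := by rw [ha]; exact_mod_cast hPA
  have hPb : (P : ℝ) ≤ b := by rw [hb]; exact_mod_cast hPB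
  have hP1 : (1 : ℝ) ≤ P := by exact_mod_cast hP
  let I : A → B → ℝ := fun x y => if (x : Fin n) < (y : Fin n) then 1 else 0
  have hI0 : ∀ x y, 0 ≤ I x y := by
    intro x y
    show (0 : ℝ) ≤ if (x : Fin n) < (y : Fin n) then 1 else 0
    split_ifs <;> norm_num
  have hII : ∀ x y, I x y * I x y = I x y := by
    intro x y
    show (if (x : Fin n) < (y : Fin n) then (1 : ℝ) else 0) * (if (x : Fin n) < (y : Fin n)
      then 1 else 0) = if (x : Fin n) < (y : Fin n) then 1 else 0
    split_ifs <;> norm_num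
  have hX : ∀ (f : Fin P ↪ A) (g : Fin P ↪ B),
      ((Finset.univ.filter fun t => (f t : Fin n) < (g t : Fin n)).card : ℝ) =
        ∑ t, I (f t) (g t) := by
    intro f g
    rw [← Finset.sum_boole]
  have hNI : N = ∑ x : A, ∑ y : B, I x y := by
    rw [hN, ← Finset.sum_boole, Finset.sum_product]
    rw [← Finset.sum_coe_sort A]
    refine Finset.sum_congr rfl fun x _ => ?_
    rw [← Finset.sum_coe_sort B]
  have hcT : (Fintype.card ((Fin P ↪ A) × (Fin P ↪ B)) : ℝ) = T := by
    rw [Fintype.card_prod, Fintype.card_embedding_eq, Fintype.card_embedding_eq,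
      Fintype.card_coe, Fintype.card_coe, Fintype.card_fin]
    push_cast
    rfl
  have hT0 : 0 ≤ T := by positivity
  have hN0 : 0 ≤ N := by positivity
  have hab : 0 < a * b := by positivity
  have hp0 : 0 ≤ p := by positivity
  have hp1 : p ≤ 1 := by
    rw [hp, div_le_one hab]
    have h1 : ((A ×ˢ B).filter fun q => q.1 < q.2).card ≤ (A ×ˢ B).card :=
      Finset.card_filter_le _ _
    rw [Finset.card_product] at h1
    rw [hN, ha, hb]
    exact_mod_cast h1
  -- first moment
  have hS1 : ∀ t, ∑ f : Fin P ↪ A, ∑ g : Fin P ↪ B, I (f t) (g t) = T * p := by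
    intro t
    have h1 := Mom_gen (F := (Fin P ↪ A) × (Fin P ↪ B)) (Q := A × B) Finset.univ
      (fun q => (q.1 t, q.2 t)) (fun _ => Finset.mem_univ _) (by
        have key : ∀ q q' : A × B, (Finset.univ.filter fun f : (Fin P ↪ A) × (Fin P ↪ B) =>
            ((f.1 t, f.2 t) : A × B) = q).card ≤ (Finset.univ.filter
              fun f : (Fin P ↪ A) × (Fin P ↪ B) => ((f.1 t, f.2 t) : A × B) = q').card := by
          intro q q'
          refine Mom_fib (fun f => (f.1 t, f.2 t)) q q' (Equiv.swap q.1 q'.1)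
            (Equiv.swap q.2 q'.2) ?_
          intro f g h
          have h2 : f t = q.1 := congrArg Prod.fst h
          have h3 : g t = q.2 := congrArg Prod.snd h
          show ((Equiv.swap q.1 q'.1) (f t), (Equiv.swap q.2 q'.2) (g t)) = q'
          rw [h2, h3, Equiv.swap_apply_left, Equiv.swap_apply_left]
        intro q _ q' _
        exact le_antisymm (key q q') (key q' q)) (fun q => I q.1 q.2)
    rw [hcT, Finset.card_univ, Fintype.card_prod, Fintype.card_coe, Fintype.card_coe,
      Fintype.sum_prod_type, Fintype.sum_prod_type, ← hNI] at h1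
    push_cast at h1
    rw [hp, mul_div_assoc', eq_div_iff hab.ne']
    rw [← h1, ha, hb]
    ring
  -- second moment
  have hD : 0 < (a - 1) * (b - 1) := by
    apply mul_pos <;> linarith
  have hS2 : ∀ t t', t ≠ t' → ∑ f : Fin P ↪ A, ∑ g : Fin P ↪ B,
      I (f t) (g t) * I (f t') (g t') ≤ T * p ^ 2 * ((a * b) / ((a - 1) * (b - 1))) := by
    intro t t' htt
    have h1 := Mom_gen (F := (Fin P ↪ A) × (Fin P ↪ B)) (Q := (A × A) × (B × B))
      ((Finset.univ : Finset A).offDiag ×ˢ (Finset.univ : Finset B).offDiag)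
      (fun q => ((q.1 t, q.1 t'), (q.2 t, q.2 t'))) (by
        intro f
        rw [Finset.mem_product, Finset.mem_offDiag, Finset.mem_offDiag]
        exact ⟨⟨Finset.mem_univ _, Finset.mem_univ _, fun h => htt (f.1.injective h)⟩,
          ⟨Finset.mem_univ _, Finset.mem_univ _, fun h => htt (f.2.injective h)⟩⟩) (by
        have key : ∀ q ∈ (Finset.univ : Finset A).offDiag ×ˢ (Finset.univ : Finset B).offDiag,
            ∀ q' ∈ (Finset.univ : Finset A).offDiag ×ˢ (Finset.univ : Finset B).offDiag,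
            (Finset.univ.filter fun f : (Fin P ↪ A) × (Fin P ↪ B) =>
            (((f.1 t, f.1 t'), (f.2 t, f.2 t')) : (A × A) × (B × B)) = q).card ≤
              (Finset.univ.filter fun f : (Fin P ↪ A) × (Fin P ↪ B) =>
              (((f.1 t, f.1 t'), (f.2 t, f.2 t')) : (A × A) × (B × B)) = q').card := by
          intro q hq q' hq'
          rw [Finset.mem_product, Finset.mem_offDiag, Finset.mem_offDiag] at hq hq'
          obtain ⟨π, hπ1, hπ2⟩ := Mom_perm hq.1.2.2 hq'.1.2.2
          obtain ⟨ρ, hρ1, hρ2⟩ := Mom_perm hq.2.2.2 hq'.2.2.2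
          refine Mom_fib (fun f => ((f.1 t, f.1 t'), (f.2 t, f.2 t'))) q q' π ρ ?_
          intro f g h
          have h2 : f t = q.1.1 := congrArg (fun z => z.1.1) h
          have h3 : f t' = q.1.2 := congrArg (fun z => z.1.2) h
          have h4 : g t = q.2.1 := congrArg (fun z => z.2.1) h
          have h5 : g t' = q.2.2 := congrArg (fun z => z.2.2) h
          show ((π (f t), π (f t')), (ρ (g t), ρ (g t'))) = q'
          rw [h2, h3, h4, h5, hπ1, hπ2, hρ1, hρ2]
        intro q hq q' hq'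
        exact le_antisymm (key q hq q' hq') (key q' hq' q hq))
      (fun q => I q.1.1 q.2.1 * I q.1.2 q.2.2)
    rw [hcT, Fintype.sum_prod_type] at h1
    have h2 : ∑ q ∈ (Finset.univ : Finset A).offDiag ×ˢ (Finset.univ : Finset B).offDiag,
        I q.1.1 q.2.1 * I q.1.2 q.2.2 ≤ N ^ 2 := by
      calc ∑ q ∈ (Finset.univ : Finset A).offDiag ×ˢ (Finset.univ : Finset B).offDiag,
            I q.1.1 q.2.1 * I q.1.2 q.2.2
          ≤ ∑ q : (A × A) × (B × B), I q.1.1 q.2.1 * I q.1.2 q.2.2 := by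
            refine Finset.sum_le_sum_of_subset_of_nonneg (Finset.subset_univ _) ?_
            intro q _ _
            exact mul_nonneg (hI0 _ _) (hI0 _ _)
        _ = N ^ 2 := by
            rw [Fintype.sum_prod_type, Fintype.sum_prod_type, hNI, sq, Finset.sum_mul_sum]
            refine Finset.sum_congr rfl fun x _ => ?_
            refine Finset.sum_congr rfl fun x' _ => ?_
            rw [Fintype.sum_prod_type, Finset.sum_mul_sum]
    have h3 : (((Finset.univ : Finset A).offDiag ×ˢ (Finset.univ : Finset B).offDiag).card : ℝ) =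
        (a * b) * ((a - 1) * (b - 1)) := by
      rw [Finset.card_product, Finset.offDiag_card, Finset.offDiag_card, Finset.card_univ,
        Finset.card_univ, Fintype.card_coe, Fintype.card_coe]
      rw [Nat.cast_mul, Nat.cast_sub (Nat.le_mul_self _), Nat.cast_sub (Nat.le_mul_self _),
        Nat.cast_mul, Nat.cast_mul, ← ha, ← hb]
      ring
    rw [h3] at h1
    have h4 : (a * b) * ((a - 1) * (b - 1)) * ∑ f : Fin P ↪ A, ∑ g : Fin P ↪ B,
        I (f t) (g t) * I (f t') (g t') ≤ T * N ^ 2 := by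
      rw [h1]
      exact mul_le_mul_of_nonneg_left h2 hT0
    have h5 : N = p * (a * b) := by
      rw [hp, div_mul_cancel₀ _ hab.ne']
    rw [h5] at h4
    have h6 : (a - 1) * (b - 1) * ∑ f : Fin P ↪ A, ∑ g : Fin P ↪ B,
        I (f t) (g t) * I (f t') (g t') ≤ T * p ^ 2 * (a * b) := by
      have h7 : (a * b) * ((a - 1) * (b - 1) * ∑ f : Fin P ↪ A, ∑ g : Fin P ↪ B,
        I (f t) (g t) * I (f t') (g t')) ≤ (a * b) * (T * p ^ 2 * (a * b)) := by
        nlinarith [h4]
      exact le_of_mul_le_mul_left h7 hab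
    rw [← mul_div_assoc, le_div_iff₀ hD]
    linarith
  set K : ℝ := T * p ^ 2 * ((a * b) / ((a - 1) * (b - 1))) with hK
  have hKb : ((P : ℝ) - 1) * K ≤ T * p ^ 2 * (P + 2) := by
    have h1 : ((P : ℝ) - 1) * ((a * b) / ((a - 1) * (b - 1))) ≤ P + 2 := by
      rw [← mul_div_assoc, div_le_iff₀ hD]
      have h2 : ((P : ℝ) - 1) * a ≤ P * (a - 1) := by linarith
      have h3 : (P : ℝ) * b ≤ (P + 2) * (b - 1) := by linarith
      have h4 : ((P : ℝ) - 1) * a * b ≤ P * (a - 1) * b :=
        mul_le_mul_of_nonneg_right h2 (by linarith)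
      have h5 : (P : ℝ) * b * (a - 1) ≤ (P + 2) * (b - 1) * (a - 1) :=
        mul_le_mul_of_nonneg_right h3 (by linarith)
      linarith
    calc ((P : ℝ) - 1) * K = T * p ^ 2 * (((P : ℝ) - 1) * ((a * b) / ((a - 1) * (b - 1)))) := by
          rw [hK]; ring
      _ ≤ T * p ^ 2 * (P + 2) := mul_le_mul_of_nonneg_left h1 (by positivity)
  -- expansion
  have hexp : ∀ (f : Fin P ↪ A) (g : Fin P ↪ B),
      (((Finset.univ.filter fun t => (f t : Fin n) < (g t : Fin n)).card : ℝ) - P * p) ^ 2 =
        ∑ t, ∑ t', I (f t) (g t) * I (f t') (g t') - 2 * P * p * ∑ t, I (f t) (g t) +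
          P ^ 2 * p ^ 2 := by
    intro f g
    rw [hX, ← Finset.sum_mul_sum]
    ring
  have hsum : ∑ f : Fin P ↪ A, ∑ g : Fin P ↪ B,
      (((Finset.univ.filter fun t => (f t : Fin n) < (g t : Fin n)).card : ℝ) - P * p) ^ 2 =
      ∑ t, ∑ t', ∑ f : Fin P ↪ A, ∑ g : Fin P ↪ B, I (f t) (g t) * I (f t') (g t') -
        2 * P * p * ∑ t, ∑ f : Fin P ↪ A, ∑ g : Fin P ↪ B, I (f t) (g t) +
          P ^ 2 * p ^ 2 * T := by
    have hpair : ∀ φ : (Fin P ↪ A) → (Fin P ↪ B) → ℝ, ∑ f, ∑ g, φ f g =
        ∑ q : (Fin P ↪ A) × (Fin P ↪ B), φ q.1 q.2 := fun φ => (Fintype.sum_prod_type' φ).symm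
    have e1 : ∑ q : (Fin P ↪ A) × (Fin P ↪ B), ∑ t, I (q.1 t) (q.2 t) =
        ∑ t, ∑ f : Fin P ↪ A, ∑ g : Fin P ↪ B, I (f t) (g t) := by
      rw [Finset.sum_comm]
      exact Finset.sum_congr rfl fun t _ => (hpair fun f g => I (f t) (g t)).symm
    have e2 : ∑ q : (Fin P ↪ A) × (Fin P ↪ B), ∑ t, ∑ t',
        I (q.1 t) (q.2 t) * I (q.1 t') (q.2 t') =
        ∑ t, ∑ t', ∑ f : Fin P ↪ A, ∑ g : Fin P ↪ B, I (f t) (g t) * I (f t') (g t') := by
      rw [Finset.sum_comm]
      refine Finset.sum_congr rfl fun t _ => ?_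
      rw [Finset.sum_comm]
      exact Finset.sum_congr rfl fun t' _ =>
        (hpair fun f g => I (f t) (g t) * I (f t') (g t')).symm
    have e3 : ∑ _q : (Fin P ↪ A) × (Fin P ↪ B), (P : ℝ) ^ 2 * p ^ 2 = P ^ 2 * p ^ 2 * T := by
      rw [Finset.sum_const, Finset.card_univ, nsmul_eq_mul, hcT]
      ring
    rw [hpair, Finset.sum_congr rfl (fun q _ => hexp q.1 q.2), Finset.sum_add_distrib,
      Finset.sum_sub_distrib, ← Finset.mul_sum, e1, e2, e3]
  rw [hsum]
  have hA1 : ∑ t : Fin P, ∑ f : Fin P ↪ A, ∑ g : Fin P ↪ B, I (f t) (g t) = P * (T * p) := by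
    rw [Finset.sum_congr rfl (fun t _ => hS1 t), Finset.sum_const, Finset.card_univ,
      Fintype.card_fin, nsmul_eq_mul]
  have hA2 : ∑ t : Fin P, ∑ t', ∑ f : Fin P ↪ A, ∑ g : Fin P ↪ B,
      I (f t) (g t) * I (f t') (g t') ≤ P * (P * K + (T * p - K)) := by
    have h1 : ∀ t : Fin P, ∑ t', ∑ f : Fin P ↪ A, ∑ g : Fin P ↪ B,
        I (f t) (g t) * I (f t') (g t') ≤ P * K + (T * p - K) := by
      intro t
      calc ∑ t', ∑ f : Fin P ↪ A, ∑ g : Fin P ↪ B, I (f t) (g t) * I (f t') (g t')
          ≤ ∑ t' : Fin P, (K + if t = t' then T * p - K else 0) := by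
            refine Finset.sum_le_sum fun t' _ => ?_
            by_cases h : t = t'
            · subst h
              rw [if_pos rfl]
              have h2 : ∑ f : Fin P ↪ A, ∑ g : Fin P ↪ B, I (f t) (g t) * I (f t) (g t) =
                  T * p := by
                rw [← hS1 t]
                exact Finset.sum_congr rfl fun f _ => Finset.sum_congr rfl fun g _ => hII _ _
              rw [h2]
              linarith
            · rw [if_neg h, add_zero]
              exact hS2 t t' h
        _ = P * K + (T * p - K) := by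
            rw [Finset.sum_add_distrib, Finset.sum_const, Finset.card_univ, Fintype.card_fin,
              nsmul_eq_mul, Finset.sum_ite_eq, if_pos (Finset.mem_univ t)]
    calc ∑ t : Fin P, ∑ t', ∑ f : Fin P ↪ A, ∑ g : Fin P ↪ B, I (f t) (g t) * I (f t') (g t')
        ≤ ∑ _t : Fin P, (P * K + (T * p - K)) := Finset.sum_le_sum fun t _ => h1 t
      _ = P * (P * K + (T * p - K)) := by
          rw [Finset.sum_const, Finset.card_univ, Fintype.card_fin, nsmul_eq_mul]
  rw [hA1]
  have hfin : (P : ℝ) * (P * K + (T * p - K)) ≤ P * (T * p ^ 2 * (P + 2) + T * p) := by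
    refine mul_le_mul_of_nonneg_left ?_ (by linarith)
    linarith
  have hpp : p ^ 2 ≤ 1 := by nlinarith
  have hTP : 0 ≤ P * T := by positivity
  have h1 : P * T * p ^ 2 ≤ P * T := by nlinarith
  have h2 : P * T * p ≤ P * T := by nlinarith
  nlinarith

end Pool.Agent.SKP
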