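import Pool.Agent.SKP.StS

/-!
# SKP, Mul: multiplicity of the packings
-/

set_option autoImplicit false

namespace Pool.Agent.SKP

open scoped Classical

private lemma Mul_cnt {α : Type} (T : Finset α) (N c : ℕ) (hc : T.card ≤ c) :
    (T.powerset.filter fun s => s.card ≤ N).card ≤ (c + 1) ^ N := by
  have h1 : (T.powerset.filter fun s => s.card ≤ N) ⊆
      (Finset.range (N + 1)).biUnion fun j => T.powersetCard j := by
    intro s hs
    rw [Finset.mem_filter, Finset.mem_powerset] at hs
    rw [Finset.mem_biUnion]
    exact ⟨s.card, Finset.mem_range.2 (by omega), Finset.mem_powersetCard.2 ⟨hs.1, rfl⟩⟩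
  refine (Finset.card_le_card h1).trans (Finset.card_biUnion_le.trans ?_)
  rw [add_pow]
  refine Finset.sum_le_sum fun j hj => ?_
  rw [Finset.card_powersetCard, one_pow, mul_one]
  have h2 : 1 ≤ N.choose j := Nat.choose_pos (by rw [Finset.mem_range] at hj; omega)
  calc T.card.choose j ≤ T.card ^ j := Nat.choose_le_pow _ _
    _ ≤ c ^ j := Nat.pow_le_pow_left hc j
    _ ≤ c ^ j * N.choose j := Nat.le_mul_of_pos_right _ h2

theorem thm_Mul : Stmt_Mul := by
  intro n k m R G hG hmk hM
  choose! f hf hfR using hM
  have hP : ∀ (j : ℕ) (M : Finset (Finset (Fin n))), M ∈ Pk G j → M.card = j ∧ ∀ t ∈ M, G t := by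
    intro j M h
    unfold Pk at h
    rw [Finset.mem_filter] at h
    exact ⟨h.2.1, h.2.2.1⟩
  rw [mul_comm]
  refine Finset.card_le_mul_card_image_of_maps_to hf _ ?_
  intro M' hM'
  obtain ⟨T, hT⟩ : ∃ T : Finset (Finset (Fin n)), T = Finset.univ.powersetCard 3 := ⟨_, rfl⟩
  have hTc : T.card ≤ n ^ 3 := by
    rw [hT, Finset.card_powersetCard, Finset.card_univ, Fintype.card_fin]
    exact Nat.choose_le_pow _ _
  have hM'c := (hP k M' hM').1
  calc ((Pk G m).filter fun M => f M = M').card
      ≤ ((T.powerset.filter fun s => s.card ≤ R) ×ˢ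
          (M'.powerset.filter fun s => s.card ≤ k - m + R)).card := by
        refine Finset.card_le_card_of_injOn (fun M => (M \ M', M' \ M)) ?_ ?_
        · intro M hM
          rw [Finset.mem_coe, Finset.mem_filter] at hM
          obtain ⟨hM1, hM2⟩ := hM
          have h1 := hfR M hM1
          rw [hM2] at h1
          have h2 := hP m M hM1
          rw [Finset.mem_coe, Finset.mem_product, Finset.mem_filter, Finset.mem_filter,
            Finset.mem_powerset, Finset.mem_powerset]
          refine ⟨⟨?_, h1⟩, Finset.sdiff_subset, ?_⟩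
          · intro t ht
            rw [hT, Finset.mem_powersetCard]
            exact ⟨Finset.subset_univ _, hG t (h2.2 t (Finset.mem_sdiff.1 ht).1)⟩
          · have h3 := Finset.card_sdiff_add_card_inter M M'
            have h4 := Finset.card_sdiff_add_card_inter M' M
            rw [Finset.inter_comm] at h4
            change (M' \ M).card ≤ k - m + R
            omega
        · intro M hM N hN h
          rw [Prod.mk.injEq] at h
          have e : ∀ A B : Finset (Finset (Fin n)), A = (B \ (B \ A)) ∪ (A \ B) := by
            intro A B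
            ext t
            simp only [Finset.mem_union, Finset.mem_sdiff]
            by_cases h1 : t ∈ A <;> by_cases h2 : t ∈ B <;> simp [h1, h2]
          rw [e M M', e N M', h.1, h.2]
    _ ≤ (n ^ 3 + 1) ^ R * (k + 1) ^ (k - m + R) := by
        rw [Finset.card_product]
        exact Nat.mul_le_mul (Mul_cnt T R _ hTc) (Mul_cnt M' _ k hM'c.le)

end Pool.Agent.SKP
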