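import Pool.Agent.SKP.StS

/-!
# SKP NE: rematching of the triples inside three clusters (MP_001fdd_co)
-/

set_option autoImplicit false

namespace Pool.Agent.SKP

open scoped Classical

private theorem NE_mem {n : ℕ} (x : Fin 3 → Fin n) (a : Fin n) :
    a ∈ ({x 0, x 1, x 2} : Finset (Fin n)) ↔ ∃ i, x i = a := by
  simp only [Finset.mem_insert, Finset.mem_singleton]
  constructor
  · rintro (h | h | h)
    · exact ⟨0, h.symm⟩
    · exact ⟨1, h.symm⟩
    · exact ⟨2, h.symm⟩
  · rintro ⟨i, h⟩
    fin_cases i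
    · exact Or.inl h.symm
    · exact Or.inr (Or.inl h.symm)
    · exact Or.inr (Or.inr h.symm)

theorem thm_NE (hB : Stmt_Bir) (hR : Stmt_Rbw) : Stmt_NE := by
  intro k r ε D hhp hD hDc hg
  obtain ⟨M, hM, -⟩ := hB (3 * k) k ε Finset.univ
    (by rw [Finset.card_univ, Fintype.card_fin])
    (by intro s; rw [Finset.univ_inter]; exact hhp s)
  by_cases hk : k ≤ 3 * r
  · have e : k - 3 * r = 0 := by omega
    have h1 : 0 < (Pk (Gt ε) k).card := Finset.card_pos.2 ⟨M, hM⟩
    rw [e, Nat.factorial_zero, one_pow]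
    exact h1
  push Not at hk
  have hne : ∀ i, (D i).Nonempty := by
    intro i
    rw [← Finset.card_pos]
    have := hDc i
    omega
  unfold Pk at hM
  rw [Finset.mem_filter] at hM
  obtain ⟨-, hMc, hMg, hMd⟩ := hM
  set U := D 0 ∪ D 1 ∪ D 2 with hU
  have hUc : 3 * k ≤ U.card + 3 * r := by
    rw [hU, Finset.card_union_of_disjoint (Finset.disjoint_union_left.2
      ⟨hD 0 2 (by decide), hD 1 2 (by decide)⟩), Finset.card_union_of_disjoint (hD 0 1 (by decide))]
    have h0 := hDc 0
    have h1 := hDc 1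
    have h2 := hDc 2
    omega
  set M1 := M.filter fun T => T ⊆ U with hM1
  have hM1M : M1 ⊆ M := Finset.filter_subset _ _
  have hM1c : k ≤ M1.card + 3 * r := by
    have h1 : (M.filter fun T => ¬ T ⊆ U).card ≤ (Uᶜ).card := by
      have h2 : ∀ T : Finset (Fin (3 * k)), ∃ S : Finset (Fin (3 * k)), ¬ T ⊆ U →
          ∃ a ∈ T, a ∉ U ∧ S = {a} := by
        intro T
        by_cases h : T ⊆ U
        · exact ⟨∅, fun h' => absurd h h'⟩
        · obtain ⟨a, ha, ha'⟩ := Finset.not_subset.1 h
          exact ⟨{a}, fun _ => ⟨a, ha, ha', rfl⟩⟩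
      choose S hS using h2
      have h3 : (Uᶜ).card = ((Uᶜ).image fun a => ({a} : Finset (Fin (3 * k)))).card := by
        rw [Finset.card_image_of_injective _ Finset.singleton_injective]
      rw [h3]
      refine Finset.card_le_card_of_injOn S ?_ ?_
      · intro T hT
        rw [Finset.mem_coe, Finset.mem_filter] at hT
        obtain ⟨a, -, ha, hs⟩ := hS T hT.2
        rw [Finset.mem_coe, Finset.mem_image]
        exact ⟨a, Finset.mem_compl.2 ha, hs.symm⟩
      · intro T hT T' hT' hss
        rw [Finset.mem_coe, Finset.mem_filter] at hT hT'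
        obtain ⟨a, ha, -, hs⟩ := hS T hT.2
        obtain ⟨a', ha', -, hs'⟩ := hS T' hT'.2
        by_contra hnn
        have h4 := hMd T hT.1 T' hT'.1 hnn
        rw [hs, hs'] at hss
        have h5 : a = a' := Finset.singleton_injective hss
        rw [Finset.disjoint_left] at h4
        exact h4 ha (h5 ▸ ha')
    rw [Finset.card_compl, Fintype.card_fin] at h1
    have h2 := Finset.card_filter_add_card_filter_not (s := M) (fun T => T ⊆ U)
    rw [← hM1, hMc] at h2
    have h3 : U.card ≤ 3 * k := by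
      have := Finset.card_le_univ U
      rwa [Fintype.card_fin] at this
    omega
  have hp : ∀ (T : M1) (i : Fin 3), ∃ a, a ∈ T.1 ∧ a ∈ D i := by
    intro T i
    have h1 := Finset.mem_filter.1 T.2
    obtain ⟨a, ha⟩ := hR (3 * k) ε D hD hne hg T.1 (hMg _ h1.1) h1.2 i
    rw [Finset.mem_inter] at ha
    exact ⟨a, ha.1, ha.2⟩
  choose p hpT hpD using hp
  have hinj : ∀ (T T' : M1) (i j : Fin 3), p T i = p T' j → i = j ∧ T = T' := by
    intro T T' i j h
    have hij : i = j := by
      by_contra hne'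
      have h1 := hD i j hne'
      rw [Finset.disjoint_left] at h1
      exact h1 (hpD T i) (h ▸ hpD T' j)
    refine ⟨hij, ?_⟩
    by_contra hne'
    have h1 := hMd T.1 (hM1M T.2) T'.1 (hM1M T'.2) (fun h' => hne' (Subtype.ext h'))
    rw [Finset.disjoint_left] at h1
    exact h1 (hpT T i) (h ▸ hpT T' j)
  let x : (Fin 3 → Equiv.Perm M1) → M1 → Fin 3 → Fin (3 * k) := fun π T i => p (π i T) i
  let tri : (Fin 3 → Equiv.Perm M1) → M1 → Finset (Fin (3 * k)) := fun π T =>
    {x π T 0, x π T 1, x π T 2}
  have htm : ∀ π T a, a ∈ tri π T ↔ ∃ i, p (π i T) i = a := fun π T a => NE_mem (x π T) a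
  have htg : ∀ π T, Gt ε (tri π T) := fun π T => hg (x π T) fun i => hpD _ i
  have htd : ∀ π T T', T ≠ T' → Disjoint (tri π T) (tri π T') := by
    intro π T T' hTT
    rw [Finset.disjoint_left]
    intro a ha ha'
    obtain ⟨i, hi⟩ := (htm π T a).1 ha
    obtain ⟨j, hj⟩ := (htm π T' a).1 ha'
    obtain ⟨h1, h2⟩ := hinj _ _ i j (hi.trans hj.symm)
    subst h1
    exact hTT ((π i).injective h2)
  have htM : ∀ π T, ∀ T' ∈ M \ M1, Disjoint (tri π T) T' := by
    intro π T T' hT'
    rw [Finset.mem_sdiff] at hT'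
    rw [Finset.disjoint_left]
    intro a ha ha'
    obtain ⟨i, hi⟩ := (htm π T a).1 ha
    have h1 := hMd (π i T).1 (hM1M (π i T).2) T' hT'.1 (fun h => hT'.2 (h ▸ (π i T).2))
    rw [Finset.disjoint_left] at h1
    exact h1 (hpT (π i T) i) (hi ▸ ha')
  let MM : (Fin 3 → Equiv.Perm M1) → Finset (Finset (Fin (3 * k))) := fun π =>
    (M \ M1) ∪ Finset.univ.image (tri π)
  have hMM : ∀ π, MM π ∈ Pk (Gt ε) k := by
    intro π
    have htinj : Function.Injective (tri π) := by
      intro T T' h
      by_contra hnn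
      have h1 := htd π T T' hnn
      rw [h, disjoint_self, Finset.bot_eq_empty] at h1
      have h2 : p (π 0 T') 0 ∈ tri π T' := (htm π T' _).2 ⟨0, rfl⟩
      rw [h1] at h2
      exact absurd h2 (Finset.notMem_empty _)
    have hdis : Disjoint (M \ M1) (Finset.univ.image (tri π)) := by
      rw [Finset.disjoint_left]
      intro T' hT' hT''
      obtain ⟨T, -, rfl⟩ := Finset.mem_image.1 hT''
      have h1 := htM π T _ hT'
      rw [disjoint_self, Finset.bot_eq_empty] at h1
      have h2 : p (π 0 T) 0 ∈ tri π T := (htm π T _).2 ⟨0, rfl⟩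
      rw [h1] at h2
      exact absurd h2 (Finset.notMem_empty _)
    unfold Pk
    rw [Finset.mem_filter]
    refine ⟨Finset.mem_univ _, ?_, ?_, ?_⟩
    · show ((M \ M1) ∪ Finset.univ.image (tri π)).card = k
      rw [Finset.card_union_of_disjoint hdis, Finset.card_sdiff_of_subset hM1M,
        Finset.card_image_of_injective _ htinj, Finset.card_univ, Fintype.card_coe, hMc]
      have := Finset.card_le_card hM1M
      omega
    · intro T hT
      rcases Finset.mem_union.1 hT with h | h
      · exact hMg T (Finset.mem_sdiff.1 h).1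
      · obtain ⟨T', -, rfl⟩ := Finset.mem_image.1 h
        exact htg π T'
    · intro T hT T' hT' hnn
      rcases Finset.mem_union.1 hT with h | h
      · rcases Finset.mem_union.1 hT' with h' | h'
        · exact hMd T (Finset.mem_sdiff.1 h).1 T' (Finset.mem_sdiff.1 h').1 hnn
        · obtain ⟨S', -, rfl⟩ := Finset.mem_image.1 h'
          exact (htM π S' T h).symm
      · obtain ⟨S, -, rfl⟩ := Finset.mem_image.1 h
        rcases Finset.mem_union.1 hT' with h' | h'
        · exact htM π S T' h'
        · obtain ⟨S', -, rfl⟩ := Finset.mem_image.1 h'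
          exact htd π S S' (fun h'' => hnn (by rw [h'']))
  have hMMinj : ∀ π π' : Fin 3 → Equiv.Perm M1, π 0 = 1 → π' 0 = 1 → MM π = MM π' → π = π' := by
    intro π π' h0 h0' h
    funext i
    apply Equiv.ext
    intro T
    have h1 : tri π T ∈ MM π' := by
      rw [← h]
      exact Finset.mem_union_right _ (Finset.mem_image_of_mem _ (Finset.mem_univ T))
    have h2 : p T 0 ∈ tri π T := by
      rw [htm]
      refine ⟨0, ?_⟩
      rw [h0]
      rfl
    have h3 : ∃ T', tri π T = tri π' T' := by
      rcases Finset.mem_union.1 h1 with h' | h'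
      · exfalso
        have h4 := Finset.mem_sdiff.1 h'
        have h5 := hMd T.1 (hM1M T.2) (tri π T) h4.1 (fun h6 => h4.2 (h6 ▸ T.2))
        rw [Finset.disjoint_left] at h5
        exact h5 (hpT T 0) h2
      · obtain ⟨T', -, h''⟩ := Finset.mem_image.1 h'
        exact ⟨T', h''.symm⟩
    obtain ⟨T', h3⟩ := h3
    have h4 : T = T' := by
      rw [h3, htm] at h2
      obtain ⟨j, hj⟩ := h2
      obtain ⟨h5, h6⟩ := hinj _ _ _ _ hj
      subst h5
      rw [h0'] at h6
      exact h6.symm
    rw [← h4] at h3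
    have h5 : p (π i T) i ∈ tri π' T := by
      rw [← h3, htm]
      exact ⟨i, rfl⟩
    rw [htm] at h5
    obtain ⟨j, hj⟩ := h5
    obtain ⟨h5, h6⟩ := hinj _ _ _ _ hj
    subst h5
    exact h6.symm
  have hfac : (k - 3 * r).factorial ≤ M1.card.factorial := Nat.factorial_le (by omega)
  calc ((k - 3 * r).factorial) ^ 2 ≤ (M1.card.factorial) ^ 2 := Nat.pow_le_pow_left hfac 2
    _ = (Finset.univ : Finset (Equiv.Perm M1 × Equiv.Perm M1)).card := by
        rw [Finset.card_univ, Fintype.card_prod, Fintype.card_perm, Fintype.card_coe, sq]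
    _ ≤ (Pk (Gt ε) k).card := by
        refine Finset.card_le_card_of_injOn (fun q => MM ![1, q.1, q.2]) ?_ ?_
        · intro q _
          exact hMM _
        · intro q _ q' _ hqq
          have h1 := hMMinj ![1, q.1, q.2] ![1, q'.1, q'.2] rfl rfl hqq
          refine Prod.ext ?_ ?_
          · exact congrFun h1 1
          · exact congrFun h1 2

end Pool.Agent.SKP
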