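import Pool.Agent.SKP.StC

/-!
# SKP [Nbh]: nearby centers give close sequences
-/

set_option autoImplicit false

namespace Pool.Agent.SKP

open scoped Classical
open Filter Topology

private theorem Nbh_coord (i : Fin 2) : Continuous fun c : E2 => c i := by
  fun_prop

private theorem Nbh_sub (x y : E2) (i : Fin 2) : (x - y) i = x i - y i := rfl

private theorem Nbh_ky {n : ℕ} (P : Fin n → E2) (Q : E2) (a : Fin n) (h : P a 1 ≠ Q 1) :
    ContinuousAt (fun c => ky P c a) Q := by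
  unfold ky
  refine ContinuousAt.neg (ContinuousAt.div ?_ ?_ (sub_ne_zero.2 h))
  · exact (continuous_const.sub (Nbh_coord 0)).continuousAt
  · exact (continuous_const.sub (Nbh_coord 1)).continuousAt

private theorem Nbh_eq {n : ℕ} (P : Fin n → E2) (Q : E2) (a b : Fin n) (ha : P a 1 ≠ Q 1)
    (hb : P b 1 ≠ Q 1) (h : ky P Q a = ky P Q b) : cr (P a - Q) (P b - Q) = 0 := by
  unfold ky at h
  have h1 : P a 1 - Q 1 ≠ 0 := sub_ne_zero.2 ha
  have h2 : P b 1 - Q 1 ≠ 0 := sub_ne_zero.2 hb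
  have h3 := neg_injective h
  rw [div_eq_div_iff h1 h2] at h3
  unfold cr
  rw [Nbh_sub, Nbh_sub, Nbh_sub, Nbh_sub]
  linarith

private theorem Nbh_anti (x y : E2) (h : cr x y = 0) : cr y x = 0 := by
  unfold cr at *
  linarith

private theorem Nbh_uniq {n : ℕ} (P : Fin n → E2) (hP : GP P) (Q : E2) (a b b' : Fin n)
    (ha : P a 1 ≠ Q 1) (hb : b ≠ a) (hb' : b' ≠ a) (h : cr (P a - Q) (P b - Q) = 0)
    (h' : cr (P a - Q) (P b' - Q) = 0) : b = b' := by
  by_contra hne
  refine hP.2 a b b' hb.symm hne hb'.symm ?_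
  have hy : P a 1 - Q 1 ≠ 0 := sub_ne_zero.2 ha
  unfold cr at *
  simp only [Nbh_sub] at *
  have key : (P a 1 - Q 1) * ((P b 0 - P a 0) * (P b' 1 - P a 1) -
      (P b 1 - P a 1) * (P b' 0 - P a 0)) = 0 := by
    linear_combination (-(P b' 1 - P a 1)) * h + (P b 1 - P a 1) * h'
  exact (mul_eq_zero.1 key).resolve_left hy

theorem thm_Nbh : Stmt_Nbh := by
  intro n P hP Q
  have hsgn : ∀ᶠ c in 𝓝 Q, ∀ a : Fin n, P a 1 ≠ Q 1 → (c 1 < P a 1 ↔ Q 1 < P a 1) := by
    refine eventually_all.2 fun a => ?_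
    by_cases h : P a 1 = Q 1
    · exact Eventually.of_forall fun c hc => absurd h hc
    · rcases lt_or_gt_of_ne h with h1 | h1
      · have : ∀ᶠ c : E2 in 𝓝 Q, P a 1 < c 1 :=
          ((Nbh_coord 1).continuousAt (x := Q)).eventually_const_lt h1
        filter_upwards [this] with c hc _
        constructor
        · intro h2; exact absurd h2 (not_lt.2 hc.le)
        · intro h2; exact absurd h2 (not_lt.2 h1.le)
      · have : ∀ᶠ c : E2 in 𝓝 Q, c 1 < P a 1 :=
          ((Nbh_coord 1).continuousAt (x := Q)).eventually_lt_const h1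
        filter_upwards [this] with c hc _
        exact ⟨fun _ => h1, fun _ => hc⟩
  have hord : ∀ᶠ c in 𝓝 Q, ∀ a b : Fin n, P a 1 ≠ Q 1 → P b 1 ≠ Q 1 →
      ky P Q a < ky P Q b → ky P c a < ky P c b := by
    refine eventually_all.2 fun a => eventually_all.2 fun b => ?_
    by_cases h : P a 1 ≠ Q 1 ∧ P b 1 ≠ Q 1 ∧ ky P Q a < ky P Q b
    · have := (Nbh_ky P Q a h.1).eventually_lt (Nbh_ky P Q b h.2.1) h.2.2
      filter_upwards [this] with c hc _ _ _
      exact hc
    · exact Eventually.of_forall fun c h1 h2 h3 => absurd ⟨h1, h2, h3⟩ h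
  obtain ⟨δ, hδ, hball⟩ := Metric.eventually_nhds_iff.1 (hsgn.and hord)
  refine ⟨δ, hδ, fun c c' hc hc' => ?_⟩
  obtain ⟨s1, o1⟩ := hball hc
  obtain ⟨s2, o2⟩ := hball hc'
  -- the matching
  obtain ⟨R, hR⟩ : ∃ R : Fin n → Fin n → Prop, R = fun i j =>
      j ≠ i ∧ cr (P (od P c i) - Q) (P (od P c j) - Q) = 0 := ⟨_, rfl⟩
  obtain ⟨Y, hY⟩ : ∃ Y : Finset (Fin n), Y =
      Finset.univ.filter fun i => P (od P c i) 1 = Q 1 := ⟨_, rfl⟩
  have hmemY : ∀ i, i ∉ Y → P (od P c i) 1 ≠ Q 1 := by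
    intro i hi h
    exact hi (by rw [hY]; simp [h])
  obtain ⟨f, hf⟩ : ∃ f : Equiv.Perm (Fin n), f = (od P c).trans (od P c').symm := ⟨_, rfl⟩
  have hfi : ∀ i, od P c' (f i) = od P c i := by
    intro i
    rw [hf]
    simp
  have huniq : ∀ i j j', i ∉ Y → R i j → R i j' → j = j' := by
    intro i j j' hi h h'
    rw [hR] at h h'
    have hj : od P c j ≠ od P c i := fun e => h.1 ((od P c).injective e)
    have hj' : od P c j' ≠ od P c i := fun e => h'.1 ((od P c).injective e)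
    exact (od P c).injective (Nbh_uniq P hP Q _ _ _ (hmemY i hi) hj hj' h.2 h'.2)
  have hμ : ∃ μ : Fin n → Fin n, ∀ i j, i ∉ Y → R i j → μ i = j := by
    refine ⟨fun i => if h : ∃ j, R i j then h.choose else i, fun i j hi hij => ?_⟩
    have h : ∃ j, R i j := ⟨j, hij⟩
    show (if h : ∃ j, R i j then h.choose else i) = j
    rw [dif_pos h]
    exact huniq i _ _ hi h.choose_spec hij
  obtain ⟨μ, hμ⟩ := hμ
  refine ⟨f, Y, μ, ?_, ?_, ?_⟩
  · rw [Finset.card_le_one]
    intro i hi j hj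
    rw [hY] at hi hj
    simp only [Finset.mem_filter, Finset.mem_univ, true_and] at hi hj
    by_contra hne
    exact hP.1 _ _ (fun e => hne ((od P c).injective e)) (hi.trans hj.symm)
  · intro i hi
    show decide (c' 1 < P (od P c' (f i)) 1) = decide (c 1 < P (od P c i) 1)
    rw [hfi]
    rw [decide_eq_decide, s1 _ (hmemY i hi), s2 _ (hmemY i hi)]
  · intro i j hi hj hij hfij
    have m1 : ky P c (od P c i) ≤ ky P c (od P c j) := by
      have := Tuple.monotone_sort (ky P c) hij.le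
      exact this
    have m2 : ky P c' (od P c j) ≤ ky P c' (od P c i) := by
      have := Tuple.monotone_sort (ky P c') hfij.le
      have h2 : ky P c' (od P c' (f j)) ≤ ky P c' (od P c' (f i)) := this
      rwa [hfi, hfi] at h2
    have hcr : cr (P (od P c i) - Q) (P (od P c j) - Q) = 0 := by
      refine Nbh_eq P Q _ _ (hmemY i hi) (hmemY j hj) ?_
      rcases lt_trichotomy (ky P Q (od P c i)) (ky P Q (od P c j)) with h | h | h
      · exact absurd (o2 _ _ (hmemY i hi) (hmemY j hj) h) (not_lt.2 m2)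
      · exact h
      · exact absurd (o1 _ _ (hmemY j hj) (hmemY i hi) h) (not_lt.2 m1)
    constructor
    · refine hμ i j hi ?_
      rw [hR]
      exact ⟨hij.ne', hcr⟩
    · refine hμ j i hj ?_
      rw [hR]
      exact ⟨hij.ne, Nbh_anti _ _ hcr⟩

end Pool.Agent.SKP
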