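import Pool.Agent.SKP.StA

/-!
# Sierksma's bound in the plane (MP_001fdd_co): few labels `none`
-/

set_option autoImplicit false

namespace Pool.Agent.SKP

open scoped Classical
open Pool.Agent.Tvb (Pos Zero Base Good hat TP)
open Pool.Agent.Tvo (PP so ind)
open Pool.Agent.Tvv (J Lb ev UU dd)

/-- a vector of the span is a combination of at most three vectors -/
private lemma NonL {ι : Type} (x : ι → Fin 3 → ℝ) (A : Finset ι) (Z : Fin 3 → ℝ)
    (hZ : Z ∈ Submodule.span ℝ (x '' (A : Set ι))) :
    ∃ T : Finset ι, T ⊆ A ∧ T.card ≤ 3 ∧ ∃ t : ι → ℝ, ∑ a ∈ T, t a • x a = Z := by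
  obtain ⟨b, hb, hspan, hli⟩ := exists_linearIndependent ℝ (x '' (A : Set ι))
  have hfin : b.Finite := (A.finite_toSet.image x).subset hb
  have : Fintype b := hfin.fintype
  have hcard : Fintype.card b ≤ 3 := by
    have := hli.fintype_card_le_finrank
    rwa [Module.finrank_fin_fun] at this
  have hch : ∀ v : b, ∃ a ∈ A, x a = v := by
    intro v
    obtain ⟨a, ha, h⟩ := hb v.2
    exact ⟨a, ha, h⟩
  choose f hf hfx using hch
  refine ⟨Finset.univ.image f, ?_, ?_, ?_⟩
  · intro a ha
    obtain ⟨v, -, rfl⟩ := Finset.mem_image.mp ha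
    exact hf v
  · exact Finset.card_image_le.trans (by rw [Finset.card_univ]; exact hcard)
  · rw [← hspan] at hZ
    have h1 : b ⊆ x '' ((Finset.univ.image f : Finset ι) : Set ι) := by
      intro v hv
      exact ⟨f ⟨v, hv⟩, by simp, hfx ⟨v, hv⟩⟩
    have h2 := Submodule.span_mono h1 hZ
    exact (Submodule.mem_span_image_finset_iff_exists_fun' ℝ).mp h2

/-- assignments with capacities -/
private lemma NonF {ι : Type} {k : ℕ} (hk : 0 < k) (cap : Fin k → ℕ) (U : Finset ι) :
    U.card ≤ ∑ j, cap j → ∃ f : ι → Fin k, ∀ j, (U.filter fun a => f a = j).card ≤ cap j := by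
  induction U using Finset.induction_on with
  | empty =>
    intro _
    exact ⟨fun _ => ⟨0, hk⟩, fun j => by simp⟩
  | insert a U ha ih =>
    intro h
    rw [Finset.card_insert_of_notMem ha] at h
    obtain ⟨f, hf⟩ := ih (by omega)
    have h1 : ∃ j₀, (U.filter fun a => f a = j₀).card < cap j₀ := by
      by_contra hc
      push Not at hc
      have h2 : U.card = ∑ j, (U.filter fun a => f a = j).card :=
        Finset.card_eq_sum_card_fiberwise (fun _ _ => Finset.mem_univ _)
      have h3 : ∑ j, cap j ≤ ∑ j, (U.filter fun a => f a = j).card := Finset.sum_le_sum fun j _ => hc j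
      omega
    obtain ⟨j₀, hj₀⟩ := h1
    refine ⟨Function.update f a j₀, fun j => ?_⟩
    have h2 : ∀ j, (U.filter fun b => Function.update f a j₀ b = j) = U.filter fun b => f b = j := by
      intro j
      refine Finset.filter_congr fun b hb => ?_
      have : b ≠ a := fun h => ha (h ▸ hb)
      rw [Function.update_of_ne this]
    rw [Finset.filter_insert, h2]
    by_cases hj : j₀ = j
    · rw [Function.update_self, if_pos hj, Finset.card_insert_of_notMem (by simp [ha]), ← hj]
      omega
    · rw [Function.update_self, if_neg hj]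
      exact hf j

/-- the new labelling -/
private lemma NonE {k : ℕ} (hk : 0 < k) (π : J k 3 → Lb k) (T : Fin k → Finset (J k 3)) (N : Finset (J k 3))
    (hT : ∀ j, ∀ a ∈ T j, π a = some j) (hT3 : ∀ j, (T j).card ≤ 3) (hN : ∀ a ∈ N, π a = none)
    (hN3 : N.card = 3) :
    ∃ π' : J k 3 → Lb k, (∀ a, π' a = none ↔ a ∈ N) ∧ (∀ j, ∀ a ∈ T j, π' a = some j) ∧
      ∀ j, (Finset.univ.filter fun a => π' a = some j).card ≤ 3 := by
  set P : Finset (J k 3) := Finset.univ.biUnion T with hP
  have hdis : ∀ i ∈ (Finset.univ : Finset (Fin k)), ∀ j ∈ (Finset.univ : Finset (Fin k)), i ≠ j → Disjoint (T i) (T j) := by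
    intro i _ j _ hij
    rw [Finset.disjoint_left]
    intro a ha hb
    have h1 := hT i a ha
    rw [hT j a hb] at h1
    exact hij (Option.some.inj h1).symm
  have hPc : P.card = ∑ j, (T j).card := Finset.card_biUnion hdis
  have hPN : Disjoint P N := by
    rw [Finset.disjoint_left]
    intro a ha hb
    obtain ⟨j, -, hj⟩ := Finset.mem_biUnion.mp ha
    have h1 := hT j a hj
    rw [hN a hb] at h1
    exact absurd h1 (by simp)
  set U : Finset (J k 3) := Finset.univ \ (P ∪ N) with hU
  have hUc : U.card ≤ ∑ j, (3 - (T j).card) := by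
    have h1 : U.card = Fintype.card (J k 3) - (P ∪ N).card := by
      rw [hU, Finset.card_sdiff_of_subset (Finset.subset_univ _), Finset.card_univ]
    rw [h1, Finset.card_union_of_disjoint hPN, hN3, hPc]
    have h2 : Fintype.card (J k 3) = k * 3 := by simp [J]
    have h3 : ∑ j, (3 - (T j).card) + ∑ j, (T j).card = k * 3 := by
      rw [← Finset.sum_add_distrib]
      rw [Finset.sum_congr rfl fun j _ => Nat.sub_add_cancel (hT3 j)]
      simp
    omega
  obtain ⟨f, hf⟩ := NonF hk (fun j => 3 - (T j).card) U hUc
  refine ⟨fun a => if a ∈ N then none else if a ∈ P then π a else some (f a), ?_, ?_, ?_⟩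
  · intro a
    show (if a ∈ N then none else if a ∈ P then π a else some (f a)) = none ↔ a ∈ N
    constructor
    · intro h
      by_contra hc
      rw [if_neg hc] at h
      by_cases hp : a ∈ P
      · rw [if_pos hp] at h
        obtain ⟨j, -, hj⟩ := Finset.mem_biUnion.mp hp
        rw [hT j a hj] at h
        exact absurd h (by simp)
      · rw [if_neg hp] at h
        exact absurd h (by simp)
    · intro h
      rw [if_pos h]
  · intro j a ha
    have h1 : a ∈ P := Finset.mem_biUnion.mpr ⟨j, Finset.mem_univ _, ha⟩
    have h2 : a ∉ N := Finset.disjoint_left.mp hPN h1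
    simp only
    rw [if_neg h2, if_pos h1]
    exact hT j a ha
  · intro j
    have h1 : (Finset.univ.filter fun a => (if a ∈ N then none else if a ∈ P then π a else some (f a)) = some j) ⊆
        T j ∪ (U.filter fun a => f a = j) := by
      intro a ha
      obtain ⟨-, ha⟩ := Finset.mem_filter.mp ha
      by_cases hn : a ∈ N
      · rw [if_pos hn] at ha
        exact absurd ha (by simp)
      · rw [if_neg hn] at ha
        by_cases hp : a ∈ P
        · rw [if_pos hp] at ha
          obtain ⟨i, -, hi⟩ := Finset.mem_biUnion.mp hp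
          rw [hT i a hi] at ha
          rw [← Option.some.inj ha]
          exact Finset.mem_union_left _ hi
        · rw [if_neg hp] at ha
          refine Finset.mem_union_right _ (Finset.mem_filter.mpr ⟨?_, Option.some.inj ha⟩)
          rw [hU, Finset.mem_sdiff, Finset.mem_union]
          exact ⟨Finset.mem_univ _, fun h => h.elim hp hn⟩
    refine (Finset.card_le_card h1).trans ((Finset.card_union_le _ _).trans ?_)
    have h2 := hf j
    have h3 := hT3 j
    omega

/-- the linear map `w ↦ (-1, …, -1) ⊗ w` -/
private def NonM (k : ℕ) : (Fin 3 → ℝ) →ₗ[ℝ] (J k 3 → ℝ) where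
  toFun w := fun c => -1 * w c.2
  map_add' v w := by
    ext c
    simp
    ring
  map_smul' r w := by
    ext c
    simp

theorem thm_Non : Stmt_Non := by
  intro k x z π hGJ hx hz hCV
  by_contra hcon
  rw [not_le] at hcon
  set N := Finset.univ.filter fun a => π a = none with hN
  have hk : 0 < k := by
    rcases Nat.eq_zero_or_pos k with h | h
    · subst h
      have : N = ∅ := Finset.eq_empty_of_isEmpty N
      rw [this] at hcon
      simp at hcon
    · exact h
  obtain ⟨c, b, hc, hb, hbc, hsum⟩ := hCV
  -- components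
  have hcomp : ∀ (j : Fin k) (i : Fin 3), ∑ a, c a * (ev (π a) j * x a i) = b * z i := by
    intro j i
    have := congrFun hsum (j, i)
    rw [Finset.sum_apply] at this
    simpa [UU, tn] using this
  set Z : Fin 3 → ℝ := ∑ a ∈ N, c a • x a + b • z with hZ
  have hZj : ∀ j : Fin k, Z = ∑ a ∈ Finset.univ.filter (fun a => π a = some j), c a • x a := by
    intro j
    funext i
    have h1 := hcomp j i
    have h2 : ∀ a, c a * (ev (π a) j * x a i) =
        (if π a = some j then c a * x a i else 0) - (if π a = none then c a * x a i else 0) := by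
      intro a
      cases hp : π a with
      | none => simp [ev]
      | some l =>
        by_cases hl : l = j
        · simp [ev, hl]
        · simp [ev, hl]
    simp only [h2, Finset.sum_sub_distrib] at h1
    rw [← Finset.sum_filter, ← Finset.sum_filter] at h1
    rw [hZ, Pi.add_apply, Finset.sum_apply, Finset.sum_apply]
    simp only [Pi.smul_apply, smul_eq_mul]
    rw [← hN] at h1
    linarith
  have hZ2 : Z 2 ≠ 0 := by
    intro h0
    have e1 : Z 2 = ∑ a ∈ N, c a + b := by
      rw [hZ, Pi.add_apply, Finset.sum_apply]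
      simp [hx, hz]
    have e2 : ∀ j, ∑ a ∈ Finset.univ.filter (fun a => π a = some j), c a = 0 := by
      intro j
      have := congrFun (hZj j) 2
      rw [h0, Finset.sum_apply] at this
      simp only [Pi.smul_apply, smul_eq_mul, hx, mul_one] at this
      exact this.symm
    have e3 : 0 ≤ ∑ a ∈ N, c a := Finset.sum_nonneg fun a _ => hc a
    have e4 : ∑ a ∈ N, c a = 0 := by linarith
    have e5 : b = 0 := by linarith
    have e6 : ∑ a, c a = 0 := by
      refine Finset.sum_eq_zero fun a _ => ?_
      cases hp : π a with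
      | none =>
        exact (Finset.sum_eq_zero_iff_of_nonneg fun a _ => hc a).mp e4 a (by rw [hN]; simp [hp])
      | some j =>
        exact (Finset.sum_eq_zero_iff_of_nonneg fun a _ => hc a).mp (e2 j) a (by simp [hp])
    rw [e5, e6] at hbc
    norm_num at hbc
  -- three vectors
  have hT : ∀ j, ∃ T : Finset (J k 3), T ⊆ (Finset.univ.filter fun a => π a = some j) ∧ T.card ≤ 3 ∧
      ∃ t : J k 3 → ℝ, ∑ a ∈ T, t a • x a = Z := by
    intro j
    refine NonL x _ Z ?_
    rw [hZj j]
    refine Submodule.sum_mem _ fun a ha => Submodule.smul_mem _ _ (Submodule.subset_span ⟨a, ha, rfl⟩)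
  choose T hTs hT3 t ht using hT
  obtain ⟨N', hN's, hN'3⟩ := Finset.exists_subset_card_eq (s := N) (n := 3) (by omega)
  obtain ⟨π', h1, h2, h3⟩ := NonE hk π T N' (fun j a ha => (Finset.mem_filter.mp (hTs j ha)).2) hT3
    (fun a ha => (Finset.mem_filter.mp (hN's ha)).2) hN'3
  have hN'f : (Finset.univ.filter fun a => π' a = none) = N' := by
    ext a
    rw [Finset.mem_filter]
    simp [h1 a]
  have hdd : dd x π' ≠ 0 := by
    refine hGJ π' fun l => ?_
    cases l with
    | none =>
      have : (Finset.univ.filter fun a => π' a = none).card = 3 := by rw [hN'f, hN'3]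
      exact this.le
    | some j => exact h3 j
  have hli : LinearIndependent ℝ (Matrix.of (UU x π')).row := Matrix.linearIndependent_rows_of_det_ne_zero hdd
  have h4 : LinearIndependent ℝ (fun a : {a : J k 3 // a ∈ N'} => (Matrix.of (UU x π')).row a.1) :=
    hli.comp _ Subtype.val_injective
  have h5 : (fun a : {a : J k 3 // a ∈ N'} => (Matrix.of (UU x π')).row a.1) =
      (NonM k) ∘ (fun a : {a : J k 3 // a ∈ N'} => x a.1) := by
    funext a
    ext c
    have := (h1 a.1).mpr a.2
    simp only [Matrix.row, Matrix.of_apply, UU, Function.comp, NonM, LinearMap.coe_mk, AddHom.coe_mk]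
    rw [this]
    rfl
  rw [h5] at h4
  have h6 := LinearIndependent.of_comp _ h4
  have h7 := h6.span_eq_top_of_card_eq_finrank' (by
    rw [Module.finrank_fin_fun, Fintype.card_coe, hN'3])
  have h8 : Z ∈ Submodule.span ℝ (x '' (N' : Set (J k 3))) := by
    have : Set.range (fun a : {a : J k 3 // a ∈ N'} => x a.1) = x '' (N' : Set (J k 3)) := by
      ext v
      constructor
      · rintro ⟨a, rfl⟩
        exact ⟨a.1, a.2, rfl⟩
      · rintro ⟨a, ha, rfl⟩
        exact ⟨⟨a, ha⟩, rfl⟩
    rw [← this, h7]
    exact Submodule.mem_top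
  obtain ⟨d, hd⟩ := (Submodule.mem_span_image_finset_iff_exists_fun' ℝ).mp h8
  -- the relation
  set g : J k 3 → ℝ := fun a => (if a ∈ N' then d a else 0) + ∑ j, (if a ∈ T j then t j a else 0) with hg
  have hrel : ∑ a, g a • (Matrix.of (UU x π')).row a = 0 := by
    funext ji
    obtain ⟨j, i⟩ := ji
    rw [Finset.sum_apply]
    simp only [Pi.smul_apply, smul_eq_mul, Matrix.row, Matrix.of_apply, Pi.zero_apply, UU, hg, add_mul,
      Finset.sum_add_distrib]
    have e1 : ∑ a, (if a ∈ N' then d a else 0) * (ev (π' a) j * x a i) = - Z i := by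
      have : ∀ a, (if a ∈ N' then d a else 0) * (ev (π' a) j * x a i) = if a ∈ N' then - (d a * x a i) else 0 := by
        intro a
        by_cases ha : a ∈ N'
        · rw [if_pos ha, if_pos ha, (h1 a).mpr ha]
          simp [ev]
        · rw [if_neg ha, if_neg ha, zero_mul]
      simp only [this]
      rw [Finset.sum_ite_mem, Finset.univ_inter, Finset.sum_neg_distrib]
      have := congrFun hd i
      rw [Finset.sum_apply] at this
      simp only [Pi.smul_apply, smul_eq_mul] at this
      rw [this]
    have e2 : ∑ a, (∑ l, (if a ∈ T l then t l a else 0)) * (ev (π' a) j * x a i) = Z i := by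
      simp only [Finset.sum_mul]
      rw [Finset.sum_comm]
      rw [Finset.sum_eq_single j]
      · have : ∀ a, (if a ∈ T j then t j a else 0) * (ev (π' a) j * x a i) = if a ∈ T j then t j a * x a i else 0 := by
          intro a
          by_cases ha : a ∈ T j
          · rw [if_pos ha, if_pos ha, h2 j a ha]
            simp [ev]
          · rw [if_neg ha, if_neg ha, zero_mul]
        simp only [this]
        rw [Finset.sum_ite_mem, Finset.univ_inter]
        have := congrFun (ht j) i
        rw [Finset.sum_apply] at this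
        simpa only [Pi.smul_apply, smul_eq_mul] using this
      · intro l _ hl
        refine Finset.sum_eq_zero fun a _ => ?_
        by_cases ha : a ∈ T l
        · rw [h2 l a ha]
          simp [ev, hl]
        · rw [if_neg ha, zero_mul]
      · intro h
        exact absurd (Finset.mem_univ j) h
    rw [e1, e2]
    ring
  have hg0 := Fintype.linearIndependent_iff.mp hli g hrel
  have hd0 : ∀ a ∈ N', d a = 0 := by
    intro a ha
    have h9 := hg0 a
    simp only [hg] at h9
    rw [if_pos ha] at h9
    have : ∑ j, (if a ∈ T j then t j a else 0) = 0 := by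
      refine Finset.sum_eq_zero fun j _ => ?_
      rw [if_neg]
      intro haj
      have e1 := (h1 a).mpr ha
      rw [h2 j a haj] at e1
      exact absurd e1 (by simp)
    linarith
  apply hZ2
  rw [← hd, Finset.sum_apply]
  refine Finset.sum_eq_zero fun a ha => ?_
  rw [hd0 a ha]
  simp

end Pool.Agent.SKP
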