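import Pool.Agent.SKP.StC

/-!
# Sierksma's bound in the plane (MP_001fdd_co), module Nu1: size of a window and the error
-/

set_option autoImplicit false

namespace Pool.Agent.SKP

open scoped Classical

lemma Nu1_uv {n : ℕ} (hn : 1 ≤ n) (κ : Fin n → Bool) :
    uu κ + vv κ = 1 ∧ 0 ≤ uu κ ∧ 0 ≤ vv κ := by
  have hc : (Finset.univ.filter fun a => κ a = true).card +
      (Finset.univ.filter fun a => κ a = false).card = n := by
    have h := Finset.card_filter_add_card_filter_not (s := (Finset.univ : Finset (Fin n)))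
      (fun a => κ a = true)
    simpa using h
  have hn' : (0 : ℝ) < n := by exact_mod_cast hn
  refine ⟨?_, by unfold uu; positivity, by unfold vv; positivity⟩
  unfold uu vv
  rw [← add_div, div_eq_one_iff_eq hn'.ne']
  exact_mod_cast hc

lemma Nu1_st {n : ℕ} (k : ℕ) (hk : 1 ≤ k) (w : Fin n → Fin 3) (κ : Fin n → Bool) (i : Fin 3) :
    0 ≤ st k w κ i ∧ st k w κ i ≤ 1 := by
  have hk' : (1 : ℝ) ≤ k := by exact_mod_cast hk
  have hs : 0 < (k : ℝ) * √k := by positivity
  have hN : (cN w κ i : ℝ) ≤ ((sA w κ i).card : ℝ) * (sB w κ i).card := by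
    have : cN w κ i ≤ (sA w κ i).card * (sB w κ i).card := by
      unfold cN
      refine (Finset.card_filter_le _ _).trans ?_
      rw [Finset.card_product]
    exact_mod_cast this
  unfold st
  constructor
  · positivity
  · rw [div_le_one (by positivity)]
    linarith

/-- the number `d_i` -/
lemma Nu1_d {n : ℕ} (k : ℕ) (hk : 1 ≤ k) (w : Fin n → Fin 3) (κ : Fin n → Bool) (i j : Fin 3) :
    |st k w κ i - st k w κ j| ≤ 1 := by
  have h1 := Nu1_st k hk w κ i
  have h2 := Nu1_st k hk w κ j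
  rw [abs_le]
  constructor <;> linarith [h1.1, h1.2, h2.1, h2.2]

/-- C7 -/
theorem thm_Nu1 : Stmt_Nu1 := by
  intro k w κ i hk
  obtain ⟨huv, hu, hv⟩ := Nu1_uv (n := 3 * k) (by omega) κ
  have hd := Nu1_d k hk w κ (i + 1) (i + 2)
  unfold eA eB fA fB
  generalize st k w κ (i + 1) - st k w κ (i + 2) = d at hd
  generalize uu κ = u at *
  generalize vv κ = v at *
  obtain rfl : v = 1 - u := by linarith
  have e : ((sA w κ i).card : ℝ) / k - (u ^ 3 + u * (1 - u) + u ^ 2 * (1 - u) * (1 + d)) +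
      (((sB w κ i).card : ℝ) / k - ((1 - u) ^ 3 + u * (1 - u) + u * (1 - u) ^ 2 * (1 - d))) -
      ((((sA w κ i).card : ℝ) + (sB w κ i).card) / k - 1) =
      -(u * (1 - u) * (2 * u - 1) * d) := by
    rw [add_div]
    ring
  rw [e, abs_neg, abs_mul]
  have ht : |u * (1 - u) * (2 * u - 1)| ≤ 97 / 1000 := by
    apply abs_le_of_sq_le_sq _ (by norm_num)
    have h4 : 0 ≤ (1 - 6 * (u * (1 - u))) ^ 2 * (1 + 12 * (u * (1 - u))) := by
      have : 0 ≤ u * (1 - u) := mul_nonneg hu hv
      positivity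
    nlinarith [h4]
  calc |u * (1 - u) * (2 * u - 1)| * |d| ≤ 97 / 1000 * 1 :=
        mul_le_mul ht hd (abs_nonneg _) (by norm_num)
    _ = 97 / 1000 := by norm_num

end Pool.Agent.SKP
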