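import Pool.Agent.SKP.StC

/-!
# Sierksma's bound in the plane (MP_001fdd_co), module Nu2: boundary values of the errors
-/

set_option autoImplicit false

namespace Pool.Agent.SKP

open scoped Classical

namespace Nu2

lemma cnt (n lo hi : ℕ) (h : hi ≤ n) :
    (Finset.univ.filter fun a : Fin n => lo ≤ (a : ℕ) ∧ (a : ℕ) < hi).card = hi - lo := by
  have e : (Finset.univ.filter fun a : Fin n => lo ≤ (a : ℕ) ∧ (a : ℕ) < hi).map
      Fin.valEmbedding = Finset.Ico lo hi := by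
    ext x
    simp only [Finset.mem_map, Finset.mem_filter, Finset.mem_univ, true_and, Fin.valEmbedding_apply,
      Finset.mem_Ico]
    constructor
    · rintro ⟨a, ha, rfl⟩
      exact ha
    · intro hx
      exact ⟨⟨x, by omega⟩, hx, rfl⟩
  rw [← Finset.card_map, e, Nat.card_Ico]

/-- number of positions in `[lo, hi)` with the sign `s` -/
noncomputable def C {n : ℕ} (ε : Fin n → Bool) (lo hi : ℕ) (s : Bool) : ℕ :=
  (Finset.univ.filter fun a : Fin n => (lo ≤ (a : ℕ) ∧ (a : ℕ) < hi) ∧ ε a = s).card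

lemma C_T {n : ℕ} {ε : Fin n → Bool} {j : ℕ} (hε : ∀ i, ε i = decide ((i : ℕ) < j)) (lo hi : ℕ)
    (h : hi ≤ n) : C ε lo hi true = min hi j - lo ∧ C ε lo hi false = hi - max lo j := by
  constructor
  · rw [← cnt n lo (min hi j) (by omega)]
    unfold C
    congr 1
    ext a
    simp only [Finset.mem_filter, Finset.mem_univ, true_and, hε, decide_eq_true_eq]
    omega
  · rw [← cnt n (max lo j) hi h]
    unfold C
    congr 1
    ext a
    simp only [Finset.mem_filter, Finset.mem_univ, true_and, hε, decide_eq_false_iff_not]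
    omega

lemma C_F {n : ℕ} {ε : Fin n → Bool} {j : ℕ} (hε : ∀ i, ε i = decide (j ≤ (i : ℕ))) (lo hi : ℕ)
    (h : hi ≤ n) : C ε lo hi false = min hi j - lo ∧ C ε lo hi true = hi - max lo j := by
  constructor
  · rw [← cnt n lo (min hi j) (by omega)]
    unfold C
    congr 1
    ext a
    simp only [Finset.mem_filter, Finset.mem_univ, true_and, hε, decide_eq_false_iff_not]
    omega
  · rw [← cnt n (max lo j) hi h]
    unfold C
    congr 1
    ext a
    simp only [Finset.mem_filter, Finset.mem_univ, true_and, hε, decide_eq_true_eq]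
    omega

lemma wn0 {n : ℕ} (r1 r2 : ℕ) (a : Fin n) : wn r1 r2 a = 0 ↔ (a : ℕ) < r1 := by
  unfold wn
  split_ifs <;> simp_all

lemma wn1 {n : ℕ} {r1 r2 : ℕ} (a : Fin n) :
    wn r1 r2 a = 1 ↔ r1 ≤ (a : ℕ) ∧ (a : ℕ) < r2 := by
  unfold wn
  split_ifs with h1 h2
  · simp only [Fin.isValue, Fin.reduceEq, false_iff, not_and, not_lt]
    omega
  · simp only [true_iff]
    omega
  · simp only [Fin.isValue, Fin.reduceEq, false_iff, not_and, not_lt]
    omega

lemma wn2 {n : ℕ} {r1 r2 : ℕ} (h : r1 ≤ r2) (a : Fin n) : wn r1 r2 a = 2 ↔ r2 ≤ (a : ℕ) := by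
  unfold wn
  split_ifs with h1 h2
  · simp only [Fin.isValue, Fin.reduceEq, false_iff]
    omega
  · simp only [Fin.isValue, Fin.reduceEq, false_iff]
    omega
  · simp only [true_iff]
    omega

lemma cards {n : ℕ} (ε : Fin n → Bool) {r1 r2 : ℕ} (h : r1 ≤ r2) :
    (sA (wn r1 r2) (kp ε r1 r2) 0).card = C ε 0 r1 true ∧
    (sB (wn r1 r2) (kp ε r1 r2) 0).card = C ε 0 r1 false ∧
    (sA (wn r1 r2) (kp ε r1 r2) 1).card = C ε r1 r2 false ∧
    (sB (wn r1 r2) (kp ε r1 r2) 1).card = C ε r1 r2 true ∧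
    (sA (wn r1 r2) (kp ε r1 r2) 2).card = C ε r2 n true ∧
    (sB (wn r1 r2) (kp ε r1 r2) 2).card = C ε r2 n false := by
  unfold sA sB C kp
  refine ⟨?_, ?_, ?_, ?_, ?_, ?_⟩ <;> congr 1 <;> ext a <;>
    simp only [Finset.mem_filter, Finset.mem_univ, true_and]
  · rw [wn0]
    constructor
    · rintro ⟨h1, h2⟩
      rw [if_neg (by rw [wn1]; omega)] at h2
      exact ⟨⟨by omega, h1⟩, h2⟩
    · rintro ⟨h1, h2⟩
      rw [if_neg (by rw [wn1]; omega)]
      exact ⟨h1.2, h2⟩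
  · rw [wn0]
    constructor
    · rintro ⟨h1, h2⟩
      rw [if_neg (by rw [wn1]; omega)] at h2
      exact ⟨⟨by omega, h1⟩, h2⟩
    · rintro ⟨h1, h2⟩
      rw [if_neg (by rw [wn1]; omega)]
      exact ⟨h1.2, h2⟩
  · constructor
    · rintro ⟨h1, h2⟩
      rw [if_pos h1] at h2
      exact ⟨(wn1 a).1 h1, by simpa using h2⟩
    · rintro ⟨h1, h2⟩
      have h3 := (wn1 (r1 := r1) (r2 := r2) a).2 h1
      rw [if_pos h3]
      exact ⟨h3, by simpa using h2⟩
  · constructor
    · rintro ⟨h1, h2⟩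
      rw [if_pos h1] at h2
      exact ⟨(wn1 a).1 h1, by simpa using h2⟩
    · rintro ⟨h1, h2⟩
      have h3 := (wn1 (r1 := r1) (r2 := r2) a).2 h1
      rw [if_pos h3]
      exact ⟨h3, by simpa using h2⟩
  · rw [wn2 h]
    constructor
    · rintro ⟨h1, h2⟩
      rw [if_neg (by rw [wn1]; omega)] at h2
      exact ⟨⟨h1, a.2⟩, h2⟩
    · rintro ⟨h1, h2⟩
      rw [if_neg (by rw [wn1]; omega)]
      exact ⟨h1.1, h2⟩
  · rw [wn2 h]
    constructor
    · rintro ⟨h1, h2⟩
      rw [if_neg (by rw [wn1]; omega)] at h2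
      exact ⟨⟨h1, a.2⟩, h2⟩
    · rintro ⟨h1, h2⟩
      rw [if_neg (by rw [wn1]; omega)]
      exact ⟨h1.1, h2⟩

lemma tot {n : ℕ} (w : Fin n → Fin 3) (κ : Fin n → Bool) :
    (Finset.univ.filter fun a => κ a = true).card =
      (sA w κ 0).card + (sA w κ 1).card + (sA w κ 2).card ∧
    (Finset.univ.filter fun a => κ a = false).card =
      (sB w κ 0).card + (sB w κ 1).card + (sB w κ 2).card := by
  constructor
  · rw [Finset.card_eq_sum_card_fiberwise (f := w) (t := Finset.univ) (fun _ _ => Finset.mem_univ _),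
      Fin.sum_univ_three]
    simp only [Finset.filter_filter, sA, and_comm]
  · rw [Finset.card_eq_sum_card_fiberwise (f := w) (t := Finset.univ) (fun _ _ => Finset.mem_univ _),
      Fin.sum_univ_three]
    simp only [Finset.filter_filter, sB, and_comm]

/-- the two estimates without denominators -/
lemma est (hG : Stmt_GG) {k : ℕ} (hk : 1 ≤ k) (w : Fin (3 * k) → Fin 3) (κ : Fin (3 * k) → Bool)
    {a0 b0 a1 b1 a2 b2 : ℝ} (ha0 : ((sA w κ 0).card : ℝ) = a0) (hb0 : ((sB w κ 0).card : ℝ) = b0)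
    (ha1 : ((sA w κ 1).card : ℝ) = a1) (hb1 : ((sB w κ 1).card : ℝ) = b1)
    (ha2 : ((sA w κ 2).card : ℝ) = a2) (hb2 : ((sB w κ 2).card : ℝ) = b2) :
    |3 * k * G1 k w κ - (3 * (a0 - b0 + a2 - b2) - 2 * (a0 + a1 + a2 - b0 - b1 - b2))| ≤
      3 * k * (1 / 4) ∧
    |k * G2 k w κ - (a0 - b0 - a2 + b2)| ≤ k * (1 / 2) := by
  have hk0 : (0 : ℝ) < k := by exact_mod_cast hk
  obtain ⟨h1, h2⟩ := hG k w κ hk
  obtain ⟨t1, t2⟩ := tot w κ
  rw [ha0, hb0, ha2, hb2] at h1 h2
  have hu : uu κ - vv κ = (a0 + a1 + a2 - b0 - b1 - b2) / (3 * k) := by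
    unfold uu vv
    rw [t1, t2]
    push_cast
    rw [ha0, hb0, ha1, hb1, ha2, hb2]
    field_simp
    ring
  rw [hu] at h1
  constructor
  · have e : 3 * k * G1 k w κ - (3 * (a0 - b0 + a2 - b2) - 2 * (a0 + a1 + a2 - b0 - b1 - b2)) =
        3 * k * (G1 k w κ - ((a0 - b0 + a2 - b2) / k -
          2 * ((a0 + a1 + a2 - b0 - b1 - b2) / (3 * k)))) := by
      field_simp
    rw [e, abs_mul, abs_of_pos (by positivity)]
    exact mul_le_mul_of_nonneg_left h1 (by positivity)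
  · have e : k * G2 k w κ - (a0 - b0 - a2 + b2) = k * (G2 k w κ - (a0 - b0 - a2 + b2) / k) := by
      field_simp
    rw [e, abs_mul, abs_of_pos hk0]
    exact mul_le_mul_of_nonneg_left h2 hk0.le

lemma toR {a b c : ℕ} (h : a + b = c) : (a : ℝ) = (c : ℝ) - b := by
  rw [← h]
  push_cast
  ring

end Nu2

open Nu2 in
theorem thm_Nu2 : Stmt_GG → Stmt_Nu2 := by
  intro hG k r1 r2 ε hk h12 h23 g1 g2 g3 g4
  have hk0 : (0 : ℝ) < k := by exact_mod_cast hk
  obtain ⟨c1, c2, c3, c4, c5, c6⟩ := cards ε h12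
  have R12 : (r1 : ℝ) ≤ r2 := by exact_mod_cast h12
  have R23 : (r2 : ℝ) ≤ 3 * k := by exact_mod_cast h23
  have R1 : 9 * (k : ℝ) ≤ 10 * r1 := by exact_mod_cast g1
  have R2 : 10 * (r1 : ℝ) ≤ 11 * k := by exact_mod_cast g2
  have R3 : 9 * (k : ℝ) + 10 * r2 ≤ 30 * k := by exact_mod_cast g3
  have R4 : 30 * (k : ℝ) ≤ 11 * k + 10 * r2 := by exact_mod_cast g4
  have low : ∀ x : ℝ, 3 * k * (1 / 2) ≤ 3 * k * x → 1 / 2 ≤ x := fun x hx =>
    le_of_mul_le_mul_left hx (by positivity)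
  have upp : ∀ x : ℝ, 3 * k * x ≤ 3 * k * (-(1 / 2)) → x ≤ -(1 / 2) := fun x hx =>
    le_of_mul_le_mul_left hx (by positivity)
  -- both threshold types
  have T : ∀ j : ℕ, j ≤ 3 * k → (∀ i, ε i = decide ((i : ℕ) < j)) →
      (j = 3 * k → 1 / 2 ≤ G1 k (wn r1 r2) (kp ε r1 r2)) ∧
      (j = 0 → G1 k (wn r1 r2) (kp ε r1 r2) ≤ -(1 / 2)) ∧
      (G2 k (wn r1 r2) (kp ε r1 r2) ≤ 0 → 1 / 2 ≤ |G1 k (wn r1 r2) (kp ε r1 r2)|) := by
    intro j hj hε
    obtain ⟨d1, d2⟩ := C_T hε 0 r1 (by omega)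
    obtain ⟨d4, d3⟩ := C_T hε r1 r2 (by omega)
    obtain ⟨d5, d6⟩ := C_T hε r2 (3 * k) le_rfl
    rw [d1] at c1; rw [d2] at c2; rw [d3] at c3; rw [d4] at c4; rw [d5] at c5; rw [d6] at c6
    have RJ : (j : ℝ) ≤ 3 * k := by exact_mod_cast hj
    have RJ0 : (0 : ℝ) ≤ j := Nat.cast_nonneg _
    rcases le_total j r1 with hj1 | hj1
    · have RJ1 : (j : ℝ) ≤ r1 := by exact_mod_cast hj1
      have e1 : ((sA (wn r1 r2) (kp ε r1 r2) 0).card : ℝ) = j := by
        rw [c1]; exact_mod_cast (by omega : min r1 j - 0 = j)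
      have e2 : ((sB (wn r1 r2) (kp ε r1 r2) 0).card : ℝ) = r1 - j := by
        rw [c2]; exact toR (by omega)
      have e3 : ((sA (wn r1 r2) (kp ε r1 r2) 1).card : ℝ) = r2 - r1 := by
        rw [c3]; exact toR (by omega)
      have e4 : ((sB (wn r1 r2) (kp ε r1 r2) 1).card : ℝ) = 0 := by
        rw [c4]; exact_mod_cast (by omega : min r2 j - r1 = 0)
      have e5 : ((sA (wn r1 r2) (kp ε r1 r2) 2).card : ℝ) = 0 := by
        rw [c5]; exact_mod_cast (by omega : min (3 * k) j - r2 = 0)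
      have e6 : ((sB (wn r1 r2) (kp ε r1 r2) 2).card : ℝ) = 3 * k - r2 := by
        rw [c6, toR (by omega : 3 * k - max r2 j + r2 = 3 * k)]; push_cast; ring
      obtain ⟨f1, f2⟩ := est hG hk _ _ e1 e2 e3 e4 e5 e6
      rw [abs_le] at f1 f2
      refine ⟨fun h => ?_, fun h => ?_, fun h => ?_⟩
      · omega
      · have hj0 : (j : ℝ) = 0 := by exact_mod_cast h
        apply upp
        linarith [f1.1, f1.2]
      · have h' : (k : ℝ) * G2 k (wn r1 r2) (kp ε r1 r2) ≤ 0 :=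
          mul_nonpos_of_nonneg_of_nonpos hk0.le h
        rw [le_abs]
        right
        have := upp (G1 k (wn r1 r2) (kp ε r1 r2)) (by linarith [f1.1, f1.2, f2.1, f2.2])
        linarith
    · have RJ1 : (r1 : ℝ) ≤ j := by exact_mod_cast hj1
      have e1 : ((sA (wn r1 r2) (kp ε r1 r2) 0).card : ℝ) = r1 := by
        rw [c1]; exact_mod_cast (by omega : min r1 j - 0 = r1)
      have e2 : ((sB (wn r1 r2) (kp ε r1 r2) 0).card : ℝ) = 0 := by
        rw [c2]; exact_mod_cast (by omega : r1 - max 0 j = 0)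
      rcases le_total j r2 with hj2 | hj2
      · have RJ2 : (j : ℝ) ≤ r2 := by exact_mod_cast hj2
        have e3 : ((sA (wn r1 r2) (kp ε r1 r2) 1).card : ℝ) = r2 - j := by
          rw [c3]; exact toR (by omega)
        have e4 : ((sB (wn r1 r2) (kp ε r1 r2) 1).card : ℝ) = j - r1 := by
          rw [c4]; exact toR (by omega)
        have e5 : ((sA (wn r1 r2) (kp ε r1 r2) 2).card : ℝ) = 0 := by
          rw [c5]; exact_mod_cast (by omega : min (3 * k) j - r2 = 0)
        have e6 : ((sB (wn r1 r2) (kp ε r1 r2) 2).card : ℝ) = 3 * k - r2 := by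
          rw [c6, toR (by omega : 3 * k - max r2 j + r2 = 3 * k)]; push_cast; ring
        obtain ⟨f1, f2⟩ := est hG hk _ _ e1 e2 e3 e4 e5 e6
        rw [abs_le] at f1 f2
        refine ⟨fun h => ?_, fun h => ?_, fun h => ?_⟩
        · omega
        · omega
        · exfalso
          have h' : (k : ℝ) * G2 k (wn r1 r2) (kp ε r1 r2) ≤ 0 :=
            mul_nonpos_of_nonneg_of_nonpos hk0.le h
          linarith [f2.1, f2.2]
      · have RJ2 : (r2 : ℝ) ≤ j := by exact_mod_cast hj2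
        have e3 : ((sA (wn r1 r2) (kp ε r1 r2) 1).card : ℝ) = 0 := by
          rw [c3]; exact_mod_cast (by omega : r2 - max r1 j = 0)
        have e4 : ((sB (wn r1 r2) (kp ε r1 r2) 1).card : ℝ) = r2 - r1 := by
          rw [c4]; exact toR (by omega)
        have e5 : ((sA (wn r1 r2) (kp ε r1 r2) 2).card : ℝ) = j - r2 := by
          rw [c5]; exact toR (by omega)
        have e6 : ((sB (wn r1 r2) (kp ε r1 r2) 2).card : ℝ) = 3 * k - j := by
          rw [c6, toR (by omega : 3 * k - max r2 j + j = 3 * k)]; push_cast; ring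
        obtain ⟨f1, f2⟩ := est hG hk _ _ e1 e2 e3 e4 e5 e6
        rw [abs_le] at f1 f2
        refine ⟨fun h => ?_, fun h => ?_, fun h => ?_⟩
        · have hj0 : (j : ℝ) = 3 * k := by exact_mod_cast h
          apply low
          linarith [f1.1, f1.2]
        · omega
        · have h' : (k : ℝ) * G2 k (wn r1 r2) (kp ε r1 r2) ≤ 0 :=
            mul_nonpos_of_nonneg_of_nonpos hk0.le h
          rw [le_abs]
          left
          apply low
          linarith [f1.1, f1.2, f2.1, f2.2]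
  have F : ∀ j : ℕ, j ≤ 3 * k → (∀ i, ε i = decide (j ≤ (i : ℕ))) →
      (0 ≤ G2 k (wn r1 r2) (kp ε r1 r2) → 1 / 2 ≤ |G1 k (wn r1 r2) (kp ε r1 r2)|) := by
    intro j hj hε
    obtain ⟨d2, d1⟩ := C_F hε 0 r1 (by omega)
    obtain ⟨d3, d4⟩ := C_F hε r1 r2 (by omega)
    obtain ⟨d6, d5⟩ := C_F hε r2 (3 * k) le_rfl
    rw [d1] at c1; rw [d2] at c2; rw [d3] at c3; rw [d4] at c4; rw [d5] at c5; rw [d6] at c6
    have RJ : (j : ℝ) ≤ 3 * k := by exact_mod_cast hj
    have RJ0 : (0 : ℝ) ≤ j := Nat.cast_nonneg _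
    intro h
    have h' : 0 ≤ (k : ℝ) * G2 k (wn r1 r2) (kp ε r1 r2) := mul_nonneg hk0.le h
    rcases le_total j r1 with hj1 | hj1
    · have RJ1 : (j : ℝ) ≤ r1 := by exact_mod_cast hj1
      have e1 : ((sB (wn r1 r2) (kp ε r1 r2) 0).card : ℝ) = j := by
        rw [c2]; exact_mod_cast (by omega : min r1 j - 0 = j)
      have e2 : ((sA (wn r1 r2) (kp ε r1 r2) 0).card : ℝ) = r1 - j := by
        rw [c1]; exact toR (by omega)
      have e3 : ((sB (wn r1 r2) (kp ε r1 r2) 1).card : ℝ) = r2 - r1 := by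
        rw [c4]; exact toR (by omega)
      have e4 : ((sA (wn r1 r2) (kp ε r1 r2) 1).card : ℝ) = 0 := by
        rw [c3]; exact_mod_cast (by omega : min r2 j - r1 = 0)
      have e5 : ((sB (wn r1 r2) (kp ε r1 r2) 2).card : ℝ) = 0 := by
        rw [c6]; exact_mod_cast (by omega : min (3 * k) j - r2 = 0)
      have e6 : ((sA (wn r1 r2) (kp ε r1 r2) 2).card : ℝ) = 3 * k - r2 := by
        rw [c5, toR (by omega : 3 * k - max r2 j + r2 = 3 * k)]; push_cast; ring
      obtain ⟨f1, f2⟩ := est hG hk _ _ e2 e1 e4 e3 e6 e5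
      rw [abs_le] at f1 f2
      rw [le_abs]
      left
      apply low
      linarith [f1.1, f1.2, f2.1, f2.2]
    · have RJ1 : (r1 : ℝ) ≤ j := by exact_mod_cast hj1
      have e1 : ((sB (wn r1 r2) (kp ε r1 r2) 0).card : ℝ) = r1 := by
        rw [c2]; exact_mod_cast (by omega : min r1 j - 0 = r1)
      have e2 : ((sA (wn r1 r2) (kp ε r1 r2) 0).card : ℝ) = 0 := by
        rw [c1]; exact_mod_cast (by omega : r1 - max 0 j = 0)
      rcases le_total j r2 with hj2 | hj2
      · have RJ2 : (j : ℝ) ≤ r2 := by exact_mod_cast hj2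
        have e3 : ((sB (wn r1 r2) (kp ε r1 r2) 1).card : ℝ) = r2 - j := by
          rw [c4]; exact toR (by omega)
        have e4 : ((sA (wn r1 r2) (kp ε r1 r2) 1).card : ℝ) = j - r1 := by
          rw [c3]; exact toR (by omega)
        have e5 : ((sB (wn r1 r2) (kp ε r1 r2) 2).card : ℝ) = 0 := by
          rw [c6]; exact_mod_cast (by omega : min (3 * k) j - r2 = 0)
        have e6 : ((sA (wn r1 r2) (kp ε r1 r2) 2).card : ℝ) = 3 * k - r2 := by
          rw [c5, toR (by omega : 3 * k - max r2 j + r2 = 3 * k)]; push_cast; ring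
        obtain ⟨f1, f2⟩ := est hG hk _ _ e2 e1 e4 e3 e6 e5
        rw [abs_le] at f1 f2
        exfalso
        linarith [f2.1, f2.2]
      · have RJ2 : (r2 : ℝ) ≤ j := by exact_mod_cast hj2
        have e3 : ((sB (wn r1 r2) (kp ε r1 r2) 1).card : ℝ) = 0 := by
          rw [c4]; exact_mod_cast (by omega : r2 - max r1 j = 0)
        have e4 : ((sA (wn r1 r2) (kp ε r1 r2) 1).card : ℝ) = r2 - r1 := by
          rw [c3]; exact toR (by omega)
        have e5 : ((sB (wn r1 r2) (kp ε r1 r2) 2).card : ℝ) = j - r2 := by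
          rw [c6]; exact toR (by omega)
        have e6 : ((sA (wn r1 r2) (kp ε r1 r2) 2).card : ℝ) = 3 * k - j := by
          rw [c5, toR (by omega : 3 * k - max r2 j + j = 3 * k)]; push_cast; ring
        obtain ⟨f1, f2⟩ := est hG hk _ _ e2 e1 e4 e3 e6 e5
        rw [abs_le] at f1 f2
        rw [le_abs]
        right
        have := upp (G1 k (wn r1 r2) (kp ε r1 r2)) (by linarith [f1.1, f1.2, f2.1, f2.2])
        linarith
  refine ⟨fun h => ?_, fun h => ?_, ?_, ?_⟩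
  · exact (T (3 * k) le_rfl fun i => by rw [h i]; simp).1 rfl
  · exact (T 0 (Nat.zero_le _) fun i => by rw [h i]; simp).2.1 rfl
  · rintro ⟨j, hj⟩
    refine (T (min j (3 * k)) (min_le_right _ _) fun i => ?_).2.2
    rw [hj i, decide_eq_decide]
    have := i.2
    omega
  · rintro ⟨j, hj⟩
    refine F (min j (3 * k)) (min_le_right _ _) fun i => ?_
    rw [hj i, decide_eq_decide]
    have := i.2
    omega

end Pool.Agent.SKP
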