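import Pool.Agent.SKP.StS

/-!
# Sierksma's bound in the plane (MP_001fdd_co): a popular value
-/

set_option autoImplicit false

namespace Pool.Agent.SKP

open scoped Classical

private theorem Pair_perm (P m : ℕ) (hm : m ≤ P) (S : Finset (Fin P)) (hS : S.card = m) :
    ∃ π : Equiv.Perm (Fin P), ∀ t, π t ∈ S ↔ (t : ℕ) < m := by
  have h1 : Fintype.card {t : Fin P // (t : ℕ) < m} = Fintype.card {t : Fin P // t ∈ S} := by
    rw [Fintype.card_coe, hS, Fintype.card_subtype]
    have e : (Finset.univ.filter fun t : Fin P => (t : ℕ) < m) =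
        Finset.univ.map (Fin.castLEEmb hm) := by
      ext t
      simp only [Finset.mem_filter, Finset.mem_univ, true_and, Finset.mem_map]
      constructor
      · intro h
        exact ⟨⟨t, h⟩, rfl⟩
      · rintro ⟨a, rfl⟩
        exact a.2
    rw [e, Finset.card_map, Finset.card_univ, Fintype.card_fin]
  obtain ⟨e⟩ : Nonempty ({t : Fin P // (t : ℕ) < m} ≃ {t : Fin P // t ∈ S}) :=
    Fintype.card_eq.1 h1
  refine ⟨e.extendSubtype, fun t => ⟨fun h => ?_, fun h => ?_⟩⟩
  · by_contra hc
    exact e.extendSubtype_not_mem t hc h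
  · exact e.extendSubtype_mem t h

/-- the number of increasing pairs -/
private noncomputable def Pair_X {n P : ℕ} {A B : Finset (Fin n)}
    (q : (Fin P ↪ A) × (Fin P ↪ B)) : ℕ :=
  (Finset.univ.filter fun t => (q.1 t : Fin n) < (q.2 t : Fin n)).card

private theorem Pair_count {n P m : ℕ} (hm : m ≤ P) (A B : Finset (Fin n)) :
    (Finset.univ.filter fun q : (Fin P ↪ A) × (Fin P ↪ B) => Pair_X q = m).card ≤
      P.choose m * (QQ A B P m).card := by
  choose! π hπ using Pair_perm P m hm
  have h1 : ((Finset.univ : Finset (Fin P)).powersetCard m).card = P.choose m := by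
    rw [Finset.card_powersetCard, Finset.card_univ, Fintype.card_fin]
  rw [← h1, ← Finset.card_product]
  let s : (Fin P ↪ A) × (Fin P ↪ B) → Finset (Fin P) := fun q =>
    Finset.univ.filter fun t => (q.1 t : Fin n) < (q.2 t : Fin n)
  let F : (Fin P ↪ A) × (Fin P ↪ B) → Finset (Fin P) × ((Fin P ↪ Fin n) × (Fin P ↪ Fin n)) :=
    fun q => (s q, ((π (s q)).toEmbedding.trans (q.1.trans (Function.Embedding.subtype _)),
      (π (s q)).toEmbedding.trans (q.2.trans (Function.Embedding.subtype _))))
  refine Finset.card_le_card_of_injOn F ?_ ?_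
  · intro q hq
    have hq' : (s q).card = m := (Finset.mem_filter.1 hq).2
    simp only [Finset.coe_product, Set.mem_prod, Finset.mem_coe, Finset.mem_powersetCard]
    refine ⟨⟨Finset.subset_univ _, hq'⟩, ?_⟩
    unfold QQ
    rw [Finset.mem_filter]
    refine ⟨Finset.mem_univ _, fun t => (q.1 _).2, fun t => (q.2 _).2, fun t => ?_⟩
    have h2 := hπ (s q) hq' t
    have h3 : π (s q) t ∈ s q ↔ (q.1 (π (s q) t) : Fin n) < (q.2 (π (s q) t) : Fin n) := by
      simp [s]
    rw [h3] at h2
    exact h2
  · intro q hq q' hq' h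
    have h0 := Prod.mk.inj h
    have hs : s q = s q' := h0.1
    have h1 := (Prod.mk.inj h0.2).1
    have h2 := (Prod.mk.inj h0.2).2
    rw [hs] at h1 h2
    refine Prod.ext ?_ ?_
    · ext t
      have h3 := DFunLike.congr_fun h1 ((π (s q')).symm t)
      simp only [Function.Embedding.trans_apply, Equiv.coe_toEmbedding, Equiv.apply_symm_apply,
        Function.Embedding.subtype_apply] at h3
      rw [h3]
    · ext t
      have h3 := DFunLike.congr_fun h2 ((π (s q')).symm t)
      simp only [Function.Embedding.trans_apply, Equiv.coe_toEmbedding, Equiv.apply_symm_apply,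
        Function.Embedding.subtype_apply] at h3
      rw [h3]

theorem thm_Pair (hM : Stmt_Mom) : Stmt_Pair := by
  intro n P A B _ hP hPA hPB hA hB
  obtain ⟨c, hc⟩ : ∃ c : ℝ, c = P * ((((A ×ˢ B).filter fun q => q.1 < q.2).card : ℝ) /
      ((A.card : ℝ) * B.card)) := ⟨_, rfl⟩
  have hmom := hM n P A B hP hPA hPB hA hB
  rw [← hc] at hmom ⊢
  obtain ⟨T, hT⟩ : ∃ T : ℕ, T = A.card.descFactorial P * B.card.descFactorial P := ⟨_, rfl⟩
  have hTc : Fintype.card ((Fin P ↪ A) × (Fin P ↪ B)) = T := by
    rw [Fintype.card_prod, Fintype.card_embedding_eq, Fintype.card_embedding_eq, Fintype.card_coe,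
      Fintype.card_coe, Fintype.card_fin, hT]
  have hT0 : 0 < T := by
    rw [hT]
    exact Nat.mul_pos (Nat.descFactorial_pos.2 hPA) (Nat.descFactorial_pos.2 hPB)
  have hTR : (0 : ℝ) < T := by exact_mod_cast hT0
  have hPR : (1 : ℝ) ≤ P := by exact_mod_cast hP
  have hmom2 : ∑ q : (Fin P ↪ A) × (Fin P ↪ B), ((Pair_X q : ℝ) - c) ^ 2 ≤ 3 * P * T := by
    rw [Fintype.sum_prod_type, hT]
    push_cast
    exact hmom
  rw [← hT]
  by_contra hcon
  push Not at hcon
  -- the good values
  obtain ⟨Gd, hGd⟩ : ∃ Gd : Finset ((Fin P ↪ A) × (Fin P ↪ B)),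
    Gd = Finset.univ.filter fun q => |(Pair_X q : ℝ) - c| ≤ 3 * √P := ⟨_, rfl⟩
  have hX : ∀ q : (Fin P ↪ A) × (Fin P ↪ B), Pair_X q ≤ P := by
    intro q
    unfold Pair_X
    exact (Finset.card_le_univ _).trans (by rw [Fintype.card_fin])
  have h1 : Gd.card * (12 * P) ≤ (P + 1) * T := by
    rw [Finset.card_eq_sum_card_fiberwise (f := Pair_X) (t := Finset.range (P + 1))
      (fun q _ => Finset.mem_coe.2 (Finset.mem_range.2 (Nat.lt_succ_of_le (hX q)))),
      Finset.sum_mul]
    calc ∑ m ∈ Finset.range (P + 1), (Gd.filter fun q => Pair_X q = m).card * (12 * P) ≤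
        ∑ _m ∈ Finset.range (P + 1), T := by
          refine Finset.sum_le_sum fun m hm => ?_
          have hmP : m ≤ P := Nat.lt_succ_iff.1 (Finset.mem_range.1 hm)
          by_cases hg : |(m : ℝ) - c| ≤ 3 * √P
          · have h2 := hcon m hmP hg
            have h3 : (Gd.filter fun q => Pair_X q = m).card ≤
                P.choose m * (QQ A B P m).card := by
              refine le_trans (Finset.card_le_card ?_) (Pair_count hmP A B)
              intro q hq
              rw [Finset.mem_filter] at hq ⊢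
              exact ⟨Finset.mem_univ _, hq.2⟩
            calc (Gd.filter fun q => Pair_X q = m).card * (12 * P) ≤
                (P.choose m * (QQ A B P m).card) * (12 * P) := Nat.mul_le_mul_right _ h3
              _ = (QQ A B P m).card * (P.choose m * (12 * P)) := by ring
              _ ≤ T := h2.le
          · have h4 : (Gd.filter fun q => Pair_X q = m) = ∅ := by
              rw [Finset.filter_eq_empty_iff]
              intro q hq he
              rw [hGd, Finset.mem_filter] at hq
              rw [he] at hq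
              exact hg hq.2
            rw [h4, Finset.card_empty, zero_mul]
            exact Nat.zero_le _
      _ = (P + 1) * T := by rw [Finset.sum_const, Finset.card_range, smul_eq_mul]
  -- the bad values
  obtain ⟨Bd, hBd⟩ : ∃ Bd : Finset ((Fin P ↪ A) × (Fin P ↪ B)),
    Bd = Finset.univ.filter fun q => ¬ |(Pair_X q : ℝ) - c| ≤ 3 * √P := ⟨_, rfl⟩
  have h5 : (Bd.card : ℝ) * (9 * P) ≤ 3 * P * T := by
    calc (Bd.card : ℝ) * (9 * P) = ∑ _q ∈ Bd, (9 * P : ℝ) := by
          rw [Finset.sum_const, nsmul_eq_mul]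
      _ ≤ ∑ q ∈ Bd, ((Pair_X q : ℝ) - c) ^ 2 := by
          refine Finset.sum_le_sum fun q hq => ?_
          rw [hBd, Finset.mem_filter, not_le] at hq
          have h6 := hq.2
          have h7 : (3 * √(P : ℝ)) ^ 2 = 9 * P := by
            rw [mul_pow, Real.sq_sqrt (by positivity)]
            norm_num
          rw [← h7, ← sq_abs ((Pair_X q : ℝ) - c)]
          gcongr
      _ ≤ ∑ q : (Fin P ↪ A) × (Fin P ↪ B), ((Pair_X q : ℝ) - c) ^ 2 :=
          Finset.sum_le_sum_of_subset_of_nonneg (Finset.subset_univ _) fun _ _ _ => sq_nonneg _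
      _ ≤ _ := hmom2
  have h6 : Gd.card + Bd.card = T := by
    rw [hGd, hBd, Finset.card_filter_add_card_filter_not, Finset.card_univ, hTc]
  have h7 : (Gd.card : ℝ) + Bd.card = T := by exact_mod_cast h6
  have h8 : (Gd.card : ℝ) * (12 * P) ≤ (P + 1) * T := by exact_mod_cast h1
  have h9 : (Bd.card : ℝ) * 3 ≤ T := by
    have : (Bd.card : ℝ) * 3 * (3 * P) ≤ T * (3 * P) := by linarith
    exact le_of_mul_le_mul_right this (by positivity)
  have h10 : (Gd.card : ℝ) * 6 ≤ T := by
    have : (Gd.card : ℝ) * 6 * (2 * P) ≤ T * (2 * P) := by nlinarith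
    exact le_of_mul_le_mul_right this (by positivity)
  linarith

end Pool.Agent.SKP
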