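import Pool.Agent.SKP.StN

/-!
# SKP Per: perturbation of the center (MP_001fdd_co)
-/

set_option autoImplicit false

namespace Pool.Agent.SKP

open scoped Classical
open Filter Topology

private theorem Per_sub (ν x y : E2) : ip ν (x - y) = ip ν x - ip ν y := by
  unfold ip
  simp only [PiLp.sub_apply]
  ring

private theorem Per_smul (ν x : E2) (a : ℝ) : ip ν (a • x) = a * ip ν x := by
  unfold ip
  simp only [PiLp.smul_apply, smul_eq_mul]
  ring

private theorem Per_smul' (ν x : E2) (a : ℝ) : ip (a • ν) x = a * ip ν x := by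
  unfold ip
  simp only [PiLp.smul_apply, smul_eq_mul]
  ring

private theorem Per_cont {X : Type} [TopologicalSpace X] {f g : X → E2} (hf : Continuous f)
    (hg : Continuous g) : Continuous fun x => ip (f x) (g x) := by
  unfold ip
  fun_prop

private theorem Per_ne {ν : E2} (h : ν ≠ 0) : ν 0 ≠ 0 ∨ ν 1 ≠ 0 := by
  by_contra h'
  push Not at h'
  apply h
  ext i
  fin_cases i
  · exact h'.1
  · exact h'.2

private theorem Per_line {n : ℕ} {P : Fin n → E2} (hP : GP P) {ν : E2} (hν : ν ≠ 0) (c : E2) :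
    (Finset.univ.filter fun x => ip ν (P x - c) = 0).card ≤ 2 := by
  by_contra h
  push Not at h
  obtain ⟨a, b, d, ha, hb, hd, hab, had, hbd⟩ := Finset.two_lt_card_iff.1 h
  rw [Finset.mem_filter] at ha hb hd
  apply hP.2 a b d hab hbd had
  have h1 : ip ν (P b - P a) = 0 := by
    have := hb.2
    have := ha.2
    rw [Per_sub] at *
    linarith
  have h2 : ip ν (P d - P a) = 0 := by
    have := hd.2
    have := ha.2
    rw [Per_sub] at *
    linarith
  unfold ip at h1 h2
  unfold cr
  rcases Per_ne hν with h0 | h0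
  · apply mul_left_cancel₀ h0
    linear_combination ((P d - P a) 1) * h1 - ((P b - P a) 1) * h2
  · apply mul_left_cancel₀ h0
    linear_combination (-((P d - P a) 0)) * h1 + ((P b - P a) 0) * h2

theorem thm_Per : Stmt_Thi → Stmt_Per := by
  intro hT k t P D c hk hP hC hD hN
  obtain ⟨v, hv⟩ := hT k P c hk hP
  have key : ∀ᶠ z : ℝ × E2 in 𝓝 ((0 : ℝ), v), ∀ ν ∈ Metric.sphere (0 : E2) 1, 0 < z.1 →
      (k ≤ (Finset.univ.filter fun a => 0 ≤ ip ν (P a - (c + z.1 • z.2))).card ∧
        ∃ i, ((D i).filter fun a => ip ν (P a - (c + z.1 • z.2)) < 0).card ≤ t + 2) := by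
    refine (isCompact_sphere (0 : E2) 1).eventually_forall_of_forall_eventually
      (P := fun (z : ℝ × E2) (ν : E2) => 0 < z.1 →
      (k ≤ (Finset.univ.filter fun a => 0 ≤ ip ν (P a - (c + z.1 • z.2))).card ∧
        ∃ i, ((D i).filter fun a => ip ν (P a - (c + z.1 • z.2)) < 0).card ≤ t + 2)) ?_
    intro ν hν
    have hν0 : ν ≠ 0 := by
      rintro rfl
      simp at hν
    have cont : ∀ a, Continuous fun w : (ℝ × E2) × E2 => ip w.2 (P a - (c + w.1.1 • w.1.2)) := by
      intro a
      exact Per_cont continuous_snd (by fun_prop)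
    have hpos : ∀ᶠ w : (ℝ × E2) × E2 in 𝓝 (((0 : ℝ), v), ν), ∀ a, 0 < ip ν (P a - c) →
        0 < ip w.2 (P a - (c + w.1.1 • w.1.2)) := by
      rw [eventually_all]
      intro a
      by_cases h : 0 < ip ν (P a - c)
      · have h1 : 0 < ip (((0 : ℝ), v), ν).2 (P a - (c + (((0 : ℝ), v), ν).1.1 •
            (((0 : ℝ), v), ν).1.2)) := by
          simpa using h
        filter_upwards [(cont a).continuousAt.eventually (lt_mem_nhds h1)] with w hw _
        exact hw
      · exact Eventually.of_forall fun w h' => absurd h' h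
    have hne : ∀ᶠ w : (ℝ × E2) × E2 in 𝓝 (((0 : ℝ), v), ν), w.2 ≠ 0 := by
      have : Continuous fun w : (ℝ × E2) × E2 => w.2 := continuous_snd
      exact this.continuousAt.eventually_ne hν0
    have hdep : ∀ᶠ w : (ℝ × E2) × E2 in 𝓝 (((0 : ℝ), v), ν), 0 < w.1.1 →
        k ≤ (Finset.univ.filter fun a => 0 ≤ ip w.2 (P a - (c + w.1.1 • w.1.2))).card := by
      by_cases hc : (Finset.univ.filter fun x => 0 < ip ν (P x - c)).card < k
      · have h1 := hv ν hν0 hc
        have h2 : Continuous fun w : (ℝ × E2) × E2 => ip w.2 w.1.2 :=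
          Per_cont continuous_snd (by fun_prop)
        filter_upwards [hne, h2.continuousAt.eventually (gt_mem_nhds
          (show ip (((0 : ℝ), v), ν).2 (((0 : ℝ), v), ν).1.2 < 0 from h1))] with w hw1 hw2 hw3
        refine (hD w.2 hw1).trans (Finset.card_le_card ?_)
        intro a ha
        rw [Finset.mem_filter] at ha ⊢
        refine ⟨Finset.mem_univ _, ?_⟩
        have e : P a - (c + w.1.1 • w.1.2) = (P a - c) - w.1.1 • w.1.2 := by abel
        rw [e, Per_sub, Per_smul]
        have := ha.2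
        nlinarith [mul_pos hw3 (neg_pos.2 hw2)]
      · push Not at hc
        filter_upwards [hpos] with w hw _
        refine hc.trans (Finset.card_le_card ?_)
        intro a ha
        rw [Finset.mem_filter] at ha ⊢
        exact ⟨Finset.mem_univ _, (hw a ha.2).le⟩
    obtain ⟨i, hi⟩ := hN ν hν0
    filter_upwards [hpos, hdep] with w h1 h2 h3
    refine ⟨h2 h3, i, ?_⟩
    have h4 : ((D i).filter fun a => ip w.2 (P a - (c + w.1.1 • w.1.2)) < 0) ⊆
        ((D i).filter fun a => ip ν (P a - c) < 0) ∪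
          (Finset.univ.filter fun x => ip ν (P x - c) = 0) := by
      intro a ha
      rw [Finset.mem_filter] at ha
      rw [Finset.mem_union, Finset.mem_filter, Finset.mem_filter]
      rcases lt_trichotomy (ip ν (P a - c)) 0 with h | h | h
      · exact Or.inl ⟨ha.1, h⟩
      · exact Or.inr ⟨Finset.mem_univ _, h⟩
      · exact absurd (h1 a h) (not_lt.2 ha.2.le)
    refine (Finset.card_le_card h4).trans ((Finset.card_union_le _ _).trans ?_)
    exact Nat.add_le_add hi (Per_line hP hν0 c)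
  obtain ⟨δ, hδ, hball⟩ := Metric.eventually_nhds_iff.1 key
  obtain ⟨c', hc', hG⟩ := hC (c + (δ / 2) • v) (δ / 2 * δ) (by positivity)
  have hδ2 : δ / 2 ≠ 0 := by positivity
  have e1 : c + (δ / 2) • ((δ / 2)⁻¹ • (c' - c)) = c' := by
    rw [smul_smul, mul_inv_cancel₀ hδ2, one_smul]
    abel
  have hd : dist ((δ / 2), (δ / 2)⁻¹ • (c' - c)) ((0 : ℝ), v) < δ := by
    rw [Prod.dist_eq, max_lt_iff]
    constructor
    · rw [Real.dist_eq, sub_zero, abs_of_pos (by positivity)]
      linarith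
    · show dist ((δ / 2)⁻¹ • (c' - c)) v < δ
      have e2 : (δ / 2)⁻¹ • (c' - c) - v = (δ / 2)⁻¹ • (c' - (c + (δ / 2) • v)) := by
        rw [← sub_sub, smul_sub (δ / 2)⁻¹ (c' - c), smul_smul, inv_mul_cancel₀ hδ2, one_smul]
      rw [dist_eq_norm, e2, norm_smul, ← dist_eq_norm, norm_inv, Real.norm_of_nonneg (by positivity),
        inv_mul_lt_iff₀ (by positivity)]
      exact hc'
  have hfin := hball hd
  have hunit : ∀ ν : E2, ν ≠ 0 → (‖ν‖)⁻¹ • ν ∈ Metric.sphere (0 : E2) 1 := by
    intro ν hν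
    rw [mem_sphere_zero_iff_norm, norm_smul, norm_inv, norm_norm,
      inv_mul_cancel₀ (norm_ne_zero_iff.2 hν)]
  refine ⟨c', hG, ?_, ?_⟩
  · intro ν hν
    have h1 := (hfin _ (hunit ν hν) (by positivity)).1
    simp only [e1, Per_smul'] at h1
    have hp : 0 < (‖ν‖)⁻¹ := inv_pos.2 (norm_pos_iff.2 hν)
    simpa only [mul_nonneg_iff_of_pos_left hp] using h1
  · intro ν hν
    obtain ⟨i, hi⟩ := (hfin _ (hunit ν hν) (by positivity)).2
    refine ⟨i, ?_⟩
    simp only [e1, Per_smul'] at hi
    have hp : 0 < (‖ν‖)⁻¹ := inv_pos.2 (norm_pos_iff.2 hν)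
    have h3 : ∀ y : ℝ, (‖ν‖)⁻¹ * y < 0 ↔ y < 0 := fun y => by
      rw [← not_le, mul_nonneg_iff_of_pos_left hp, not_le]
    simpa only [h3] using hi

end Pool.Agent.SKP
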