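import Pool.Agent.SKP.StS

/-!
# SKP, Rbw: good triples inside three clusters are rainbow
-/

set_option autoImplicit false

namespace Pool.Agent.SKP

open scoped Classical

private lemma Rbw_mem {n : ℕ} (ε : Fin n → Bool) (r : ℕ) (a : Fin n) :
    a ∈ hp ε r ↔ (ε a = true ∧ r ≤ (a : ℕ)) ∨ (ε a = false ∧ (a : ℕ) < r) := by
  simp [hp]

private lemma Rbw_succ {n : ℕ} (ε : Fin n → Bool) {y z : Fin n} (h : z ≠ y) :
    z ∈ hp ε ((y : ℕ) + 1) ↔ z ∈ hp ε y := by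
  have h' : (z : ℕ) ≠ y := fun e => h (Fin.ext e)
  rw [Rbw_mem, Rbw_mem]
  have e1 : (y : ℕ) + 1 ≤ z ↔ (y : ℕ) ≤ z := by omega
  have e2 : (z : ℕ) < y + 1 ↔ (z : ℕ) < y := by omega
  rw [e1, e2]

private lemma Rbw_self {n : ℕ} (ε : Fin n → Bool) (y : Fin n) :
    y ∈ hp ε y ↔ ¬ y ∈ hp ε ((y : ℕ) + 1) := by
  rw [Rbw_mem, Rbw_mem]
  rcases Bool.eq_false_or_eq_true (ε y) with h | h <;> simp [h]

private lemma Rbw_ne {n : ℕ} {x y z : Fin n} (h : ({x, y, z} : Finset (Fin n)).card = 3) :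
    x ≠ y ∧ x ≠ z ∧ y ≠ z := by
  refine ⟨?_, ?_, ?_⟩
  · rintro rfl
    have h1 : ({x, x, z} : Finset (Fin n)).card ≤ 2 := by
      rw [Finset.insert_eq_of_mem (Finset.mem_insert_self x _)]
      exact Finset.card_le_two
    omega
  · rintro rfl
    have h1 : ({x, y, x} : Finset (Fin n)).card ≤ 2 := by
      rw [Finset.insert_eq_of_mem (by simp : x ∈ ({y, x} : Finset (Fin n)))]
      exact Finset.card_le_two
    omega
  · rintro rfl
    have h1 : ({x, y, y} : Finset (Fin n)).card ≤ 2 := by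
      rw [Finset.insert_eq_of_mem (by simp : y ∈ ({y} : Finset (Fin n)))]
      exact Finset.card_le_two
    omega

private lemma Rbw_bool {Y Z W V : Prop} (h : Y ↔ ¬ V) (h1 : Y ∨ Z ∨ W) (h2 : ¬ Y ∨ ¬ Z ∨ ¬ W)
    (h3 : V ∨ Z ∨ W) (h4 : ¬ V ∨ ¬ Z ∨ ¬ W) : Z ↔ ¬ W := by
  by_cases a : Y <;> by_cases b : Z <;> by_cases c : W <;> by_cases d : V <;> simp_all

private lemma Rbw_bool3 {Y Z W Q : Prop} (h1 : Y ↔ ¬ Q) (h2 : Z ↔ ¬ Q) (h3 : W ↔ ¬ Q)
    (h4 : Y ∨ Z ∨ W) (h5 : ¬ Y ∨ ¬ Z ∨ ¬ W) : False := by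
  by_cases a : Y <;> by_cases b : Z <;> by_cases c : W <;> by_cases d : Q <;> simp_all

private lemma Rbw_F {n : ℕ} {ε : Fin n → Bool} {y z z' : Fin n} (h : Gt ε {y, z, z'}) :
    z ∈ hp ε y ↔ ¬ z' ∈ hp ε y := by
  obtain ⟨hc, hr⟩ := h
  obtain ⟨n1, n2, -⟩ := Rbw_ne hc
  obtain ⟨⟨w, hw⟩, ⟨w', hw'⟩⟩ := hr y
  obtain ⟨⟨v, hv⟩, ⟨v', hv'⟩⟩ := hr ((y : ℕ) + 1)
  rw [Finset.mem_inter, Finset.mem_insert, Finset.mem_insert, Finset.mem_singleton] at hw hv
  rw [Finset.mem_sdiff, Finset.mem_insert, Finset.mem_insert, Finset.mem_singleton] at hw' hv'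
  have s1 := Rbw_succ ε n1.symm
  have s2 := Rbw_succ ε n2.symm
  have s3 := Rbw_self ε y
  have b1 : y ∈ hp ε y ∨ z ∈ hp ε y ∨ z' ∈ hp ε y := by
    rcases hw with ⟨e | e | e, a⟩ <;> rw [e] at a
    · exact Or.inl a
    · exact Or.inr (Or.inl a)
    · exact Or.inr (Or.inr a)
  have b2 : ¬ y ∈ hp ε y ∨ ¬ z ∈ hp ε y ∨ ¬ z' ∈ hp ε y := by
    rcases hw' with ⟨e | e | e, a⟩ <;> rw [e] at a
    · exact Or.inl a
    · exact Or.inr (Or.inl a)
    · exact Or.inr (Or.inr a)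
  have b3 : y ∈ hp ε ((y : ℕ) + 1) ∨ z ∈ hp ε ((y : ℕ) + 1) ∨ z' ∈ hp ε ((y : ℕ) + 1) := by
    rcases hv with ⟨e | e | e, a⟩ <;> rw [e] at a
    · exact Or.inl a
    · exact Or.inr (Or.inl a)
    · exact Or.inr (Or.inr a)
  have b4 : ¬ y ∈ hp ε ((y : ℕ) + 1) ∨ ¬ z ∈ hp ε ((y : ℕ) + 1) ∨
      ¬ z' ∈ hp ε ((y : ℕ) + 1) := by
    rcases hv' with ⟨e | e | e, a⟩ <;> rw [e] at a
    · exact Or.inl a
    · exact Or.inr (Or.inl a)
    · exact Or.inr (Or.inr a)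
  rw [s1, s2] at b3 b4
  exact Rbw_bool s3 b1 b2 b3 b4

private lemma Rbw_fin : ∀ j l m : Fin 3, j ≠ l → l ≠ m → j ≠ m →
    ({j, l, m} : Finset (Fin 3)) = {0, 1, 2} := by decide

private lemma Rbw_third : ∀ j l : Fin 3, j ≠ l → ∃ m : Fin 3, l ≠ m ∧ j ≠ m := by decide

private lemma Rbw_rb {n : ℕ} {ε : Fin n → Bool} {D : Fin 3 → Finset (Fin n)}
    (h : ∀ x : Fin 3 → Fin n, (∀ i, x i ∈ D i) → Gt ε {x 0, x 1, x 2}) {j l m : Fin 3}
    (h1 : j ≠ l) (h2 : l ≠ m) (h3 : j ≠ m) {p q r : Fin n} (hp : p ∈ D j) (hq : q ∈ D l)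
    (hr : r ∈ D m) : Gt ε {p, q, r} := by
  have hm : ∀ i : Fin 3, i = j ∨ i = l ∨ i = m := by
    intro i
    have h4 : i ∈ ({j, l, m} : Finset (Fin 3)) := by
      rw [Rbw_fin j l m h1 h2 h3]
      fin_cases i <;> simp
    simpa using h4
  have h5 := h (fun i => if i = j then p else if i = l then q else r) (by
    intro i
    rcases hm i with rfl | rfl | rfl
    · simpa using hp
    · simpa [h1.symm] using hq
    · simpa [h2.symm, h3.symm] using hr)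
  have h6 : Finset.image (fun i => if i = j then p else if i = l then q else r)
      ({j, l, m} : Finset (Fin 3)) = {p, q, r} := by
    rw [Finset.image_insert, Finset.image_insert, Finset.image_singleton]
    simp [h1.symm, h2.symm, h3.symm]
  rw [Rbw_fin j l m h1 h2 h3, Finset.image_insert, Finset.image_insert,
    Finset.image_singleton] at h6
  rw [← h6]
  exact h5

theorem thm_Rbw : Stmt_Rbw := by
  intro n ε D hD hne hR t ht hsub i
  by_contra hi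
  rw [Finset.not_nonempty_iff_eq_empty] at hi
  -- case of three elements in one cluster
  have three : ∀ (j : Fin 3) (x x' y : Fin n), x ∈ D j → x' ∈ D j → y ∈ D j →
      Gt ε {x, x', y} → False := by
    intro j x x' y hx hx' hy hg
    obtain ⟨l, hl⟩ : ∃ l : Fin 3, j ≠ l := by
      exact (by decide : ∀ j : Fin 3, ∃ l : Fin 3, j ≠ l) j
    obtain ⟨m, hlm, hjm⟩ := Rbw_third j l hl
    obtain ⟨p, hp'⟩ := hne l
    obtain ⟨q, hq⟩ := hne m
    have f1 := Rbw_F (Rbw_rb hR hl.symm hjm hlm hp' hx hq)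
    have f2 := Rbw_F (Rbw_rb hR hl.symm hjm hlm hp' hx' hq)
    have f3 := Rbw_F (Rbw_rb hR hl.symm hjm hlm hp' hy hq)
    obtain ⟨⟨w, hw⟩, ⟨w', hw'⟩⟩ := hg.2 p
    rw [Finset.mem_inter, Finset.mem_insert, Finset.mem_insert, Finset.mem_singleton] at hw
    rw [Finset.mem_sdiff, Finset.mem_insert, Finset.mem_insert, Finset.mem_singleton] at hw'
    refine Rbw_bool3 f1 f2 f3 ?_ ?_
    · rcases hw with ⟨e | e | e, a⟩ <;> rw [e] at a
      · exact Or.inl a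
      · exact Or.inr (Or.inl a)
      · exact Or.inr (Or.inr a)
    · rcases hw' with ⟨e | e | e, a⟩ <;> rw [e] at a
      · exact Or.inl a
      · exact Or.inr (Or.inl a)
      · exact Or.inr (Or.inr a)
  -- case of two clusters
  have two : ∀ (j l : Fin 3) (x x' y : Fin n), j ≠ l → x ∈ D j → x' ∈ D j → y ∈ D l →
      Gt ε {y, x, x'} → False := by
    intro j l x x' y hjl hx hx' hy hg
    obtain ⟨m, hlm, hjm⟩ := Rbw_third j l hjl
    obtain ⟨q, hq⟩ := hne m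
    have f1 := Rbw_F (Rbw_rb hR hjl.symm hjm hlm hy hx hq)
    have f2 := Rbw_F (Rbw_rb hR hjl.symm hjm hlm hy hx' hq)
    have f3 := Rbw_F hg
    rw [f1, f2] at f3
    by_cases h0 : q ∈ hp ε y
    · exact (f3.2 (fun h1 => h1 h0)) h0
    · exact (f3.1 h0) h0
  obtain ⟨j, l, hjl, hall⟩ : ∃ j l : Fin 3, j ≠ l ∧ ∀ a ∈ t, a ∈ D j ∨ a ∈ D l := by
    have hall : ∀ a ∈ t, ∃ k : Fin 3, k ≠ i ∧ a ∈ D k := by
      intro a ha
      have h1 := hsub ha
      rw [Finset.mem_union, Finset.mem_union] at h1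
      have h2 : ¬ a ∈ D i := by
        intro h3
        have h4 : a ∈ t ∩ D i := Finset.mem_inter.2 ⟨ha, h3⟩
        rw [hi] at h4
        exact absurd h4 (Finset.notMem_empty a)
      rcases h1 with (h1 | h1) | h1
      · exact ⟨0, fun e => h2 (e ▸ h1), h1⟩
      · exact ⟨1, fun e => h2 (e ▸ h1), h1⟩
      · exact ⟨2, fun e => h2 (e ▸ h1), h1⟩
    have h3 : ∀ i : Fin 3, ∃ j l : Fin 3, j ≠ l ∧ ∀ k : Fin 3, k ≠ i → k = j ∨ k = l := by
      decide
    obtain ⟨j, l, hjl, h4⟩ := h3 i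
    refine ⟨j, l, hjl, fun a ha => ?_⟩
    obtain ⟨k, hk, hk'⟩ := hall a ha
    rcases h4 k hk with rfl | rfl
    · exact Or.inl hk'
    · exact Or.inr hk'
  obtain ⟨a, b, c, -, -, -, rfl⟩ := Finset.card_eq_three.1 ht.1
  have p1 : ({a, b, c} : Finset (Fin n)) = {b, a, c} := Finset.insert_comm a b {c}
  have p2 : ({a, b, c} : Finset (Fin n)) = {c, a, b} := by
    ext x; simp only [Finset.mem_insert, Finset.mem_singleton]; tauto
  have ht1 : Gt ε {b, a, c} := p1 ▸ ht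
  have ht2 : Gt ε {c, a, b} := p2 ▸ ht
  have ha := hall a (by simp)
  have hb := hall b (by simp)
  have hc := hall c (by simp)
  rcases ha with ha | ha <;> rcases hb with hb | hb <;> rcases hc with hc | hc
  · exact three j a b c ha hb hc ht
  · exact two j l a b c hjl ha hb hc ht2
  · exact two j l a c b hjl ha hc hb ht1
  · exact two l j b c a hjl.symm hb hc ha ht
  · exact two j l b c a hjl hb hc ha ht
  · exact two l j a c b hjl.symm ha hc hb ht1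
  · exact two l j a b c hjl.symm ha hb hc ht2
  · exact three l a b c ha hb hc ht

end Pool.Agent.SKP
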