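import Pool.Agent.SKP.StC

/-!
# Sierksma's bound in the plane (MP_001fdd_co), module Reg: removal of the regularization
-/

set_option autoImplicit false

namespace Pool.Agent.SKP

open scoped Classical

namespace Reg

variable {k : ℕ} {w : Fin (3 * k) → Fin 3} {κ : Fin (3 * k) → Bool}

lemma uv_one (hk : 1 ≤ k) (κ : Fin (3 * k) → Bool) :
    uu κ + vv κ = 1 ∧ 0 ≤ uu κ ∧ 0 ≤ vv κ := by
  have hk0 : (0 : ℝ) < ((3 * k : ℕ) : ℝ) := by
    have : 0 < 3 * k := by omega
    exact_mod_cast this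
  have h1 : (Finset.univ.filter fun a => κ a = true).card +
      (Finset.univ.filter fun a => κ a = false).card = 3 * k := by
    have h2 := Finset.card_filter_add_card_filter_not (s := (Finset.univ : Finset (Fin (3 * k))))
      (fun a => κ a = true)
    have h3 : (Finset.univ.filter fun a => ¬ κ a = true) =
        (Finset.univ.filter fun a => κ a = false) := by
      ext a
      simp
    rw [h3, Finset.card_univ, Fintype.card_fin] at h2
    exact h2
  have h2 : ((Finset.univ.filter fun a => κ a = true).card : ℝ) +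
      ((Finset.univ.filter fun a => κ a = false).card : ℝ) = ((3 * k : ℕ) : ℝ) := by
    exact_mod_cast h1
  refine ⟨?_, ?_, ?_⟩
  · unfold uu vv
    rw [← add_div, h2, div_self hk0.ne']
  · unfold uu
    positivity
  · unfold vv
    positivity

lemma cN_le (w : Fin (3 * k) → Fin 3) (κ : Fin (3 * k) → Bool) (i : Fin 3) :
    (cN w κ i : ℝ) ≤ ((sA w κ i).card : ℝ) * (sB w κ i).card := by
  have h : cN w κ i ≤ (sA w κ i).card * (sB w κ i).card := by
    unfold cN
    refine (Finset.card_filter_le _ _).trans ?_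
    rw [Finset.card_product]
  exact_mod_cast h

lemma ss_mem (w : Fin (3 * k) → Fin 3) (κ : Fin (3 * k) → Bool) (i : Fin 3) :
    0 ≤ ss w κ i ∧ ss w κ i ≤ 1 := by
  unfold ss
  exact ⟨by positivity, div_le_one_of_le₀ (cN_le w κ i) (by positivity)⟩

lemma st_mem (hk : 1 ≤ k) (w : Fin (3 * k) → Fin 3) (κ : Fin (3 * k) → Bool) (i : Fin 3) :
    0 ≤ st k w κ i ∧ st k w κ i ≤ 1 := by
  have hk0 : (0 : ℝ) < k := by exact_mod_cast hk
  have hM : 0 < (k : ℝ) * √k := by positivity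
  unfold st
  refine ⟨by positivity, div_le_one_of_le₀ ?_ (by positivity)⟩
  have := cN_le w κ i
  linarith

/-- the difference of the two proportions -/
lemma diff_le {a b N M : ℝ} (ha : 0 < a) (hb : 0 < b) (hM : 0 < M) (hN0 : 0 ≤ N) (hN : N ≤ a * b) :
    |(N + M / 2) / (a * b + M) - N / (a * b)| ≤ M / (2 * (a * b)) := by
  have hab : 0 < a * b := by positivity
  have e : (N + M / 2) / (a * b + M) - N / (a * b) =
      M * (a * b / 2 - N) / ((a * b) * (a * b + M)) := by
    field_simp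
    ring
  rw [e, abs_div, abs_mul, abs_of_pos hM, abs_of_pos (by positivity : 0 < a * b * (a * b + M)),
    div_le_div_iff₀ (by positivity) (by positivity)]
  have h1 : |a * b / 2 - N| ≤ a * b / 2 := by
    rw [abs_le]
    constructor <;> linarith
  calc M * |a * b / 2 - N| * (2 * (a * b)) ≤ M * (a * b / 2) * (2 * (a * b)) := by gcongr
    _ ≤ M * (a * b * (a * b + M)) := by
        have : 0 ≤ M * (a * b) * M := by positivity
        nlinarith

lemma key (hk : 1 ≤ k) {C₁ : ℝ} (hC : 0 < C₁)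
    (h : ∀ i, |eA k w κ i| ≤ C₁ / √k ∧ |eB k w κ i| ≤ C₁ / √k) (j : Fin 3) :
    uu κ * vv κ * |st k w κ j - ss w κ j| ≤ (4 * C₁ + 2) / √k := by
  have hk0 : (0 : ℝ) < k := by exact_mod_cast hk
  have hs0 : 0 < √(k : ℝ) := Real.sqrt_pos.2 hk0
  obtain ⟨h1, hu0, hv0⟩ := uv_one hk κ
  have hu1 : uu κ ≤ 1 := by linarith
  have hv1 : vv κ ≤ 1 := by linarith
  obtain ⟨p1, p2⟩ := ss_mem w κ j
  obtain ⟨q1, q2⟩ := st_mem hk w κ j
  have hd : |st k w κ j - ss w κ j| ≤ 1 := by
    rw [abs_le]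
    constructor <;> linarith
  have hd0 : 0 ≤ |st k w κ j - ss w κ j| := abs_nonneg _
  have hcmp : 4 * C₁ / √k ≤ (4 * C₁ + 2) / √k := by gcongr; linarith
  by_cases hu : uu κ < 4 * C₁ / √k
  · calc uu κ * vv κ * |st k w κ j - ss w κ j| ≤ uu κ * 1 * 1 := by gcongr
      _ ≤ (4 * C₁ + 2) / √k := by linarith
  by_cases hv : vv κ < 4 * C₁ / √k
  · calc uu κ * vv κ * |st k w κ j - ss w κ j| ≤ 1 * vv κ * 1 := by gcongr
      _ ≤ (4 * C₁ + 2) / √k := by linarith
  rw [not_lt] at hu hv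
  have hq : 0 < 4 * C₁ / √k := by positivity
  have hup : 0 < uu κ := lt_of_lt_of_le hq hu
  have hvp : 0 < vv κ := lt_of_lt_of_le hq hv
  have hvu : vv κ = 1 - uu κ := by linarith
  -- the bound of d
  obtain ⟨r1, r2⟩ := st_mem hk w κ (j + 1)
  obtain ⟨r3, r4⟩ := st_mem hk w κ (j + 2)
  have hC4 : C₁ / √k ≤ uu κ / 4 := by
    have : 4 * C₁ / √k = 4 * (C₁ / √k) := by ring
    rw [this] at hu
    linarith
  have hC5 : C₁ / √k ≤ vv κ / 4 := by
    have : 4 * C₁ / √k = 4 * (C₁ / √k) := by ring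
    rw [this] at hv
    linarith
  have hfa : 3 / 4 * uu κ ≤ fA (uu κ) (vv κ) (st k w κ (j + 1) - st k w κ (j + 2)) := by
    unfold fA
    have e1 : 0 ≤ uu κ ^ 2 * vv κ * (1 + (st k w κ (j + 1) - st k w κ (j + 2))) := by
      apply mul_nonneg (by positivity)
      linarith
    have e2 : 3 / 4 * uu κ ≤ uu κ ^ 3 + uu κ * vv κ := by
      rw [hvu]
      nlinarith [sq_nonneg (uu κ - 1 / 2), mul_nonneg hu0 (sq_nonneg (uu κ - 1 / 2))]
    linarith
  have hfb : 3 / 4 * vv κ ≤ fB (uu κ) (vv κ) (st k w κ (j + 1) - st k w κ (j + 2)) := by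
    unfold fB
    have e1 : 0 ≤ uu κ * vv κ ^ 2 * (1 - (st k w κ (j + 1) - st k w κ (j + 2))) := by
      apply mul_nonneg (by positivity)
      linarith
    have e2 : 3 / 4 * vv κ ≤ vv κ ^ 3 + uu κ * vv κ := by
      have hu' : uu κ = 1 - vv κ := by linarith
      rw [hu']
      nlinarith [sq_nonneg (vv κ - 1 / 2), mul_nonneg hv0 (sq_nonneg (vv κ - 1 / 2))]
    linarith
  have ha : k * uu κ / 2 ≤ ((sA w κ j).card : ℝ) := by
    have h2 := (abs_le.1 (h j).1).1
    unfold eA at h2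
    have h3 : uu κ / 2 ≤ ((sA w κ j).card : ℝ) / k := by linarith
    rw [le_div_iff₀ hk0] at h3
    linarith
  have hb : k * vv κ / 2 ≤ ((sB w κ j).card : ℝ) := by
    have h2 := (abs_le.1 (h j).2).1
    unfold eB at h2
    have h3 : vv κ / 2 ≤ ((sB w κ j).card : ℝ) / k := by linarith
    rw [le_div_iff₀ hk0] at h3
    linarith
  have ha0 : 0 < ((sA w κ j).card : ℝ) := lt_of_lt_of_le (by positivity) ha
  have hb0 : 0 < ((sB w κ j).card : ℝ) := lt_of_lt_of_le (by positivity) hb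
  have h5 := diff_le ha0 hb0 (by positivity : 0 < (k : ℝ) * √k) (Nat.cast_nonneg (cN w κ j))
    (cN_le w κ j)
  have h6 : (k * uu κ / 2) * (k * vv κ / 2) ≤ ((sA w κ j).card : ℝ) * (sB w κ j).card :=
    mul_le_mul ha hb (by positivity) ha0.le
  have h7 : uu κ * vv κ * ((k : ℝ) * √k / (2 * (((sA w κ j).card : ℝ) * (sB w κ j).card))) ≤
      2 / √k := by
    rw [mul_div_assoc', div_le_div_iff₀ (by positivity) hs0]
    have h8 : √(k : ℝ) * √k = k := Real.mul_self_sqrt hk0.le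
    calc uu κ * vv κ * ((k : ℝ) * √k) * √k = 4 * ((k * uu κ / 2) * (k * vv κ / 2)) * ((√k * √k) / k) := by
          field_simp
          norm_num
      _ = 4 * ((k * uu κ / 2) * (k * vv κ / 2)) := by
          rw [h8, div_self hk0.ne', mul_one]
      _ ≤ 4 * (((sA w κ j).card : ℝ) * (sB w κ j).card) := by linarith
      _ = 2 * (2 * (((sA w κ j).card : ℝ) * (sB w κ j).card)) := by ring
  calc uu κ * vv κ * |st k w κ j - ss w κ j|
      ≤ uu κ * vv κ * ((k : ℝ) * √k / (2 * (((sA w κ j).card : ℝ) * (sB w κ j).card))) := by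
        unfold st ss
        gcongr
    _ ≤ 2 / √k := h7
    _ ≤ (4 * C₁ + 2) / √k := by gcongr; linarith

end Reg

open Reg in
theorem thm_Reg : Stmt_Reg := by
  intro C₁ hC
  refine ⟨9 * C₁ + 4, by positivity, ?_⟩
  intro k w κ hk h i
  have hk0 : (0 : ℝ) < k := by exact_mod_cast hk
  have hs0 : 0 < √(k : ℝ) := Real.sqrt_pos.2 hk0
  have h8 : √(k : ℝ) * √k = k := Real.mul_self_sqrt hk0.le
  obtain ⟨h1, hu0, hv0⟩ := uv_one hk κ
  have k1 := key hk hC h (i + 1)
  have k2 := key hk hC h (i + 2)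
  obtain ⟨hA, hB⟩ := h i
  have hks : (k : ℝ) / √k = √k := by
    rw [div_eq_iff hs0.ne']
    exact h8.symm
  set D := (st k w κ (i + 1) - st k w κ (i + 2)) - (ss w κ (i + 1) - ss w κ (i + 2)) with hD
  have hDle : uu κ * vv κ * |D| ≤ 2 * ((4 * C₁ + 2) / √k) := by
    have e : D = (st k w κ (i + 1) - ss w κ (i + 1)) - (st k w κ (i + 2) - ss w κ (i + 2)) := by
      rw [hD]; ring
    have h2 : |D| ≤ |st k w κ (i + 1) - ss w κ (i + 1)| + |st k w κ (i + 2) - ss w κ (i + 2)| := by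
      rw [e]
      exact abs_sub _ _
    calc uu κ * vv κ * |D| ≤ uu κ * vv κ *
          (|st k w κ (i + 1) - ss w κ (i + 1)| + |st k w κ (i + 2) - ss w κ (i + 2)|) := by gcongr
      _ ≤ _ := by linarith
  have scale : ∀ x : ℝ, |x| ≤ C₁ / √k + 2 * ((4 * C₁ + 2) / √k) → |k * x| ≤ (9 * C₁ + 4) * √k := by
    intro x hx
    rw [abs_mul, abs_of_pos hk0]
    calc (k : ℝ) * |x| ≤ k * (C₁ / √k + 2 * ((4 * C₁ + 2) / √k)) := by gcongr
      _ = (9 * C₁ + 4) * (k / √k) := by ring
      _ = (9 * C₁ + 4) * √k := by rw [hks]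
  constructor
  · have e : ((sA w κ i).card : ℝ) - k * fA (uu κ) (vv κ) (ss w κ (i + 1) - ss w κ (i + 2)) =
        k * (eA k w κ i + uu κ * (uu κ * vv κ * D)) := by
      unfold eA fA
      rw [hD]
      field_simp
      ring
    rw [e]
    apply scale
    refine (abs_add_le _ _).trans (add_le_add hA ?_)
    rw [abs_mul, abs_mul, abs_of_nonneg hu0, abs_of_nonneg (by positivity : 0 ≤ uu κ * vv κ)]
    calc uu κ * (uu κ * vv κ * |D|) ≤ 1 * (uu κ * vv κ * |D|) := by
          gcongr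
          linarith
      _ ≤ _ := by rw [one_mul]; exact hDle
  · have e : ((sB w κ i).card : ℝ) - k * fB (uu κ) (vv κ) (ss w κ (i + 1) - ss w κ (i + 2)) =
        k * (eB k w κ i + -(vv κ * (uu κ * vv κ * D))) := by
      unfold eB fB
      rw [hD]
      field_simp
      ring
    rw [e]
    apply scale
    refine (abs_add_le _ _).trans (add_le_add hB ?_)
    rw [abs_neg, abs_mul, abs_mul, abs_of_nonneg hv0, abs_of_nonneg (by positivity : 0 ≤ uu κ * vv κ)]
    calc vv κ * (uu κ * vv κ * |D|) ≤ 1 * (uu κ * vv κ * |D|) := by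
          gcongr
          linarith
      _ ≤ _ := by rw [one_mul]; exact hDle

end Pool.Agent.SKP
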