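import Pool.Agent.SKP.StS

/-!
# SKP Res: the adaptive reservoir (MP_001fdd_co)
-/

set_option autoImplicit false

namespace Pool.Agent.SKP

open scoped Classical

/-- a half plane or its complement -/
private noncomputable def ResH {n : ℕ} (ε : Fin n → Bool) (b : Bool) (r : ℕ) : Finset (Fin n) :=
  if b = true then hp ε r else (hp ε r)ᶜ

private theorem Res_mem {n : ℕ} (ε : Fin n → Bool) (b : Bool) (r r' : ℕ) (a : Fin n)
    (h : a ∈ hp ε r ↔ a ∈ hp ε r') : a ∈ ResH ε b r ↔ a ∈ ResH ε b r' := by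
  unfold ResH
  split_ifs
  · exact h
  · rw [Finset.mem_compl, Finset.mem_compl, h]

private theorem Res_good {n : ℕ} {ε : Fin n → Bool} {T : Finset (Fin n)} (hT : Gt ε T) (b : Bool)
    (r : ℕ) : 1 ≤ (T ∩ ResH ε b r).card ∧ (T ∩ ResH ε b r).card ≤ 2 := by
  obtain ⟨h3, h⟩ := hT
  obtain ⟨h1, h2⟩ := h r
  have c1 := Finset.card_pos.2 h1
  have c2 := Finset.card_pos.2 h2
  have c3 := Finset.card_sdiff_add_card_inter T (hp ε r)
  unfold ResH
  split_ifs
  · omega
  · have e : T ∩ (hp ε r)ᶜ = T \ hp ε r := by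
      rw [Finset.sdiff_eq_inter_compl]
    rw [e]
    omega

private theorem Res_sum {n : ℕ} {M : Finset (Finset (Fin n))}
    (hd : ∀ t ∈ M, ∀ t' ∈ M, t ≠ t' → Disjoint t t') (H : Finset (Fin n)) :
    (M.biUnion id ∩ H).card = ∑ T ∈ M, (T ∩ H).card := by
  rw [Finset.biUnion_inter, Finset.card_biUnion]
  · rfl
  · intro x hx y hy hxy
    exact (hd x hx y hy hxy).mono Finset.inter_subset_left Finset.inter_subset_left

private theorem Res_two {n : ℕ} {M : Finset (Finset (Fin n))} {H : Finset (Fin n)}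
    (h : ∀ T ∈ M, 1 ≤ (T ∩ H).card ∧ (T ∩ H).card ≤ 2) :
    ∑ T ∈ M, (T ∩ H).card = M.card + (M.filter fun T => (T ∩ H).card = 2).card := by
  rw [Finset.card_filter, Finset.card_eq_sum_ones, ← Finset.sum_add_distrib]
  refine Finset.sum_congr rfl fun T hT => ?_
  obtain ⟨h1, h2⟩ := h T hT
  split_ifs with h3
  · omega
  · omega

private theorem Res_card {n : ℕ} {M : Finset (Finset (Fin n))}
    (hd : ∀ t ∈ M, ∀ t' ∈ M, t ≠ t' → Disjoint t t') (h : ∀ t ∈ M, t.card = 3) :
    (M.biUnion id).card = 3 * M.card := by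
  have h1 := Finset.card_biUnion (s := M) (t := id) hd
  have h2 : ∑ u ∈ M, (id u : Finset (Fin n)).card = ∑ _u ∈ M, 3 :=
    Finset.sum_congr rfl (fun T hT => h T hT)
  rw [h1, h2, Finset.sum_const, smul_eq_mul, mul_comm]

theorem thm_Res (hB : Stmt_Bir) : Stmt_Res := by
  intro k m σ ε hm h8 hσk h4 hhp M hM
  unfold Pk at hM
  rw [Finset.mem_filter] at hM
  obtain ⟨-, hMc, hMg, hMd⟩ := hM
  set E := k - m with hE
  set g := σ / 8 with hg
  have hg1 : 1 ≤ g := by omega
  set Λ := (M.biUnion id)ᶜ with hΛ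
  have hM3 : (M.biUnion id).card = 3 * m := by
    rw [Res_card hMd (fun T hT => (hMg T hT).1), hMc]
  have hΛc : Λ.card = 3 * E := by
    rw [hΛ, Finset.card_compl, Fintype.card_fin, hM3]
    omega
  have hHc : ∀ b r, k + σ ≤ (ResH ε b r).card := by
    intro b r
    obtain ⟨h1, h2⟩ := hhp r
    unfold ResH
    split_ifs
    · exact h1
    · rw [Finset.card_compl, Fintype.card_fin]
      omega
  -- many members with two elements
  have hW : ∀ b r, σ ≤ (M.filter fun T => (T ∩ ResH ε b r).card = 2).card + 2 * E := by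
    intro b r
    have h1 := hHc b r
    have h2 : (ResH ε b r).card = (M.biUnion id ∩ ResH ε b r).card + (Λ ∩ ResH ε b r).card := by
      have h3 := Finset.card_sdiff_add_card_inter (ResH ε b r) (M.biUnion id)
      rw [Finset.inter_comm (ResH ε b r)] at h3
      have h4 : Λ ∩ ResH ε b r = ResH ε b r \ M.biUnion id := by
        rw [hΛ, Finset.inter_comm, Finset.sdiff_eq_inter_compl]
      rw [h4]
      omega
    rw [Res_sum hMd, Res_two (fun T hT => Res_good (hMg T hT) b r), hMc] at h2
    have h5 : (Λ ∩ ResH ε b r).card ≤ 3 * E := by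
      rw [← hΛc]
      exact Finset.card_le_card Finset.inter_subset_left
    omega
  -- members which meet an interval
  have hI : ∀ i : ℕ, (M.filter fun T => ∃ a : Fin (3 * k), a ∈ T ∧
      i * g ≤ (a : ℕ) ∧ (a : ℕ) < (i + 1) * g).card ≤
      g := by
    intro i
    have h1 : ∀ T : Finset (Fin (3 * k)), ∃ a : ℕ, (∃ a' : Fin (3 * k), a' ∈ T ∧
        i * g ≤ (a' : ℕ) ∧ (a' : ℕ) < (i + 1) * g) → ∃ a' : Fin (3 * k), a' ∈ T ∧ (a' : ℕ) = a ∧
        i * g ≤ a ∧ a < (i + 1) * g := by
      intro T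
      by_cases h : ∃ a' : Fin (3 * k), a' ∈ T ∧ i * g ≤ (a' : ℕ) ∧ (a' : ℕ) < (i + 1) * g
      · obtain ⟨a', ha', hb⟩ := h
        exact ⟨(a' : ℕ), fun _ => ⟨a', ha', rfl, hb.1, hb.2⟩⟩
      · exact ⟨0, fun h' => absurd h' h⟩
    choose p hp' using h1
    have h2 : (Finset.Ico (i * g) ((i + 1) * g)).card = g := by
      rw [Nat.card_Ico, add_mul, one_mul]
      omega
    refine (Finset.card_le_card_of_injOn p ?_ ?_).trans (le_of_eq h2)
    · intro T hT
      rw [Finset.mem_coe, Finset.mem_filter] at hT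
      obtain ⟨a', -, -, hb, hc⟩ := hp' T hT.2
      rw [Finset.mem_coe, Finset.mem_Ico]
      exact ⟨hb, hc⟩
    · intro T hT T' hT' hpp
      rw [Finset.mem_coe, Finset.mem_filter] at hT hT'
      obtain ⟨a, ha, hae, -⟩ := hp' T hT.2
      obtain ⟨a', ha', hae', -⟩ := hp' T' hT'.2
      by_contra hne
      have h3 := hMd T hT.1 T' hT'.1 hne
      have h4 : a = a' := Fin.ext (by rw [hae, hae', hpp])
      rw [Finset.disjoint_left] at h3
      exact h3 ha (h4 ▸ ha')
  -- the choice of the reservoir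
  have hC : ∀ (i : ℕ) (b : Bool), ∃ C ⊆ M, C.card = E ∧ ∀ T ∈ C,
      (T ∩ ResH ε b (i * g)).card = 2 ∧ ∀ a ∈ T, ¬ (i * g ≤ (a : ℕ) ∧ (a : ℕ) < (i + 1) * g) := by
    intro i b
    have h1 := hW b (i * g)
    have h2 := hI i
    have h3 := Finset.le_card_sdiff
      (M.filter fun T => ∃ a : Fin (3 * k), a ∈ T ∧
      i * g ≤ (a : ℕ) ∧ (a : ℕ) < (i + 1) * g)
      (M.filter fun T => (T ∩ ResH ε b (i * g)).card = 2)
    have h4 : E ≤ ((M.filter fun T => (T ∩ ResH ε b (i * g)).card = 2) \
        (M.filter fun T => ∃ a : Fin (3 * k), a ∈ T ∧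
      i * g ≤ (a : ℕ) ∧ (a : ℕ) < (i + 1) * g)).card := by
      omega
    obtain ⟨C, hC1, hC2⟩ := Finset.exists_subset_card_eq h4
    refine ⟨C, ?_, hC2, ?_⟩
    · intro T hT
      exact (Finset.mem_filter.1 (Finset.mem_sdiff.1 (hC1 hT)).1).1
    · intro T hT
      have h5 := Finset.mem_sdiff.1 (hC1 hT)
      have h6 := Finset.mem_filter.1 h5.1
      refine ⟨h6.2, ?_⟩
      intro a ha hb
      exact h5.2 (Finset.mem_filter.2 ⟨h6.1, a, ha, hb⟩)
  choose C hCM hCc hCT using hC
  set M0 := (Finset.range (3 * k / g + 1)).biUnion fun i => C i true ∪ C i false with hM0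
  have hM0M : M0 ⊆ M := by
    intro T hT
    rw [hM0, Finset.mem_biUnion] at hT
    obtain ⟨i, -, hT⟩ := hT
    rcases Finset.mem_union.1 hT with h | h
    · exact hCM i true h
    · exact hCM i false h
  have hM0c : M0.card ≤ (3 * k / g + 1) * (2 * E) := by
    rw [hM0]
    refine (Finset.card_biUnion_le_card_mul _ _ (2 * E) ?_).trans ?_
    · intro i _
      refine (Finset.card_union_le _ _).trans ?_
      rw [hCc, hCc]
      omega
    · rw [Finset.card_range]
  have hM0σ : M0.card * σ ≤ 98 * k * E := by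
    have h1 : σ ≤ 16 * g := by omega
    have h2 : 3 * k / g * g ≤ 3 * k := Nat.div_mul_le_self _ _
    have h3 : 3 * k / g * σ ≤ 48 * k := by
      calc 3 * k / g * σ ≤ 3 * k / g * (16 * g) := Nat.mul_le_mul_left _ h1
        _ = 16 * (3 * k / g * g) := by ring
        _ ≤ 16 * (3 * k) := Nat.mul_le_mul_left _ h2
        _ = 48 * k := by ring
    calc M0.card * σ ≤ (3 * k / g + 1) * (2 * E) * σ := Nat.mul_le_mul_right _ hM0c
      _ = (3 * k / g * σ + σ) * (2 * E) := by ring
      _ ≤ (48 * k + k) * (2 * E) := Nat.mul_le_mul_right _ (Nat.add_le_add h3 hσk)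
      _ = 98 * k * E := by ring
  have hM0d : ∀ t ∈ M0, ∀ t' ∈ M0, t ≠ t' → Disjoint t t' := fun t ht t' ht' =>
    hMd t (hM0M ht) t' (hM0M ht')
  set R := Λ ∪ M0.biUnion id with hR
  have hΛM : ∀ T ∈ M, Disjoint T Λ := by
    intro T hT
    rw [Finset.disjoint_left]
    intro a ha ha'
    rw [hΛ, Finset.mem_compl] at ha'
    exact ha' (Finset.mem_biUnion.2 ⟨T, hT, ha⟩)
  have hΛ0 : Disjoint Λ (M0.biUnion id) := by
    rw [Finset.disjoint_biUnion_right]
    intro T hT
    exact (hΛM T (hM0M hT)).symm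
  have hRc : R.card = 3 * (E + M0.card) := by
    rw [hR, Finset.card_union_of_disjoint hΛ0, hΛc,
      Res_card hM0d (fun T hT => (hMg T (hM0M hT)).1)]
    ring
  -- every half plane contains many elements of the reservoir
  have hkey : ∀ b r, E + M0.card ≤ (R ∩ ResH ε b r).card := by
    intro b r
    set i := min r (3 * k) / g with hi
    have hi1 : i ≤ 3 * k / g := Nat.div_le_div_right (Nat.min_le_right _ _)
    have hi2 : i * g ≤ min r (3 * k) := Nat.div_mul_le_self _ _
    have hi3 : min r (3 * k) < (i + 1) * g := by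
      have h1 := Nat.div_add_mod (min r (3 * k)) g
      have h2 := Nat.mod_lt (min r (3 * k)) hg1
      rw [← hi] at h1
      have e : (i + 1) * g = g * i + g := by ring
      omega
    have h1 : C i b ⊆ M0.filter fun T => (T ∩ ResH ε b r).card = 2 := by
      intro T hT
      rw [Finset.mem_filter]
      refine ⟨?_, ?_⟩
      · rw [hM0, Finset.mem_biUnion]
        refine ⟨i, Finset.mem_range.2 (by omega), ?_⟩
        rw [Finset.mem_union]
        cases b
        · exact Or.inr hT
        · exact Or.inl hT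
      · obtain ⟨h2, h3⟩ := hCT i b T hT
        rw [← h2]
        congr 1
        ext a
        rw [Finset.mem_inter, Finset.mem_inter]
        refine and_congr_right fun ha => Res_mem ε b r (i * g) a ?_
        have h4 := h3 a ha
        have h5 := a.2
        unfold hp
        rw [Finset.mem_filter, Finset.mem_filter]
        have h6 : (r ≤ (a : ℕ) ↔ i * g ≤ (a : ℕ)) ∧ ((a : ℕ) < r ↔ (a : ℕ) < i * g) := by
          omega
        rw [h6.1, h6.2]
    have h2 := Finset.card_le_card h1
    rw [hCc] at h2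
    have h3 : (M0.biUnion id ∩ ResH ε b r).card =
        M0.card + (M0.filter fun T => (T ∩ ResH ε b r).card = 2).card := by
      rw [Res_sum hM0d, Res_two (fun T hT => Res_good (hMg T (hM0M hT)) b r)]
    have h4 : (M0.biUnion id ∩ ResH ε b r).card ≤ (R ∩ ResH ε b r).card := by
      refine Finset.card_le_card (Finset.inter_subset_inter_right ?_)
      rw [hR]
      exact Finset.subset_union_right
    omega
  obtain ⟨M1, hM1, hM1R⟩ := hB (3 * k) (E + M0.card) ε R hRc (by
    intro r
    have h1 := hkey true r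
    have h2 := hkey false r
    have h3 := Finset.card_sdiff_add_card_inter R (hp ε r)
    have e1 : ResH ε true r = hp ε r := by simp [ResH]
    have e2 : ResH ε false r = (hp ε r)ᶜ := by simp [ResH]
    rw [e1] at h1
    rw [e2, ← Finset.sdiff_eq_inter_compl] at h2
    refine ⟨h1, ?_⟩
    omega)
  unfold Pk at hM1
  rw [Finset.mem_filter] at hM1
  obtain ⟨-, hM1c, hM1g, hM1d⟩ := hM1
  have hcross : ∀ T ∈ M \ M0, ∀ T' ∈ M1, Disjoint T T' := by
    intro T hT T' hT'
    rw [Finset.mem_sdiff] at hT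
    have h1 : T' ⊆ R := by
      rw [← hM1R]
      exact Finset.subset_biUnion_of_mem id hT'
    refine Disjoint.mono_right h1 ?_
    rw [hR, Finset.disjoint_union_right]
    refine ⟨hΛM T hT.1, ?_⟩
    rw [Finset.disjoint_biUnion_right]
    intro S hS
    exact hMd T hT.1 S (hM0M hS) (fun h => hT.2 (h ▸ hS))
  have hdis : Disjoint (M \ M0) M1 := by
    rw [Finset.disjoint_left]
    intro T hT hT'
    have h1 := hcross T hT T hT'
    rw [disjoint_self, Finset.bot_eq_empty] at h1
    have h2 := (hM1g T hT').1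
    rw [h1, Finset.card_empty] at h2
    omega
  refine ⟨(M \ M0) ∪ M1, ?_, ?_⟩
  · unfold Pk
    rw [Finset.mem_filter]
    refine ⟨Finset.mem_univ _, ?_, ?_, ?_⟩
    · rw [Finset.card_union_of_disjoint hdis, Finset.card_sdiff_of_subset hM0M, hM1c, hMc]
      have := Finset.card_le_card hM0M
      omega
    · intro T hT
      rcases Finset.mem_union.1 hT with h | h
      · exact hMg T (Finset.mem_sdiff.1 h).1
      · exact hM1g T h
    · intro T hT T' hT' hne
      rcases Finset.mem_union.1 hT with h | h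
      · rcases Finset.mem_union.1 hT' with h' | h'
        · exact hMd T (Finset.mem_sdiff.1 h).1 T' (Finset.mem_sdiff.1 h').1 hne
        · exact hcross T h T' h'
      · rcases Finset.mem_union.1 hT' with h' | h'
        · exact (hcross T' h' T h).symm
        · exact hM1d T h T' h' hne
  · refine le_trans (Nat.mul_le_mul_right _ (Finset.card_le_card ?_)) hM0σ
    intro T hT
    rw [Finset.mem_sdiff, Finset.mem_union, Finset.mem_sdiff] at hT
    by_contra h
    exact hT.2 (Or.inl ⟨hT.1, h⟩)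

end Pool.Agent.SKP
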