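import Pool.Agent.SKP.StS

/-!
# SKP, SeqF: the dichotomy for sequences
-/

set_option autoImplicit false

namespace Pool.Agent.SKP

open scoped Classical

private theorem SeqF_ss {n : ℕ} (w : Fin n → Fin 3) (κ : Fin n → Bool) (i : Fin 3) :
    0 ≤ ss w κ i ∧ ss w κ i ≤ 1 := by
  have h : (cN w κ i : ℝ) ≤ ((sA w κ i).card : ℝ) * (sB w κ i).card := by
    have h1 : cN w κ i ≤ (sA w κ i).card * (sB w κ i).card := by
      unfold cN
      rw [← Finset.card_product]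
      exact Finset.card_filter_le _ _
    exact_mod_cast h1
  unfold ss
  exact ⟨by positivity, div_le_one_of_le₀ h (by positivity)⟩

private theorem SeqF_uv {n : ℕ} (κ : Fin n → Bool) (hn : 0 < n) : uu κ + vv κ = 1 := by
  have h : (Finset.univ.filter fun a => κ a = true).card +
      (Finset.univ.filter fun a => κ a = false).card = n := by
    have h1 := Finset.card_filter_add_card_filter_not (s := (Finset.univ : Finset (Fin n)))
      (fun a => κ a = true)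
    simp only [Bool.not_eq_true, Finset.card_univ, Fintype.card_fin] at h1
    exact h1
  have hn' : (n : ℝ) ≠ 0 := by positivity
  unfold uu vv
  rw [← add_div, div_eq_one_iff_eq hn']
  exact_mod_cast h

/-- the sectors are nonempty -/
private theorem SeqF_ne {k : ℕ} (w : Fin (3 * k) → Fin 3) (κ : Fin (3 * k) → Bool) (η β : ℝ)
    (hk : 0 < k) (hB : Bal k w κ η) (hu : β ≤ uu κ) (hv : β ≤ vv κ) (hβ : 0 < β)
    (h : η < 3 / 4 * (k * β)) (i : Fin 3) : (sA w κ i).Nonempty ∧ (sB w κ i).Nonempty := by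
  have huv := SeqF_uv κ (by omega : 0 < 3 * k)
  have h1 := SeqF_ss w κ (i + 1)
  have h2 := SeqF_ss w κ (i + 2)
  have hkr : (0 : ℝ) < k := by exact_mod_cast hk
  set u := uu κ with hu'
  set v := vv κ with hv'
  have hv2 : v = 1 - u := by linarith
  have hu0 : 0 < u := by linarith
  have hv0 : 0 < v := by linarith
  obtain ⟨hA, hB'⟩ := hB i
  rw [abs_le] at hA hB'
  have hq : u * v ≤ 1 / 4 := by
    rw [hv2]
    nlinarith [sq_nonneg (u - 1 / 2)]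
  have hd1 : 0 ≤ 1 + (ss w κ (i + 1) - ss w κ (i + 2)) := by linarith [h1.1, h2.2]
  have hd2 : 0 ≤ 1 - (ss w κ (i + 1) - ss w κ (i + 2)) := by linarith [h1.2, h2.1]
  constructor
  · have h3 : 3 / 4 * u ≤ fA u v (ss w κ (i + 1) - ss w κ (i + 2)) := by
      unfold fA
      have h4 : 0 ≤ u ^ 2 * v * (1 + (ss w κ (i + 1) - ss w κ (i + 2))) := by positivity
      have h5 : u ^ 3 + u * v = u * (1 - u * v) := by
        rw [hv2]
        ring
      have h6 : u * (3 / 4) ≤ u * (1 - u * v) := mul_le_mul_of_nonneg_left (by linarith) hu0.le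
      linarith
    have h4 : k * (3 / 4 * β) ≤ k * fA u v (ss w κ (i + 1) - ss w κ (i + 2)) :=
      mul_le_mul_of_nonneg_left (by linarith) hkr.le
    have h5 : (0 : ℝ) < (sA w κ i).card := by linarith [hA.1]
    exact Finset.card_pos.1 (by exact_mod_cast h5)
  · have h3 : 3 / 4 * v ≤ fB u v (ss w κ (i + 1) - ss w κ (i + 2)) := by
      unfold fB
      have h4 : 0 ≤ u * v ^ 2 * (1 - (ss w κ (i + 1) - ss w κ (i + 2))) := by positivity
      have h5 : v ^ 3 + u * v = v * (1 - u * v) := by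
        rw [hv2]
        ring
      have h6 : v * (3 / 4) ≤ v * (1 - u * v) := mul_le_mul_of_nonneg_left (by linarith) hv0.le
      linarith
    have h4 : k * (3 / 4 * β) ≤ k * fB u v (ss w κ (i + 1) - ss w κ (i + 2)) :=
      mul_le_mul_of_nonneg_left (by linarith) hkr.le
    have h5 : (0 : ℝ) < (sB w κ i).card := by linarith [hB'.1]
    exact Finset.card_pos.1 (by exact_mod_cast h5)

/-- the last estimate -/
private theorem SeqF_last (k m R : ℕ) (C₀ C₁ x : ℝ) (hC₀ : 0 < C₀) (hC₁ : 0 < C₁) (hx1 : 16 ≤ x)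
    (hx : (k : ℝ) = x ^ 12) (hm : m ≤ k) (hkm : (k : ℝ) ≤ m + C₁ * x ^ 6)
    (hR : (R : ℝ) ≤ 392 * C₁ * x ^ 11) (A B F : ℝ) (hB : 0 ≤ B)
    (h1 : F ≤ Real.exp (C₁ * x ^ 6 * Real.log k) * A)
    (h2 : A ≤ B * (((3 * k : ℕ) : ℝ) ^ 3 + 1) ^ R * ((k : ℝ) + 1) ^ (k - m + R)) :
    F ≤ Real.exp ((3531 * C₁ + 3 + 2 * C₀) * x ^ 11 * Real.log k) * B := by
  have hk2 : (16 : ℝ) ≤ k := by
    rw [hx]
    calc (16 : ℝ) ≤ x := hx1
      _ = x ^ 1 := (pow_one x).symm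
      _ ≤ x ^ 12 := pow_le_pow_right₀ (by linarith) (by norm_num)
  have hk0 : (0 : ℝ) < k := by linarith
  have hlog : 0 < Real.log k := Real.log_pos (by linarith)
  have e1 : ∀ (j p : ℕ), ((k : ℝ) ^ j) ^ p = Real.exp (j * p * Real.log k) := by
    intro j p
    rw [← pow_mul, ← Real.rpow_natCast, Real.rpow_def_of_pos hk0]
    congr 1
    push_cast
    ring
  have e2 : (((3 * k : ℕ) : ℝ) ^ 3 + 1) ^ R ≤ Real.exp (7 * R * Real.log k) := by
    have h3 : (((3 * k : ℕ) : ℝ) ^ 3 + 1) ≤ (k : ℝ) ^ 7 := by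
      push_cast
      have h4 : (28 : ℝ) ≤ (k : ℝ) ^ 4 := by
        calc (28 : ℝ) ≤ 16 ^ 4 := by norm_num
          _ ≤ (k : ℝ) ^ 4 := pow_le_pow_left₀ (by norm_num) hk2 4
      have h5 : (1 : ℝ) ≤ (k : ℝ) ^ 3 := one_le_pow₀ (by linarith)
      calc (3 * (k : ℝ)) ^ 3 + 1 = 27 * (k : ℝ) ^ 3 + 1 := by ring
        _ ≤ 28 * (k : ℝ) ^ 3 := by linarith
        _ ≤ (k : ℝ) ^ 4 * (k : ℝ) ^ 3 := by gcongr
        _ = (k : ℝ) ^ 7 := by ring
    calc (((3 * k : ℕ) : ℝ) ^ 3 + 1) ^ R ≤ ((k : ℝ) ^ 7) ^ R :=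
          pow_le_pow_left₀ (by positivity) h3 R
      _ = _ := by
        rw [e1]
        norm_num
  have e3 : ((k : ℝ) + 1) ^ (k - m + R) ≤ Real.exp (2 * (k - m + R) * Real.log k) := by
    have h3 : (k : ℝ) + 1 ≤ (k : ℝ) ^ 2 := by nlinarith
    calc ((k : ℝ) + 1) ^ (k - m + R) ≤ ((k : ℝ) ^ 2) ^ (k - m + R) :=
          pow_le_pow_left₀ (by positivity) h3 _
      _ = _ := by
        rw [e1]
        congr 2
        push_cast [Nat.cast_sub hm]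
        ring
  have hx6 : x ^ 6 ≤ x ^ 11 := pow_le_pow_right₀ (by linarith) (by norm_num)
  have hx6' : 0 ≤ x ^ 6 := by positivity
  have hx11 : 0 ≤ x ^ 11 := by positivity
  calc F ≤ Real.exp (C₁ * x ^ 6 * Real.log k) * A := h1
    _ ≤ Real.exp (C₁ * x ^ 6 * Real.log k) *
        (B * Real.exp (7 * R * Real.log k) * Real.exp (2 * (k - m + R) * Real.log k)) := by
      refine mul_le_mul_of_nonneg_left (h2.trans ?_) (Real.exp_pos _).le
      gcongr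
    _ = Real.exp ((C₁ * x ^ 6 + 9 * R + 2 * (k - m)) * Real.log k) * B := by
      rw [show (C₁ * x ^ 6 + 9 * R + 2 * ((k : ℝ) - m)) * Real.log k = C₁ * x ^ 6 * Real.log k +
        7 * R * Real.log k + 2 * (k - m + R) * Real.log k by ring, Real.exp_add, Real.exp_add]
      ring
    _ ≤ _ := by
      refine mul_le_mul_of_nonneg_right (Real.exp_le_exp.2 ?_) hB
      refine mul_le_mul_of_nonneg_right ?_ hlog.le
      have h3 : C₁ * x ^ 6 ≤ C₁ * x ^ 11 := mul_le_mul_of_nonneg_left hx6 hC₁.le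
      have h4 : 0 ≤ C₀ * x ^ 11 := by positivity
      linarith

theorem thm_SeqF : Stmt_Cyc → Stmt_Swp → Stmt_ClA → Stmt_ClB → Stmt_Res → Stmt_Mul → Stmt_Cnt →
    Stmt_SeqF := by
  intro hCyc hSwp hClA hClB hRes hMul hCnt C₀ hC₀
  obtain ⟨C₁, hC₁, k₁, hCnt⟩ := hCnt C₀ hC₀
  refine ⟨3531 * C₁ + 3 + 2 * C₀, by positivity, max k₁ ⌈(8 * C₀ + 8 * C₁ + 16) ^ 12⌉₊, ?_⟩
  intro k ε r1 r2 o hk hr hBal ho
  have hk1 : k₁ ≤ k := (le_max_left _ _).trans hk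
  have hk2 : (8 * C₀ + 8 * C₁ + 16) ^ 12 ≤ (k : ℝ) := by
    refine (Nat.le_ceil _).trans ?_
    exact_mod_cast (le_max_right _ _).trans hk
  -- the variable `x`
  obtain ⟨x, hx0, hx⟩ : ∃ x : ℝ, 0 ≤ x ∧ (k : ℝ) = x ^ 12 := by
    refine ⟨(k : ℝ) ^ (1 / 12 : ℝ), by positivity, ?_⟩
    rw [← Real.rpow_natCast, ← Real.rpow_mul (by positivity)]
    norm_num
  have hxX : 8 * C₀ + 8 * C₁ + 16 ≤ x := by
    by_contra hlt
    push Not at hlt
    have h1 : x ^ 12 < (8 * C₀ + 8 * C₁ + 16) ^ 12 := pow_lt_pow_left₀ hlt hx0 (by norm_num)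
    linarith
  have hx16 : 16 ≤ x := by linarith
  have hx1 : 1 ≤ x := by linarith
  have hxp : 0 < x := by linarith
  have hsq : √(k : ℝ) = x ^ 6 := by
    rw [hx, show x ^ 12 = (x ^ 6) ^ 2 by ring, Real.sqrt_sq (by positivity)]
  have h11 : (k : ℝ) ^ (11 / 12 : ℝ) = x ^ 11 := by
    rw [hx, ← Real.rpow_natCast, ← Real.rpow_natCast, ← Real.rpow_mul hx0]
    norm_num
  rw [hsq] at hBal
  rw [h11] at ho
  rw [h11]
  have hkr : (0 : ℝ) < k := by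
    rw [hx]
    positivity
  have hkn : 0 < k := by exact_mod_cast hkr
  have hp6 : x ^ 6 ≤ x ^ 11 := pow_le_pow_right₀ hx1 (by norm_num)
  have hp11 : 1 ≤ x ^ 11 := one_le_pow₀ hx1
  have hp6' : 1 ≤ x ^ 6 := one_le_pow₀ hx1
  have hp67 : 4 * C₀ * x ^ 6 ≤ x ^ 7 / 2 := by
    have h1 : x ^ 7 = x * x ^ 6 := by ring
    have h2 : (8 * C₀) * x ^ 6 ≤ x * x ^ 6 :=
      mul_le_mul_of_nonneg_right (by linarith) (by positivity)
    linarith
  have hp67' : 4 * C₁ * x ^ 6 + 8 * x ^ 6 ≤ x ^ 7 / 2 := by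
    have h1 : x ^ 7 = x * x ^ 6 := by ring
    have h2 : (8 * C₁ + 16) * x ^ 6 ≤ x * x ^ 6 :=
      mul_le_mul_of_nonneg_right (by linarith) (by positivity)
    linarith
  have hCo : ∀ j : ℝ, 0 ≤ j → j ≤ 2 * C₀ + 3 → j * x ^ 11 ≤ o := by
    intro j hj hj'
    refine le_trans ?_ ho
    refine mul_le_mul_of_nonneg_right ?_ (by positivity)
    linarith
  set w := wn (n := 3 * k) r1 r2 with hw
  set κ := kp ε r1 r2 with hκ
  obtain ⟨hc1, hc2, hc3⟩ := hCyc (3 * k) ε r1 r2 hr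
  rw [← hw, ← hκ] at hc1 hc2 hc3
  have hG : Gs w κ = Gt ε := by
    funext t
    exact propext (hc3 t)
  -- small `v` or `u`
  by_cases hsm : vv κ ≤ x⁻¹ ∨ uu κ ≤ x⁻¹
  · left
    rw [← hG]
    refine hClA k o w κ (C₀ * x ^ 6) x⁻¹ hkn hBal hsm ?_
    have h1 : 2 * (k : ℝ) * x⁻¹ = 2 * x ^ 11 := by
      rw [hx]
      field_simp
    rw [h1]
    have h2 := hCo (C₀ + 2) (by positivity) (by linarith)
    have h3 : C₀ * x ^ 6 ≤ C₀ * x ^ 11 := mul_le_mul_of_nonneg_left hp6 hC₀.le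
    linarith
  push Not at hsm
  obtain ⟨hv, hu⟩ := hsm
  have hne : ∀ i, (sA w κ i).Nonempty ∧ (sB w κ i).Nonempty := by
    refine SeqF_ne w κ (C₀ * x ^ 6) x⁻¹ hkn hBal hu.le hv.le (by positivity) ?_
    have h1 : (k : ℝ) * x⁻¹ = x ^ 11 := by
      rw [hx]
      field_simp
    rw [h1]
    have h2 : x ^ 11 = x ^ 5 * x ^ 6 := by ring
    have h3 : x ≤ x ^ 5 := by
      calc x = x ^ 1 := (pow_one x).symm
        _ ≤ x ^ 5 := pow_le_pow_right₀ hx1 (by norm_num)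
    rw [h2]
    have h4 : C₀ * x ^ 6 < (3 / 4 * x ^ 5) * x ^ 6 :=
      mul_lt_mul_of_pos_right (by linarith) (by positivity)
    linarith
  have hθ : (0 : ℝ) < (x ^ 5)⁻¹ := by positivity
  have hβ : (0 : ℝ) < x⁻¹ := by positivity
  have hθβ : (x ^ 5)⁻¹ ≤ x⁻¹ ^ 3 := by
    rw [inv_pow]
    exact inv_anti₀ (by positivity) (pow_le_pow_right₀ hx1 (by norm_num))
  have hdiv : √((x ^ 5)⁻¹ / x⁻¹ ^ 3) = x⁻¹ := by
    rw [show (x ^ 5)⁻¹ / x⁻¹ ^ 3 = x⁻¹ ^ 2 by field_simp, Real.sqrt_sq hβ.le]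
  have hobd : 2 * √((x ^ 5)⁻¹ / x⁻¹ ^ 3) * k + 2 * (C₀ * x ^ 6) + 1 ≤ o := by
    rw [hdiv]
    have h1 : 2 * x⁻¹ * (k : ℝ) = 2 * x ^ 11 := by
      rw [hx]
      field_simp
    rw [h1]
    have h2 := hCo (2 * C₀ + 3) (by positivity) le_rfl
    have h3 : C₀ * x ^ 6 ≤ C₀ * x ^ 11 := mul_le_mul_of_nonneg_left hp6 hC₀.le
    linarith
  obtain ⟨hs1, ⟨hs2, hs2'⟩, hs3, hs4, hs5⟩ := hSwp (3 * k) w κ
  by_cases hK : ∃ (i : Fin 3) (r : ℕ),
      ((KK w κ i r).card : ℝ) ≤ k * (1 + (x ^ 5)⁻¹) - 4 * (C₀ * x ^ 6)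
  · obtain ⟨i, r, hir⟩ := hK
    left
    rw [← hG]
    exact hClB k o w κ (C₀ * x ^ 6) x⁻¹ (x ^ 5)⁻¹ i r hkn hBal hne hβ hu.le hv.le hθ hθβ hir hobd
  by_cases hK' : ∃ (i : Fin 3) (r : ℕ),
      (((KK w κ i r)ᶜ.card : ℕ) : ℝ) ≤ k * (1 + (x ^ 5)⁻¹) - 4 * (C₀ * x ^ 6)
  · obtain ⟨i, r, hir⟩ := hK'
    left
    have hG' : Gs w (ng κ) = Gt ε := by
      funext t
      exact propext ((hs4 t).trans (hc3 t))
    rw [← hG']
    refine hClB k o w (ng κ) (C₀ * x ^ 6) x⁻¹ (x ^ 5)⁻¹ i r hkn ((hs5 hne).2 k _ hBal) ?_ hβ ?_ ?_ hθ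
      hθβ ?_ hobd
    · intro j
      rw [(hs1 j).1, (hs1 j).2]
      exact ⟨(hne j).2, (hne j).1⟩
    · rw [hs2]
      exact hv.le
    · rw [hs2']
      exact hu.le
    · rw [hs3]
      exact hir
  push Not at hK hK'
  right
  -- the slack
  set σ : ℕ := ⌊x ^ 7 / 2⌋₊ with hσ
  have hσ1 : (σ : ℝ) ≤ x ^ 7 / 2 := Nat.floor_le (by positivity)
  have hσ2 : x ^ 7 / 2 < σ + 1 := Nat.lt_floor_add_one _
  have hkθ : (k : ℝ) * (1 + (x ^ 5)⁻¹) = k + x ^ 7 := by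
    rw [mul_add, mul_one]
    congr 1
    rw [hx]
    field_simp
  have hthr : (k : ℝ) + σ ≤ k * (1 + (x ^ 5)⁻¹) - 4 * (C₀ * x ^ 6) := by
    rw [hkθ]
    linarith
  have hKn : ∀ i r, k + σ ≤ (KK w κ i r).card := by
    intro i r
    have h1 : ((k + σ : ℕ) : ℝ) < ((KK w κ i r).card : ℝ) := by
      push_cast
      exact lt_of_le_of_lt hthr (hK i r)
    exact (Nat.cast_lt.1 h1).le
  have hKn' : ∀ i r, k + σ ≤ (KK w κ i r)ᶜ.card := by
    intro i r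
    have h1 : ((k + σ : ℕ) : ℝ) < (((KK w κ i r)ᶜ.card : ℕ) : ℝ) := by
      push_cast
      exact lt_of_le_of_lt hthr (hK' i r)
    exact (Nat.cast_lt.1 h1).le
  have hcompl : ∀ T : Finset (Fin (3 * k)), T.card + Tᶜ.card = 3 * k := by
    intro T
    rw [Finset.card_add_card_compl, Fintype.card_fin]
  have hhp : ∀ r : ℕ, k + σ ≤ (hp ε r).card ∧ (hp ε r).card + σ ≤ 2 * k := by
    intro r
    obtain ⟨i, r', h | h⟩ := hc2 r
    · have h1 := hKn i r'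
      have h2 := hKn' i r'
      have h3 := hcompl (KK w κ i r')
      rw [h]
      omega
    · have h1 := hKn i r'
      have h2 := hKn' i r'
      have h3 := hcompl (KK w κ i r')
      rw [h]
      omega
  -- the packings
  obtain ⟨m, hm, hkm, hfac⟩ := hCnt k w κ x⁻¹ hk1 (by rw [hsq]; exact hBal) hβ hu.le hv.le (by
    rw [hsq, show (k : ℝ) * x⁻¹ ^ 3 = x ^ 9 by rw [hx]; field_simp, show x ^ 9 = x ^ 3 * x ^ 6 by ring]
    refine mul_le_mul_of_nonneg_right ?_ (by positivity)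
    calc C₁ ≤ x := by linarith
      _ = x ^ 1 := (pow_one x).symm
      _ ≤ x ^ 3 := pow_le_pow_right₀ hx1 (by norm_num))
  rw [hsq] at hkm hfac
  rw [hG] at hfac
  have hσ8 : 8 ≤ σ := by
    have h1 : (8 : ℝ) < σ + 1 := by linarith [mul_nonneg hC₁.le (by positivity : (0 : ℝ) ≤ x ^ 6)]
    have h2 : (8 : ℕ) < σ + 1 := by exact_mod_cast h1
    omega
  have hσk : σ ≤ k := by
    have h1 : (σ : ℝ) ≤ k := by
      rw [hx]
      have h2 : x ^ 7 ≤ x ^ 12 := pow_le_pow_right₀ hx1 (by norm_num)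
      have h3 : (0 : ℝ) ≤ x ^ 7 := by positivity
      linarith
    exact_mod_cast h1
  have hkmr : ((k - m : ℕ) : ℝ) ≤ C₁ * x ^ 6 := by
    rw [Nat.cast_sub hm]
    linarith
  have h4km : 4 * (k - m) ≤ σ := by
    have h1 : ((4 * (k - m) : ℕ) : ℝ) < ((σ + 1 : ℕ) : ℝ) := by
      push_cast [Nat.cast_sub hm]
      rw [Nat.cast_sub hm] at hkmr
      linarith
    have h2 : 4 * (k - m) < σ + 1 := Nat.cast_lt.1 h1
    omega
  have hσr : x ^ 7 / 4 ≤ σ := by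
    have h1 : (1 : ℝ) ≤ x ^ 7 / 4 := by
      have h2 : x ^ 7 = x * x ^ 6 := by ring
      have h3 : 4 * 1 ≤ x * x ^ 6 := mul_le_mul (by linarith) hp6' (by norm_num) (by linarith)
      linarith
    linarith
  set R : ℕ := 98 * k * (k - m) / σ with hR
  have hRr : (R : ℝ) ≤ 392 * C₁ * x ^ 11 := by
    have h1 : R * σ ≤ 98 * k * (k - m) := Nat.div_mul_le_self _ _
    have h2 : (R : ℝ) * σ ≤ 98 * k * ((k - m : ℕ) : ℝ) := by exact_mod_cast h1
    have h3 : (R : ℝ) * (x ^ 7 / 4) ≤ (R : ℝ) * σ := mul_le_mul_of_nonneg_left hσr (by positivity)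
    have h4 : 98 * (k : ℝ) * ((k - m : ℕ) : ℝ) ≤ 98 * k * (C₁ * x ^ 6) :=
      mul_le_mul_of_nonneg_left hkmr (by positivity)
    have h5 : (R : ℝ) * (x ^ 7 / 4) ≤ (392 * C₁ * x ^ 11) * (x ^ 7 / 4) := by
      calc (R : ℝ) * (x ^ 7 / 4) ≤ 98 * k * (C₁ * x ^ 6) := by linarith
        _ = (392 * C₁ * x ^ 11) * (x ^ 7 / 4) := by
          rw [hx]
          ring
    exact le_of_mul_le_mul_right h5 (by positivity)
  have hmul := hMul (3 * k) k m R (Gt ε) (fun t ht => ht.1) hm (by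
    intro M hM
    obtain ⟨M', hM', h1⟩ := hRes k m σ ε hm hσ8 hσk h4km hhp M hM
    refine ⟨M', hM', ?_⟩
    rw [hR, Nat.le_div_iff_mul_le (by omega)]
    exact h1)
  have hmul' : ((Pk (Gt ε) m).card : ℝ) ≤ ((Pk (Gt ε) k).card : ℝ) *
      (((3 * k : ℕ) : ℝ) ^ 3 + 1) ^ R * ((k : ℝ) + 1) ^ (k - m + R) := by
    have h1 : ((Pk (Gt ε) m).card : ℝ) ≤ ((Pk (Gt ε) k).card : ℝ) *
      ((((3 * k : ℕ) : ℝ) ^ 3 + 1) ^ R * ((k : ℝ) + 1) ^ (k - m + R)) := by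
      exact_mod_cast hmul
    rw [mul_assoc]
    exact h1
  exact SeqF_last k m R C₀ C₁ x hC₀ hC₁ hx16 hx hm hkm hRr _ _ _ (by positivity) hfac hmul'

end Pool.Agent.SKP
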