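import Pool.Agent.SKP.StS

/-!
# SKP [Slk]: slack of the half planes
-/

set_option autoImplicit false

namespace Pool.Agent.SKP

open scoped Classical

private theorem Slk_uv {n : ℕ} (hn : 0 < n) (κ : Fin n → Bool) : uu κ + vv κ = 1 := by
  unfold uu vv
  have h1 : ((Finset.univ.filter fun a => κ a = true).card : ℝ) +
      ((Finset.univ.filter fun a => κ a = false).card : ℝ) = n := by
    have h2 := Finset.card_filter_add_card_filter_not (s := (Finset.univ : Finset (Fin n)))
      (fun a => κ a = true)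
    have h3 : (Finset.univ.filter fun a => ¬ κ a = true) =
        (Finset.univ.filter fun a => κ a = false) := by
      ext a
      simp
    rw [h3, Finset.card_univ, Fintype.card_fin] at h2
    exact_mod_cast h2
  rw [← add_div, h1]
  have : (n : ℝ) ≠ 0 := by exact_mod_cast hn.ne'
  exact div_self this

private theorem Slk_nn {n : ℕ} (κ : Fin n → Bool) : 0 ≤ uu κ ∧ 0 ≤ vv κ := by
  unfold uu vv
  constructor <;> positivity

private theorem Slk_s {n : ℕ} (w : Fin n → Fin 3) (κ : Fin n → Bool) (i : Fin 3) :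
    0 ≤ ss w κ i ∧ ss w κ i ≤ 1 := by
  unfold ss
  refine ⟨by positivity, ?_⟩
  refine div_le_one_of_le₀ ?_ (by positivity)
  have h : cN w κ i ≤ (sA w κ i).card * (sB w κ i).card := by
    unfold cN
    rw [← Finset.card_product]
    exact Finset.card_filter_le _ _
  exact_mod_cast h

private theorem Slk_do {n : ℕ} (A : Finset (Fin n)) (p : ℕ → Prop) [DecidablePred p] :
    (Finset.filter p (do
      let a ← A
      pure (a : ℕ))).card = (A.filter fun a : Fin n => p (a : ℕ)).card := by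
  have h1 : (do
      let a ← A
      pure (a : ℕ) : Finset ℕ) = A.image (fun a : Fin n => (a : ℕ)) := by
    have h0 := bind_pure_comp (m := Finset) (fun a : Fin n => (a : ℕ)) A
    refine h0.trans ?_
    rw [Finset.fmap_def]
    ext x
    simp only [Finset.mem_image]
  rw [h1, Finset.filter_image, Finset.card_image_of_injective]
  exact Fin.val_injective

/-- the pairs with `y ≤ x` -/
private theorem Slk_pairs {n : ℕ} (w : Fin n → Fin 3) (κ : Fin n → Bool) (i : Fin 3) (r : ℕ) :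
    (sA w κ i).card * (sB w κ i).card ≤ cN w κ i +
      ((sA w κ i).filter fun a : Fin n => r ≤ (a : ℕ)).card * (sB w κ i).card +
      (sA w κ i).card * ((sB w κ i).filter fun a : Fin n => (a : ℕ) < r).card := by
  have h1 : (sA w κ i ×ˢ sB w κ i) ⊆
      ((sA w κ i ×ˢ sB w κ i).filter fun q => q.1 < q.2) ∪
      (((sA w κ i).filter fun a : Fin n => r ≤ (a : ℕ)) ×ˢ sB w κ i) ∪
      (sA w κ i ×ˢ ((sB w κ i).filter fun a : Fin n => (a : ℕ) < r)) := by
    intro q hq
    rw [Finset.mem_product] at hq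
    rw [Finset.mem_union, Finset.mem_union, Finset.mem_filter, Finset.mem_product,
      Finset.mem_product, Finset.mem_product, Finset.mem_filter, Finset.mem_filter]
    by_cases h : q.1 < q.2
    · exact Or.inl (Or.inl ⟨hq, h⟩)
    · by_cases h2 : r ≤ (q.1 : ℕ)
      · exact Or.inl (Or.inr ⟨⟨hq.1, h2⟩, hq.2⟩)
      · refine Or.inr ⟨hq.1, hq.2, ?_⟩
        have h3 : q.2 ≤ q.1 := not_lt.1 h
        have h4 : (q.2 : ℕ) ≤ (q.1 : ℕ) := h3
        omega
  have h2 := Finset.card_le_card h1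
  rw [Finset.card_product] at h2
  have h3 := Finset.card_union_le
    (((sA w κ i ×ˢ sB w κ i).filter fun q => q.1 < q.2) ∪
      (((sA w κ i).filter fun a : Fin n => r ≤ (a : ℕ)) ×ˢ sB w κ i))
    (sA w κ i ×ˢ ((sB w κ i).filter fun a : Fin n => (a : ℕ) < r))
  have h4 := Finset.card_union_le ((sA w κ i ×ˢ sB w κ i).filter fun q => q.1 < q.2)
    (((sA w κ i).filter fun a : Fin n => r ≤ (a : ℕ)) ×ˢ sB w κ i)
  rw [Finset.card_product] at h3 h4
  unfold cN
  omega

private theorem Slk_KK {n : ℕ} (w : Fin n → Fin 3) (κ : Fin n → Bool) (i : Fin 3) (r : ℕ) :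
    ((sA w κ i).filter fun a : Fin n => r ≤ (a : ℕ)).card + ((sB w κ i).filter fun a : Fin n => (a : ℕ) < r).card +
      (sB w κ (i + 1)).card + (sA w κ (i + 2)).card ≤ (KK w κ i r).card := by
  have hi1 : i + 1 ≠ i := by fin_cases i <;> decide
  have hi2 : i + 2 ≠ i := by fin_cases i <;> decide
  have hi3 : i + 2 ≠ i + 1 := by fin_cases i <;> decide
  have h1 : ((((sA w κ i).filter fun a : Fin n => r ≤ (a : ℕ)) ∪
      ((sB w κ i).filter fun a : Fin n => (a : ℕ) < r)) ∪ sB w κ (i + 1)) ∪ sA w κ (i + 2) ⊆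
      KK w κ i r := by
    intro a ha
    simp only [Finset.mem_union, Finset.mem_filter, sA, sB, Finset.mem_univ, true_and] at ha
    simp only [KK, Finset.mem_filter, Finset.mem_univ, true_and]
    tauto
  have d1 : Disjoint ((sA w κ i).filter fun a : Fin n => r ≤ (a : ℕ))
      ((sB w κ i).filter fun a : Fin n => (a : ℕ) < r) := by
    rw [Finset.disjoint_left]
    intro a ha hb
    simp only [Finset.mem_filter, sA, sB, Finset.mem_univ, true_and] at ha hb
    rw [ha.1.2] at hb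
    exact absurd hb.1.2 (by decide)
  have d2 : Disjoint (((sA w κ i).filter fun a : Fin n => r ≤ (a : ℕ)) ∪
      ((sB w κ i).filter fun a : Fin n => (a : ℕ) < r)) (sB w κ (i + 1)) := by
    rw [Finset.disjoint_left]
    intro a ha hb
    simp only [Finset.mem_union, Finset.mem_filter, sA, sB, Finset.mem_univ, true_and] at ha hb
    rcases ha with ha | ha
    · exact hi1 (hb.1.symm.trans ha.1.1)
    · exact hi1 (hb.1.symm.trans ha.1.1)
  have d3 : Disjoint ((((sA w κ i).filter fun a : Fin n => r ≤ (a : ℕ)) ∪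
      ((sB w κ i).filter fun a : Fin n => (a : ℕ) < r)) ∪ sB w κ (i + 1)) (sA w κ (i + 2)) := by
    rw [Finset.disjoint_left]
    intro a ha hb
    simp only [Finset.mem_union, Finset.mem_filter, sA, sB, Finset.mem_univ, true_and] at ha hb
    rcases ha with (ha | ha) | ha
    · exact hi2 (hb.1.symm.trans ha.1.1)
    · exact hi2 (hb.1.symm.trans ha.1.1)
    · exact hi3 (hb.1.symm.trans ha.1)
  have h2 := Finset.card_le_card h1
  rw [Finset.card_union_of_disjoint d3, Finset.card_union_of_disjoint d2,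
    Finset.card_union_of_disjoint d1] at h2
  exact h2

theorem thm_Slk : Stmt_Slk := by
  intro k w κ η hk hB hne i r φ ψ hφ hψ
  rw [Slk_do] at hφ hψ
  obtain ⟨u, hu⟩ : ∃ u, u = uu κ := ⟨_, rfl⟩
  obtain ⟨v, hv⟩ : ∃ v, v = vv κ := ⟨_, rfl⟩
  have huv : u + v = 1 := by
    rw [hu, hv]
    exact Slk_uv (by omega) κ
  obtain ⟨hu0, hv0⟩ : 0 ≤ u ∧ 0 ≤ v := by
    rw [hu, hv]
    exact Slk_nn κ
  have ha0 : (0 : ℝ) < (sA w κ i).card := by
    exact_mod_cast Finset.card_pos.2 (hne i).1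
  have hb0 : (0 : ℝ) < (sB w κ i).card := by
    exact_mod_cast Finset.card_pos.2 (hne i).2
  -- first part
  have hp : ((sA w κ i).card : ℝ) * (sB w κ i).card ≤ cN w κ i +
      φ * (sA w κ i).card * (sB w κ i).card + (sA w κ i).card * (ψ * (sB w κ i).card) := by
    rw [hφ, hψ]
    exact_mod_cast Slk_pairs w κ i r
  have h1 : 1 - ss w κ i ≤ φ + ψ := by
    have h2 : (cN w κ i : ℝ) = ss w κ i * (((sA w κ i).card : ℝ) * (sB w κ i).card) := by
      unfold ss
      rw [div_mul_cancel₀]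
      exact (mul_pos ha0 hb0).ne'
    rw [h2] at hp
    have h3 : 0 < ((sA w κ i).card : ℝ) * (sB w κ i).card := mul_pos ha0 hb0
    by_contra hcon
    push Not at hcon
    have h4 := mul_lt_mul_of_pos_right hcon h3
    nlinarith [h4, hp]
  refine ⟨h1, ?_⟩
  -- second part
  have hφ0 : 0 ≤ φ := by
    have h2 : 0 ≤ φ * (sA w κ i).card := by
      rw [hφ]
      exact Nat.cast_nonneg _
    exact nonneg_of_mul_nonneg_left h2 ha0
  have hψ0 : 0 ≤ ψ := by
    have h2 : 0 ≤ ψ * (sB w κ i).card := by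
      rw [hψ]
      exact Nat.cast_nonneg _
    exact nonneg_of_mul_nonneg_left h2 hb0
  have hφ1 : φ ≤ 1 := by
    have h2 : φ * (sA w κ i).card ≤ 1 * (sA w κ i).card := by
      rw [hφ, one_mul]
      exact_mod_cast Finset.card_filter_le _ _
    exact le_of_mul_le_mul_right h2 ha0
  have hψ1 : ψ ≤ 1 := by
    have h2 : ψ * (sB w κ i).card ≤ 1 * (sB w κ i).card := by
      rw [hψ, one_mul]
      exact_mod_cast Finset.card_filter_le _ _
    exact le_of_mul_le_mul_right h2 hb0
  have hK : φ * (sA w κ i).card + ψ * (sB w κ i).card + (sB w κ (i + 1)).card +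
      (sA w κ (i + 2)).card ≤ ((KK w κ i r).card : ℝ) := by
    rw [hφ, hψ]
    exact_mod_cast Slk_KK w κ i r
  have e1 : i + 1 + 1 = i + 2 := by fin_cases i <;> rfl
  have e2 : i + 1 + 2 = i := by fin_cases i <;> rfl
  have e3 : i + 2 + 1 = i := by fin_cases i <;> rfl
  have e4 : i + 2 + 2 = i + 1 := by fin_cases i <;> rfl
  have hAi := (abs_le.1 (hB i).1).1
  have hBi := (abs_le.1 (hB i).2).1
  have hBi1 := (abs_le.1 (hB (i + 1)).2).1
  have hAi2 := (abs_le.1 (hB (i + 2)).1).1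
  rw [e1, e2] at hBi1
  rw [e3, e4] at hAi2
  have hη : 0 ≤ η := (abs_nonneg _).trans (hB i).1
  obtain ⟨hs0, hs1⟩ := Slk_s w κ i
  obtain ⟨hs10, hs11⟩ := Slk_s w κ (i + 1)
  obtain ⟨hs20, hs21⟩ := Slk_s w κ (i + 2)
  rw [← hu, ← hv] at hAi hBi hBi1 hAi2
  rw [← hu, ← hv]
  generalize ss w κ i = s at *
  generalize ss w κ (i + 1) = s1 at *
  generalize ss w κ (i + 2) = s2 at *
  generalize ((sA w κ i).card : ℝ) = ai at *
  generalize ((sB w κ i).card : ℝ) = bi at *
  generalize ((sB w κ (i + 1)).card : ℝ) = bi1 at *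
  generalize ((sA w κ (i + 2)).card : ℝ) = ai2 at *
  have hk0 : (0 : ℝ) ≤ k := Nat.cast_nonneg k
  unfold fA at hAi hAi2
  unfold fB at hBi hBi1
  have f1 : φ * (k * (u ^ 3 + u * v)) - η ≤ φ * ai := by
    have g1 : (k : ℝ) * (u ^ 3 + u * v) - η ≤ ai := by
      have g2 : 0 ≤ (k : ℝ) * (u ^ 2 * v * (1 + (s1 - s2))) := by
        refine mul_nonneg hk0 (mul_nonneg (mul_nonneg (sq_nonneg u) hv0) ?_)
        linarith
      linarith [hAi, g2]
    have g3 := mul_le_mul_of_nonneg_left g1 hφ0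
    have g4 : φ * η ≤ η := by nlinarith
    linarith
  have f2 : ψ * (k * (v ^ 3 + u * v)) - η ≤ ψ * bi := by
    have g1 : (k : ℝ) * (v ^ 3 + u * v) - η ≤ bi := by
      have g2 : 0 ≤ (k : ℝ) * (u * v ^ 2 * (1 - (s1 - s2))) := by
        refine mul_nonneg hk0 (mul_nonneg (mul_nonneg hu0 (sq_nonneg v)) ?_)
        linarith
      linarith [hBi, g2]
    have g3 := mul_le_mul_of_nonneg_left g1 hψ0
    have g4 : ψ * η ≤ η := by nlinarith
    linarith
  have f3 : 0 ≤ (k : ℝ) * (u * v * (φ + ψ - (1 - s))) := by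
    refine mul_nonneg hk0 (mul_nonneg (mul_nonneg hu0 hv0) ?_)
    linarith
  have hv' : v = 1 - u := by linarith
  refine le_trans ?_ hK
  have f4 : (k : ℝ) * (1 + φ * u ^ 3 + ψ * v ^ 3 + u * v ^ 2 * (1 - s2) +
      u ^ 2 * v * (1 - s1)) = φ * (k * (u ^ 3 + u * v)) + ψ * (k * (v ^ 3 + u * v)) +
      k * (v ^ 3 + u * v + u * v ^ 2 * (1 - (s2 - s))) +
      k * (u ^ 3 + u * v + u ^ 2 * v * (1 + (s - s1))) -
      k * (u * v * (φ + ψ - (1 - s))) := by
    rw [hv']
    ring
  linarith [f1, f2, f3, f4, hBi1, hAi2]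

end Pool.Agent.SKP
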