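import Pool.Agent.SKP.StS

/-!
# SKP: Swp, exchange of the colours
-/

set_option autoImplicit false

namespace Pool.Agent.SKP

open scoped Classical

private lemma Swp_ng {n : ℕ} (κ : Fin n → Bool) (a : Fin n) :
    (ng κ a = true ↔ κ a = false) ∧ (ng κ a = false ↔ κ a = true) := by
  unfold ng
  cases κ a <;> simp

private lemma Swp_sA {n : ℕ} (w : Fin n → Fin 3) (κ : Fin n → Bool) (i : Fin 3) :
    sA w (ng κ) i = sB w κ i := by
  unfold sA sB
  apply Finset.filter_congr
  intro a _
  rw [(Swp_ng κ a).1]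

private lemma Swp_sB {n : ℕ} (w : Fin n → Fin 3) (κ : Fin n → Bool) (i : Fin 3) :
    sB w (ng κ) i = sA w κ i := by
  unfold sA sB
  apply Finset.filter_congr
  intro a _
  rw [(Swp_ng κ a).2]

private lemma Swp_uu {n : ℕ} (κ : Fin n → Bool) : uu (ng κ) = vv κ := by
  unfold uu vv
  have : (Finset.univ.filter fun a => ng κ a = true) = Finset.univ.filter fun a => κ a = false := by
    apply Finset.filter_congr
    intro a _
    exact (Swp_ng κ a).1
  rw [this]

private lemma Swp_vv {n : ℕ} (κ : Fin n → Bool) : vv (ng κ) = uu κ := by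
  unfold uu vv
  have : (Finset.univ.filter fun a => ng κ a = false) = Finset.univ.filter fun a => κ a = true := by
    apply Finset.filter_congr
    intro a _
    exact (Swp_ng κ a).2
  rw [this]

private lemma Swp_bool (i j : Fin 3) (b : Bool) (P : Prop) :
    ((j = i ∧ ((b = false ∧ P) ∨ (b = true ∧ ¬ P))) ∨ (j = i + 1 ∧ b = true) ∨
      (j = i + 2 ∧ b = false)) ↔
    ¬ ((j = i ∧ ((b = true ∧ P) ∨ (b = false ∧ ¬ P))) ∨ (j = i + 1 ∧ b = false) ∨
      (j = i + 2 ∧ b = true)) := by
  by_cases hP : P <;> simp only [hP, not_true, not_false_iff, and_true, and_false, or_false,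
    false_or] <;> revert i j b <;> decide

private lemma Swp_KK {n : ℕ} (w : Fin n → Fin 3) (κ : Fin n → Bool) (i : Fin 3) (r : ℕ) :
    KK w (ng κ) i r = (KK w κ i r)ᶜ := by
  ext a
  unfold KK
  rw [Finset.mem_compl, Finset.mem_filter, Finset.mem_filter]
  simp only [Finset.mem_univ, true_and, (Swp_ng κ a).1, (Swp_ng κ a).2]
  have := Swp_bool i (w a) (κ a) (r ≤ (a : ℕ))
  simpa only [not_le] using this

private lemma Swp_cN {n : ℕ} (w : Fin n → Fin 3) (κ : Fin n → Bool) (i : Fin 3) :
    cN w κ i + cN w (ng κ) i = (sA w κ i).card * (sB w κ i).card := by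
  unfold cN
  rw [Swp_sA, Swp_sB, ← Finset.card_product]
  have h2 : (((sB w κ i) ×ˢ (sA w κ i)).filter fun q => q.1 < q.2).card =
      (((sA w κ i) ×ˢ (sB w κ i)).filter fun q => ¬ q.1 < q.2).card := by
    apply Finset.card_bij (fun q _ => (q.2, q.1))
    · intro q hq
      simp only [Finset.mem_filter, Finset.mem_product] at hq ⊢
      exact ⟨⟨hq.1.2, hq.1.1⟩, not_lt.2 hq.2.le⟩
    · intro q _ q' _ h
      simp only [Prod.mk.injEq] at h
      exact Prod.ext h.2 h.1
    · intro q hq
      simp only [Finset.mem_filter, Finset.mem_product] at hq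
      refine ⟨(q.2, q.1), ?_, rfl⟩
      simp only [Finset.mem_filter, Finset.mem_product]
      refine ⟨⟨hq.1.2, hq.1.1⟩, lt_of_le_of_ne (not_lt.1 hq.2) ?_⟩
      intro h
      have e1 := hq.1.1
      have e2 := hq.1.2
      unfold sA at e1
      unfold sB at e2
      rw [Finset.mem_filter] at e1 e2
      rw [h, e1.2.2] at e2
      exact Bool.noConfusion e2.2.2
  rw [h2]
  exact Finset.card_filter_add_card_filter_not _

theorem thm_Swp : Stmt_Swp := by
  intro n w κ
  refine ⟨fun i => ⟨Swp_sA w κ i, Swp_sB w κ i⟩, ⟨Swp_uu κ, Swp_vv κ⟩,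
    fun i r => Swp_KK w κ i r, ?_, ?_⟩
  · intro t
    unfold Gs
    apply and_congr Iff.rfl
    apply forall_congr'
    intro i
    apply forall_congr'
    intro r
    rw [Swp_KK]
    have e1 : t ∩ (KK w κ i r)ᶜ = t \ KK w κ i r := by
      rw [Finset.sdiff_eq_inter_compl]
    have e2 : t \ (KK w κ i r)ᶜ = t ∩ KK w κ i r := by
      rw [Finset.sdiff_eq_inter_compl, compl_compl]
    rw [e1, e2]
    exact and_comm
  · intro hne
    have hss : ∀ i, ss w (ng κ) i = 1 - ss w κ i := by
      intro i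
      unfold ss
      have hA : (0 : ℝ) < (sA w κ i).card := by
        exact_mod_cast Finset.card_pos.2 (hne i).1
      have hB : (0 : ℝ) < (sB w κ i).card := by
        exact_mod_cast Finset.card_pos.2 (hne i).2
      have hc : (cN w κ i : ℝ) + cN w (ng κ) i = (sA w κ i).card * (sB w κ i).card := by
        exact_mod_cast Swp_cN w κ i
      rw [Swp_sA, Swp_sB, eq_sub_iff_add_eq, mul_comm ((sB w κ i).card : ℝ), ← add_div,
        add_comm, hc, div_self (mul_pos hA hB).ne']
    refine ⟨hss, ?_⟩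
    intro k η hbal i
    obtain ⟨h1, h2⟩ := hbal i
    rw [Swp_sA, Swp_sB, Swp_uu, Swp_vv, hss, hss]
    constructor
    · have e : fA (vv κ) (uu κ) (1 - ss w κ (i + 1) - (1 - ss w κ (i + 2))) =
          fB (uu κ) (vv κ) (ss w κ (i + 1) - ss w κ (i + 2)) := by
        unfold fA fB
        ring
      rw [e]
      exact h2
    · have e : fB (vv κ) (uu κ) (1 - ss w κ (i + 1) - (1 - ss w κ (i + 2))) =
          fA (uu κ) (vv κ) (ss w κ (i + 1) - ss w κ (i + 2)) := by
        unfold fA fB
        ring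
      rw [e]
      exact h1

end Pool.Agent.SKP
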