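import Pool.Agent.SKP.StN

/-!
# SKP, module Thi: the thin directions
-/

set_option autoImplicit false

namespace Pool.Agent.SKP

open scoped Classical

private lemma Thi_ip (ν x c : E2) : ip ν (x - c) = ν 0 * (x 0 - c 0) + ν 1 * (x 1 - c 1) := rfl

private lemma Thi_cr (x y c : E2) :
    cr (x - c) (y - c) = (x 0 - c 0) * (y 1 - c 1) - (x 1 - c 1) * (y 0 - c 0) := rfl

/-- a vector orthogonal to two independent vectors is zero -/
private lemma Thi_zero {ν a b d c : E2} (h1 : ip ν (a - c) = 0) (h2 : ip ν (b - c) = 0)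
    (h3 : ip ν (d - c) = 0) (h : cr (b - a) (d - a) ≠ 0) : ν = 0 := by
  rw [Thi_ip] at h1 h2 h3
  rw [Thi_cr] at h
  have e1 : ν 0 * (b 0 - a 0) + ν 1 * (b 1 - a 1) = 0 := by linarith
  have e2 : ν 0 * (d 0 - a 0) + ν 1 * (d 1 - a 1) = 0 := by linarith
  have f0 : ν 0 * ((b 0 - a 0) * (d 1 - a 1) - (b 1 - a 1) * (d 0 - a 0)) = 0 := by
    linear_combination (d 1 - a 1) * e1 - (b 1 - a 1) * e2
  have f1 : ν 1 * ((b 0 - a 0) * (d 1 - a 1) - (b 1 - a 1) * (d 0 - a 0)) = 0 := by
    linear_combination (b 0 - a 0) * e2 - (d 0 - a 0) * e1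
  have g0 : ν 0 = 0 := (mul_eq_zero.1 f0).resolve_right h
  have g1 : ν 1 = 0 := (mul_eq_zero.1 f1).resolve_right h
  ext i
  fin_cases i
  · exact g0
  · exact g1

theorem thm_Thi : Stmt_Thi := by
  intro k P c hk hP
  -- the points strictly inside
  let F : Finset (Fin (3 * k)) → Set E2 := fun M =>
    {y | ∀ ν : E2, ν ≠ 0 → (∀ x ∈ M, ip ν (P x - c) ≤ 0) → ip ν (y - c) < 0}
  let s : Finset (Finset (Fin (3 * k))) := Finset.univ.filter fun M => 2 * k + 1 ≤ M.card
  have hF : (⋂ M ∈ s, F M).Nonempty := by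
    refine Convex.helly_theorem' (𝕜 := ℝ) ?_ ?_
    · intro M _ y hy z hz a b ha hb hab ν hν hM
      have h1 := hy ν hν hM
      have h2 := hz ν hν hM
      have h3 : ip ν (a • y + b • z - c) = a * ip ν (y - c) + b * ip ν (z - c) := by
        rw [Thi_ip, Thi_ip, Thi_ip]
        simp only [PiLp.add_apply, PiLp.smul_apply, smul_eq_mul]
        have h4 : c 0 = (a + b) * c 0 := by rw [hab, one_mul]
        have h5 : c 1 = (a + b) * c 1 := by rw [hab, one_mul]
        calc ν 0 * (a * y 0 + b * z 0 - c 0) + ν 1 * (a * y 1 + b * z 1 - c 1)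
            = ν 0 * (a * y 0 + b * z 0 - (a + b) * c 0) +
              ν 1 * (a * y 1 + b * z 1 - (a + b) * c 1) := by rw [← h4, ← h5]
          _ = _ := by ring
      rw [h3]
      rcases ha.eq_or_lt with ha0 | ha0
      · have hb1 : b = 1 := by linarith
        rw [← ha0, hb1, zero_mul, zero_add, one_mul]
        exact h2
      · have h4 : a * ip ν (y - c) < 0 := mul_neg_of_pos_of_neg ha0 h1
        have h5 : b * ip ν (z - c) ≤ 0 := mul_nonpos_of_nonneg_of_nonpos hb h2.le
        linarith
    · intro I hI hIc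
      have hfr : Module.finrank ℝ E2 + 1 = 3 := by
        rw [finrank_euclideanSpace_fin]
      rw [hfr] at hIc
      -- the common points
      obtain ⟨X, hX⟩ : ∃ X : Finset (Fin (3 * k)),
        X = Finset.univ.filter fun x => ∀ M ∈ I, x ∈ M := ⟨_, rfl⟩
      have hXc : 2 < X.card := by
        have h1 : Xᶜ ⊆ I.biUnion fun M => Mᶜ := by
          intro x hx
          rw [hX, Finset.mem_compl, Finset.mem_filter] at hx
          push Not at hx
          obtain ⟨M, hM, hxM⟩ := hx (Finset.mem_univ x)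
          exact Finset.mem_biUnion.2 ⟨M, hM, Finset.mem_compl.2 hxM⟩
        have h2 : Xᶜ.card ≤ I.card * (k - 1) := by
          refine le_trans (Finset.card_le_card h1) (Finset.card_biUnion_le_card_mul _ _ _ ?_)
          intro M hM
          have h3 := (Finset.mem_filter.1 (hI hM)).2
          rw [Finset.card_compl, Fintype.card_fin]
          omega
        have h3 : Xᶜ.card ≤ 3 * (k - 1) := le_trans h2 (Nat.mul_le_mul_right _ hIc)
        rw [Finset.card_compl, Fintype.card_fin] at h3
        have h4 : X.card ≤ 3 * k := by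
          have := Finset.card_le_univ X
          rwa [Fintype.card_fin] at this
        omega
      obtain ⟨a, ha, b, hb, d, hd, hab, had, hbd⟩ := Finset.two_lt_card.1 hXc
      refine ⟨(1 / 3 : ℝ) • (P a + P b + P d), ?_⟩
      rw [Set.mem_iInter₂]
      intro M hM ν hν hx
      rw [hX] at ha hb hd
      have ha' := hx a ((Finset.mem_filter.1 ha).2 M hM)
      have hb' := hx b ((Finset.mem_filter.1 hb).2 M hM)
      have hd' := hx d ((Finset.mem_filter.1 hd).2 M hM)
      have h3 : ip ν ((1 / 3 : ℝ) • (P a + P b + P d) - c) =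
          1 / 3 * (ip ν (P a - c) + ip ν (P b - c) + ip ν (P d - c)) := by
        rw [Thi_ip, Thi_ip, Thi_ip, Thi_ip]
        simp only [PiLp.add_apply, PiLp.smul_apply, smul_eq_mul]
        ring
      rw [h3]
      by_contra hcon
      have z1 : ip ν (P a - c) = 0 := by linarith
      have z2 : ip ν (P b - c) = 0 := by linarith
      have z3 : ip ν (P d - c) = 0 := by linarith
      exact hν (Thi_zero z1 z2 z3 (hP.2 a b d hab hbd had))
  obtain ⟨y, hy⟩ := hF
  rw [Set.mem_iInter₂] at hy
  refine ⟨y - c, fun ν hν hc => ?_⟩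
  refine hy (Finset.univ.filter fun x => ip ν (P x - c) ≤ 0) ?_ ν hν ?_
  · rw [Finset.mem_filter]
    refine ⟨Finset.mem_univ _, ?_⟩
    have h1 : (Finset.univ.filter fun x => ip ν (P x - c) ≤ 0) =
        (Finset.univ.filter fun x => 0 < ip ν (P x - c))ᶜ := by
      ext x
      simp
    rw [h1, Finset.card_compl, Fintype.card_fin]
    omega
  · intro x hx
    exact (Finset.mem_filter.1 hx).2

end Pool.Agent.SKP
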