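import Pool.Agent.SKP.StN

/-!
# Sierksma's bound in the plane (MP_001fdd_co): three half planes of type H or G intersect
-/

set_option autoImplicit false

namespace Pool.Agent.SKP

open scoped Classical

private lemma Tri_ip_add (ν x y : E2) : ip ν (x + y) = ip ν x + ip ν y := by
  simp only [ip, PiLp.add_apply]
  ring

private lemma Tri_ip_smul (ν x : E2) (t : ℝ) : ip ν (t • x) = t * ip ν x := by
  simp only [ip, PiLp.smul_apply, smul_eq_mul]
  ring

private lemma Tri_convex (ν : E2) (a : ℝ) : Convex ℝ {y : E2 | a ≤ ip ν y} := by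
  intro x hx y hy s t hs ht hst
  simp only [Set.mem_ofPred_eq] at hx hy ⊢
  rw [Tri_ip_add, Tri_ip_smul, Tri_ip_smul]
  have h1 : s * a ≤ s * ip ν x := mul_le_mul_of_nonneg_left hx hs
  have h2 : t * a ≤ t * ip ν y := mul_le_mul_of_nonneg_left hy ht
  have h3 : s * a + t * a = a := by rw [← add_mul, hst, one_mul]
  linarith

/-- a point strictly inside a triangle is in every convex set with the vertices -/
private lemma Tri_mem {c x y z : E2} (h : Sin c x y z) {K : Set E2} (hK : Convex ℝ K)
    (hx : x ∈ K) (hy : y ∈ K) (hz : z ∈ K) : c ∈ K := by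
  obtain ⟨α, β, γ, h1, h2, h3, h4, rfl⟩ := h
  have hbc : 0 < β + γ := by linarith
  have hw : (β / (β + γ)) • y + (γ / (β + γ)) • z ∈ K :=
    hK hy hz (by positivity) (by positivity) (by field_simp)
  have h5 : α • x + (β + γ) • ((β / (β + γ)) • y + (γ / (β + γ)) • z) ∈ K :=
    hK hx hw h1.le hbc.le (by linarith)
  have h6 : α • x + (β + γ) • ((β / (β + γ)) • y + (γ / (β + γ)) • z) =
      α • x + β • y + γ • z := by
    rw [smul_add, smul_smul, smul_smul, mul_div_cancel₀ _ hbc.ne', mul_div_cancel₀ _ hbc.ne',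
      add_assoc]
  rwa [h6] at h5

/-- FACT 2: the point on the border -/
private lemma Tri_c1 (c p ν : E2) (a : ℝ) (hc : ip ν c < a) (q₀ q₀' : E2)
    (h0 : Sin c p q₀ q₀') (hq₀ : a ≤ ip ν q₀) (hq₀' : a ≤ ip ν q₀') :
    ∃ c₁ : E2, a ≤ ip ν c₁ ∧ ∀ p' q q' : E2, Sin c p q q' → Sin c p' q q' → a ≤ ip ν q →
      a ≤ ip ν q' → ∀ K : Set E2, Convex ℝ K → p' ∈ K → q ∈ K → q' ∈ K → c₁ ∈ K := by
  have hd : 0 < ip ν c - ip ν p := by
    obtain ⟨α, β, γ, h1, h2, h3, h4, h5⟩ := h0
    have h6 : ip ν c = α * ip ν p + β * ip ν q₀ + γ * ip ν q₀' := by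
      rw [h5, Tri_ip_add, Tri_ip_add, Tri_ip_smul, Tri_ip_smul, Tri_ip_smul]
    have h7 : β * a ≤ β * ip ν q₀ := mul_le_mul_of_nonneg_left hq₀ h2.le
    have h8 : γ * a ≤ γ * ip ν q₀' := mul_le_mul_of_nonneg_left hq₀' h3.le
    have h9 : (β + γ) * (a - ip ν c) > 0 := mul_pos (by linarith) (by linarith)
    have h10 : α * (ip ν c - ip ν p) > 0 := by
      have e1 : α = 1 - (β + γ) := by linarith
      have e2 : α * (ip ν c - ip ν p) = ip ν c - (β + γ) * ip ν c - α * ip ν p := by
        rw [mul_sub]
        nth_rewrite 1 [e1]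
        ring
      rw [e2]
      nlinarith
    exact (pos_iff_pos_of_mul_pos h10).1 h1
  set d := ip ν c - ip ν p with hdd
  set t := (a - ip ν c) / d with ht
  have htd : t * d = a - ip ν c := div_mul_cancel₀ _ hd.ne'
  have ht0 : 0 < t := div_pos (by linarith) hd
  refine ⟨(1 + t) • c + (-t) • p, ?_, ?_⟩
  · rw [Tri_ip_add, Tri_ip_smul, Tri_ip_smul]
    have : (1 + t) * ip ν c + -t * ip ν p = ip ν c + t * d := by rw [hdd]; ring
    rw [this, htd]
    linarith
  · intro p' q q' hs hs' hq hq' K hK hp'K hqK hq'K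
    have hcK : c ∈ K := Tri_mem hs' hK hp'K hqK hq'K
    obtain ⟨α, β, γ, h1, h2, h3, h4, h5⟩ := hs
    have hbc : 0 < β + γ := by linarith
    have hy : (β / (β + γ)) • q + (γ / (β + γ)) • q' ∈ K :=
      hK hqK hq'K (by positivity) (by positivity) (by field_simp)
    -- the parameter is at most one
    have h6 : ip ν c = α * ip ν p + β * ip ν q + γ * ip ν q' := by
      rw [h5, Tri_ip_add, Tri_ip_add, Tri_ip_smul, Tri_ip_smul, Tri_ip_smul]
    have h7 : β * a ≤ β * ip ν q := mul_le_mul_of_nonneg_left hq h2.le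
    have h8 : γ * a ≤ γ * ip ν q' := mul_le_mul_of_nonneg_left hq' h3.le
    have h9 : (β + γ) * (t * d) ≤ α * d := by
      rw [htd, hdd]
      have e1 : α = 1 - (β + γ) := by linarith
      have e2 : α * (ip ν c - ip ν p) = ip ν c - (β + γ) * ip ν c - α * ip ν p := by
        rw [mul_sub]
        nth_rewrite 1 [e1]
        ring
      rw [e2]
      nlinarith
    have h10 : (β + γ) * t ≤ α := by
      have : ((β + γ) * t) * d ≤ α * d := by rw [mul_assoc]; exact h9
      exact le_of_mul_le_mul_right this hd
    have h11 : (β + γ) * t / α ≤ 1 := (div_le_one h1).2 h10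
    have h12 : 0 ≤ (β + γ) * t / α := by positivity
    have h13 : (1 - (β + γ) * t / α) • c + ((β + γ) * t / α) •
        ((β / (β + γ)) • q + (γ / (β + γ)) • q') ∈ K :=
      hK hcK hy (by linarith) h12 (by ring)
    have h14 : (β / (β + γ)) • q + (γ / (β + γ)) • q' = (1 / (β + γ)) • (c - α • p) := by
      rw [h5]
      have : α • p + β • q + γ • q' - α • p = β • q + γ • q' := by abel
      rw [this, smul_add, smul_smul, smul_smul, one_div, div_eq_inv_mul, div_eq_inv_mul]
    have h15 : (1 - (β + γ) * t / α) • c + ((β + γ) * t / α) •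
        ((β / (β + γ)) • q + (γ / (β + γ)) • q') = (1 + t) • c + (-t) • p := by
      rw [h14]
      have e1 : β + γ = 1 - α := by linarith
      rw [e1]
      have hα : (1 : ℝ) - α ≠ 0 := by linarith
      match_scalars
      · field_simp
        ring
      · field_simp
    rwa [h15] at h13

private lemma Tri_two {n : ℕ} {X Y Z : Finset (Fin n)} (hXY : Disjoint X Y) (hX : X ⊆ Z)
    (hY : Y ⊆ Z) : X.card + Y.card ≤ Z.card := by
  rw [← Finset.card_union_of_disjoint hXY]
  exact Finset.card_le_card (Finset.union_subset hX hY)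

theorem thm_Tri : Stmt_Tri := by
  intro k o P D c₀ ν a ho hk hD hDc hR hT
  have hk0 : 0 < k := by omega
  -- rainbow triangles, symmetric form
  have hS : ∀ (i : Fin 3) (p q q' : Fin (3 * k)), p ∈ D i → q ∈ D (i + 1) → q' ∈ D (i + 2) →
      Sin c₀ (P p) (P q) (P q') := by
    intro i p q q' hp hq hq'
    fin_cases i
    · have h := hR ![p, q, q'] (by
        intro i
        fin_cases i
        · exact hp
        · exact hq
        · exact hq')
      exact h
    · have h := hR ![q', p, q] (by
        intro i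
        fin_cases i
        · exact hq'
        · exact hp
        · exact hq)
      obtain ⟨α, β, γ, h1, h2, h3, h4, h5⟩ := h
      refine ⟨β, γ, α, h2, h3, h1, by linarith, ?_⟩
      rw [h5]
      simp only [Matrix.cons_val_zero, Matrix.cons_val_one, Matrix.cons_val]
      abel
    · have h := hR ![q, q', p] (by
        intro i
        fin_cases i
        · exact hq
        · exact hq'
        · exact hp)
      obtain ⟨α, β, γ, h1, h2, h3, h4, h5⟩ := h
      refine ⟨γ, α, β, h3, h1, h2, by linarith, ?_⟩
      rw [h5]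
      simp only [Matrix.cons_val_zero, Matrix.cons_val_one, Matrix.cons_val]
      abel
  have hhull : ∀ x : Fin (3 * k), P x ∈ convexHull ℝ (Set.range P) :=
    fun x => subset_convexHull ℝ _ (Set.mem_range_self x)
  have hDne : ∀ i, (D i).Nonempty := by
    intro i
    rw [← Finset.card_pos]
    have := hDc i
    omega
  by_cases hall : ∀ j, (Finset.univ.filter fun x => ip (ν j) (P x) < a j).card + 1 ≤ k
  · -- three of type H
    by_contra hcon
    push Not at hcon
    have hsub : (Finset.univ : Finset (Fin (3 * k))) ⊆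
        ((Finset.univ.filter fun x => ip (ν 0) (P x) < a 0) ∪
          (Finset.univ.filter fun x => ip (ν 1) (P x) < a 1)) ∪
          (Finset.univ.filter fun x => ip (ν 2) (P x) < a 2) := by
      intro x _
      obtain ⟨j, hj⟩ := hcon (P x) (hhull x)
      simp only [Finset.mem_union, Finset.mem_filter, Finset.mem_univ, true_and]
      fin_cases j
      · exact Or.inl (Or.inl hj)
      · exact Or.inl (Or.inr hj)
      · exact Or.inr hj
    have h1 := Finset.card_le_card hsub
    rw [Finset.card_univ, Fintype.card_fin] at h1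
    have h2 := (Finset.card_union_le ((Finset.univ.filter fun x => ip (ν 0) (P x) < a 0) ∪
          (Finset.univ.filter fun x => ip (ν 1) (P x) < a 1))
          (Finset.univ.filter fun x => ip (ν 2) (P x) < a 2))
    have h3 := (Finset.card_union_le (Finset.univ.filter fun x => ip (ν 0) (P x) < a 0)
          (Finset.univ.filter fun x => ip (ν 1) (P x) < a 1))
    have h4 := hall 0
    have h5 := hall 1
    have h6 := hall 2
    omega
  · push Not at hall
    obtain ⟨j2, hj2⟩ := hall
    have hG2 : ∀ i, 3 * o + 1 ≤ ((D i).filter fun x => a j2 ≤ ip (ν j2) (P x)).card := by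
      rcases hT j2 with h | h
      · omega
      · exact h
    -- type G contains c₀
    have hGc : ∀ j, (∀ i, 3 * o + 1 ≤ ((D i).filter fun x => a j ≤ ip (ν j) (P x)).card) →
        a j ≤ ip (ν j) c₀ := by
      intro j hj
      have hne : ∀ i, ∃ x ∈ D i, a j ≤ ip (ν j) (P x) := by
        intro i
        have : ((D i).filter fun x => a j ≤ ip (ν j) (P x)).Nonempty := by
          rw [← Finset.card_pos]
          have := hj i
          omega
        obtain ⟨x, hx⟩ := this
        rw [Finset.mem_filter] at hx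
        exact ⟨x, hx.1, hx.2⟩
      obtain ⟨p, hp, hp'⟩ := hne 0
      obtain ⟨q, hq, hq'⟩ := hne 1
      obtain ⟨r, hr, hr'⟩ := hne 2
      exact Tri_mem (hS 0 p q r hp hq hr) (Tri_convex (ν j) (a j)) hp' hq' hr'
    by_cases hc : ∀ j, a j ≤ ip (ν j) c₀
    · obtain ⟨p, hp⟩ := hDne 0
      obtain ⟨q, hq⟩ := hDne 1
      obtain ⟨r, hr⟩ := hDne 2
      exact ⟨c₀, Tri_mem (hS 0 p q r hp hq hr) (convex_convexHull ℝ _) (hhull p) (hhull q)
        (hhull r), hc⟩
    · push Not at hc
      obtain ⟨j, hj⟩ := hc
      have hjH : (Finset.univ.filter fun x => ip (ν j) (P x) < a j).card + 1 ≤ k := by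
        rcases hT j with h | h
        · exact h
        · exact absurd (hGc j h) (not_le.2 hj)
      have hjj2 : j ≠ j2 := by
        rintro rfl
        exact absurd (hGc j hG2) (not_le.2 hj)
      -- FACT 1
      have hF1 : ∃ i, ∀ x ∈ D i, ip (ν j) (P x) < a j := by
        by_contra hcon
        push Not at hcon
        obtain ⟨p, hp, hp'⟩ := hcon 0
        obtain ⟨q, hq, hq'⟩ := hcon 1
        obtain ⟨r, hr, hr'⟩ := hcon 2
        exact absurd (Tri_mem (hS 0 p q r hp hq hr) (Tri_convex (ν j) (a j)) hp' hq' hr')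
          (not_le.2 hj)
      obtain ⟨i, hi⟩ := hF1
      have hsubi : D i ⊆ Finset.univ.filter fun x => ip (ν j) (P x) < a j := by
        intro x hx
        exact Finset.mem_filter.2 ⟨Finset.mem_univ _, hi x hx⟩
      have hB : ∀ l, l ≠ i → ((D l).filter fun x => ip (ν j) (P x) < a j).card + 1 ≤ o := by
        intro l hl
        have h1 := Tri_two (X := D i) (Y := (D l).filter fun x => ip (ν j) (P x) < a j)
          (Z := Finset.univ.filter fun x => ip (ν j) (P x) < a j)
          (Finset.disjoint_of_subset_right (Finset.filter_subset _ _) (hD i l (Ne.symm hl)))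
          hsubi (Finset.filter_subset_filter _ (Finset.subset_univ _))
        have h2 := hDc i
        omega
      have hA : ∀ l, l ≠ i →
          k + 1 ≤ ((D l).filter fun x => a j ≤ ip (ν j) (P x)).card + 2 * o := by
        intro l hl
        have h1 := Finset.card_filter_add_card_filter_not (s := D l)
          (fun x => ip (ν j) (P x) < a j)
        simp only [not_lt] at h1
        have h2 := hB l hl
        have h3 := hDc l
        omega
      -- points in `G_j` and in a half plane of type G
      have hAC : ∀ j', (∀ i, 3 * o + 1 ≤ ((D i).filter fun x => a j' ≤ ip (ν j') (P x)).card) →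
          ∀ l, l ≠ i → 2 * o + 2 ≤ ((D l).filter fun x =>
            a j ≤ ip (ν j) (P x) ∧ a j' ≤ ip (ν j') (P x)).card := by
        intro j' hj' l hl
        have h1 : ((D l).filter fun x => a j' ≤ ip (ν j') (P x)) ⊆
            ((D l).filter fun x => a j ≤ ip (ν j) (P x) ∧ a j' ≤ ip (ν j') (P x)) ∪
              ((D l).filter fun x => ip (ν j) (P x) < a j) := by
          intro x hx
          rw [Finset.mem_filter] at hx
          rw [Finset.mem_union, Finset.mem_filter, Finset.mem_filter]
          rcases le_or_gt (a j) (ip (ν j) (P x)) with h | h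
          · exact Or.inl ⟨hx.1, h, hx.2⟩
          · exact Or.inr ⟨hx.1, h⟩
        have h2 := Finset.card_le_card h1
        have h3 := Finset.card_union_le
          ((D l).filter fun x => a j ≤ ip (ν j) (P x) ∧ a j' ≤ ip (ν j') (P x))
          ((D l).filter fun x => ip (ν j) (P x) < a j)
        have h4 := hB l hl
        have h5 := hj' l
        omega
      have hi1 : i + 1 ≠ i := by
        fin_cases i <;> decide
      have hi2 : i + 2 ≠ i := by
        fin_cases i <;> decide
      have hi12 : i + 1 ≠ i + 2 := by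
        fin_cases i <;> decide
      have hAne : ∀ l, l ≠ i → ∃ x ∈ D l, a j ≤ ip (ν j) (P x) := by
        intro l hl
        have : ((D l).filter fun x => a j ≤ ip (ν j) (P x)).Nonempty := by
          rw [← Finset.card_pos]
          have := hA l hl
          omega
        obtain ⟨x, hx⟩ := this
        rw [Finset.mem_filter] at hx
        exact ⟨x, hx.1, hx.2⟩
      obtain ⟨p, hp⟩ := hDne i
      obtain ⟨q₀, hq₀, hq₀j⟩ := hAne (i + 1) hi1
      obtain ⟨r₀, hr₀, hr₀j⟩ := hAne (i + 2) hi2
      obtain ⟨c₁, hc₁, hc₁K⟩ := Tri_c1 c₀ (P p) (ν j) (a j) hj (P q₀) (P r₀)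
        (hS i p q₀ r₀ hp hq₀ hr₀) hq₀j hr₀j
      -- FACT 3
      have hF3 : ∀ j' : Fin 3, ∀ p' ∈ D i, ∀ q ∈ D (i + 1), ∀ r ∈ D (i + 2),
          a j ≤ ip (ν j) (P q) → a j ≤ ip (ν j) (P r) → a j' ≤ ip (ν j') (P p') →
          a j' ≤ ip (ν j') (P q) → a j' ≤ ip (ν j') (P r) → a j' ≤ ip (ν j') c₁ := by
        intro j' p' hp' q hq r hr h1 h2 h3 h4 h5
        exact hc₁K (P p') (P q) (P r) (hS i p q r hp hq hr) (hS i p' q r hp' hq hr) h1 h2
          _ (Tri_convex (ν j') (a j')) h3 h4 h5
      have hG3 : ∀ j', (∀ i, 3 * o + 1 ≤ ((D i).filter fun x => a j' ≤ ip (ν j') (P x)).card) →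
          a j' ≤ ip (ν j') c₁ := by
        intro j' hj'
        have h1 : ((D i).filter fun x => a j' ≤ ip (ν j') (P x)).Nonempty := by
          rw [← Finset.card_pos]
          have := hj' i
          omega
        have h2 : ∀ l, l ≠ i → ∃ x ∈ D l, a j ≤ ip (ν j) (P x) ∧ a j' ≤ ip (ν j') (P x) := by
          intro l hl
          have : ((D l).filter fun x =>
              a j ≤ ip (ν j) (P x) ∧ a j' ≤ ip (ν j') (P x)).Nonempty := by
            rw [← Finset.card_pos]
            have := hAC j' hj' l hl
            omega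
          obtain ⟨x, hx⟩ := this
          rw [Finset.mem_filter] at hx
          exact ⟨x, hx.1, hx.2⟩
        obtain ⟨p', hp'⟩ := h1
        rw [Finset.mem_filter] at hp'
        obtain ⟨q, hq, hq1, hq2⟩ := h2 (i + 1) hi1
        obtain ⟨r, hr, hr1, hr2⟩ := h2 (i + 2) hi2
        exact hF3 j' p' hp'.1 q hq r hr hq1 hr1 hp'.2 hq2 hr2
      by_cases hall1 : ∀ j', a j' ≤ ip (ν j') c₁
      · exact ⟨c₁, hc₁K (P p) (P q₀) (P r₀) (hS i p q₀ r₀ hp hq₀ hr₀) (hS i p q₀ r₀ hp hq₀ hr₀)
          hq₀j hr₀j _ (convex_convexHull ℝ _) (hhull p) (hhull q₀) (hhull r₀), hall1⟩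
      · push Not at hall1
        obtain ⟨j1, hj1⟩ := hall1
        have hj1j : j1 ≠ j := by
          rintro rfl
          exact absurd hc₁ (not_le.2 hj1)
        have hj1j2 : j1 ≠ j2 := by
          rintro rfl
          exact absurd (hG3 j1 hG2) (not_le.2 hj1)
        have hj1H : (Finset.univ.filter fun x => ip (ν j1) (P x) < a j1).card + 1 ≤ k := by
          rcases hT j1 with h | h
          · exact h
          · exact absurd (hG3 j1 h) (not_le.2 hj1)
        have hthree : ∀ j' : Fin 3, j' = j ∨ j' = j1 ∨ j' = j2 := by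
          intro j'
          revert hj1j hj1j2 hjj2
          clear * -
          revert j j1 j2 j'
          decide
        by_cases hx : ∃ l, l ≠ i ∧ ∃ x ∈ D l, (a j ≤ ip (ν j) (P x) ∧ a j2 ≤ ip (ν j2) (P x)) ∧
            a j1 ≤ ip (ν j1) (P x)
        · obtain ⟨l, _, x, _, hx1, hx2⟩ := hx
          refine ⟨P x, hhull x, fun j' => ?_⟩
          rcases hthree j' with rfl | rfl | rfl
          · exact hx1.1
          · exact hx2
          · exact hx1.2
        · exfalso
          push Not at hx
          have hACo : ∀ l, l ≠ i → ((D l).filter fun x =>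
              a j ≤ ip (ν j) (P x) ∧ a j2 ≤ ip (ν j2) (P x)) ⊆
              Finset.univ.filter fun x => ip (ν j1) (P x) < a j1 := by
            intro l hl x hx'
            rw [Finset.mem_filter] at hx'
            exact Finset.mem_filter.2 ⟨Finset.mem_univ _, hx l hl x hx'.1 hx'.2⟩
          have hcase : (∀ p' ∈ D i, ip (ν j1) (P p') < a j1) ∨
              (∀ q ∈ D (i + 1), a j ≤ ip (ν j) (P q) → ip (ν j1) (P q) < a j1) ∨
              (∀ r ∈ D (i + 2), a j ≤ ip (ν j) (P r) → ip (ν j1) (P r) < a j1) := by
            by_contra hcon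
            push Not at hcon
            obtain ⟨⟨p', hp', hp'1⟩, ⟨q, hq, hq1, hq2⟩, ⟨r, hr, hr1, hr2⟩⟩ := hcon
            exact absurd (hF3 j1 p' hp' q hq r hr hq1 hr1 hp'1 hq2 hr2) (not_le.2 hj1)
          have key : ∀ u v (X : Finset (Fin (3 * k))), u ≠ v → v ≠ i → X ⊆ D u →
              (∀ x ∈ X, ip (ν j1) (P x) < a j1) → X.card + 2 * o + 3 ≤ k := by
            intro u v X huv hv hXu hX
            have h1 := Tri_two (X := X) (Y := (D v).filter fun x =>
              a j ≤ ip (ν j) (P x) ∧ a j2 ≤ ip (ν j2) (P x))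
              (Z := Finset.univ.filter fun x => ip (ν j1) (P x) < a j1)
              (Finset.disjoint_of_subset_right (Finset.filter_subset _ _)
                (Finset.disjoint_of_subset_left hXu (hD u v huv)))
              (fun x hx => Finset.mem_filter.2 ⟨Finset.mem_univ _, hX x hx⟩) (hACo v hv)
            have h2 := hAC j2 hG2 v hv
            omega
          rcases hcase with h | h | h
          · have h1 := key i (i + 1) (D i) (Ne.symm hi1) hi1 (Finset.Subset.refl _) h
            have h2 := hDc i
            omega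
          · have h1 := key (i + 1) (i + 2) ((D (i + 1)).filter fun x => a j ≤ ip (ν j) (P x))
              hi12 hi2 (Finset.filter_subset _ _) (fun x hx => by
                rw [Finset.mem_filter] at hx
                exact h x hx.1 hx.2)
            have h2 := hA (i + 1) hi1
            omega
          · have h1 := key (i + 2) (i + 1) ((D (i + 2)).filter fun x => a j ≤ ip (ν j) (P x))
              (Ne.symm hi12) hi1 (Finset.filter_subset _ _) (fun x hx => by
                rw [Finset.mem_filter] at hx
                exact h x hx.1 hx.2)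
            have h2 := hA (i + 2) hi2
            omega

end Pool.Agent.SKP
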