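import Pool.Agent.SKP.StN

/-!
# SKP, module Two: two extreme vectors
-/

set_option autoImplicit false

namespace Pool.Agent.SKP

private lemma Two_id (s v z : E2) : (v 0 ^ 2 + v 1 ^ 2) * ip s z =
    ip s v * ip v z + cr v s * cr v z := by
  unfold ip cr
  ring

theorem thm_Two : Stmt_Two := by
  intro S v hS
  rcases S.eq_empty_or_nonempty with h | hne
  · exact Or.inl h
  right
  obtain ⟨s₁, hs₁, h1⟩ := S.exists_min_image (fun s => cr v s / ip s v) hne
  obtain ⟨s₂, hs₂, h2⟩ := S.exists_max_image (fun s => cr v s / ip s v) hne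
  refine ⟨s₁, hs₁, s₂, hs₂, fun s hs z hz => ?_⟩
  by_contra hcon
  push Not at hcon
  obtain ⟨hz1, hz2⟩ := hcon
  have ha := hS s hs
  have ha1 := hS s₁ hs₁
  have ha2 := hS s₂ hs₂
  have hm1 : cr v s₁ * ip s v ≤ cr v s * ip s₁ v := by
    have h3 : cr v s₁ / ip s₁ v ≤ cr v s / ip s v := h1 s hs
    rwa [div_le_div_iff₀ ha1 ha] at h3
  have hm2 : cr v s * ip s₂ v ≤ cr v s₂ * ip s v := by
    have h3 : cr v s / ip s v ≤ cr v s₂ / ip s₂ v := h2 s hs
    rwa [div_le_div_iff₀ ha ha2] at h3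
  have hv : 0 < v 0 ^ 2 + v 1 ^ 2 := by
    by_contra h3
    have h4 : v 0 = 0 := by nlinarith [sq_nonneg (v 0), sq_nonneg (v 1)]
    have h5 : v 1 = 0 := by nlinarith [sq_nonneg (v 0), sq_nonneg (v 1)]
    have h6 : ip s v = 0 := by
      unfold ip
      rw [h4, h5]
      ring
    linarith
  have e := Two_id s v z
  have e1 := Two_id s₁ v z
  have e2 := Two_id s₂ v z
  have g : ip s v * ip v z + cr v s * cr v z < 0 := by
    rw [← e]
    exact mul_neg_of_pos_of_neg hv hz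
  have g1 : 0 ≤ ip s₁ v * ip v z + cr v s₁ * cr v z := by
    rw [← e1]
    exact mul_nonneg hv.le hz1
  have g2 : 0 ≤ ip s₂ v * ip v z + cr v s₂ * cr v z := by
    rw [← e2]
    exact mul_nonneg hv.le hz2
  rcases le_total 0 (cr v z) with hQ | hQ
  · have h3 : 0 ≤ ip s v * (ip s₁ v * ip v z + cr v s₁ * cr v z) := mul_nonneg ha.le g1
    have h4 : cr v s₁ * ip s v * cr v z ≤ cr v s * ip s₁ v * cr v z :=
      mul_le_mul_of_nonneg_right hm1 hQ
    have h5 : ip s₁ v * (ip s v * ip v z + cr v s * cr v z) < 0 :=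
      mul_neg_of_pos_of_neg ha1 g
    nlinarith
  · have h3 : 0 ≤ ip s v * (ip s₂ v * ip v z + cr v s₂ * cr v z) := mul_nonneg ha.le g2
    have h4 : cr v s₂ * ip s v * cr v z ≤ cr v s * ip s₂ v * cr v z :=
      mul_le_mul_of_nonpos_right hm2 hQ
    have h5 : ip s₂ v * (ip s v * ip v z + cr v s * cr v z) < 0 :=
      mul_neg_of_pos_of_neg ha2 g
    nlinarith

end Pool.Agent.SKP
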