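import Pool.Agent.SKP.StS

/-!
# SKP, Typ: the types of triangles are good
-/

set_option autoImplicit false

namespace Pool.Agent.SKP

open scoped Classical

private lemma Typ_KK {n : ℕ} (w : Fin n → Fin 3) (κ : Fin n → Bool) (i : Fin 3) (r : ℕ)
    (a : Fin n) : a ∈ KK w κ i r ↔
      (w a = i ∧ ((κ a = true ∧ r ≤ (a : ℕ)) ∨ (κ a = false ∧ (a : ℕ) < r))) ∨
      (w a = i + 1 ∧ κ a = false) ∨ (w a = i + 2 ∧ κ a = true) := by
  simp [KK]

private lemma Typ_sA {n : ℕ} (w : Fin n → Fin 3) (κ : Fin n → Bool) (i : Fin 3)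
    (a : Fin n) : a ∈ sA w κ i ↔ w a = i ∧ κ a = true := by
  simp [sA]

private lemma Typ_sB {n : ℕ} (w : Fin n → Fin 3) (κ : Fin n → Bool) (i : Fin 3)
    (a : Fin n) : a ∈ sB w κ i ↔ w a = i ∧ κ a = false := by
  simp [sB]

private lemma Typ_fin (i j : Fin 3) : j = i ∨ j = i + 1 ∨ j = i + 2 := by
  revert i j; decide

private lemma Typ_ne (i : Fin 3) : i ≠ i + 1 ∧ i ≠ i + 2 ∧ i + 1 ≠ i + 2 ∧ i + 1 + 1 = i + 2 ∧
    i + 1 + 2 = i ∧ i + 2 + 1 = i ∧ i + 2 + 2 = i + 1 := by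
  revert i; decide

private lemma Typ_A {n : ℕ} {w : Fin n → Fin 3} {κ : Fin n → Bool} {j : Fin 3}
    {a : Fin n} (h : a ∈ sA w κ j) (r : ℕ) :
    a ∈ KK w κ (j + 1) r ∧ a ∉ KK w κ (j + 2) r ∧ (a ∈ KK w κ j r ↔ r ≤ (a : ℕ)) := by
  obtain ⟨n1, n2, n3, e1, e2, e3, e4⟩ := Typ_ne j
  rw [Typ_sA] at h
  obtain ⟨h1, h2⟩ := h
  rw [Typ_KK, Typ_KK, Typ_KK, h1, h2, e1, e2, e3, e4]
  simp [n1, n2]

private lemma Typ_B {n : ℕ} {w : Fin n → Fin 3} {κ : Fin n → Bool} {j : Fin 3}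
    {a : Fin n} (h : a ∈ sB w κ j) (r : ℕ) :
    a ∈ KK w κ (j + 2) r ∧ a ∉ KK w κ (j + 1) r ∧ (a ∈ KK w κ j r ↔ (a : ℕ) < r) := by
  obtain ⟨n1, n2, n3, e1, e2, e3, e4⟩ := Typ_ne j
  rw [Typ_sB] at h
  obtain ⟨h1, h2⟩ := h
  rw [Typ_KK, Typ_KK, Typ_KK, h1, h2, e1, e2, e3, e4]
  simp [n1, n2]

private lemma Typ_mk {n : ℕ} {w : Fin n → Fin 3} {κ : Fin n → Bool} {x y z : Fin n}
    (h1 : x ≠ y) (h2 : x ≠ z) (h3 : y ≠ z)
    (h : ∀ (i : Fin 3) (r : ℕ), (x ∈ KK w κ i r ∨ y ∈ KK w κ i r ∨ z ∈ KK w κ i r) ∧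
      (x ∉ KK w κ i r ∨ y ∉ KK w κ i r ∨ z ∉ KK w κ i r)) : Gs w κ {x, y, z} := by
  refine ⟨Finset.card_eq_three.2 ⟨x, y, z, h1, h2, h3, rfl⟩, fun i r => ⟨?_, ?_⟩⟩
  · rcases (h i r).1 with h4 | h4 | h4
    · exact ⟨x, Finset.mem_inter.2 ⟨by simp, h4⟩⟩
    · exact ⟨y, Finset.mem_inter.2 ⟨by simp, h4⟩⟩
    · exact ⟨z, Finset.mem_inter.2 ⟨by simp, h4⟩⟩
  · rcases (h i r).2 with h4 | h4 | h4
    · exact ⟨x, Finset.mem_sdiff.2 ⟨by simp, h4⟩⟩
    · exact ⟨y, Finset.mem_sdiff.2 ⟨by simp, h4⟩⟩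
    · exact ⟨z, Finset.mem_sdiff.2 ⟨by simp, h4⟩⟩

theorem thm_Typ : Stmt_Typ := by
  intro n w κ
  refine ⟨?_, ?_, ?_⟩
  · intro x y z hx hy hz
    have ax := fun r => Typ_A hx r
    have ay := fun r => Typ_A hy r
    have az := fun r => Typ_A hz r
    rw [Typ_sA] at hx hy hz
    refine Typ_mk ?_ ?_ ?_ ?_
    · rintro rfl; have := hx.1.symm.trans hy.1; revert this; decide
    · rintro rfl; have := hx.1.symm.trans hz.1; revert this; decide
    · rintro rfl; have := hy.1.symm.trans hz.1; revert this; decide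
    · intro i r
      fin_cases i
      · exact ⟨Or.inr (Or.inr (az r).1), Or.inr (Or.inl (ay r).2.1)⟩
      · exact ⟨Or.inl (ax r).1, Or.inr (Or.inr (az r).2.1)⟩
      · exact ⟨Or.inr (Or.inl (ay r).1), Or.inl (ax r).2.1⟩
  · intro x y z hx hy hz
    have ax := fun r => Typ_B hx r
    have ay := fun r => Typ_B hy r
    have az := fun r => Typ_B hz r
    rw [Typ_sB] at hx hy hz
    refine Typ_mk ?_ ?_ ?_ ?_
    · rintro rfl; have := hx.1.symm.trans hy.1; revert this; decide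
    · rintro rfl; have := hx.1.symm.trans hz.1; revert this; decide
    · rintro rfl; have := hy.1.symm.trans hz.1; revert this; decide
    · intro i r
      fin_cases i
      · exact ⟨Or.inr (Or.inl (ay r).1), Or.inr (Or.inr (az r).2.1)⟩
      · exact ⟨Or.inr (Or.inr (az r).1), Or.inl (ax r).2.1⟩
      · exact ⟨Or.inl (ax r).1, Or.inr (Or.inl (ay r).2.1)⟩
  · intro i x y z hx hy
    obtain ⟨n1, n2, n3, e1, e2, e3, e4⟩ := Typ_ne i
    have ax := fun r => Typ_A hx r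
    have ay := fun r => Typ_B hy r
    have hxy : x ≠ y := by
      rintro rfl
      rw [Typ_sA] at hx
      rw [Typ_sB] at hy
      rw [hx.2] at hy
      exact absurd hy.2 (by decide)
    have hzx : ∀ j : Fin 3, i ≠ j → w z = j → x ≠ z ∧ y ≠ z := by
      intro j hij hz
      rw [Typ_sA] at hx
      rw [Typ_sB] at hy
      constructor
      · rintro rfl; exact hij (hx.1.symm.trans hz)
      · rintro rfl; exact hij (hy.1.symm.trans hz)
    constructor
    · intro hlt hz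
      have hw : x ≠ z ∧ y ≠ z := by
        rcases hz with hz | hz
        · exact hzx (i + 2) n2 ((Typ_sA w κ _ z).1 hz).1
        · exact hzx (i + 1) n1 ((Typ_sB w κ _ z).1 hz).1
      have hK : ∀ r, z ∈ KK w κ i r := by
        intro r
        rcases hz with hz | hz
        · have := (Typ_A hz r).1; rwa [e3] at this
        · have := (Typ_B hz r).1; rwa [e2] at this
      refine Typ_mk hxy hw.1 hw.2 ?_
      intro j r
      rcases Typ_fin i j with rfl | rfl | rfl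
      · refine ⟨Or.inr (Or.inr (hK r)), ?_⟩
        rcases le_or_gt r (x : ℕ) with h | h
        · right; left
          rw [(ay r).2.2]
          have : (x : ℕ) < y := hlt
          omega
        · left
          rw [(ax r).2.2]
          omega
      · exact ⟨Or.inl (ax r).1, Or.inr (Or.inl (ay r).2.1)⟩
      · exact ⟨Or.inr (Or.inl (ay r).1), Or.inl (ax r).2.1⟩
    · intro hlt hz
      have hw : x ≠ z ∧ y ≠ z := by
        rcases hz with hz | hz
        · exact hzx (i + 1) n1 ((Typ_sA w κ _ z).1 hz).1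
        · exact hzx (i + 2) n2 ((Typ_sB w κ _ z).1 hz).1
      have hK : ∀ r, z ∉ KK w κ i r := by
        intro r
        rcases hz with hz | hz
        · have := (Typ_A hz r).2.1; rwa [e2] at this
        · have := (Typ_B hz r).2.1; rwa [e3] at this
      refine Typ_mk hxy hw.1 hw.2 ?_
      intro j r
      rcases Typ_fin i j with rfl | rfl | rfl
      · refine ⟨?_, Or.inr (Or.inr (hK r))⟩
        rcases le_or_gt r (x : ℕ) with h | h
        · left
          rw [(ax r).2.2]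
          exact h
        · right; left
          rw [(ay r).2.2]
          have : (y : ℕ) < x := hlt
          omega
      · exact ⟨Or.inl (ax r).1, Or.inr (Or.inl (ay r).2.1)⟩
      · exact ⟨Or.inr (Or.inl (ay r).1), Or.inl (ax r).2.1⟩

end Pool.Agent.SKP
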