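import Pool.Agent.SKP.StC

/-!
# SKP, module Uni: nearby centers, uniform version by compactness
-/

set_option autoImplicit false

namespace Pool.Agent.SKP

open scoped Classical

theorem thm_Uni : Stmt_Nbh → Stmt_Uni := by
  intro hNbh n P hP R
  choose δ hδ hcls using hNbh n P hP
  obtain ⟨d, hd, hleb⟩ := lebesgue_number_lemma_of_metric
    (isCompact_closedBall (0 : E2) R) (c := fun Q : E2 => Metric.ball Q (δ Q))
    (fun Q => Metric.isOpen_ball)
    (fun Q _ => Set.mem_iUnion.2 ⟨Q, Metric.mem_ball_self (hδ Q)⟩)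
  refine ⟨d, hd, fun c c' hc _ hcc => ?_⟩
  obtain ⟨Q, hQ⟩ := hleb c (by simpa [mem_closedBall_zero_iff] using hc)
  have h1 : c ∈ Metric.ball Q (δ Q) := hQ (Metric.mem_ball_self hd)
  have h2 : c' ∈ Metric.ball Q (δ Q) := hQ (by rw [Metric.mem_ball, dist_comm]; exact hcc)
  exact hcls Q c c' h1 h2

end Pool.Agent.SKP
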