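import Pool.Agent.SKP.StC

set_option autoImplicit false

namespace Pool.Agent.SKP

open scoped Classical

/-- number of the positions below a position -/
theorem Wi_below {n : ℕ} (i : Fin n) : (Finset.univ.filter fun j : Fin n => j < i).card = (i : ℕ) := by
  have : (Finset.univ.filter fun j : Fin n => j < i) = Finset.Iio i := by
    ext j
    simp
  rw [this, Fin.card_Iio]

theorem Wi_below' {n : ℕ} (f : Equiv.Perm (Fin n)) (i : Fin n) :
    (Finset.univ.filter fun j : Fin n => f j < f i).card = (f i : ℕ) := by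
  rw [← Wi_below (f i)]
  apply Finset.card_bij (fun j _ => f j)
  · intro j hj
    exact Finset.mem_filter.2 ⟨Finset.mem_univ _, (Finset.mem_filter.1 hj).2⟩
  · intro a _ b _ h
    exact f.injective h
  · intro j hj
    refine ⟨f.symm j, Finset.mem_filter.2 ⟨Finset.mem_univ _, ?_⟩, by simp⟩
    have := (Finset.mem_filter.1 hj).2
    simpa using this

theorem Wi_near {n : ℕ} (m : ℕ) (f : Equiv.Perm (Fin n)) (Y : Finset (Fin n)) (μ : Fin n → Fin n)
    (hY : Y.card ≤ m)
    (h : ∀ a b, a ∉ Y → b ∉ Y → a < b → f b < f a → μ a = b ∧ μ b = a) (i : Fin n) (hi : i ∉ Y) :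
    (i : ℕ) ≤ (f i : ℕ) + (m + 1) ∧ (f i : ℕ) ≤ (i : ℕ) + (m + 1) := by
  constructor
  · rw [← Wi_below i]
    have hs : (Finset.univ.filter fun j : Fin n => j < i) ⊆
        (Finset.univ.filter fun j : Fin n => f j < f i) ∪ (Y ∪ {μ i}) := by
      intro j hj
      have hj1 := (Finset.mem_filter.1 hj).2
      rw [Finset.mem_union, Finset.mem_union, Finset.mem_filter, Finset.mem_singleton]
      by_cases h1 : f j < f i
      · exact Or.inl ⟨Finset.mem_univ _, h1⟩
      · right
        by_cases h2 : j ∈ Y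
        · exact Or.inl h2
        · right
          have h3 : f i < f j := lt_of_le_of_ne (not_lt.1 h1) fun h4 =>
            hj1.ne (f.injective h4).symm
          exact (h j i h2 hi hj1 h3).2.symm
    have h1 := Finset.card_le_card hs
    have h2 := Finset.card_union_le (Finset.univ.filter fun j : Fin n => f j < f i) (Y ∪ {μ i})
    have h3 := Finset.card_union_le Y {μ i}
    rw [Wi_below'] at h2
    rw [Finset.card_singleton] at h3
    omega
  · rw [← Wi_below' f i]
    have hs : (Finset.univ.filter fun j : Fin n => f j < f i) ⊆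
        (Finset.univ.filter fun j : Fin n => j < i) ∪ (Y ∪ {μ i}) := by
      intro j hj
      have hj1 := (Finset.mem_filter.1 hj).2
      rw [Finset.mem_union, Finset.mem_union, Finset.mem_filter, Finset.mem_singleton]
      by_cases h1 : j < i
      · exact Or.inl ⟨Finset.mem_univ _, h1⟩
      · right
        by_cases h2 : j ∈ Y
        · exact Or.inl h2
        · right
          have h3 : i < j := lt_of_le_of_ne (not_lt.1 h1) fun h4 => by
            rw [h4] at hj1
            exact lt_irrefl _ hj1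
          exact (h i j hi h2 h3 hj1).1.symm
    have h1 := Finset.card_le_card hs
    have h2 := Finset.card_union_le (Finset.univ.filter fun j : Fin n => j < i) (Y ∪ {μ i})
    have h3 := Finset.card_union_le Y {μ i}
    rw [Wi_below] at h2
    rw [Finset.card_singleton] at h3
    omega

theorem Wi_int {n : ℕ} (m r : ℕ) : (Finset.univ.filter fun a : Fin n =>
    r - (m + 1) ≤ (a : ℕ) ∧ (a : ℕ) < r + (m + 1)).card ≤ 2 * (m + 1) := by
  calc _ ≤ (Finset.Ico (r - (m + 1)) (r + (m + 1))).card := by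
        apply Finset.card_le_card_of_injOn fun a : Fin n => (a : ℕ)
        · intro a ha
          have := (Finset.mem_filter.1 (Finset.mem_coe.1 ha)).2
          exact Finset.mem_coe.2 (Finset.mem_Ico.2 this)
        · intro a _ b _ hab
          exact Fin.ext hab
    _ ≤ 2 * (m + 1) := by
      rw [Nat.card_Ico]
      omega

theorem thm_Wi : Stmt_Wi := by
  intro n m r1 r2 ε ε' ⟨f, Y, μ, hY, hε, hμ⟩
  let Z : ℕ → Finset (Fin n) := fun r => Finset.univ.filter fun a : Fin n =>
    r - (m + 1) ≤ (a : ℕ) ∧ (a : ℕ) < r + (m + 1)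
  have hZ : ∀ r, (Z r).card ≤ 2 * (m + 1) := fun r => Wi_int m r
  refine ⟨f, Y ∪ (Z r1 ∪ Z r2), μ, ?_, ?_, ?_⟩
  · have h1 := Finset.card_union_le Y (Z r1 ∪ Z r2)
    have h2 := Finset.card_union_le (Z r1) (Z r2)
    have h3 := hZ r1
    have h4 := hZ r2
    omega
  · intro a ha
    rw [Finset.mem_union, Finset.mem_union, not_or, not_or] at ha
    obtain ⟨h1, h2, h3⟩ := ha
    have h2' : ¬ (r1 - (m + 1) ≤ (a : ℕ) ∧ (a : ℕ) < r1 + (m + 1)) := fun h =>
      h2 (Finset.mem_filter.2 ⟨Finset.mem_univ _, h⟩)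
    have h3' : ¬ (r2 - (m + 1) ≤ (a : ℕ) ∧ (a : ℕ) < r2 + (m + 1)) := fun h =>
      h3 (Finset.mem_filter.2 ⟨Finset.mem_univ _, h⟩)
    obtain ⟨h4, h5⟩ := Wi_near m f Y μ hY hμ a h1
    have e1 : ((f a : ℕ) < r1 ↔ (a : ℕ) < r1) := by omega
    have e2 : ((f a : ℕ) < r2 ↔ (a : ℕ) < r2) := by omega
    have hw : wn r1 r2 (f a) = wn r1 r2 a := by
      simp only [wn, e1, e2]
    refine ⟨hw, ?_⟩
    simp only [kp, hw, hε a h1]
  · intro a b ha hb
    exact hμ a b (fun h => ha (Finset.mem_union_left _ h)) fun h => hb (Finset.mem_union_left _ h)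

end Pool.Agent.SKP
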