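import Pool.Agent.SKP.StC

/-!
# Project SKP (MP_001fdd_co), module Wr: shift of the borders
-/

set_option autoImplicit false

namespace Pool.Agent.SKP

open scoped Classical

theorem thm_Wr : Stmt_Wr := by
  intro n r1 r2 r1' r2' ε h1 h2 h3 h4
  set Y : Finset (Fin n) := Finset.univ.filter fun a => (a : ℕ) = min r1 r1' ∨ (a : ℕ) = min r2 r2'
    with hY
  refine ⟨Equiv.refl _, Y, id, ?_, ?_, ?_⟩
  · have hsub : Y ⊆ (Finset.univ.filter fun a : Fin n => (a : ℕ) = min r1 r1') ∪
        (Finset.univ.filter fun a : Fin n => (a : ℕ) = min r2 r2') := by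
      intro a ha
      rw [hY, Finset.mem_filter] at ha
      rw [Finset.mem_union, Finset.mem_filter, Finset.mem_filter]
      rcases ha.2 with h | h
      · exact Or.inl ⟨Finset.mem_univ _, h⟩
      · exact Or.inr ⟨Finset.mem_univ _, h⟩
    have hone : ∀ r : ℕ, (Finset.univ.filter fun a : Fin n => (a : ℕ) = r).card ≤ 1 := by
      intro r
      rw [Finset.card_le_one]
      intro a ha b hb
      rw [Finset.mem_filter] at ha hb
      exact Fin.ext (ha.2.trans hb.2.symm)
    calc Y.card ≤ _ := Finset.card_le_card hsub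
      _ ≤ _ := Finset.card_union_le _ _
      _ ≤ 1 + 1 := Nat.add_le_add (hone _) (hone _)
  · intro a ha
    have ha' : ¬ ((a : ℕ) = min r1 r1' ∨ (a : ℕ) = min r2 r2') := by
      intro h
      exact ha (by rw [hY, Finset.mem_filter]; exact ⟨Finset.mem_univ _, h⟩)
    push Not at ha'
    have hw : wn r1' r2' a = wn r1 r2 a := by
      have e1 : ((a : ℕ) < r1') ↔ ((a : ℕ) < r1) := by
        have := ha'.1
        omega
      have e2 : ((a : ℕ) < r2') ↔ ((a : ℕ) < r2) := by
        have := ha'.2
        omega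
      simp only [wn, e1, e2]
    refine ⟨hw, ?_⟩
    simp only [Equiv.refl_apply, kp, hw]
  · intro a b _ _ hab hba
    exact absurd hba (not_lt.2 hab.le)

end Pool.Agent.SKP
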