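import Pool.Agent.SKP.StA
import Pool.Agent.Tvv.Const
import Pool.Agent.Tvv.Mdc

/-!
# Sierksma's bound in the plane (MP_001fdd_co): the weights
-/

set_option autoImplicit false

namespace Pool.Agent.SKP

open scoped Classical
open Pool.Agent.Tvb (Pos Zero Base Good hat TP)
open Pool.Agent.Tvo (PP so ind)
open Pool.Agent.Tvv (J Lb ev UU dd)

/-- `ρ` extends `π` -/
private def WtE {k : ℕ} (π : J k 3 → Lb k) (ρ : J k 3 → Fin k) : Prop := ∀ a j, π a = some j → ρ a = j

private lemma Wt_prod {k : ℕ} (π : J k 3 → Lb k) (ρ : J k 3 → Fin k) :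
    ∏ a, ev (π a) (ρ a) = if WtE π ρ then (-1 : ℝ) ^ (Finset.univ.filter fun a => π a = none).card else 0 := by
  by_cases h : WtE π ρ
  · rw [if_pos h]
    have h1 : ∀ a ∈ (Finset.univ : Finset (J k 3)), ev (π a) (ρ a) = if π a = none then (-1 : ℝ) else 1 := by
      intro a _
      cases hp : π a with
      | none => simp [ev]
      | some j =>
        have := h a j hp
        simp [ev, this]
    rw [Finset.prod_congr rfl h1, Finset.prod_ite, Finset.prod_const, Finset.prod_const, one_pow, mul_one]
  · rw [if_neg h]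
    unfold WtE at h
    push Not at h
    obtain ⟨a, j, hp, hj⟩ := h
    refine Finset.prod_eq_zero (Finset.mem_univ a) ?_
    rw [hp]
    simp only [ev]
    rw [if_neg (Ne.symm hj)]

private lemma Wt_dd {k : ℕ} (x : J k 3 → Fin 3 → ℝ) (π : J k 3 → Lb k) :
    dd x π = ∑ ρ : J k 3 → Fin k, dd x (fun a => some (ρ a)) * ∏ a, ev (π a) (ρ a) := by
  have h1 : UU x π = fun a => ∑ j : Fin k, ev (π a) j • UU x (fun _ => some j) a := by
    funext a c
    rw [Finset.sum_apply]
    simp only [Pi.smul_apply, smul_eq_mul, UU]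
    have : ∀ j : Fin k, ev (π a) j * (ev (some j) c.1 * x a c.2) =
        if j = c.1 then ev (π a) c.1 * x a c.2 else 0 := by
      intro j
      simp only [ev]
      by_cases h : j = c.1
      · rw [if_pos h, if_pos h, h, one_mul]
      · rw [if_neg h, if_neg h, zero_mul, mul_zero]
    rw [Finset.sum_congr rfl fun j _ => this j, Finset.sum_ite_eq' Finset.univ c.1]
    simp
  have h2 : dd x π = (Matrix.detRowAlternating (R := ℝ) (n := J k 3)).toMultilinearMap (UU x π) := rfl
  rw [h2, h1, MultilinearMap.map_sum]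
  refine Finset.sum_congr rfl fun ρ _ => ?_
  rw [MultilinearMap.map_smul_univ, smul_eq_mul, mul_comm]
  congr 1

/-- exact classes -/
private lemma Wt_three {k : ℕ} (x : J k 3 → Fin 3 → ℝ) (ρ : J k 3 → Fin k)
    (h : dd x (fun a => some (ρ a)) ≠ 0) (j : Fin k) : (Finset.univ.filter fun a => ρ a = j).card = 3 := by
  rw [Pool.Agent.Tvv.mdc_dd] at h
  obtain ⟨σ, -, hσ⟩ := Finset.exists_ne_zero_of_sum_ne_zero h
  have h1 : ρ = Pool.Agent.Tvv.mdcL σ := by
    by_contra hc
    rw [if_neg hc] at hσ
    exact hσ rfl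
  have h2 : (Finset.univ.filter fun a : J k 3 => ρ a = j) =
      (Finset.univ.filter fun a : J k 3 => a.1 = j).map σ.toEmbedding := by
    ext a
    simp only [Finset.mem_filter, Finset.mem_univ, true_and, Finset.mem_map, Equiv.coe_toEmbedding]
    rw [h1]
    constructor
    · intro h
      exact ⟨σ.symm a, h, by simp⟩
    · rintro ⟨b, hb, rfl⟩
      simpa [Pool.Agent.Tvv.mdcL] using hb
  rw [h2, Finset.card_map]
  have h3 : (Finset.univ.filter fun a : J k 3 => a.1 = j) = ({j} : Finset (Fin k)) ×ˢ (Finset.univ : Finset (Fin 3)) := by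
    ext ⟨i, c⟩
    simp [eq_comm]
  rw [h3, Finset.card_product]
  simp

/-- the relevant extensions -/
private noncomputable def WtR {k : ℕ} (π : J k 3 → Lb k) : Finset (J k 3 → Fin k) :=
  Finset.univ.filter fun ρ => WtE π ρ ∧ ∀ j, (Finset.univ.filter fun a => ρ a = j).card = 3

private lemma Wt_sum {k : ℕ} (x : J k 3 → Fin 3 → ℝ) (π : J k 3 → Lb k) (F : (J k 3 → Fin k) → ℝ)
    (hF : ∀ ρ, dd x (fun a => some (ρ a)) = 0 → F ρ = 0) :
    ∑ ρ : J k 3 → Fin k, F ρ * ∏ a, ev (π a) (ρ a) =
      (-1) ^ (Finset.univ.filter fun a => π a = none).card * ∑ ρ ∈ WtR π, F ρ := by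
  rw [Finset.mul_sum, WtR, Finset.sum_filter]
  refine Finset.sum_congr rfl fun ρ _ => ?_
  rw [Wt_prod]
  by_cases h : WtE π ρ
  · by_cases h2 : ∀ j, (Finset.univ.filter fun a => ρ a = j).card = 3
    · rw [if_pos h, if_pos ⟨h, h2⟩, mul_comm]
    · have : dd x (fun a => some (ρ a)) = 0 := by
        by_contra hc
        exact h2 (Wt_three x ρ hc)
      have e2 : ¬ (WtE π ρ ∧ ∀ j, (Finset.univ.filter fun a => ρ a = j).card = 3) := fun h' => h2 h'.2
      rw [if_pos h, if_neg e2, hF ρ this, zero_mul]
  · have e2 : ¬ (WtE π ρ ∧ ∀ j, (Finset.univ.filter fun a => ρ a = j).card = 3) := fun h' => h h'.1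
    rw [if_neg h, if_neg e2, mul_zero]

/-- number of elements with label `none` and new label `j` -/
private lemma Wt_count {k : ℕ} (π : J k 3 → Lb k) (ρ : J k 3 → Fin k) (hρ : ρ ∈ WtR π) (j : Fin k) :
    ((Finset.univ.filter fun a => π a = none).filter fun a => ρ a = j).card +
      (Finset.univ.filter fun a => π a = some j).card = 3 := by
  obtain ⟨-, h1, h2⟩ := Finset.mem_filter.mp hρ
  refine Eq.trans ?_ (h2 j)
  rw [← Finset.card_union_of_disjoint]
  · congr 1
    ext a
    simp only [Finset.mem_union, Finset.mem_filter, Finset.mem_univ, true_and]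
    constructor
    · rintro (⟨-, h⟩ | h)
      · exact h
      · exact h1 a j h
    · intro h
      cases hp : π a with
      | none => exact Or.inl ⟨rfl, h⟩
      | some i =>
        have := h1 a i hp
        rw [this] at h
        exact Or.inr (by rw [h])
  · rw [Finset.disjoint_left]
    intro a ha hb
    simp only [Finset.mem_filter, Finset.mem_univ, true_and] at ha hb
    rw [ha.1] at hb
    exact absurd hb (by simp)

private lemma Wt_card {k : ℕ} (π : J k 3 → Lb k)
    (h : (Finset.univ.filter fun a => π a = none).card ≤ 2) : (WtR π).card ≤ 2 := by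
  set N := Finset.univ.filter fun a => π a = none with hN
  rcases (WtR π).eq_empty_or_nonempty with hR | ⟨ρ₀, hρ₀⟩
  · rw [hR]
    simp
  have hcnt : ∀ ρ ∈ WtR π, ∀ ρ' ∈ WtR π, ∀ j, (N.filter fun a => ρ a = j).card =
      (N.filter fun a => ρ' a = j).card := by
    intro ρ hρ ρ' hρ' j
    have h1 := Wt_count π ρ hρ j
    have h2 := Wt_count π ρ' hρ' j
    rw [← hN] at h1 h2
    omega
  have hout : ∀ ρ ∈ WtR π, ∀ ρ' ∈ WtR π, ∀ a, a ∉ N → ρ a = ρ' a := by
    intro ρ hρ ρ' hρ' a ha
    have h1 := (Finset.mem_filter.mp hρ).2.1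
    have h2 := (Finset.mem_filter.mp hρ').2.1
    cases hp : π a with
    | none => exact absurd (by rw [hN]; simp [hp]) ha
    | some j => rw [h1 a j hp, h2 a j hp]
  rcases N.eq_empty_or_nonempty with hN0 | ⟨a, ha⟩
  · have : (WtR π).card ≤ 1 := by
      rw [Finset.card_le_one]
      intro ρ hρ ρ' hρ'
      funext b
      exact hout ρ hρ ρ' hρ' b (by rw [hN0]; simp)
    omega
  · have h1 : ∀ ρ ∈ WtR π, ρ a ∈ N.image ρ₀ := by
      intro ρ hρ
      have h2 := hcnt ρ hρ ρ₀ hρ₀ (ρ a)
      have h3 : 0 < (N.filter fun b => ρ b = ρ a).card :=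
        Finset.card_pos.mpr ⟨a, Finset.mem_filter.mpr ⟨ha, rfl⟩⟩
      rw [h2] at h3
      obtain ⟨b, hb⟩ := Finset.card_pos.mp h3
      obtain ⟨hb1, hb2⟩ := Finset.mem_filter.mp hb
      exact Finset.mem_image.mpr ⟨b, hb1, hb2⟩
    have h2 : Set.InjOn (fun ρ : J k 3 → Fin k => ρ a) (WtR π) := by
      intro ρ hρ ρ' hρ' hh
      have hh' : ρ a = ρ' a := hh
      funext b
      by_cases hb : b ∈ N
      · by_cases hba : b = a
        · rw [hba]
          exact hh'
        · by_contra hne
          -- `N = {a, b}`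
          have hNab : ∀ c ∈ N, c = a ∨ c = b := by
            intro c hc
            by_contra hcc
            push Not at hcc
            have : ({a, b, c} : Finset (J k 3)) ⊆ N := by
              intro d hd
              simp only [Finset.mem_insert, Finset.mem_singleton] at hd
              rcases hd with rfl | rfl | rfl
              · exact ha
              · exact hb
              · exact hc
            have h3 := Finset.card_le_card this
            rw [Finset.card_eq_three.mpr ⟨a, b, c, Ne.symm hba, Ne.symm hcc.1, Ne.symm hcc.2, rfl⟩] at h3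
            omega
          have h3 := hcnt ρ hρ ρ' hρ' (ρ b)
          have h4 : (N.filter fun c => ρ' c = ρ b) ⊆ (N.filter fun c => ρ c = ρ b).erase b := by
            intro c hc
            obtain ⟨hc1, hc2⟩ := Finset.mem_filter.mp hc
            rcases hNab c hc1 with rfl | rfl
            · rw [Finset.mem_erase, Finset.mem_filter]
              exact ⟨Ne.symm hba, hc1, by rw [hh']; exact hc2⟩
            · exact absurd hc2.symm hne
          have h5 := Finset.card_le_card h4
          have h6 : b ∈ N.filter fun c => ρ c = ρ b := Finset.mem_filter.mpr ⟨hb, rfl⟩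
          rw [Finset.card_erase_of_mem h6] at h5
          have h7 := Finset.card_pos.mpr ⟨b, h6⟩
          omega
      · exact hout ρ hρ ρ' hρ' b hb
    calc (WtR π).card = ((WtR π).image fun ρ => ρ a).card := (Finset.card_image_of_injOn h2).symm
      _ ≤ (N.image ρ₀).card := Finset.card_le_card (by
          intro j hj
          obtain ⟨ρ, hρ, rfl⟩ := Finset.mem_image.mp hj
          exact h1 ρ hρ)
      _ ≤ N.card := Finset.card_image_le
      _ ≤ 2 := h

/-- at most two signs -/
private lemma Wt_signs {ι : Type} (R : Finset ι) (hR : R.card ≤ 2) (d : ι → ℝ) :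
    |∑ ρ ∈ R, ((SignType.sign (d ρ) : SignType) : ℝ)| ≤ 2 ∧
    0 ≤ (∑ ρ ∈ R, ((SignType.sign (d ρ) : SignType) : ℝ)) * ((SignType.sign (∑ ρ ∈ R, d ρ) : SignType) : ℝ) ∧
    (∑ ρ ∈ R, ((SignType.sign (d ρ) : SignType) : ℝ) ≠ 0 → ∑ ρ ∈ R, d ρ ≠ 0) := by
  have h3 : R.card = 0 ∨ R.card = 1 ∨ R.card = 2 := by omega
  rcases h3 with h | h | h
  · rw [Finset.card_eq_zero.mp h]
    simp
  · obtain ⟨a, rfl⟩ := Finset.card_eq_one.mp h
    simp only [Finset.sum_singleton]
    rcases lt_trichotomy (d a) 0 with h | h | h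
    · rw [sign_neg h]
      norm_num
      exact h.ne
    · rw [h]
      simp
    · rw [sign_pos h]
      norm_num
      exact h.ne'
  · obtain ⟨a, b, hab, rfl⟩ := Finset.card_eq_two.mp h
    simp only [Finset.sum_pair hab]
    rcases lt_trichotomy (d a) 0 with h1 | h1 | h1 <;> rcases lt_trichotomy (d b) 0 with h2 | h2 | h2
    · rw [sign_neg h1, sign_neg h2, sign_neg (by linarith : d a + d b < 0)]
      norm_num
      intro h
      linarith
    · rw [sign_neg h1, h2, sign_zero, add_zero, sign_neg h1]
      norm_num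
      exact h1.ne
    · rw [sign_neg h1, sign_pos h2]
      norm_num
    · rw [h1, sign_zero, sign_neg h2, zero_add, sign_neg h2]
      norm_num
      exact h2.ne
    · rw [h1, h2]
      simp
    · rw [h1, sign_zero, sign_pos h2, zero_add, sign_pos h2]
      norm_num
      exact h2.ne'
    · rw [sign_pos h1, sign_neg h2]
      norm_num
    · rw [sign_pos h1, h2, sign_zero, add_zero, sign_pos h1]
      norm_num
      exact h1.ne'
    · rw [sign_pos h1, sign_pos h2, sign_pos (by linarith : 0 < d a + d b)]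
      norm_num
      intro h
      linarith

theorem thm_Wt : Stmt_Wt := by
  intro k x
  refine ⟨?_, ?_, ?_⟩
  · intro π a
    unfold WW
    rw [Finset.sum_comm]
    refine Finset.sum_eq_zero fun ρ _ => ?_
    rw [← Finset.mul_sum]
    have h1 : ∀ l : Lb k, ∏ b, ev (Function.update π a l b) (ρ b) =
        ev l (ρ a) * ∏ b ∈ Finset.univ.erase a, ev (π b) (ρ b) := by
      intro l
      rw [← Finset.mul_prod_erase Finset.univ _ (Finset.mem_univ a), Function.update_self]
      congr 1
      refine Finset.prod_congr rfl fun b hb => ?_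
      rw [Function.update_of_ne (Finset.ne_of_mem_erase hb)]
    simp only [h1]
    rw [← Finset.sum_mul, Pool.Agent.Tvv.const_ev, zero_mul, mul_zero]
  · intro π hπ
    set q := (Finset.univ.filter fun a => π a = none).card with hq
    have hW : WW x π = (-1) ^ q * ∑ ρ ∈ WtR π, Fs x ρ := by
      unfold WW
      refine Wt_sum x π (Fs x) fun ρ hρ => ?_
      unfold Fs
      rw [hρ]
      simp
    have hd : dd x π = (-1) ^ q * ∑ ρ ∈ WtR π, dd x (fun a => some (ρ a)) := by
      rw [Wt_dd]
      exact Wt_sum x π (fun ρ => dd x (fun a => some (ρ a))) fun ρ hρ => hρ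
    obtain ⟨h1, h2, h3⟩ := Wt_signs (WtR π) (Wt_card π hπ) (fun ρ => dd x (fun a => some (ρ a)))
    have hF : ∀ ρ, Fs x ρ = ((SignType.sign (dd x (fun a => some (ρ a))) : SignType) : ℝ) := fun _ => rfl
    simp only [hF] at hW
    rcases neg_one_pow_eq_or ℝ q with hs | hs
    · rw [hs, one_mul] at hW hd
      rw [hW, hd]
      exact ⟨h1, h2, h3⟩
    · rw [hs] at hW hd
      rw [neg_one_mul] at hW hd
      rw [hW, hd]
      refine ⟨by rw [abs_neg]; exact h1, ?_, ?_⟩
      · rw [Left.sign_neg]
        push_cast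
        rw [neg_mul_neg]
        exact h2
      · intro h
        rw [neg_ne_zero] at h ⊢
        exact h3 h
  · intro ρ
    unfold WW
    rw [Finset.sum_eq_single ρ]
    · have : ∏ a, ev (some (ρ a)) (ρ a) = 1 := Finset.prod_eq_one fun a _ => by simp [ev]
      rw [this, mul_one]
    · intro ρ' _ hne
      have : ∃ a, ρ a ≠ ρ' a := by
        by_contra hc
        push Not at hc
        exact hne (funext fun a => (hc a).symm)
      obtain ⟨a, ha⟩ := this
      have h0 : ∏ a, ev (some (ρ a)) (ρ' a) = 0 := Finset.prod_eq_zero (Finset.mem_univ a) (by simp [ev, ha])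
      rw [h0, mul_zero]
    · intro h
      exact absurd (Finset.mem_univ ρ) h

end Pool.Agent.SKP
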