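import Pool.Agent.SKP.Bir
import Pool.Agent.SKP.Rbw
import Pool.Agent.SKP.NE
import Pool.Agent.SKP.Cyc
import Pool.Agent.SKP.Swp
import Pool.Agent.SKP.Slk
import Pool.Agent.SKP.ClA
import Pool.Agent.SKP.Cut
import Pool.Agent.SKP.ClB
import Pool.Agent.SKP.Res
import Pool.Agent.SKP.Mul
import Pool.Agent.SKP.Mom
import Pool.Agent.SKP.Pair
import Pool.Agent.SKP.Typ
import Pool.Agent.SKP.Fi1
import Pool.Agent.SKP.Fill
import Pool.Agent.SKP.Est
import Pool.Agent.SKP.Ent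
import Pool.Agent.SKP.Cnt
import Pool.Agent.SKP.SeqF
import Pool.Agent.SKP.Lip
import Pool.Agent.SKP.Wi
import Pool.Agent.SKP.Wr
import Pool.Agent.SKP.Cub
import Pool.Agent.SKP.Nbh
import Pool.Agent.SKP.Uni
import Pool.Agent.SKP.Bdy
import Pool.Agent.SKP.Nu1
import Pool.Agent.SKP.GG
import Pool.Agent.SKP.Nu2
import Pool.Agent.SKP.Grd
import Pool.Agent.SKP.Reg
import Pool.Agent.SKP.Gen
import Pool.Agent.SKP.Ex
import Pool.Agent.SKP.Hf
import Pool.Agent.SKP.Sep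
import Pool.Agent.SKP.GtS
import Pool.Agent.SKP.Dhp
import Pool.Agent.SKP.Tri
import Pool.Agent.SKP.Hel
import Pool.Agent.SKP.Thi
import Pool.Agent.SKP.Per
import Pool.Agent.SKP.Two
import Pool.Agent.SKP.Clc
import Pool.Agent.SKP.GeoN
import Pool.Agent.SKP.IGen
import Pool.Agent.SKP.Apx
import Pool.Agent.SKP.Wt
import Pool.Agent.SKP.Non
import Pool.Agent.SKP.Lim
import Pool.Agent.SKP.ConM
import Pool.Agent.SKP.GJx
import Pool.Agent.SKP.Dns
import Pool.Agent.SKP.Cl2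
import Pool.Agent.SKP.Ctp
import Pool.Agent.SKP.FinA
import Pool.Agent.SKP.Lbl
import Pool.Agent.SKP.Comb
import Pool.Agent.SKP.Main

/-!
# Sierksma's bound in the plane (MP_001fdd_co): assembly
-/

set_option autoImplicit false

namespace Pool.Agent.SKP

theorem asmCnt : Stmt_Cnt :=
  thm_Cnt (thm_Pair thm_Mom) (thm_Fill thm_Typ thm_Fi1) (thm_Ent thm_Est)

theorem asmSeqF : Stmt_SeqF :=
  thm_SeqF thm_Cyc thm_Swp thm_ClA (thm_ClB thm_Slk thm_Cut) (thm_Res thm_Bir) thm_Mul asmCnt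

theorem asmCub : Stmt_Cub := thm_Cub thm_Lip thm_Wi thm_Wr

theorem asmEx : Stmt_Ex :=
  thm_Ex asmCub (thm_Uni thm_Nbh) thm_Bdy (thm_Grd asmCub thm_Nu1 (thm_Nu2 thm_GG)) thm_Reg
    thm_Gen

theorem asmGtS : Stmt_GtS := thm_GtS thm_Hf thm_Sep

theorem asmGeoN : Stmt_GeoN :=
  thm_GeoN asmGtS (thm_Dhp thm_Hf) (thm_Hel thm_Tri) (thm_Per thm_Thi)
    (thm_Clc thm_Sep thm_Two) thm_Gen (thm_NE thm_Bir thm_Rbw)

theorem asmFinA : Stmt_FinA :=
  thm_FinA (thm_Con thm_IGen thm_Apx thm_Wt thm_Non thm_Lim) (thm_Dns thm_GJx) thm_Cl2 thm_Ctp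

/-- the theorem -/
theorem asmMain : Stmt_Main :=
  thm_Main (thm_Comb asmEx asmSeqF asmGeoN) asmFinA (thm_Lbl asmGtS)

end Pool.Agent.SKP
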