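import Pool.Agent.SKP.StS

/-!
# SKP, Bir: partition into good triples (Birch)
-/

set_option autoImplicit false

namespace Pool.Agent.SKP

open scoped Classical

private lemma Bir_mem {n : ℕ} (ε : Fin n → Bool) (r : ℕ) (a : Fin n) :
    a ∈ hp ε r ↔ (ε a = true ∧ r ≤ (a : ℕ)) ∨ (ε a = false ∧ (a : ℕ) < r) := by
  simp [hp]

/-- the key: first the positions with sign `true`, then the others -/
private def BirK {n : ℕ} (ε : Fin n → Bool) (a : Fin n) : ℕ :=
  if ε a = true then (a : ℕ) else n + a

private lemma Bir_inj {n : ℕ} (ε : Fin n → Bool) : Function.Injective (BirK ε) := by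
  intro a b h
  have ha := a.2
  have hb := b.2
  unfold BirK at h
  apply Fin.ext
  split_ifs at h <;> omega

private lemma Bir_key {n : ℕ} (ε : Fin n → Bool) (r : ℕ) (a : Fin n) :
    a ∈ hp ε r ↔ min r n ≤ BirK ε a ∧ BirK ε a < n + min r n := by
  have ha := a.2
  rw [Bir_mem]
  unfold BirK
  rcases Bool.eq_false_or_eq_true (ε a) with h | h <;> rw [h] <;> simp <;> omega

theorem thm_Bir : Stmt_Bir := by
  intro n t ε R hR hr
  have hS : (R.image (BirK ε)).card = 3 * t := by
    rw [Finset.card_image_of_injective R (Bir_inj ε), hR]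
  obtain ⟨e, he⟩ : ∃ e : Fin (3 * t) ↪o ℕ, ∀ i, e i ∈ R.image (BirK ε) :=
    ⟨(R.image (BirK ε)).orderEmbOfFin hS, fun i => Finset.orderEmbOfFin_mem _ hS i⟩
  have h1 : ∀ i, ∃ a ∈ R, BirK ε a = e i := fun i => Finset.mem_image.1 (he i)
  choose l hlR hle using h1
  have linj : Function.Injective l := by
    intro i j hij
    have h2 : e i = e j := by rw [← hle i, ← hle j, hij]
    exact e.injective h2
  have limg : Finset.univ.image l = R := by
    refine Finset.eq_of_subset_of_card_le ?_ ?_
    · intro a ha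
      obtain ⟨i, -, rfl⟩ := Finset.mem_image.1 ha
      exact hlR i
    · rw [Finset.card_image_of_injective _ linj, Finset.card_univ, Fintype.card_fin, hR]
  have hmem : ∀ r i, l i ∈ hp ε r ↔ min r n ≤ e i ∧ e i < n + min r n := by
    intro r i
    rw [Bir_key, hle i]
  have hcard : ∀ r, (R ∩ hp ε r).card =
      ((Finset.univ : Finset (Fin (3 * t))).filter fun i => l i ∈ hp ε r).card := by
    intro r
    rw [← Finset.card_image_of_injective _ linj]
    congr 1
    ext a
    rw [Finset.mem_inter, Finset.mem_image]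
    constructor
    · rintro ⟨ha, ha'⟩
      rw [← limg] at ha
      obtain ⟨i, -, rfl⟩ := Finset.mem_image.1 ha
      exact ⟨i, by simpa using ha', rfl⟩
    · rintro ⟨i, hi, rfl⟩
      exact ⟨hlR i, (Finset.mem_filter.1 hi).2⟩
  have conv : ∀ (r : ℕ) (i k j : Fin (3 * t)), i ≤ k → k ≤ j → l i ∈ hp ε r → l j ∈ hp ε r →
      l k ∈ hp ε r := by
    intro r i k j hik hkj hi hj
    rw [hmem] at hi hj ⊢
    have m1 := e.monotone hik
    have m2 := e.monotone hkj
    omega
  -- the three indices
  obtain ⟨x0, hx0⟩ : ∃ x : Fin t → Fin (3 * t), ∀ j, (x j : ℕ) = j :=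
    ⟨fun j => ⟨j, by omega⟩, fun j => rfl⟩
  obtain ⟨x1, hx1⟩ : ∃ x : Fin t → Fin (3 * t), ∀ j, (x j : ℕ) = j + t :=
    ⟨fun j => ⟨j + t, by omega⟩, fun j => rfl⟩
  obtain ⟨x2, hx2⟩ : ∃ x : Fin t → Fin (3 * t), ∀ j, (x j : ℕ) = j + 2 * t :=
    ⟨fun j => ⟨j + 2 * t, by omega⟩, fun j => rfl⟩
  obtain ⟨T, hT⟩ : ∃ T : Fin t → Finset (Fin n), ∀ j, T j = {l (x0 j), l (x1 j), l (x2 j)} :=
    ⟨fun j => {l (x0 j), l (x1 j), l (x2 j)}, fun j => rfl⟩
  have hTm : ∀ j i, l i ∈ T j → (i : ℕ) = j ∨ (i : ℕ) = j + t ∨ (i : ℕ) = j + 2 * t := by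
    intro j i hi
    rw [hT, Finset.mem_insert, Finset.mem_insert, Finset.mem_singleton] at hi
    rcases hi with h | h | h
    · left; rw [linj h, hx0]
    · right; left; rw [linj h, hx1]
    · right; right; rw [linj h, hx2]
  have hTj : ∀ j, T j ⊆ R := by
    intro j a ha
    rw [hT, Finset.mem_insert, Finset.mem_insert, Finset.mem_singleton] at ha
    rcases ha with rfl | rfl | rfl <;> exact hlR _
  have hdisj : ∀ j j', j ≠ j' → Disjoint (T j) (T j') := by
    intro j j' hne
    rw [Finset.disjoint_left]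
    intro a ha ha'
    have h2 := hTj j ha
    rw [← limg] at h2
    obtain ⟨i, -, rfl⟩ := Finset.mem_image.1 h2
    have h3 := hTm j i ha
    have h4 := hTm j' i ha'
    have h5 := j.2
    have h6 := j'.2
    apply hne
    apply Fin.ext
    omega
  have hTne : ∀ j, l (x0 j) ∈ T j := fun j => by rw [hT]; simp
  have hTinj : Function.Injective T := by
    intro j j' h
    by_contra hne
    have h2 := hdisj j j' hne
    rw [h] at h2
    exact (Finset.disjoint_left.1 h2 (hTne j')) (hTne j')
  have hgood : ∀ j, Gt ε (T j) := by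
    intro j
    have hj := j.2
    refine ⟨?_, fun r => ⟨?_, ?_⟩⟩
    · rw [hT]
      refine Finset.card_eq_three.2 ⟨_, _, _, ?_, ?_, ?_, rfl⟩
      · intro h
        have h2 := congrArg Fin.val (linj h)
        rw [hx0, hx1] at h2
        omega
      · intro h
        have h2 := congrArg Fin.val (linj h)
        rw [hx0, hx2] at h2
        omega
      · intro h
        have h2 := congrArg Fin.val (linj h)
        rw [hx1, hx2] at h2
        omega
    · have h2 := (hr r).1
      rw [hcard] at h2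
      obtain ⟨I, hI⟩ : ∃ I : Finset (Fin (3 * t)),
        I = (Finset.univ : Finset (Fin (3 * t))).filter fun i => l i ∈ hp ε r := ⟨_, rfl⟩
      rw [← hI] at h2
      have hne : I.Nonempty := by
        rw [← Finset.card_pos]
        omega
      have hmI : ∀ i, i ∈ I ↔ l i ∈ hp ε r := fun i => by rw [hI]; simp
      have a1 := I.min'_mem hne
      have a2 := I.max'_mem hne
      have h3 : I ⊆ Finset.Icc (I.min' hne) (I.max' hne) := fun i hi =>
        Finset.mem_Icc.2 ⟨I.min'_le i hi, I.le_max' i hi⟩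
      have h4 := Finset.card_le_card h3
      rw [Fin.card_Icc] at h4
      obtain ⟨c, hc, hc'⟩ : ∃ c : Fin (3 * t), (c = x0 j ∨ c = x1 j ∨ c = x2 j) ∧
          (I.min' hne ≤ c ∧ c ≤ I.max' hne) := by
        have b1 := (I.max' hne).2
        have b0 := hx0 j
        have b2 := hx1 j
        have b3 := hx2 j
        rcases le_or_gt (I.min' hne) (x0 j) with u | u
        · refine ⟨x0 j, Or.inl rfl, u, ?_⟩
          rw [Fin.le_def] at u ⊢
          omega
        · rcases le_or_gt (I.min' hne) (x1 j) with v | v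
          · refine ⟨x1 j, Or.inr (Or.inl rfl), v, ?_⟩
            rw [Fin.le_def] at v ⊢
            rw [Fin.lt_def] at u
            omega
          · rcases le_or_gt (I.min' hne) (x2 j) with w | w
            · refine ⟨x2 j, Or.inr (Or.inr rfl), w, ?_⟩
              rw [Fin.le_def] at w ⊢
              rw [Fin.lt_def] at u v
              omega
            · exfalso
              rw [Fin.lt_def] at w
              omega
      have h5 : l c ∈ hp ε r :=
        conv r _ _ _ hc'.1 hc'.2 ((hmI _).1 a1) ((hmI _).1 a2)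
      refine ⟨l c, Finset.mem_inter.2 ⟨?_, h5⟩⟩
      rw [hT]
      rcases hc with rfl | rfl | rfl <;> simp
    · by_contra hcon
      rw [Finset.not_nonempty_iff_eq_empty, Finset.sdiff_eq_empty_iff_subset] at hcon
      have c0 : l (x0 j) ∈ hp ε r := hcon (by rw [hT]; simp)
      have c2 : l (x2 j) ∈ hp ε r := hcon (by rw [hT]; simp)
      have h2 := (hr r).2
      rw [hcard] at h2
      have h3 : Finset.Icc (x0 j) (x2 j) ⊆
          (Finset.univ : Finset (Fin (3 * t))).filter fun i => l i ∈ hp ε r := by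
        intro i hi
        rw [Finset.mem_Icc] at hi
        rw [Finset.mem_filter]
        exact ⟨Finset.mem_univ i, conv r _ _ _ hi.1 hi.2 c0 c2⟩
      have h4 := Finset.card_le_card h3
      rw [Fin.card_Icc, hx0, hx2] at h4
      omega
  refine ⟨Finset.univ.image T, ?_, ?_⟩
  · unfold Pk
    rw [Finset.mem_filter]
    refine ⟨Finset.mem_univ _, ?_, ?_, ?_⟩
    · rw [Finset.card_image_of_injective _ hTinj, Finset.card_univ, Fintype.card_fin]
    · intro s hs
      obtain ⟨j, -, rfl⟩ := Finset.mem_image.1 hs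
      exact hgood j
    · intro s hs s' hs' hne
      obtain ⟨j, -, rfl⟩ := Finset.mem_image.1 hs
      obtain ⟨j', -, rfl⟩ := Finset.mem_image.1 hs'
      exact hdisj j j' (fun h => hne (by rw [h]))
  · ext a
    rw [Finset.mem_biUnion]
    constructor
    · rintro ⟨s, hs, ha⟩
      obtain ⟨j, -, rfl⟩ := Finset.mem_image.1 hs
      exact hTj j ha
    · intro ha
      rw [← limg] at ha
      obtain ⟨i, -, rfl⟩ := Finset.mem_image.1 ha
      have hi := i.2
      have ht : 0 < t := by omega
      have hd : (i : ℕ) / t * t + (i : ℕ) % t = i := by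
        rw [mul_comm]; exact Nat.div_add_mod _ _
      have hm := Nat.mod_lt (i : ℕ) ht
      have hq : (i : ℕ) / t < 3 := by
        rw [Nat.div_lt_iff_lt_mul ht]; exact hi
      refine ⟨T ⟨(i : ℕ) % t, hm⟩, Finset.mem_image_of_mem _ (Finset.mem_univ _), ?_⟩
      change l i ∈ T ⟨(i : ℕ) % t, hm⟩
      rw [hT]
      have e0 := hx0 ⟨(i : ℕ) % t, hm⟩
      have e1 := hx1 ⟨(i : ℕ) % t, hm⟩
      have e2 := hx2 ⟨(i : ℕ) % t, hm⟩
      change _ = (i : ℕ) % t at e0
      change _ = (i : ℕ) % t + t at e1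
      change _ = (i : ℕ) % t + 2 * t at e2
      obtain ⟨q, hq'⟩ : ∃ q, q = (i : ℕ) / t := ⟨_, rfl⟩
      rw [← hq'] at hd hq
      interval_cases q
      · have h2 : i = x0 ⟨(i : ℕ) % t, hm⟩ := Fin.ext (by rw [e0]; omega)
        rw [Finset.mem_insert]
        exact Or.inl (congrArg l h2)
      · have h2 : i = x1 ⟨(i : ℕ) % t, hm⟩ := Fin.ext (by rw [e1]; omega)
        rw [Finset.mem_insert, Finset.mem_insert]
        exact Or.inr (Or.inl (congrArg l h2))
      · have h2 : i = x2 ⟨(i : ℕ) % t, hm⟩ := Fin.ext (by rw [e2]; omega)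
        rw [Finset.mem_insert, Finset.mem_insert, Finset.mem_singleton]
        exact Or.inr (Or.inr (congrArg l h2))

end Pool.Agent.SKP
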