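import Pool.Agent.SKP.StA

/-!
# Closedness
-/

set_option autoImplicit false

namespace Pool.Agent.SKP

open scoped Classical
open Pool.Agent.Tvb (Pos Zero Base Good hat TP)
open Pool.Agent.Tvo (PP so ind)
open Pool.Agent.Tvv (J Lb ev UU dd)
open Filter Topology

theorem Cl2_cpt {ι : Type} [Fintype ι] :
    IsCompact {x : (ι → ℝ) × ℝ | (∀ a, 0 ≤ x.1 a) ∧ 0 ≤ x.2 ∧ x.2 + ∑ a, x.1 a = 1} := by
  refine (isCompact_Icc (a := (0 : (ι → ℝ) × ℝ)) (b := 1)).of_isClosed_subset ?_ ?_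
  · refine IsClosed.inter ?_ (IsClosed.inter ?_ ?_)
    · have h : {x : (ι → ℝ) × ℝ | ∀ a, 0 ≤ x.1 a} = ⋂ a, {x : (ι → ℝ) × ℝ | 0 ≤ x.1 a} := by
        ext x; simp
      show IsClosed {x : (ι → ℝ) × ℝ | ∀ a, 0 ≤ x.1 a}
      rw [h]
      exact isClosed_iInter fun a =>
        isClosed_le continuous_const ((continuous_apply a).comp continuous_fst)
    · exact isClosed_le continuous_const continuous_snd
    · refine isClosed_eq (continuous_snd.add (continuous_finsetSum _ fun a _ => ?_))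
        continuous_const
      exact (continuous_apply a).comp continuous_fst
  · rintro x ⟨h1, h2, h3⟩
    have h4 : ∀ a, x.1 a ≤ ∑ a, x.1 a := fun a =>
      Finset.single_le_sum (fun i _ => h1 i) (Finset.mem_univ a)
    have h5 : 0 ≤ ∑ a, x.1 a := Finset.sum_nonneg fun i _ => h1 i
    refine ⟨⟨fun a => h1 a, h2⟩, ⟨fun a => ?_, ?_⟩⟩
    · have := h4 a
      show x.1 a ≤ 1
      linarith
    · show x.2 ≤ 1
      linarith

theorem Cl2_cont {k : ℕ} (π : J k 3 → Lb k) (s : Fin 3 → ℝ) :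
    Continuous fun p : (J k 3 → E2) × ((J k 3 → ℝ) × ℝ) =>
      ∑ a, p.2.1 a • UU (ht p.1) π a - p.2.2 • (tn s : J k 3 → ℝ) := by
  refine continuous_pi fun c => ?_
  simp only [Pi.sub_apply, Finset.sum_apply, Pi.smul_apply, smul_eq_mul]
  refine Continuous.sub (continuous_finsetSum _ fun a _ => ?_) ?_
  · refine Continuous.mul ?_ ?_
    · exact (continuous_apply a).comp (continuous_fst.comp continuous_snd)
    · unfold UU ht
      refine continuous_const.mul ?_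
      unfold hat
      fun_prop
  · exact (continuous_snd.comp continuous_snd).mul continuous_const

theorem thm_Cl2 : Stmt_Cl2 := by
  intro k Q s π h
  have h1 : ∀ n : ℕ, ∃ Q' : J k 3 → E2, (∀ a, dist (Q' a) (Q a) < 1 / ((n : ℝ) + 1)) ∧
      CV (ht Q') s π := fun n => h _ (by positivity)
  choose q hq hc using h1
  have h2 : ∀ n : ℕ, ∃ x : (J k 3 → ℝ) × ℝ,
      x ∈ {x : (J k 3 → ℝ) × ℝ | (∀ a, 0 ≤ x.1 a) ∧ 0 ≤ x.2 ∧ x.2 + ∑ a, x.1 a = 1} ∧
      ∑ a, x.1 a • UU (ht (q n)) π a - x.2 • (tn s : J k 3 → ℝ) = 0 := by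
    intro n
    obtain ⟨c, b, h3, h4, h5, h6⟩ := hc n
    exact ⟨(c, b), ⟨h3, h4, h5⟩, sub_eq_zero.2 h6⟩
  choose x hx hx0 using h2
  obtain ⟨y, hy, φ, hφ, hlim⟩ := Cl2_cpt.tendsto_subseq hx
  have hq' : Tendsto q atTop (𝓝 Q) := by
    rw [tendsto_pi_nhds]
    intro a
    rw [tendsto_iff_dist_tendsto_zero]
    exact squeeze_zero (fun n => dist_nonneg) (fun n => (hq n a).le)
      tendsto_one_div_add_atTop_nhds_zero_nat
  have h7 : Tendsto (fun n => (q (φ n), x (φ n))) atTop (𝓝 (Q, y)) :=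
    (hq'.comp hφ.tendsto_atTop).prodMk_nhds hlim
  have h8 := ((Cl2_cont π s).tendsto (Q, y)).comp h7
  have h9 : ((fun p : (J k 3 → E2) × ((J k 3 → ℝ) × ℝ) =>
      ∑ a, p.2.1 a • UU (ht p.1) π a - p.2.2 • (tn s : J k 3 → ℝ)) ∘
      fun n => (q (φ n), x (φ n))) = fun _ => 0 := by
    funext n
    exact hx0 (φ n)
  rw [h9] at h8
  have h10 := tendsto_nhds_unique h8 tendsto_const_nhds
  exact ⟨y.1, y.2, hy.1, hy.2.1, hy.2.2, sub_eq_zero.1 h10⟩

end Pool.Agent.SKP
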