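import Pool.Agent.Tvv.Stmts
import Pool.Agent.Tvo.Stmts

/-!
# Sierksma's bound in the plane up to a subexponential factor (MP_001fdd_co): definitions
-/

set_option autoImplicit false

namespace Pool.Agent.SKP

open scoped Classical
open Pool.Agent.Tvb (Pos Zero Base Good hat TP)
open Pool.Agent.Tvo (PP so ind)
open Pool.Agent.Tvv (J Lb ev UU dd)

/-- the plane -/
abbrev E2 : Type := EuclideanSpace ℝ (Fin 2)

/-! ### Sequences of signs -/

/-- the half plane `r` of the sequence of signs `ε` -/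
def hp {n : ℕ} (ε : Fin n → Bool) (r : ℕ) : Finset (Fin n) :=
  Finset.univ.filter fun a => (ε a = true ∧ r ≤ (a : ℕ)) ∨ (ε a = false ∧ (a : ℕ) < r)

/-- good triples: they meet every half plane and the complement of every half plane -/
def Gt {n : ℕ} (ε : Fin n → Bool) (t : Finset (Fin n)) : Prop :=
  t.card = 3 ∧ ∀ r : ℕ, (t ∩ hp ε r).Nonempty ∧ (t \ hp ε r).Nonempty

/-- the packings by `m` disjoint sets with the property `G` -/
noncomputable def Pk {n : ℕ} (G : Finset (Fin n) → Prop) (m : ℕ) :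
    Finset (Finset (Finset (Fin n))) :=
  Finset.univ.filter fun M => M.card = m ∧ (∀ t ∈ M, G t) ∧
    ∀ t ∈ M, ∀ t' ∈ M, t ≠ t' → Disjoint t t'

/-- three large clusters such that all rainbow triples have the property `G` -/
def Clu {n : ℕ} (G : Finset (Fin n) → Prop) (k o : ℕ) : Prop :=
  ∃ D : Fin 3 → Finset (Fin n), (∀ i j, i ≠ j → Disjoint (D i) (D j)) ∧
    (∀ i, k ≤ (D i).card + o) ∧ ∀ x : Fin 3 → Fin n, (∀ i, x i ∈ D i) → G {x 0, x 1, x 2}

/-! ### Three windows -/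

/-- the window of a position, for the borders `r1` and `r2` -/
def wn {n : ℕ} (r1 r2 : ℕ) (a : Fin n) : Fin 3 :=
  if (a : ℕ) < r1 then 0 else if (a : ℕ) < r2 then 1 else 2

/-- the colour of a position: the sign, changed in the window `1` -/
def kp {n : ℕ} (ε : Fin n → Bool) (r1 r2 : ℕ) (a : Fin n) : Bool :=
  if wn r1 r2 a = 1 then !(ε a) else ε a

/-- the opposite colours -/
def ng {n : ℕ} (κ : Fin n → Bool) (a : Fin n) : Bool := !(κ a)

/-- the half planes of a system of windows `w` and colours `κ` -/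
def KK {n : ℕ} (w : Fin n → Fin 3) (κ : Fin n → Bool) (i : Fin 3) (r : ℕ) : Finset (Fin n) :=
  Finset.univ.filter fun a =>
    (w a = i ∧ ((κ a = true ∧ r ≤ (a : ℕ)) ∨ (κ a = false ∧ (a : ℕ) < r))) ∨
    (w a = i + 1 ∧ κ a = false) ∨ (w a = i + 2 ∧ κ a = true)

/-- good triples of a system -/
def Gs {n : ℕ} (w : Fin n → Fin 3) (κ : Fin n → Bool) (t : Finset (Fin n)) : Prop :=
  t.card = 3 ∧ ∀ (i : Fin 3) (r : ℕ), (t ∩ KK w κ i r).Nonempty ∧ (t \ KK w κ i r).Nonempty

/-- the positions of the window `i` of colour `true` -/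
def sA {n : ℕ} (w : Fin n → Fin 3) (κ : Fin n → Bool) (i : Fin 3) : Finset (Fin n) :=
  Finset.univ.filter fun a => w a = i ∧ κ a = true

/-- the positions of the window `i` of colour `false` -/
def sB {n : ℕ} (w : Fin n → Fin 3) (κ : Fin n → Bool) (i : Fin 3) : Finset (Fin n) :=
  Finset.univ.filter fun a => w a = i ∧ κ a = false

/-- number of pairs `x < y` with `x` in `sA w κ i` and `y` in `sB w κ i` -/
def cN {n : ℕ} (w : Fin n → Fin 3) (κ : Fin n → Bool) (i : Fin 3) : ℕ :=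
  ((sA w κ i ×ˢ sB w κ i).filter fun q => q.1 < q.2).card

/-- proportion of the colour `true` -/
noncomputable def uu {n : ℕ} (κ : Fin n → Bool) : ℝ :=
  ((Finset.univ.filter fun a => κ a = true).card : ℝ) / n

/-- proportion of the colour `false` -/
noncomputable def vv {n : ℕ} (κ : Fin n → Bool) : ℝ :=
  ((Finset.univ.filter fun a => κ a = false).card : ℝ) / n

/-- proportion of the pairs `x < y` -/
noncomputable def ss {n : ℕ} (w : Fin n → Fin 3) (κ : Fin n → Bool) (i : Fin 3) : ℝ :=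
  (cN w κ i : ℝ) / (((sA w κ i).card : ℝ) * (sB w κ i).card)

/-- the target of `sA` -/
def fA (u v d : ℝ) : ℝ := u ^ 3 + u * v + u ^ 2 * v * (1 + d)

/-- the target of `sB` -/
def fB (u v d : ℝ) : ℝ := v ^ 3 + u * v + u * v ^ 2 * (1 - d)

/-- balanced systems -/
def Bal {n : ℕ} (k : ℕ) (w : Fin n → Fin 3) (κ : Fin n → Bool) (η : ℝ) : Prop :=
  ∀ i : Fin 3,
    |((sA w κ i).card : ℝ) - k * fA (uu κ) (vv κ) (ss w κ (i + 1) - ss w κ (i + 2))| ≤ η ∧
    |((sB w κ i).card : ℝ) - k * fB (uu κ) (vv κ) (ss w κ (i + 1) - ss w κ (i + 2))| ≤ η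

/-- regularized proportion of the pairs `x < y` -/
noncomputable def st {n : ℕ} (k : ℕ) (w : Fin n → Fin 3) (κ : Fin n → Bool) (i : Fin 3) : ℝ :=
  ((cN w κ i : ℝ) + k * √k / 2) / (((sA w κ i).card : ℝ) * (sB w κ i).card + k * √k)

/-- error of `sA` -/
noncomputable def eA {n : ℕ} (k : ℕ) (w : Fin n → Fin 3) (κ : Fin n → Bool) (i : Fin 3) : ℝ :=
  ((sA w κ i).card : ℝ) / k - fA (uu κ) (vv κ) (st k w κ (i + 1) - st k w κ (i + 2))

/-- error of `sB` -/
noncomputable def eB {n : ℕ} (k : ℕ) (w : Fin n → Fin 3) (κ : Fin n → Bool) (i : Fin 3) : ℝ :=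
  ((sB w κ i).card : ℝ) / k - fB (uu κ) (vv κ) (st k w κ (i + 1) - st k w κ (i + 2))

/-- two systems are close: they differ in few positions, and the order changes only for the pairs
of a matching -/
def Clw {n : ℕ} (m : ℕ) (w : Fin n → Fin 3) (κ : Fin n → Bool) (w' : Fin n → Fin 3)
    (κ' : Fin n → Bool) : Prop :=
  ∃ (f : Equiv.Perm (Fin n)) (Y : Finset (Fin n)) (μ : Fin n → Fin n), Y.card ≤ m ∧
    (∀ a, a ∉ Y → w' (f a) = w a ∧ κ' (f a) = κ a) ∧
    ∀ a b, a ∉ Y → b ∉ Y → a < b → f b < f a → μ a = b ∧ μ b = a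

/-- two sequences of signs are close -/
def Cls {n : ℕ} (m : ℕ) (ε ε' : Fin n → Bool) : Prop :=
  ∃ (f : Equiv.Perm (Fin n)) (Y : Finset (Fin n)) (μ : Fin n → Fin n), Y.card ≤ m ∧
    (∀ a, a ∉ Y → ε' (f a) = ε a) ∧
    ∀ a b, a ∉ Y → b ∉ Y → a < b → f b < f a → μ a = b ∧ μ b = a

/-! ### Injections -/

/-- pairs of injections of `Fin P` into `A` and `B` such that exactly the first `m` pairs are
increasing -/
noncomputable def QQ {n : ℕ} (A B : Finset (Fin n)) (P m : ℕ) :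
    Finset ((Fin P ↪ Fin n) × (Fin P ↪ Fin n)) :=
  Finset.univ.filter fun q => (∀ t, q.1 t ∈ A) ∧ (∀ t, q.2 t ∈ B) ∧
    ∀ t, (q.1 t < q.2 t ↔ (t : ℕ) < m)

/-- `t log t - t` -/
noncomputable def LL (t : ℝ) : ℝ := t * Real.log t - t

/-! ### Points of the plane -/

/-- the cross product -/
def cr (x y : E2) : ℝ := x 0 * y 1 - x 1 * y 0

/-- the scalar product -/
def ip (x y : E2) : ℝ := x 0 * y 0 + x 1 * y 1

/-- general position: different heights, no three points on a line -/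
def GP {ι : Type} (P : ι → E2) : Prop :=
  (∀ a b, a ≠ b → P a 1 ≠ P b 1) ∧
    ∀ a b c, a ≠ b → b ≠ c → a ≠ c → cr (P b - P a) (P c - P a) ≠ 0

/-- `c` is generic: no point has the height of `c`, no two points are on a line with `c` -/
def Gn {ι : Type} (P : ι → E2) (c : E2) : Prop :=
  (∀ a, P a 1 ≠ c 1) ∧ ∀ a b, a ≠ b → cr (P a - c) (P b - c) ≠ 0

/-- the key of a point, increasing with the angle modulo `π` of the direction from `c` -/
noncomputable def ky {n : ℕ} (P : Fin n → E2) (c : E2) (a : Fin n) : ℝ :=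
  -((P a 0 - c 0) / (P a 1 - c 1))

/-- the order of the points seen from `c` -/
noncomputable def od {n : ℕ} (P : Fin n → E2) (c : E2) : Equiv.Perm (Fin n) :=
  Tuple.sort (ky P c)

/-- the signs of the points seen from `c`: above or not above the height of `c` -/
noncomputable def sg {n : ℕ} (P : Fin n → E2) (c : E2) : Fin n → Bool :=
  fun i => decide (c 1 < P (od P c i) 1)

/-- `c` is strictly inside the triangle `x y z` -/
def Sin (c x y z : E2) : Prop := ∃ α β γ : ℝ, 0 < α ∧ 0 < β ∧ 0 < γ ∧ α + β + γ = 1 ∧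
  c = α • x + β • y + γ • z

/-- `c` has depth `k`: every closed half plane with `c` on the border has at least `k` points -/
def Dep {n : ℕ} (P : Fin n → E2) (k : ℕ) (c : E2) : Prop :=
  ∀ ν : E2, ν ≠ 0 → k ≤ (Finset.univ.filter fun a => 0 ≤ ip ν (P a - c)).card

/-- every open half plane with `c` on the border has at most `t` points of some cluster -/
def Nea {n : ℕ} (P : Fin n → E2) (D : Fin 3 → Finset (Fin n)) (t : ℕ) (c : E2) : Prop :=
  ∀ ν : E2, ν ≠ 0 → ∃ i, ((D i).filter fun a => ip ν (P a - c) < 0).card ≤ t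

/-! ### Labellings -/

/-- the sign of the determinant of a labelling without the label `none` -/
noncomputable def Fs {k : ℕ} (x : J k 3 → Fin 3 → ℝ) (ρ : J k 3 → Fin k) : ℝ :=
  ((SignType.sign (dd x fun a => some (ρ a)) : SignType) : ℝ)

/-- the weight of a labelling -/
noncomputable def WW {k : ℕ} (x : J k 3 → Fin 3 → ℝ) (π : J k 3 → Lb k) : ℝ :=
  ∑ ρ : J k 3 → Fin k, Fs x ρ * ∏ a, ev (π a) (ρ a)

/-- generic vectors -/
def GJ {k : ℕ} (x : J k 3 → Fin 3 → ℝ) : Prop :=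
  ∀ π : J k 3 → Lb k, (∀ l, (Finset.univ.filter fun a => π a = l).card ≤ 3) → dd x π ≠ 0

/-- `(z, ..., z)` -/
def tn {k : ℕ} (z : Fin 3 → ℝ) : J k 3 → ℝ := fun c => z c.2

/-- `tn z` is in the closed cone, or `0` is a nontrivial combination -/
def CV {k : ℕ} (x : J k 3 → Fin 3 → ℝ) (z : Fin 3 → ℝ) (π : J k 3 → Lb k) : Prop :=
  ∃ (c : J k 3 → ℝ) (b : ℝ), (∀ a, 0 ≤ c a) ∧ 0 ≤ b ∧ b + ∑ a, c a = 1 ∧
    ∑ a, c a • UU x π a = b • tn z

/-- number of the partitions of the vectors `x` into `k` labelled triples whose open cones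
contain `z` -/
noncomputable def Lbl {k : ℕ} (x : J k 3 → Fin 3 → ℝ) (z : Fin 3 → ℝ) : ℕ :=
  (Finset.univ.filter fun ρ : J k 3 → Fin k =>
    (∀ j, (Finset.univ.filter fun a => ρ a = j).card ≤ 3) ∧
      Pos (tn z) (UU x fun a => some (ρ a))).card

/-- the vectors `(Q a, 1)` -/
noncomputable def ht {k : ℕ} (Q : J k 3 → E2) : J k 3 → Fin 3 → ℝ := fun a => hat (Q a)

end Pool.Agent.SKP
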