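import Pool.Agent.SKP.StS

/-!
# Sierksma's bound in the plane (MP_001fdd_co): the entropy computation
-/

set_option autoImplicit false

namespace Pool.Agent.SKP

open scoped Classical

/-- the factorials of one index -/
private lemma Ent_one (P m y z : ℕ) (hm : m ≤ P) (hy : y ≤ m) (hz : z ≤ P - m) :
    Real.log ((P.choose m : ℕ) : ℝ) +
      Real.log ((y.factorial * (m - y).factorial * z.factorial *
        (P - m - z).factorial : ℕ) : ℝ) =
      Real.log (P.factorial : ℝ) - Real.log ((m.choose y : ℕ) : ℝ) -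
        Real.log (((P - m).choose z : ℕ) : ℝ) := by
  have h1 := Nat.choose_mul_factorial_mul_factorial hm
  have h2 := Nat.choose_mul_factorial_mul_factorial hy
  have h3 := Nat.choose_mul_factorial_mul_factorial hz
  have h4 : P.choose m * (y.factorial * (m - y).factorial * z.factorial *
      (P - m - z).factorial) * (m.choose y * (P - m).choose z) = P.factorial := by
    calc P.choose m * (y.factorial * (m - y).factorial * z.factorial *
          (P - m - z).factorial) * (m.choose y * (P - m).choose z)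
        = P.choose m * (m.choose y * y.factorial * (m - y).factorial) *
          ((P - m).choose z * z.factorial * (P - m - z).factorial) := by ring
      _ = P.factorial := by rw [h2, h3, h1]
  have c1 : ((P.choose m : ℕ) : ℝ) ≠ 0 := by
    exact_mod_cast (Nat.choose_pos hm).ne'
  have c2 : ((m.choose y : ℕ) : ℝ) ≠ 0 := by
    exact_mod_cast (Nat.choose_pos hy).ne'
  have c3 : (((P - m).choose z : ℕ) : ℝ) ≠ 0 := by
    exact_mod_cast (Nat.choose_pos hz).ne'
  have c4 : ((y.factorial * (m - y).factorial * z.factorial *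
      (P - m - z).factorial : ℕ) : ℝ) ≠ 0 := by
    have : 0 < y.factorial * (m - y).factorial * z.factorial * (P - m - z).factorial := by
      positivity
    exact_mod_cast this.ne'
  have h5 : ((P.choose m : ℕ) : ℝ) * ((y.factorial * (m - y).factorial * z.factorial *
      (P - m - z).factorial : ℕ) : ℝ) * (((m.choose y : ℕ) : ℝ) * (((P - m).choose z : ℕ) : ℝ)) =
      (P.factorial : ℝ) := by
    exact_mod_cast h4
  rw [← h5, Real.log_mul (mul_ne_zero c1 c4) (mul_ne_zero c2 c3), Real.log_mul c1 c4,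
    Real.log_mul c2 c3]
  ring

/-- the falling factorial -/
private lemma Ent_desc (a s N : ℕ) (hs : s ≤ a) (ha : a ≤ N) (hN : 1 ≤ N) :
    Real.log (a.factorial : ℝ) - ((a : ℝ) - s) * Real.log N ≤
      Real.log ((a.descFactorial s : ℕ) : ℝ) := by
  have h1 := Nat.factorial_mul_descFactorial hs
  have c1 : (((a - s).factorial : ℕ) : ℝ) ≠ 0 := by
    exact_mod_cast (Nat.factorial_pos _).ne'
  have c2 : ((a.descFactorial s : ℕ) : ℝ) ≠ 0 := by
    have : a.descFactorial s ≠ 0 := by
      intro h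
      exact absurd (Nat.descFactorial_eq_zero_iff_lt.1 h) (not_lt.2 hs)
    exact_mod_cast this
  have h2 : (((a - s).factorial : ℕ) : ℝ) * ((a.descFactorial s : ℕ) : ℝ) =
      (a.factorial : ℝ) := by
    exact_mod_cast h1
  have h3 : ((a - s).factorial : ℝ) ≤ (N : ℝ) ^ (a - s) := by
    have h4 : (a - s).factorial ≤ (a - s) ^ (a - s) := Nat.factorial_le_pow _
    have h5 : (a - s) ^ (a - s) ≤ N ^ (a - s) := Nat.pow_le_pow_left (by omega) _
    exact_mod_cast h4.trans h5
  have hN' : (0 : ℝ) < N := by exact_mod_cast hN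
  have h6 : Real.log ((a - s).factorial : ℝ) ≤ ((a - s : ℕ) : ℝ) * Real.log N := by
    have := Real.log_le_log (by exact_mod_cast Nat.factorial_pos _) h3
    rwa [Real.log_pow] at this
  rw [Nat.cast_sub hs] at h6
  rw [← h2, Real.log_mul c1 c2]
  linarith

/-- the algebraic identity -/
private lemma Ent_id (k u v : ℝ) (hk : 0 < k) (hu : 0 < u) (hv : 0 < v) (huv : u + v = 1) :
    3 * LL (k * u) + 3 * LL (k * v) - LL (k * u ^ 3) - LL (k * v ^ 3) - 3 * LL (k * (u * v)) +
      3 * (k * (u * v)) * (-u * Real.log u - v * Real.log v) = 2 * LL k := by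
  have hv' : v = 1 - u := by linarith
  unfold LL
  rw [Real.log_mul hk.ne' hu.ne', Real.log_mul hk.ne' hv.ne',
    Real.log_mul hk.ne' (pow_pos hu 3).ne', Real.log_mul hk.ne' (pow_pos hv 3).ne',
    Real.log_mul hk.ne' (mul_pos hu hv).ne', Real.log_mul hu.ne' hv.ne', Real.log_pow,
    Real.log_pow]
  generalize Real.log v = y
  generalize Real.log u = x
  generalize Real.log k = w
  subst hv'
  push_cast
  ring

/-- the entropy is at most one -/
private lemma Ent_h (u v : ℝ) (hu : 0 < u) (hv : 0 < v) (huv : u + v = 1) :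
    -u * Real.log u - v * Real.log v ≤ 1 := by
  have h1 := Real.one_sub_inv_le_log_of_pos hu
  have h2 := Real.one_sub_inv_le_log_of_pos hv
  have h3 : u * (1 - u⁻¹) ≤ u * Real.log u := mul_le_mul_of_nonneg_left h1 hu.le
  have h4 : v * (1 - v⁻¹) ≤ v * Real.log v := mul_le_mul_of_nonneg_left h2 hv.le
  have h5 : u * (1 - u⁻¹) = u - 1 := by
    rw [mul_sub, mul_inv_cancel₀ hu.ne', mul_one]
  have h6 : v * (1 - v⁻¹) = v - 1 := by
    rw [mul_sub, mul_inv_cancel₀ hv.ne', mul_one]
  rw [h5] at h3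
  rw [h6] at h4
  linarith

private lemma Ent_h0 (u v : ℝ) (hu : 0 < u) (hv : 0 < v) (huv : u + v = 1) :
    0 ≤ -u * Real.log u - v * Real.log v := by
  have h1 : Real.log u ≤ 0 := Real.log_nonpos hu.le (by linarith)
  have h2 : Real.log v ≤ 0 := Real.log_nonpos hv.le (by linarith)
  nlinarith [mul_nonneg hu.le (neg_nonneg.2 h1), mul_nonneg hv.le (neg_nonneg.2 h2)]

/-- the error terms -/
private lemma Ent_err (C₀ : ℝ) (hC₀ : 0 < C₀) (k s : ℕ) (hk : 3 ≤ k) (hs : (s : ℝ) ≤ C₀ * √k) :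
    3 * ((s : ℝ) + 1) + 40 * Real.log ((k : ℝ) + 1) + 57 +
      15 * ((s : ℝ) + 1) * Real.log (((3 * k : ℕ) : ℝ)) ≤ (33 * C₀ + 200) * √k * Real.log k := by
  have hk3 : (3 : ℝ) ≤ k := by exact_mod_cast hk
  have hlk : 1 ≤ Real.log k := by
    rw [Real.le_log_iff_exp_le (by linarith)]
    have := Real.exp_one_lt_d9
    linarith
  have hsk : 1 ≤ √(k : ℝ) := by
    rw [Real.one_le_sqrt]
    linarith
  have h1 : Real.log ((k : ℝ) + 1) ≤ 2 * Real.log k := by
    have : Real.log ((k : ℝ) + 1) ≤ Real.log ((k : ℝ) ^ 2) := by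
      apply Real.log_le_log (by linarith)
      nlinarith
    rw [Real.log_pow] at this
    push_cast at this
    exact this
  have h2 : Real.log (((3 * k : ℕ) : ℝ)) ≤ 2 * Real.log k := by
    have : Real.log (((3 * k : ℕ) : ℝ)) ≤ Real.log ((k : ℝ) ^ 2) := by
      apply Real.log_le_log
      · push_cast
        linarith
      · push_cast
        nlinarith
    rw [Real.log_pow] at this
    push_cast at this
    push_cast
    exact this
  have h3 : (s : ℝ) + 1 ≤ (C₀ + 1) * √k := by nlinarith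
  have hs0 : (0 : ℝ) ≤ (s : ℝ) + 1 := by positivity
  have hp : 1 ≤ √(k : ℝ) * Real.log k := by nlinarith
  have hq : √(k : ℝ) ≤ √(k : ℝ) * Real.log k := by nlinarith
  have hr : Real.log k ≤ √(k : ℝ) * Real.log k := by nlinarith
  have h4 : ((s : ℝ) + 1) * Real.log (((3 * k : ℕ) : ℝ)) ≤
      ((C₀ + 1) * √k) * (2 * Real.log k) := by
    apply mul_le_mul h3 h2
    · apply Real.log_nonneg
      push_cast
      linarith
    · nlinarith
  have h5 : (C₀ + 1) * √(k : ℝ) ≤ (C₀ + 1) * (√(k : ℝ) * Real.log k) :=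
    mul_le_mul_of_nonneg_left hq (by linarith)
  have e1 : ((C₀ + 1) * √k) * (2 * Real.log k) = 2 * (C₀ * (√(k : ℝ) * Real.log k)) +
      2 * (√(k : ℝ) * Real.log k) := by ring
  have e2 : (C₀ + 1) * (√(k : ℝ) * Real.log k) = C₀ * (√(k : ℝ) * Real.log k) +
      (√(k : ℝ) * Real.log k) := by ring
  have e3 : (33 * C₀ + 200) * √k * Real.log k = 33 * (C₀ * (√(k : ℝ) * Real.log k)) +
      200 * (√(k : ℝ) * Real.log k) := by ring
  have e4 : 15 * ((s : ℝ) + 1) * Real.log (((3 * k : ℕ) : ℝ)) =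
      15 * (((s : ℝ) + 1) * Real.log (((3 * k : ℕ) : ℝ))) := by ring
  rw [e1] at h4
  rw [e2] at h5
  rw [e3, e4]
  linarith

theorem thm_Ent : Stmt_Est → Stmt_Ent := by
  intro hEst C₀ hC₀
  obtain ⟨E1, E2, E3, E4, E5⟩ := hEst
  refine ⟨33 * C₀ + 200, by linarith, 3, ?_⟩
  intro k s α α' P a b m y z sa sb u v hk hu hv huv hsum_a hsum_b hs hα1 hα2 hα'1 hα'2 hP1 hP2 hP0
    hm hy hz hsa hsb hsaa hsbb
  have hk3 : (3 : ℝ) ≤ k := by exact_mod_cast hk
  have hk0 : (0 : ℝ) < k := by linarith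
  have hu1 : u < 1 := by linarith
  have hv1 : v < 1 := by linarith
  have hkN : 1 ≤ 3 * k := by omega
  obtain ⟨h, hh⟩ : ∃ h : ℝ, h = -u * Real.log u - v * Real.log v := ⟨_, rfl⟩
  have hh1 : h ≤ 1 := by rw [hh]; exact Ent_h u v hu hv huv
  have hh0 : 0 ≤ h := by rw [hh]; exact Ent_h0 u v hu hv huv
  obtain ⟨T, hT⟩ : ∃ T : ℝ, T = Real.log ((k : ℝ) + 1) := ⟨_, rfl⟩
  -- bounds of the floors
  have hym : ∀ i, y i ≤ m i := by
    intro i
    rw [hy i]
    apply Nat.floor_le_of_le
    exact mul_le_of_le_one_left (Nat.cast_nonneg _) hu1.le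
  have hzm : ∀ i, z i ≤ P - m i := by
    intro i
    rw [hz i]
    apply Nat.floor_le_of_le
    exact mul_le_of_le_one_left (Nat.cast_nonneg _) hu1.le
  have hkuv : (k : ℝ) * (u * v) ≤ k := by
    have : u * v ≤ 1 := by
      have h1 : u * v ≤ 1 * 1 := mul_le_mul hu1.le hv1.le hv.le zero_le_one
      rwa [one_mul] at h1
    exact mul_le_of_le_one_right hk0.le this
  have hku3 : (k : ℝ) * u ^ 3 ≤ k :=
    mul_le_of_le_one_right hk0.le (pow_le_one₀ hu.le hu1.le)
  have hkv3 : (k : ℝ) * v ^ 3 ≤ k :=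
    mul_le_of_le_one_right hk0.le (pow_le_one₀ hv.le hv1.le)
  have hku : (k : ℝ) * u ≤ k := mul_le_of_le_one_right hk0.le hu1.le
  have hkv : (k : ℝ) * v ≤ k := mul_le_of_le_one_right hk0.le hv1.le
  have hlog : ∀ n : ℕ, (n : ℝ) ≤ k → Real.log ((n : ℝ) + 1) ≤ T := by
    intro n hn
    rw [hT]
    apply Real.log_le_log
    · positivity
    · linarith
  have hmk : ∀ i, ((m i : ℕ) : ℝ) ≤ k := by
    intro i
    have : ((m i : ℕ) : ℝ) ≤ P := by exact_mod_cast hm i
    linarith
  have hPmk : ∀ i, ((P - m i : ℕ) : ℝ) ≤ k := by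
    intro i
    have : ((P - m i : ℕ) : ℝ) ≤ P := by exact_mod_cast Nat.sub_le _ _
    linarith
  -- upper bounds for factorials
  have A1 : Real.log (k.factorial : ℝ) ≤ LL k + T + 1 := by
    rw [hT]
    exact (E1 k).2
  have A2 : Real.log (α.factorial : ℝ) ≤ LL (k * u ^ 3) + T + 2 := by
    have h1 := (E1 α).2
    have h2 := E2 α (k * u ^ 3) (Nat.cast_nonneg _) hα1
    have h3 := hlog α (hα1.trans hku3)
    linarith
  have A3 : Real.log (α'.factorial : ℝ) ≤ LL (k * v ^ 3) + T + 2 := by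
    have h1 := (E1 α').2
    have h2 := E2 α' (k * v ^ 3) (Nat.cast_nonneg _) hα'1
    have h3 := hlog α' (hα'1.trans hkv3)
    linarith
  have A4 : Real.log (P.factorial : ℝ) ≤ LL (k * (u * v)) + T + 2 := by
    have h1 := (E1 P).2
    have h2 := E2 P (k * (u * v)) (Nat.cast_nonneg _) hP1
    have h3 := hlog P (hP1.trans hkuv)
    linarith
  have hPpos : (1 : ℝ) ≤ P := by exact_mod_cast hP0
  have A5 : Real.log (12 * (P : ℝ)) ≤ 3 + T := by
    rw [Real.log_mul (by norm_num) (by linarith)]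
    have h1 : Real.log 12 ≤ 3 := by
      rw [Real.log_le_iff_le_exp (by norm_num)]
      have h2 := Real.exp_one_gt_d9
      have h3 : Real.exp 3 = Real.exp 1 ^ 3 := by
        rw [← Real.exp_nat_mul]
        norm_num
      rw [h3]
      have h4 : (2.7 : ℝ) ≤ Real.exp 1 := by linarith
      have h5 : (2.7 : ℝ) ^ 3 ≤ Real.exp 1 ^ 3 := pow_le_pow_left₀ (by norm_num) h4 3
      norm_num at h5 ⊢
      linarith
    have h2 : Real.log (P : ℝ) ≤ T := by
      rw [hT]
      apply Real.log_le_log (by linarith)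
      linarith
    linarith
  -- the binomial coefficients
  have A6 : ∀ i, ((m i : ℕ) : ℝ) * h - 4 * T - 6 ≤ Real.log (((m i).choose (y i) : ℕ) : ℝ) := by
    intro i
    have h1 := E4 u v (m i) hu hv huv
    have h2 := hlog (m i) (hmk i)
    rw [← hh, ← hy i] at h1
    linarith
  have A7 : ∀ i, ((P : ℝ) - (m i : ℕ)) * h - 4 * T - 6 ≤
      Real.log (((P - m i).choose (z i) : ℕ) : ℝ) := by
    intro i
    have h1 := E4 u v (P - m i) hu hv huv
    have h2 := hlog (P - m i) (hPmk i)
    rw [← hh, ← hz i] at h1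
    rw [← Nat.cast_sub (hm i)]
    linarith
  have A8 : ∀ i, Real.log ((P.choose (m i) : ℕ) : ℝ) +
      Real.log (((y i).factorial * (m i - y i).factorial * (z i).factorial *
        (P - m i - z i).factorial : ℕ) : ℝ) ≤ LL (k * (u * v)) + T + 2 - (P : ℝ) * h + 8 * T + 12 := by
    intro i
    have h1 := Ent_one P (m i) (y i) (z i) (hm i) (hym i) (hzm i)
    have h2 := A6 i
    have h3 := A7 i
    rw [h1]
    linarith
  have A9 : 3 * LL (k * u) - 3 * T ≤ ∑ i, Real.log ((a i).factorial : ℝ) := by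
    have h1 := E5 a (k * u) (by positivity) hsum_a
    have h2 : Real.log ((k : ℝ) * u + 1) ≤ T := by
      rw [hT]
      apply Real.log_le_log
      · positivity
      · linarith only [hku]
    linarith
  have A10 : 3 * LL (k * v) - 3 * T ≤ ∑ i, Real.log ((b i).factorial : ℝ) := by
    have h1 := E5 b (k * v) (by positivity) hsum_b
    have h2 : Real.log ((k : ℝ) * v + 1) ≤ T := by
      rw [hT]
      apply Real.log_le_log
      · positivity
      · linarith only [hkv]
    linarith
  have hak : ∀ i, a i ≤ 3 * k := by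
    intro i
    have h1 : a i ≤ ∑ j, a j := Finset.single_le_sum (fun _ _ => Nat.zero_le _) (Finset.mem_univ i)
    have h2 : ((∑ j, a j : ℕ) : ℝ) ≤ ((3 * k : ℕ) : ℝ) := by
      rw [hsum_a]
      push_cast
      linarith only [hku]
    exact h1.trans (by exact_mod_cast h2)
  have hbk : ∀ i, b i ≤ 3 * k := by
    intro i
    have h1 : b i ≤ ∑ j, b j := Finset.single_le_sum (fun _ _ => Nat.zero_le _) (Finset.mem_univ i)
    have h2 : ((∑ j, b j : ℕ) : ℝ) ≤ ((3 * k : ℕ) : ℝ) := by
      rw [hsum_b]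
      push_cast
      linarith only [hkv]
    exact h1.trans (by exact_mod_cast h2)
  have A11 := fun i => Ent_desc (a i) (sa i) (3 * k) (hsaa i) (hak i) hkN
  have A12 := fun i => Ent_desc (b i) (sb i) (3 * k) (hsbb i) (hbk i) hkN
  obtain ⟨G, hG⟩ : ∃ G : ℝ, G = Real.log (((3 * k : ℕ) : ℝ)) := ⟨_, rfl⟩
  have hG0 : 0 ≤ G := by
    rw [hG]
    apply Real.log_nonneg
    exact_mod_cast hkN
  -- the number of the remaining elements
  have A13 : (∑ i, ((a i : ℝ) - sa i)) + (∑ i, ((b i : ℝ) - sb i)) ≤ 15 * ((s : ℝ) + 1) := by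
    have ra : (a 0 : ℝ) + a 1 + a 2 = 3 * (k * u) := by
      rw [← hsum_a, Fin.sum_univ_three]
      push_cast
      ring
    have rb : (b 0 : ℝ) + b 1 + b 2 = 3 * (k * v) := by
      rw [← hsum_b, Fin.sum_univ_three]
      push_cast
      ring
    have sa0 : (sa 0 : ℝ) = α + P + y 1 + z 2 := by
      have : sa 0 = α + P + y 1 + z 2 := hsa 0
      rw [this]
      push_cast
      ring
    have sa1 : (sa 1 : ℝ) = α + P + y 2 + z 0 := by
      have : sa 1 = α + P + y 2 + z 0 := hsa 1
      rw [this]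
      push_cast
      ring
    have sa2 : (sa 2 : ℝ) = α + P + y 0 + z 1 := by
      have : sa 2 = α + P + y 0 + z 1 := hsa 2
      rw [this]
      push_cast
      ring
    have sb0 : (sb 0 : ℝ) = α' + P + (m 2 - y 2) + (P - m 1 - z 1) := by
      have : sb 0 = α' + P + (m 2 - y 2) + (P - m 1 - z 1) := hsb 0
      rw [this, Nat.cast_add, Nat.cast_add, Nat.cast_add, Nat.cast_sub (hym 2),
        Nat.cast_sub (hzm 1), Nat.cast_sub (hm 1)]
    have sb1 : (sb 1 : ℝ) = α' + P + (m 0 - y 0) + (P - m 2 - z 2) := by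
      have : sb 1 = α' + P + (m 0 - y 0) + (P - m 2 - z 2) := hsb 1
      rw [this, Nat.cast_add, Nat.cast_add, Nat.cast_add, Nat.cast_sub (hym 0),
        Nat.cast_sub (hzm 2), Nat.cast_sub (hm 2)]
    have sb2 : (sb 2 : ℝ) = α' + P + (m 1 - y 1) + (P - m 0 - z 0) := by
      have : sb 2 = α' + P + (m 1 - y 1) + (P - m 0 - z 0) := hsb 2
      rw [this, Nat.cast_add, Nat.cast_add, Nat.cast_add, Nat.cast_sub (hym 1),
        Nat.cast_sub (hzm 0), Nat.cast_sub (hm 0)]
    have hcube : (k : ℝ) * u ^ 3 + k * v ^ 3 + 3 * (k * (u * v)) = k := by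
      have hv' : v = 1 - u := by linarith
      rw [hv']
      ring
    have hkk : (k : ℝ) * u + k * v = k := by
      rw [← mul_add, huv, mul_one]
    rw [Fin.sum_univ_three, Fin.sum_univ_three, sa0, sa1, sa2, sb0, sb1, sb2]
    linarith
  have A14 : ((∑ i, ((a i : ℝ) - sa i)) + (∑ i, ((b i : ℝ) - sb i))) * G ≤
      15 * ((s : ℝ) + 1) * G := mul_le_mul_of_nonneg_right A13 hG0
  have A15 := Ent_id k u v hk0 hu hv huv
  rw [← hh] at A15
  have A16 : (k : ℝ) * (u * v) * h - ((s : ℝ) + 1) ≤ P * h := by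
    have h1 : ((k : ℝ) * (u * v) - (s + 1)) * h ≤ P * h :=
      mul_le_mul_of_nonneg_right (by linarith only [hP2]) hh0
    have h2 : ((s : ℝ) + 1) * h ≤ (s : ℝ) + 1 := mul_le_of_le_one_right (by positivity) hh1
    rw [sub_mul] at h1
    linarith only [h1, h2]
  have A17 := Ent_err C₀ hC₀ k s hk hs
  rw [← hG, ← hT] at A17
  -- positivity
  have pk : (0 : ℝ) < (k.factorial : ℝ) := by exact_mod_cast Nat.factorial_pos k
  have pα : (0 : ℝ) < (α.factorial : ℝ) := by exact_mod_cast Nat.factorial_pos α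
  have pα' : (0 : ℝ) < (α'.factorial : ℝ) := by exact_mod_cast Nat.factorial_pos α'
  have p12 : (0 : ℝ) < 12 * (P : ℝ) := by linarith
  have pC : ∀ i, (0 : ℝ) < ((P.choose (m i) : ℕ) : ℝ) := by
    intro i
    exact_mod_cast Nat.choose_pos (hm i)
  have pF : ∀ i, (0 : ℝ) < (((y i).factorial * (m i - y i).factorial * (z i).factorial *
      (P - m i - z i).factorial : ℕ) : ℝ) := by
    intro i
    have : 0 < (y i).factorial * (m i - y i).factorial * (z i).factorial *
        (P - m i - z i).factorial := by positivity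
    exact_mod_cast this
  have pA : ∀ i, (0 : ℝ) < (((a i).descFactorial (sa i) : ℕ) : ℝ) := by
    intro i
    have : (a i).descFactorial (sa i) ≠ 0 := by
      intro h0
      exact absurd (Nat.descFactorial_eq_zero_iff_lt.1 h0) (not_lt.2 (hsaa i))
    exact_mod_cast Nat.pos_of_ne_zero this
  have pB : ∀ i, (0 : ℝ) < (((b i).descFactorial (sb i) : ℕ) : ℝ) := by
    intro i
    have : (b i).descFactorial (sb i) ≠ 0 := by
      intro h0
      exact absurd (Nat.descFactorial_eq_zero_iff_lt.1 h0) (not_lt.2 (hsbb i))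
    exact_mod_cast Nat.pos_of_ne_zero this
  have pPC : (0 : ℝ) < ∏ i, ((P.choose (m i) : ℕ) : ℝ) := Finset.prod_pos fun i _ => pC i
  have pPF : (0 : ℝ) < ∏ i, (((y i).factorial * (m i - y i).factorial * (z i).factorial *
      (P - m i - z i).factorial : ℕ) : ℝ) := Finset.prod_pos fun i _ => pF i
  have pPA : (0 : ℝ) < ∏ i, (((a i).descFactorial (sa i) : ℕ) : ℝ) := Finset.prod_pos fun i _ => pA i
  have pPB : (0 : ℝ) < ∏ i, (((b i).descFactorial (sb i) : ℕ) : ℝ) := Finset.prod_pos fun i _ => pB i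
  have lC : Real.log (∏ i, ((P.choose (m i) : ℕ) : ℝ)) =
      ∑ i, Real.log ((P.choose (m i) : ℕ) : ℝ) := Real.log_prod fun i _ => (pC i).ne'
  have lF : Real.log (∏ i, (((y i).factorial * (m i - y i).factorial * (z i).factorial *
      (P - m i - z i).factorial : ℕ) : ℝ)) =
      ∑ i, Real.log (((y i).factorial * (m i - y i).factorial * (z i).factorial *
      (P - m i - z i).factorial : ℕ) : ℝ) := Real.log_prod fun i _ => (pF i).ne'
  have lA : Real.log (∏ i, (((a i).descFactorial (sa i) : ℕ) : ℝ)) =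
      ∑ i, Real.log (((a i).descFactorial (sa i) : ℕ) : ℝ) := Real.log_prod fun i _ => (pA i).ne'
  have lB : Real.log (∏ i, (((b i).descFactorial (sb i) : ℕ) : ℝ)) =
      ∑ i, Real.log (((b i).descFactorial (sb i) : ℕ) : ℝ) := Real.log_prod fun i _ => (pB i).ne'
  have B1 : (∑ i, Real.log ((P.choose (m i) : ℕ) : ℝ)) +
      (∑ i, Real.log (((y i).factorial * (m i - y i).factorial * (z i).factorial *
      (P - m i - z i).factorial : ℕ) : ℝ)) ≤
      3 * (LL (k * (u * v)) + T + 2 - (P : ℝ) * h + 8 * T + 12) := by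
    rw [← Finset.sum_add_distrib]
    have h1 := Finset.sum_le_sum fun i (_ : i ∈ (Finset.univ : Finset (Fin 3))) => A8 i
    refine h1.trans (le_of_eq ?_)
    rw [Finset.sum_const, Finset.card_univ, Fintype.card_fin, nsmul_eq_mul]
    push_cast
    ring
  have B2 : (∑ i, Real.log ((a i).factorial : ℝ)) - (∑ i, ((a i : ℝ) - sa i)) * G ≤
      ∑ i, Real.log (((a i).descFactorial (sa i) : ℕ) : ℝ) := by
    rw [Finset.sum_mul, ← Finset.sum_sub_distrib, hG]
    exact Finset.sum_le_sum fun i _ => A11 i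
  have B3 : (∑ i, Real.log ((b i).factorial : ℝ)) - (∑ i, ((b i : ℝ) - sb i)) * G ≤
      ∑ i, Real.log (((b i).descFactorial (sb i) : ℕ) : ℝ) := by
    rw [Finset.sum_mul, ← Finset.sum_sub_distrib, hG]
    exact Finset.sum_le_sum fun i _ => A12 i
  rw [← lC, ← lF] at B1
  rw [← lA] at B2
  rw [← lB] at B3
  generalize (∏ i, ((P.choose (m i) : ℕ) : ℝ)) = XC at *
  generalize (∏ i, (((y i).factorial * (m i - y i).factorial * (z i).factorial *
      (P - m i - z i).factorial : ℕ) : ℝ)) = XF at *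
  generalize (∏ i, (((a i).descFactorial (sa i) : ℕ) : ℝ)) = XA at *
  generalize (∏ i, (((b i).descFactorial (sb i) : ℕ) : ℝ)) = XB at *
  have hY : 0 < XA * XB := mul_pos pPA pPB
  have hX : 0 < (k.factorial : ℝ) ^ 2 * ((12 * P : ℝ) ^ 3 * XC *
      (α.factorial * α'.factorial * XF)) := by positivity
  have lX : Real.log ((k.factorial : ℝ) ^ 2 * ((12 * P : ℝ) ^ 3 * XC *
      (α.factorial * α'.factorial * XF))) = 2 * Real.log (k.factorial : ℝ) +
      (3 * Real.log (12 * (P : ℝ)) + Real.log XC + (Real.log (α.factorial : ℝ) +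
        Real.log (α'.factorial : ℝ) + Real.log XF)) := by
    rw [Real.log_mul (by positivity) (by positivity), Real.log_mul (by positivity) (by positivity),
      Real.log_mul (by positivity) pPC.ne', Real.log_mul (by positivity) pPF.ne',
      Real.log_mul pα.ne' pα'.ne', Real.log_pow, Real.log_pow]
    push_cast
    ring
  have lY : Real.log (XA * XB) = Real.log XA + Real.log XB := Real.log_mul pPA.ne' pPB.ne'
  have key : Real.log ((k.factorial : ℝ) ^ 2 * ((12 * P : ℝ) ^ 3 * XC *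
      (α.factorial * α'.factorial * XF))) ≤
      (33 * C₀ + 200) * √k * Real.log k + Real.log (XA * XB) := by
    rw [lX, lY]
    linarith only [A1, A2, A3, A5, A9, A10, A14, A15, A16, A17, B1, B2, B3]
  calc (k.factorial : ℝ) ^ 2 * ((12 * P : ℝ) ^ 3 * XC * (α.factorial * α'.factorial * XF))
      = Real.exp (Real.log ((k.factorial : ℝ) ^ 2 * ((12 * P : ℝ) ^ 3 * XC *
      (α.factorial * α'.factorial * XF)))) := (Real.exp_log hX).symm
    _ ≤ Real.exp ((33 * C₀ + 200) * √k * Real.log k + Real.log (XA * XB)) :=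
        Real.exp_le_exp.2 key
    _ = Real.exp ((33 * C₀ + 200) * √k * Real.log k) * (XA * XB) := by
        rw [Real.exp_add, Real.exp_log hY]

end Pool.Agent.SKP
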