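import Pool.Agent.SKP.StN

/-!
# SKP, module Sep: the triangle and the half planes
-/

set_option autoImplicit false

namespace Pool.Agent.SKP

private lemma Sep_ip (ν x c : E2) : ip ν (x - c) = ν 0 * (x 0 - c 0) + ν 1 * (x 1 - c 1) := rfl

private lemma Sep_cr (x y c : E2) :
    cr (x - c) (y - c) = (x 0 - c 0) * (y 1 - c 1) - (x 1 - c 1) * (y 0 - c 0) := rfl

/-- a functional with given values on two vectors -/
private lemma Sep_fun (c x y z : E2) (s t : ℝ) (hr : cr (x - c) (y - c) ≠ 0) :
    ∃ ν : E2, ip ν (x - c) = s ∧ ip ν (y - c) = t ∧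
      ip ν (z - c) = -(s * cr (y - c) (z - c) + t * cr (z - c) (x - c)) /
        cr (x - c) (y - c) := by
  refine ⟨!₂[(s * (y 1 - c 1) - t * (x 1 - c 1)) / cr (x - c) (y - c),
    (-(s * (y 0 - c 0)) + t * (x 0 - c 0)) / cr (x - c) (y - c)], ?_, ?_, ?_⟩
  · rw [Sep_ip]
    simp only [Matrix.cons_val_zero, Matrix.cons_val_one]
    field_simp
    rw [Sep_cr]
    ring
  · rw [Sep_ip]
    simp only [Matrix.cons_val_zero, Matrix.cons_val_one]
    field_simp
    rw [Sep_cr]
    ring
  · rw [Sep_ip]
    simp only [Matrix.cons_val_zero, Matrix.cons_val_one]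
    field_simp
    rw [Sep_cr, Sep_cr]
    ring

private lemma Sep_pos {p q r : ℝ} (hr : r ≠ 0) (h : p * r < 0 ∨ q * r < 0) :
    ∃ s t : ℝ, 0 < s ∧ 0 < t ∧ 0 < -(s * p + t * q) / r := by
  have key : ∀ s t : ℝ, (s * p + t * q) * r < 0 → 0 < -(s * p + t * q) / r := by
    intro s t h1
    have h2 : 0 < r ^ 2 := by positivity
    have h3 : -(s * p + t * q) / r = -((s * p + t * q) * r) / r ^ 2 := by
      field_simp
    rw [h3]
    exact div_pos (by linarith) h2
  rcases h with h | h
  · refine ⟨(|q * r| + 1) / (-(p * r)), 1, ?_, one_pos, key _ _ ?_⟩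
    · exact div_pos (by positivity) (by linarith)
    · have h1 : ((|q * r| + 1) / (-(p * r)) * p + 1 * q) * r = -(|q * r| + 1) + q * r := by
        have h2 : p * r ≠ 0 := h.ne
        have h3 : p ≠ 0 := left_ne_zero_of_mul h2
        field_simp
      rw [h1]
      linarith [le_abs_self (q * r)]
  · refine ⟨1, (|p * r| + 1) / (-(q * r)), one_pos, ?_, key _ _ ?_⟩
    · exact div_pos (by positivity) (by linarith)
    · have h1 : (1 * p + (|p * r| + 1) / (-(q * r)) * q) * r = -(|p * r| + 1) + p * r := by
        have h2 : q * r ≠ 0 := h.ne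
        have h3 : q ≠ 0 := left_ne_zero_of_mul h2
        field_simp
        ring
      rw [h1]
      linarith [le_abs_self (p * r)]

theorem thm_Sep : Stmt_Sep := by
  intro c x y z hr hp hq
  constructor
  · rintro ⟨α, β, γ, hα, hβ, hγ, hs, hc⟩ ⟨ν, h1, h2, h3⟩
    have e0 : c 0 = α * x 0 + β * y 0 + γ * z 0 := by
      have h := congrArg (fun v : E2 => v 0) hc
      simpa [smul_eq_mul] using h
    have e1 : c 1 = α * x 1 + β * y 1 + γ * z 1 := by
      have h := congrArg (fun v : E2 => v 1) hc
      simpa [smul_eq_mul] using h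
    have h4 : α * ip ν (x - c) + β * ip ν (y - c) + γ * ip ν (z - c) = 0 := by
      rw [Sep_ip, Sep_ip, Sep_ip]
      have h5 : α * (ν 0 * (x 0 - c 0) + ν 1 * (x 1 - c 1)) +
          β * (ν 0 * (y 0 - c 0) + ν 1 * (y 1 - c 1)) +
          γ * (ν 0 * (z 0 - c 0) + ν 1 * (z 1 - c 1)) =
          ν 0 * ((α * x 0 + β * y 0 + γ * z 0) - (α + β + γ) * c 0) +
          ν 1 * ((α * x 1 + β * y 1 + γ * z 1) - (α + β + γ) * c 1) := by ring
      rw [h5, ← e0, ← e1, hs]
      ring
    have := mul_pos hα h1
    have := mul_pos hβ h2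
    have := mul_pos hγ h3
    linarith
  · intro h
    have hq' : cr (z - c) (x - c) ≠ 0 := by
      intro h1
      apply hq
      have h2 : cr (x - c) (z - c) = -cr (z - c) (x - c) := by
        rw [Sep_cr, Sep_cr]
        ring
      rw [h2, h1, neg_zero]
    by_cases h1 : cr (y - c) (z - c) * cr (x - c) (y - c) < 0 ∨
        cr (z - c) (x - c) * cr (x - c) (y - c) < 0
    · exfalso
      obtain ⟨s, t, hs, ht, hst⟩ := Sep_pos hr h1
      obtain ⟨ν, e1, e2, e3⟩ := Sep_fun c x y z s t hr
      refine h ⟨ν, ?_, ?_, ?_⟩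
      · rw [e1]
        exact hs
      · rw [e2]
        exact ht
      · rw [e3]
        exact hst
    · push Not at h1
      obtain ⟨h2, h3⟩ := h1
      -- all three determinants have the same sign
      have h2' : 0 < cr (y - c) (z - c) * cr (x - c) (y - c) :=
        lt_of_le_of_ne h2 (Ne.symm (mul_ne_zero hp hr))
      have h3' : 0 < cr (z - c) (x - c) * cr (x - c) (y - c) :=
        lt_of_le_of_ne h3 (Ne.symm (mul_ne_zero hq' hr))
      set p := cr (y - c) (z - c) with hpd
      set q := cr (z - c) (x - c) with hqd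
      set r := cr (x - c) (y - c) with hrd
      have hr2 : 0 < r * r := mul_self_pos.2 hr
      have hsum : 0 < p * r + q * r + r * r := by linarith
      have hsn : p * r + q * r + r * r ≠ 0 := hsum.ne'
      refine ⟨p * r / (p * r + q * r + r * r), q * r / (p * r + q * r + r * r),
        r * r / (p * r + q * r + r * r), div_pos h2' hsum, div_pos h3' hsum, div_pos hr2 hsum,
        ?_, ?_⟩
      · rw [← add_div, ← add_div, div_self hsn]
      · have e0 : p * (x 0 - c 0) + q * (y 0 - c 0) + r * (z 0 - c 0) = 0 := by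
          rw [hpd, hqd, hrd, Sep_cr, Sep_cr, Sep_cr]
          ring
        have e1 : p * (x 1 - c 1) + q * (y 1 - c 1) + r * (z 1 - c 1) = 0 := by
          rw [hpd, hqd, hrd, Sep_cr, Sep_cr, Sep_cr]
          ring
        have key : ∀ i : Fin 2, p * (x i - c i) + q * (y i - c i) + r * (z i - c i) = 0 →
            c i = p * r / (p * r + q * r + r * r) * x i + q * r / (p * r + q * r + r * r) * y i +
              r * r / (p * r + q * r + r * r) * z i := by
          intro i hi
          have h4 : (p * r + q * r + r * r) * c i = p * r * x i + q * r * y i + r * r * z i := by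
            have h5 : p * r * x i + q * r * y i + r * r * z i - (p * r + q * r + r * r) * c i =
                r * (p * (x i - c i) + q * (y i - c i) + r * (z i - c i)) := by ring
            rw [hi, mul_zero] at h5
            linarith
          have h6 : p * r / (p * r + q * r + r * r) * x i +
              q * r / (p * r + q * r + r * r) * y i + r * r / (p * r + q * r + r * r) * z i =
              (p * r * x i + q * r * y i + r * r * z i) / (p * r + q * r + r * r) := by ring
          rw [h6, ← h4, mul_div_cancel_left₀ _ hsn]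
        ext i
        fin_cases i
        · simpa [smul_eq_mul] using key 0 e0
        · simpa [smul_eq_mul] using key 1 e1

end Pool.Agent.SKP
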